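import Pool.Agent.H.MP_a163f2_lc.R.Names

/-!
# Block R1: the generic set at a node codes the value of the node (1.8)
-/

set_option autoImplicit false
set_option linter.unusedSectionVars false

namespace Pool.Agent.H.MP_a163f2_lc

open Pool.Agent.H.MP_07d118_lc

universe u v w x

variable {M : Type u} [SetStr M] [ZFC M] [Std M] {W : Type v} [LinearOrder W] [Cd M W] [Om1 M W]
variable {c : W × Hc → ℕ → ℕ} [hL : Fact (Luz M W c)]

/-- Two different reals of the family differ on long initial segments. -/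
theorem exists_sep (hinj : Function.Injective c) (F : Finset (W × W × Hc)) (ν : W) (κ : W × Hc)
    (N : ℕ) : ∃ k, N ≤ k ∧ ∀ κ', (ν, κ') ∈ F → κ' ≠ κ → ¬ Pre (c κ') (ini (c κ) k) := by
  induction F using Finset.induction_on with
  | empty => exact ⟨N, le_rfl, fun κ' h => by simp at h⟩
  | insert a F _ ih =>
    obtain ⟨k, hk, h1⟩ := ih
    obtain ⟨ν', κ₁⟩ := a
    by_cases h2 : κ₁ = κ
    · refine ⟨k, hk, fun κ' h3 h4 => ?_⟩
      rcases Finset.mem_insert.1 h3 with h5 | h5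
      · simp only [Prod.mk.injEq] at h5
        exact absurd (h5.2.trans h2) h4
      · exact h1 κ' h5 h4
    · have h3 : ∃ i, c κ₁ i ≠ c κ i := by
        by_contra h4
        push Not at h4
        exact h2 (hinj (funext h4))
      obtain ⟨i, hi⟩ := h3
      refine ⟨max k (i + 1), hk.trans (le_max_left _ _), fun κ' h4 h5 h6 => ?_⟩
      rcases Finset.mem_insert.1 h4 with h7 | h7
      · simp only [Prod.mk.injEq] at h7
        obtain ⟨-, rfl⟩ := h7
        have h8 := pre_getD.1 h6 i (by rw [ini_length]; omega)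
        have h9 := pre_getD.1 (pre_ini (c κ) (max k (i + 1))) i (by rw [ini_length]; omega)
        exact hi (h8.symm.trans h9)
      · refine h1 κ' h7 h5 (h6.of_prefix ?_)
        refine (pre_ini (c κ) k).prefix_of_le (pre_ini (c κ) _) ?_
        rw [ini_length, ini_length]
        exact le_max_left _ _

theorem addPromise {f : Pl M W} {p q : Cond W} (hp : p ∈ PP c f) {ν : W} {κ : W × Hc} {t : Fs}
    (h1 : (ν, q, t) ∈ f) (h2 : CLe c p q) {u : Fs} (hu : u ∈ κ.2.1) (hut : u <+: t) :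
    (p.1, insert (ν, κ) p.2) ∈ PP c f ∧ CLe c (p.1, insert (ν, κ) p.2) p := by
  have hle : CLe c (p.1, insert (ν, κ) p.2) p :=
    ⟨fun x hx => hx, fun x hx => Finset.mem_insert_of_mem hx, fun ν m hm hm' => absurd hm hm'⟩
  refine ⟨⟨hp.1, fun ν' κ' h => ?_⟩, hle⟩
  rcases Finset.mem_insert.1 h with h3 | h3
  · simp only [Prod.mk.injEq] at h3
    obtain ⟨rfl, rfl⟩ := h3
    exact ⟨q, t, h1, hle.trans h2, u, hu, hut⟩
  · obtain ⟨q', t', h4, h5, h6⟩ := hp.2 ν' κ' h3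
    exact ⟨q', t', h4, hle.trans h5, h6⟩

theorem addStem {f : Pl M W} {p : Cond W} (hp : p ∈ PP c f) {ν : W} (hν : ν ∈ f.dom) {m : Fs}
    (h : ∀ κ, (ν, κ) ∈ p.2 → ¬ Pre (c κ) m) :
    (insert (ν, m) p.1, p.2) ∈ PP c f ∧ CLe c (insert (ν, m) p.1, p.2) p := by
  have hle : CLe c (insert (ν, m) p.1, p.2) p := by
    refine ⟨fun x hx => Finset.mem_insert_of_mem hx, fun x hx => hx, fun ν' m' hm hm' κ hκ => ?_⟩
    rcases Finset.mem_insert.1 hm with h3 | h3
    · simp only [Prod.mk.injEq] at h3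
      obtain ⟨rfl, rfl⟩ := h3
      exact h κ hκ
    · exact absurd h3 hm'
  refine ⟨⟨fun ν' m' h3 => ?_, fun ν' κ' h3 => ?_⟩, hle⟩
  · rcases Finset.mem_insert.1 h3 with h4 | h4
    · simp only [Prod.mk.injEq] at h4
      rw [h4.1]
      exact hν
    · exact hp.1 ν' m' h4
  · obtain ⟨q', t', h4, h5, h6⟩ := hp.2 ν' κ' h3
    exact ⟨q', t', h4, hle.trans h5, h6⟩

/-- Lemma 1.8. -/
theorem cod_yy [Countable M] {f : Pl M W} (hf : Valid c f) {G : Set (Cond W)} (hG : Gen c f G)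
    {ν : W} (hν : ν ∈ f.dom) : CodS c (yy G ν) (ev (f.nm ν) G) := by
  have hn := hf.nm ν hν
  intro κ
  constructor
  · intro hfin
    by_contra hclo
    have hin : In M (fun r : Cond W => (ν, κ) ∈ r.2 ∨ ∀ r' : Cond W, r' ∈ PP c f →
        CLe c r' r → (ν, κ) ∉ r'.2) := by
      refine In.or (In.fmem (IF.const _) IF.snd) ?_
      refine In.all (P := fun (r r' : Cond W) => r' ∈ PP c f → CLe c r' r → (ν, κ) ∉ r'.2) ?_
      exact In.imp (In.pp (IF.const f) IF.snd) (In.imp (In.cle IF.snd IF.fst)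
        (In.not (In.fmem (IF.const _) (IF.comp IF.snd IF.snd))))
    obtain ⟨p₀, hp₀, h1⟩ := hG.meets (ISet.mk hin) (by
      intro p hp
      by_cases h : ∃ r' : Cond W, r' ∈ PP c f ∧ CLe c r' p ∧ (ν, κ) ∈ r'.2
      · obtain ⟨r', hr', h2, h3⟩ := h
        exact ⟨r', hr', h2, Or.inl h3⟩
      · push Not at h
        exact ⟨p, hp, CLe.refl _, Or.inr h⟩)
    rcases h1 with h1 | h1
    · obtain ⟨q, t, h2, h3, u, hu, hut⟩ := (hG.sub p₀ hp₀).2 ν κ h1
      have hq : q ∈ G := hG.up p₀ hp₀ q (hf.PP h2) h3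
      exact hclo ⟨u, hu, (ev_pre hG hn (Pl.mem_nm.2 h2) hq).of_prefix hut⟩
    · obtain ⟨N, hN⟩ := (hfin.image List.length).bddAbove
      have hD : In M (fun p : Cond W => ∃ m : Fs, N + 1 ≤ m.length ∧ Pre (c κ) m ∧
          (ν, m) ∈ p.1) := by
        refine In.ex (P := fun (p : Cond W) (m : Fs) => N + 1 ≤ m.length ∧ Pre (c κ) m ∧
          (ν, m) ∈ p.1) ?_
        exact In.and (In.le (IF.const _) (IF.length IF.snd)) (In.and
          (In.prec (IF.const κ) IF.snd) (In.fmem ((IF.const ν).pair IF.snd)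
            (IF.comp IF.fst IF.fst)))
      obtain ⟨p, hp, -, m, h2, h3, h4⟩ := hG.meets_below hp₀ (ISet.mk hD) (by
        intro q hq hle
        obtain ⟨k, hk, hk2⟩ := exists_sep (hL.out : Luz M W c).inj q.2 ν κ (N + 1)
        obtain ⟨h5, h6⟩ := addStem (c := c) hq hν (m := ini (c κ) k) (fun κ' hκ' =>
          hk2 κ' hκ' (by
            rintro rfl
            exact h1 q hq hle hκ'))
        refine ⟨_, h5, h6, ini (c κ) k, ?_, pre_ini _ _, Finset.mem_insert_self _ _⟩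
        rw [ini_length]
        exact hk)
      have h5 : m.length ≤ N := hN ⟨m, ⟨⟨p, hp, h4⟩, h3⟩, rfl⟩
      omega
  · rintro ⟨u, hu, hu2⟩
    obtain ⟨q, t, h1, h2, h3, h4⟩ := ev_witness hG hn u.length
    have hut : u <+: t := hu2.prefix_of_le h4 h3
    have hD : In M (fun p : Cond W => (ν, κ) ∈ p.2) := In.fmem (IF.const _) IF.snd
    obtain ⟨p, hp, -, h5⟩ := hG.meets_below h2 (ISet.mk hD) (by
      intro r hr hle
      obtain ⟨h6, h7⟩ := addPromise (c := c) hr (Pl.mem_nm.1 h1) hle hu hut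
      exact ⟨_, h6, h7, Finset.mem_insert_self _ _⟩)
    refine Set.Finite.subset (s := (fun x : W × Fs => x.2) '' (p.1 : Set (W × Fs)))
      (p.1.finite_toSet.image _) ?_
    rintro m ⟨⟨p', hp', h6⟩, h7⟩
    obtain ⟨r, hr, h8, h9⟩ := hG.dir p hp p' hp'
    have h10 : (ν, m) ∈ p.1 := by
      by_contra h11
      exact h8.2.2 ν m (h9.1 h6) h11 κ h5 h7
    exact ⟨(ν, m), h10, rfl⟩

open Classical in
/-- The generic set at a node is coded by a real of the extension. -/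
theorem exists_yy [Countable M] {f : Pl M W} (hf : Valid c f) {ν : W} (_hν : ν ∈ f.dom) :
    ∃ n : Nm M W, IsNm c f n ∧ ∀ G, Gen c f G → fset (ev n G) = yy G ν := by
  have hQ : Good c (fun _ : ℕ × ℕ => f) (fun y G => ∃ m : Fs, ∃ p : Cond W, p ∈ G ∧
      (Encodable.encode m = y.2 ∧ (ν, m) ∈ p.1)) := by
    refine Good.ex (Q := fun (y : ℕ × ℕ) (m : Fs) G => ∃ p : Cond W, p ∈ G ∧
      (Encodable.encode m = y.2 ∧ (ν, m) ∈ p.1)) ?_
    refine Good.ex (Q := fun (y : (ℕ × ℕ) × Fs) (p : Cond W) G => p ∈ G ∧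
      (Encodable.encode y.2 = y.1.2 ∧ (ν, y.2) ∈ p.1)) ?_
    refine Good.and (Good.mem (IF.const f) IF.snd) (Good.of_in (In.and ?_ ?_))
    · exact In.eq (IF.comp CdP.enc (IF.comp IF.snd IF.fst))
        (IF.comp IF.snd (IF.comp IF.fst IF.fst))
    · exact In.fmem ((IF.const ν).pair (IF.comp IF.snd IF.fst)) (IF.comp IF.fst IF.snd)
  have hX : GoodR c (fun _ : ℕ => f) (fun _ G i => if ∃ m : Fs, ∃ p : Cond W, p ∈ G ∧
      (Encodable.encode m = i ∧ (ν, m) ∈ p.1) then 1 else 0) :=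
    GoodF.ite (IF.const f) hQ (GoodF.of_if (IF.const 1)) (GoodF.of_if (IF.const 0))
  obtain ⟨n, hn, hn2⟩ := exists_name (IF.const f) hX (t := 0) hf
  refine ⟨n, hn, fun G hG => ?_⟩
  rw [hn2 G hG]
  ext m
  constructor
  · intro h
    have h' : (if ∃ m' : Fs, ∃ p : Cond W, p ∈ G ∧
      (Encodable.encode m' = Encodable.encode m ∧ (ν, m') ∈ p.1) then 1 else 0) = 1 := h
    by_cases h1 : ∃ m' : Fs, ∃ p : Cond W, p ∈ G ∧
        (Encodable.encode m' = Encodable.encode m ∧ (ν, m') ∈ p.1)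
    · obtain ⟨m', p, hp, h2, h3⟩ := h1
      rw [Encodable.encode_inj] at h2
      rw [h2] at h3
      exact ⟨p, hp, h3⟩
    · rw [if_neg h1] at h'
      omega
  · rintro ⟨p, hp, h⟩
    show (if ∃ m' : Fs, ∃ p : Cond W, p ∈ G ∧
      (Encodable.encode m' = Encodable.encode m ∧ (ν, m') ∈ p.1) then 1 else 0) = 1
    rw [if_pos ⟨m, p, hp, rfl, h⟩]

end Pool.Agent.H.MP_a163f2_lc
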