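import Pool.Agent.H.MP_a163f2_lc.R.NucA

/-!
# Block R1: no unintended codings
-/

set_option autoImplicit false
set_option linter.unusedSectionVars false
set_option synthInstance.maxSize 1000

namespace Pool.Agent.H.MP_a163f2_lc

open Pool.Agent.H.MP_07d118_lc

universe u v w x

variable {M : Type u} [SetStr M] [ZFC M] [Std M] {W : Type v} [LinearOrder W] [Cd M W] [Om1 M W]
variable {c : W × Hc → ℕ → ℕ} [hL : Fact (Luz M W c)]

/-- the data with indices below `ζ` -/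
def NBd (ζ : W) (d : NData W) : Prop := Bd ζ d.1 ∧ ∀ x ∈ d.2.2, x.1 < ζ

theorem In.nbd {T : Type w} [Cd M T] {ζ : T → W} (hζ : IF M ζ) {d : T → NData W} (hd : IF M d) :
    In M (fun t => NBd (ζ t) (d t)) := by
  refine In.and (In.bd hζ (IF.comp IF.fst hd)) ?_
  refine In.all (P := fun (t : T) (x : W × ℕ) => x ∈ (d t).2.2 → x.1 < ζ t) ?_
  exact In.imp (In.fmem IF.snd (IF.comp (IF.comp IF.snd (IF.comp IF.snd hd)) IF.fst))
    (In.ltW (IF.comp IF.fst IF.snd) (IF.comp hζ IF.fst))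

theorem ICt.nbd (ζ : W) : ICt M {d : NData W | NBd ζ d} := by
  have h1 : ICt M {s : Finset (W × ℕ) | ↑s ⊆ ({β : W | β < ζ} ×ˢ (Set.univ : Set ℕ))} :=
    ICt.finset (ICt.prod (ICt.below ζ) ICt.nat)
  refine ICt.mono (ICt.prod (ICt.conds ζ) (ICt.prod ICt.nat h1)) ?_
  rintro ⟨r, n, E⟩ ⟨h2, h3⟩
  exact ⟨h2, Set.mem_univ _, fun x hx => ⟨h3 x hx, Set.mem_univ _⟩⟩

/-- Internal enumerations of all data. -/
theorem exists_enum : ∃ e : W × ℕ → NData W, IF M e ∧ ∀ (ζ : W) (d : NData W),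
    (∀ ζ' : W, ζ < ζ' → NBd ζ' d) → ∃ n, e (ζ, n) = d := by
  obtain ⟨sc, hsc, hsc2⟩ := In.choice (M := M) (R := fun α β : W => α < β)
    (In.ltW IF.fst IF.snd) (fun α => by
      obtain ⟨β, hβ⟩ := Om1.bdd (M := M) (fun _ => α) (IF.const α)
      exact ⟨β, hβ 0⟩)
  have hin : In M (fun y : W × IFn M ℕ (NData W) => ∀ d : NData W, NBd (sc y.1) d →
      ∃ n : ℕ, y.2.1 n = d) := by
    refine In.all (P := fun (y : W × IFn M ℕ (NData W)) (d : NData W) => NBd (sc y.1) d →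
      ∃ n : ℕ, y.2.1 n = d) ?_
    refine In.imp (In.nbd (IF.comp hsc (IF.comp IF.fst IF.fst)) IF.snd) ?_
    refine In.ex (P := fun (y : (W × IFn M ℕ (NData W)) × NData W) (n : ℕ) =>
      y.1.2.1 n = y.2) ?_
    exact In.eq (IF.app (IF.comp IF.snd (IF.comp IF.fst IF.fst)) IF.snd) (IF.comp IF.snd IF.fst)
  obtain ⟨e, he, he2⟩ := In.choice (M := M) (R := fun (ζ : W) (e : IFn M ℕ (NData W)) =>
    ∀ d : NData W, NBd (sc ζ) d → ∃ n : ℕ, e.1 n = d) hin (fun ζ => by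
      obtain ⟨e, h1, -, h3⟩ := ICt.enum (M := M) (ICt.nbd (sc ζ))
        (In.nbd (IF.const (sc ζ)) IF.id) ⟨((∅, ∅), 0, ∅), by
          refine ⟨⟨fun ν m h => by simp at h, fun ν ξ k h => by simp at h⟩, fun x h => by
            simp at h⟩⟩
      exact ⟨⟨e, h1⟩, fun d hd => h3 d hd⟩)
  refine ⟨fun y => (e y.1).1 y.2, IF.app (IF.comp he IF.fst) IF.snd, fun ζ d hd => ?_⟩
  exact he2 ζ d (hd (sc ζ) (hsc2 ζ))

theorem exists_max_below {ξ₀ ζ₀ : W} (h : ζ₀ < ξ₀) (F : Finset (W × W × Hc))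
    (hF : ∀ x ∈ F, x.2.1 < ξ₀) : ∃ ζ < ξ₀, ζ₀ ≤ ζ ∧ ∀ x ∈ F, x.2.1 ≤ ζ := by
  classical
  induction F using Finset.induction_on with
  | empty => exact ⟨ζ₀, h, le_rfl, fun x hx => by simp at hx⟩
  | insert a s _ ih =>
    obtain ⟨ζ, h1, h2, h3⟩ := ih fun x hx => hF x (Finset.mem_insert_of_mem hx)
    refine ⟨max ζ a.2.1, max_lt h1 (hF a (Finset.mem_insert_self _ _)),
      h2.trans (le_max_left _ _), fun x hx => ?_⟩
    rcases Finset.mem_insert.1 hx with rfl | hx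
    · exact le_max_right _ _
    · exact (h3 x hx).trans (le_max_left _ _)

/-- No condition forces an unintended coding. -/
theorem nuc_force [Countable M] {f : Pl M W} (hf : Valid c f) {y z : Nm M W} (hy : IsNm c f y)
    (hz : IsNm c f z) {q : Cond W} (hq : q ∈ PP c f)
    (h : Fo c f q (fun G => Cod c (ev y G) (ev z G) ∧ ∀ ν ∈ f.dom, ev z G ≠ ev (f.nm ν) G)) :
    False := by
  classical
  obtain ⟨e, he, he2⟩ := exists_enum (M := M) (W := W)
  obtain ⟨P, hP⟩ : ∃ P : W × ℕ → List Fs → Prop, ∀ a s, P a s ↔ Dp c f y (e a) s :=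
    ⟨_, fun _ _ => Iff.rfl⟩
  have hΦ : In M (fun w : (W × ℕ) × List Fs => P w.1 w.2) :=
    (In.comp2 (P := fun (d : NData W) (s : List Fs) => Dp c f y d s) In.dp (IF.comp he IF.fst)
      IF.snd).congr fun w => hP w.1 w.2
  obtain ⟨ζ₁, hζ₁⟩ := hf.bdd
  obtain ⟨ζ₂, hζ₂⟩ := exists_Bd M q
  obtain ⟨ξ₀, hξ₀, hlz⟩ := (hL.out : Luz M W c).luz (ISet.sec hΦ) (IF.sec hΦ) (max ζ₁ ζ₂)
  -- the whole space at `ξ₀`
  let k₀ : W × Hc := (ξ₀, ([[]], []))
  obtain ⟨G, hG, hqG⟩ := exists_gen hq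
  have hfin : (fset (ev y G) ∩ {m | Pre (c k₀) m}).Finite := by
    refine ((h G hG hqG).1 k₀).2 ⟨[], by simp [k₀], ?_⟩
    simp [Pre, ini]
  obtain ⟨N, hN⟩ : ∃ N, ∀ m : Fs, ev y G (Encodable.encode m) = 1 → Pre (c k₀) m →
      m.length < N := by
    obtain ⟨N, hN⟩ := (hfin.image List.length).bddAbove
    exact ⟨N + 1, fun m h1 h2 => Nat.lt_succ_of_le (hN ⟨m, ⟨h1, h2⟩, rfl⟩)⟩
  have hgood : Good c (fun _ : ℕ => f) (fun _ G => ∀ m : Fs,
      ev y G (Encodable.encode m) = 1 → Pre (c k₀) m → m.length < N) := by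
    refine Good.all (IF.const f) (Q := fun (_ : ℕ) (m : Fs) G =>
      ev y G (Encodable.encode m) = 1 → Pre (c k₀) m → m.length < N) ?_
    refine Good.imp (IF.const f) ?_ (Good.imp (IF.const f) (Good.of_in
      (In.prec (IF.const k₀) IF.snd)) (Good.of_in (In.lt (IF.length IF.snd) (IF.const N))))
    exact Good.eq (GoodR.app (GoodR.ev (IF.const f) (IF.const y)) (GoodF.of_if
      (IF.comp (g := fun m : Fs => (Encodable.encode m : ℕ)) CdP.enc IF.snd)))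
      (GoodF.of_if (IF.const 1))
  obtain ⟨r', hr', hr'2⟩ := hgood.truth (IF.const f) (t := 0) hG hN
  obtain ⟨hrG, hrq, hrr'⟩ := hG.cup_mem hqG hr'
  set r : Cond W := cup q r' with hr
  have hrP := hG.sub r hrG
  have hrF : Fo c f r (fun G => ∀ m : Fs,
      ev y G (Encodable.encode m) = 1 → Pre (c k₀) m → m.length < N) :=
    hr'2.mono (hG.sub r' hr') hrr'
  -- the condition without the promises with large index
  set r₀ : Cond W := (r.1, r.2.filter (fun x => x.2.1 < ξ₀)) with hr₀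
  have hle0 : CLe c r r₀ :=
    ⟨fun x hx => hx, fun x hx => (Finset.mem_filter.1 hx).1, fun ν m h1 h2 => absurd h1 h2⟩
  have hle1 : ∀ q' : Cond W, CLe c r q' → Bd ξ₀ q' → CLe c r₀ q' := by
    intro q' h1 h2
    refine ⟨h1.1, fun x hx => Finset.mem_filter.2 ⟨h1.2.1 hx, ?_⟩, fun ν m h3 h4 κ h5 =>
      h1.2.2 ν m h3 h4 κ h5⟩
    exact (h2.2 x.1 x.2.1 x.2.2 hx).2
  have hfB : ∀ ν q' t, (ν, q', t) ∈ f → Bd ξ₀ q' := fun ν q' t h1 =>
    (hζ₁ ν q' t h1).2.mono ((le_max_left _ _).trans hξ₀.le)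
  have hr₀P : r₀ ∈ PP c f := by
    refine ⟨fun ν m hm => hrP.1 ν m hm, fun ν κ hκ => ?_⟩
    obtain ⟨q', t, h1, h2, h3⟩ := hrP.2 ν κ (Finset.mem_filter.1 hκ).1
    exact ⟨q', t, h1, hle1 q' h2 (hfB _ _ _ h1), h3⟩
  have hr₀q : CLe c r₀ q := hle1 q hrq (hζ₂.mono ((le_max_right _ _).trans hξ₀.le))
  -- the large promises
  let K : Finset (W × Hc) := ((r.2.filter (fun x => ξ₀ ≤ x.2.1)).image (fun x => x.2)).erase k₀
  let ks : List (W × Hc) := k₀ :: K.toList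
  have hks : ks.Nodup := by
    refine List.nodup_cons.2 ⟨?_, Finset.nodup_toList _⟩
    rw [Finset.mem_toList]
    exact Finset.notMem_erase _ _
  have hks2 : ∀ κ ∈ ks, ξ₀ ≤ κ.1 := by
    intro κ hκ
    rcases List.mem_cons.1 hκ with rfl | hκ
    · exact le_rfl
    · rw [Finset.mem_toList] at hκ
      obtain ⟨x, hx, rfl⟩ := Finset.mem_image.1 (Finset.mem_of_mem_erase hκ)
      exact (Finset.mem_filter.1 hx).2
  have hks3 : ∀ x ∈ r.2, ξ₀ ≤ x.2.1 → x.2 ∈ ks := by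
    intro x hx h1
    by_cases h2 : x.2 = k₀
    · rw [h2]
      exact List.mem_cons_self
    · refine List.mem_cons_of_mem _ ?_
      rw [Finset.mem_toList]
      exact Finset.mem_erase.2 ⟨h2, Finset.mem_image.2 ⟨x, Finset.mem_filter.2 ⟨hx, h1⟩, rfl⟩⟩
  let E : Finset (W × ℕ) :=
    (r.2.filter (fun x => ξ₀ ≤ x.2.1)).image (fun x => (x.1, ks.idxOf x.2))
  let d : NData W := (r₀, N, E)
  obtain ⟨ζ, hζ, hζ0, hζx⟩ := exists_max_below hξ₀ r₀.2 (fun x hx => (Finset.mem_filter.1 hx).2)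
  have hdom : ∀ ν ∈ f.dom, ν < ζ₁ := by
    rintro ν ⟨q', t, h1⟩
    exact (hζ₁ ν q' t h1).1
  have hζ10 : ζ₁ ≤ ζ := (le_max_left _ _).trans hζ0
  obtain ⟨n, hn⟩ := he2 ζ d (by
    intro ζ' hζ'
    refine ⟨⟨fun ν m hm => ?_, fun ν ξ k hk => ⟨?_, ?_⟩⟩, fun x hx => ?_⟩
    · exact (hdom ν (PP.dom1 hr₀P hm)).trans_le (hζ10.trans hζ'.le)
    · exact (hdom ν (PP.dom2 hr₀P hk)).trans_le (hζ10.trans hζ'.le)
    · exact (hζx (ν, ξ, k) hk).trans_lt hζ'
    · obtain ⟨x', hx', rfl⟩ := Finset.mem_image.1 hx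
      exact (hdom x'.1 (PP.dom2 hrP (Finset.mem_filter.1 hx').1)).trans_le (hζ10.trans hζ'.le))
  have hdense : DenseT ks.length (ISet.sec hΦ (ζ, n)).1 := by
    have h1 := dp_dense hf hy hz hq h (d := d) hr₀P hr₀q (b := K.toList.length) (by
      intro x hx
      obtain ⟨x', hx', rfl⟩ := Finset.mem_image.1 hx
      obtain ⟨h1, h2⟩ := Finset.mem_filter.1 hx'
      refine ⟨?_, ?_⟩
      · have := List.idxOf_lt_length_of_mem (hks3 x' h1 h2)
        simpa [ks] using this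
      · obtain ⟨q', t, h3, h4, -⟩ := hrP.2 x'.1 x'.2 h1
        exact ⟨q', t, h3, hle1 q' h4 (hfB _ _ _ h3)⟩)
    have h2 : (ISet.sec hΦ (ζ, n)).1 = {s | Dp c f y d s} := by
      ext s
      show P (ζ, n) s ↔ Dp c f y d s
      rw [hP, hn]
    rw [h2]
    exact h1
  obtain ⟨t, ht1, ht2⟩ := hlz ζ hζ n ks hks hks2 hdense
  have ht3 : Dp c f y d t := by
    have h0 : P (ζ, n) t := ht1
    rwa [hP, hn] at h0
  obtain ⟨r₁, m, q', u, ⟨g1, g2, g3, g4, g5, g6, g7, g8⟩, g9⟩ := ht3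
  have hlen : ks.length = t.length := ht2.length_eq
  have htk : ∀ i (hi : i < ks.length), Pre (c ks[i]) (t.getD i []) := by
    intro i hi
    have h1 := (List.forall₂_iff_get.1 ht2).2 i hi (hlen ▸ hi)
    rw [List.getD_eq_getElem _ _ (hlen ▸ hi)]
    exact h1
  have hcle : CLe c (cup r₁ r) r := by
    refine ⟨fun x hx => mem_cup1.2 (Or.inr hx), fun x hx => mem_cup2.2 (Or.inr hx),
      fun ν m' h1 h2 κ h3 h4 => ?_⟩
    have h5 : (ν, m') ∈ r₁.1 := (mem_cup1.1 h1).resolve_right h2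
    by_cases h6 : κ.1 < ξ₀
    · exact g2.2.2 ν m' h5 h2 κ (Finset.mem_filter.2 ⟨h3, h6⟩) h4
    · have h6' : ξ₀ ≤ κ.1 := not_lt.1 h6
      have h7 : κ ∈ ks := hks3 (ν, κ) h3 h6'
      have h8 : ks.idxOf κ < ks.length := List.idxOf_lt_length_of_mem h7
      have h9 : (ν, ks.idxOf κ) ∈ E :=
        Finset.mem_image.2 ⟨(ν, κ), Finset.mem_filter.2 ⟨h3, h6'⟩, rfl⟩
      have h10 := htk _ h8
      rw [List.getElem_idxOf] at h10
      have h11 := g9 (ν, ks.idxOf κ) m' h9 h5 h2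
      rcases h4.comparable h10 with h12 | h12
      · exact h11.1 h12
      · exact h11.2 h12
  have hcle1 : CLe c (cup r₁ r) r₁ := by
    refine ⟨fun x hx => mem_cup1.2 (Or.inl hx), fun x hx => mem_cup2.2 (Or.inl hx),
      fun ν m' h1 h2 => ?_⟩
    have h5 : (ν, m') ∈ r.1 := (mem_cup1.1 h1).resolve_left h2
    exact absurd (g2.1 h5) h2
  obtain ⟨G', hG', hcG⟩ := exists_gen (PP_cup g1 hrP hcle1 hcle)
  have hrG' : r ∈ G' := hG'.up _ hcG r hrP hcle
  have hq'G : q' ∈ G' := hG'.up _ hcG q' (hy.sub _ _ g5) (hcle1.trans g6)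
  have h1 : ev y G' (Encodable.encode m) = 1 := by
    have h2 := pre_getD.1 (ev_pre hG' hy g5 hq'G) (Encodable.encode m) g7
    rw [← h2, g8]
  have h2 : Pre (c k₀) m := by
    have h3 := htk 0 (by simp [ks])
    exact h3.of_prefix g3
  have h3 := hrF G' hG' hrG' m h1 h2
  exact absurd g4 (not_le.2 h3)

/-- Theorem NUC. -/
theorem nuc [Countable M] {f : Pl M W} (hf : Valid c f) {G : Set (Cond W)} (hG : Gen c f G)
    {y z : ℕ → ℕ} (hy : y ∈ RR c f G) (hz : z ∈ RR c f G) (h : Cod c y z) :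
    ∃ ν ∈ f.dom, z = ev (f.nm ν) G := by
  by_contra hne
  push Not at hne
  obtain ⟨yn, hyn, rfl⟩ := hy
  obtain ⟨zn, hzn, rfl⟩ := hz
  have hg1 : Good c (fun _ : ℕ => f) (fun _ G => Cod c (ev yn G) (ev zn G)) := by
    refine (Good.all (IF.const f) (Q := fun (_ : ℕ) (κ : W × Hc) G =>
      ((∃ N : ℕ, ∀ m : Fs, ev yn G (Encodable.encode m) = 1 → Pre (c κ) m → m.length < N) ↔
        ∃ u : Fs, u ∈ κ.2.1 ∧ Pre (ev zn G) u)) ?_).congr fun _ G _ => ?_
    · refine Good.iff (IF.const f) ?_ ?_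
      · refine Good.ex (Q := fun (y : ℕ × (W × Hc)) (N : ℕ) G => ∀ m : Fs,
          ev yn G (Encodable.encode m) = 1 → Pre (c y.2) m → m.length < N) ?_
        refine Good.all (IF.const f) (Q := fun (y : (ℕ × (W × Hc)) × ℕ) (m : Fs) G =>
          ev yn G (Encodable.encode m) = 1 → Pre (c y.1.2) m → m.length < y.2) ?_
        refine Good.imp (IF.const f) ?_ (Good.imp (IF.const f) (Good.of_in
          (In.prec (IF.comp IF.snd (IF.comp IF.fst IF.fst)) IF.snd))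
          (Good.of_in (In.lt (IF.length IF.snd) (IF.comp IF.snd IF.fst))))
        exact Good.eq (GoodR.app (GoodR.ev (IF.const f) (IF.const yn)) (GoodF.of_if
          (IF.comp (g := fun m : Fs => (Encodable.encode m : ℕ)) CdP.enc IF.snd)))
          (GoodF.of_if (IF.const 1))
      · refine Good.ex (Q := fun (y : ℕ × (W × Hc)) (u : Fs) G => u ∈ y.2.2.1 ∧
          Pre (ev zn G) u) ?_
        refine Good.and (Good.of_in (In.memL IF.snd (IF.comp IF.fst (IF.comp IF.snd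
          (IF.comp IF.snd IF.fst))))) ?_
        exact Good.eq (GoodF.ini (IF.const f) (GoodR.ev (IF.const f) (IF.const zn))
          (GoodF.of_if (IF.length IF.snd))) (GoodF.of_if IF.snd)
    · refine forall_congr' fun κ => ?_
      have e1 : (fset (ev yn G) ∩ {m | Pre (c κ) m}).Finite ↔
          ∃ N : ℕ, ∀ m : Fs, ev yn G (Encodable.encode m) = 1 → Pre (c κ) m → m.length < N := by
        constructor
        · intro hfin
          obtain ⟨N, hN⟩ := (hfin.image List.length).bddAbove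
          exact ⟨N + 1, fun m h1 h2 => Nat.lt_succ_of_le (hN ⟨m, ⟨h1, h2⟩, rfl⟩)⟩
        · rintro ⟨N, hN⟩
          by_contra hinf
          obtain ⟨m, h1, h2, h3⟩ := exists_long hinf N
          exact absurd h3 (not_le.2 (hN m h1 h2))
      rw [e1]
      exact Iff.rfl
  have hg2 : Good c (fun _ : ℕ => f) (fun _ G => ∀ ν ∈ f.dom, ev zn G ≠ ev (f.nm ν) G) := by
    refine (Good.all (IF.const f) (Q := fun (_ : ℕ) (ν : W) G => ν ∈ f.dom →
      ¬ ev zn G = ev (f.nm ν) G) ?_).congr fun _ G _ => Iff.rfl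
    refine Good.imp (IF.const f) (Good.of_in (In.pdom IF.snd (IF.const f))) (Good.not
      (IF.const f) ?_)
    exact Good.eqR (IF.const f) (GoodR.ev (IF.const f) (IF.const zn))
      (GoodR.ev (IF.const f) (IF.nmP (IF.const f) IF.snd))
  obtain ⟨q, hq, hq2⟩ := (hg1.and hg2).truth (IF.const f) (t := 0) hG ⟨h, hne⟩
  exact nuc_force hf hyn hzn (hG.sub q hq) hq2

end Pool.Agent.H.MP_a163f2_lc
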