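import Pool.Agent.H.MP_a163f2_lc.R.Perm

/-!
# Block R1: internal permutations of the tags (1.5), part 2
-/

set_option autoImplicit false
set_option linter.unusedSectionVars false

namespace Pool.Agent.H.MP_a163f2_lc

open Pool.Agent.H.MP_07d118_lc

universe u v w x

variable {M : Type u} [SetStr M] [ZFC M] [Std M] {W : Type v} [LinearOrder W] [Cd M W] [Om1 M W]
variable {c : W × Hc → ℕ → ℕ} [hL : Fact (Luz M W c)]

theorem Perm2_mem_image {π : Equiv.Perm W} {G : Set (Cond W)} {p : Cond W} :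
    p ∈ pmC π '' G ↔ pmC π.symm p ∈ G := by
  constructor
  · rintro ⟨q, hq, rfl⟩
    rw [pmC_symm]
    exact hq
  · intro h
    exact ⟨_, h, pmC_symm' π p⟩

theorem Perm2_mem_pmN {π : Equiv.Perm W} {hπ : IF M π} {x : Nm M W} {y : Cond W × Fs} :
    y ∈ pmN π hπ x ↔ (pmC π.symm y.1, y.2) ∈ x := Iff.rfl

theorem Perm2_mem_pmP {π : Equiv.Perm W} {hπ : IF M π} {f : Pl M W} {y : W × Cond W × Fs} :
    y ∈ pmP π hπ f ↔ (π.symm y.1, pmC π.symm y.2.1, y.2.2) ∈ f := Iff.rfl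

theorem Perm2_pmN_inv {π : Equiv.Perm W} {hπ : IF M π} {hπ' : IF M π.symm} {x : Nm M W} :
    pmN π hπ (pmN π.symm hπ' x) = x := by
  refine ISet.ext fun y => ?_
  rw [Perm2_mem_pmN, Perm2_mem_pmN]
  change (pmC π (pmC π.symm y.1), y.2) ∈ x ↔ y ∈ x
  rw [pmC_symm']

theorem Perm2_pmP_inv {π : Equiv.Perm W} {hπ : IF M π} {hπ' : IF M π.symm} {f : Pl M W} :
    pmP π.symm hπ' (pmP π hπ f) = f := by
  refine ISet.ext fun y => ?_
  rw [Perm2_mem_pmP, Perm2_mem_pmP]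
  change (π.symm (π y.1), pmC π.symm (pmC π y.2.1), y.2.2) ∈ f ↔ y ∈ f
  rw [pmC_symm, Equiv.symm_apply_apply]

/-- the image of a generic filter is generic -/
theorem pm_Gen {π : Equiv.Perm W} {hπ : IF M π} {f : Pl M W} {G : Set (Cond W)}
    (hG : Gen c f G) : Gen c (pmP π hπ f) (pmC π '' G) := by
  refine ⟨?_, ?_, ?_, ?_, ?_⟩
  · rintro _ ⟨p, hp, rfl⟩
    exact pmC_PP.2 (hG.sub p hp)
  · exact hG.ne.image _
  · rintro _ ⟨p, hp, rfl⟩ q hq hle
    rw [← pmC_symm' π q] at hq hle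
    rw [Perm2_mem_image]
    exact hG.up p hp _ (pmC_PP.1 hq) (pmC_le.1 hle)
  · rintro _ ⟨p, hp, rfl⟩ _ ⟨q, hq, rfl⟩
    obtain ⟨r, hr, h1, h2⟩ := hG.dir p hp q hq
    exact ⟨_, ⟨r, hr, rfl⟩, pmC_le.2 h1, pmC_le.2 h2⟩
  · intro D hD
    obtain ⟨p, hp, hpD⟩ := hG.meets (ISet.mk (P := fun p : Cond W => pmC π p ∈ D)
      (In.mem (IF.pmC hπ IF.id) (IF.const D))) (by
        intro p hp
        obtain ⟨q, hq, hle, hqD⟩ := hD (pmC π p) (pmC_PP.2 hp)
        rw [← pmC_symm' π q] at hq hle hqD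
        exact ⟨_, pmC_PP.1 hq, pmC_le.1 hle, hqD⟩)
    exact ⟨_, ⟨p, hp, rfl⟩, hpD⟩

theorem Perm2_Ev {π : Equiv.Perm W} {hπ : IF M π} {x : Nm M W} {G : Set (Cond W)} :
    Ev (pmN π hπ x) (pmC π '' G) = Ev x G := by
  funext y
  refine propext ⟨?_, ?_⟩
  · rintro ⟨h1, h2⟩
    refine ⟨fun q t h hq => h1 (pmC π q) t ?_ ⟨q, hq, rfl⟩, fun k => ?_⟩
    · rw [Perm2_mem_pmN]
      simp only
      rw [pmC_symm]
      exact h
    · obtain ⟨q, t, h3, h4, h5⟩ := h2 k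
      exact ⟨_, t, h3, Perm2_mem_image.1 h4, h5⟩
  · rintro ⟨h1, h2⟩
    refine ⟨fun q t h hq => h1 _ t h (Perm2_mem_image.1 hq), fun k => ?_⟩
    obtain ⟨q, t, h3, h4, h5⟩ := h2 k
    refine ⟨pmC π q, t, ?_, ⟨q, h4, rfl⟩, h5⟩
    rw [Perm2_mem_pmN]
    simp only
    rw [pmC_symm]
    exact h3

theorem pm_ev {π : Equiv.Perm W} {hπ : IF M π} {x : Nm M W} {G : Set (Cond W)} :
    ev (pmN π hπ x) (pmC π '' G) = ev x G := by
  unfold ev
  rw [Perm2_Ev]

theorem pm_RR {π : Equiv.Perm W} {hπ : IF M π} {f : Pl M W} {G : Set (Cond W)} :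
    RR c (pmP π hπ f) (pmC π '' G) = RR c f G := by
  ext y
  constructor
  · rintro ⟨n, hn, rfl⟩
    refine ⟨pmN π.symm (IF.symm hπ) n, ?_, ?_⟩
    · have h := pmN_IsNm (π := π.symm) (hπ := IF.symm hπ) hn
      rw [Perm2_pmP_inv] at h
      exact h
    · rw [← pm_ev (π := π) (hπ := hπ), Perm2_pmN_inv]
  · rintro ⟨n, hn, rfl⟩
    exact ⟨pmN π hπ n, pmN_IsNm hn, pm_ev⟩

/-- Forcing is invariant. -/
theorem pm_Fo {π : Equiv.Perm W} {hπ : IF M π} {f : Pl M W} {p : Cond W}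
    {Q : Set (Cond W) → Prop} :
    Fo c (pmP π hπ f) (pmC π p) Q ↔ Fo c f p (fun G => Q (pmC π '' G)) := by
  constructor
  · intro h G hG hp
    exact h _ (pm_Gen hG) ⟨p, hp, rfl⟩
  · intro h G hG hp
    have h1 := pm_Gen (π := π.symm) (hπ := IF.symm hπ) hG
    rw [Perm2_pmP_inv] at h1
    have h2 : Q (pmC π '' (pmC π.symm '' G)) := h _ h1 ⟨_, hp, pmC_symm π p⟩
    have h3 : pmC π '' (pmC π.symm '' G) = G := by
      rw [Set.image_image]
      simp only [pmC_symm', Set.image_id']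
    rw [h3] at h2
    exact h2

theorem Perm2_symm_fix {π : Equiv.Perm W} {f : Pl M W} (h : ∀ ν ∈ f.dom, π ν = ν) :
    ∀ ν ∈ f.dom, π.symm ν = ν := by
  intro ν hν
  rw [Equiv.symm_apply_eq]
  exact (h ν hν).symm

/-- A permutation which fixes the domain of a valid plan fixes its conditions, its names and the
plan. -/
theorem pmC_fix {π : Equiv.Perm W} {f : Pl M W} (h : ∀ ν ∈ f.dom, π ν = ν) {p : Cond W}
    (hp : p ∈ PP c f) : pmC π p = p := by
  have h' := Perm2_symm_fix h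
  refine Prod.ext (Finset.ext fun x => ?_) (Finset.ext fun x => ?_)
  · rw [mem_pmC1]
    constructor
    · intro hx
      have h1 := h _ (PP.dom1 hp hx)
      simp only [Equiv.apply_symm_apply] at h1
      rw [← h1] at hx
      exact hx
    · intro hx
      rw [h' _ (PP.dom1 hp hx)]
      exact hx
  · rw [mem_pmC2]
    constructor
    · intro hx
      have h1 := h _ (PP.dom2 hp hx)
      simp only [Equiv.apply_symm_apply] at h1
      rw [← h1] at hx
      exact hx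
    · intro hx
      rw [h' _ (PP.dom2 hp hx)]
      exact hx

theorem pmN_fix {π : Equiv.Perm W} {hπ : IF M π} {f : Pl M W} (h : ∀ ν ∈ f.dom, π ν = ν)
    {x : Nm M W} (hx : IsNm c f x) : pmN π hπ x = x := by
  refine ISet.ext fun y => ?_
  rw [Perm2_mem_pmN]
  constructor
  · intro hy
    have h1 := pmC_fix h (hx.sub _ _ hy)
    rw [pmC_symm'] at h1
    rw [← h1] at hy
    exact hy
  · intro hy
    rw [pmC_fix (Perm2_symm_fix h) (hx.sub y.1 y.2 hy)]
    exact hy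

theorem pmP_fix {π : Equiv.Perm W} {hπ : IF M π} {f : Pl M W} (hf : Valid c f)
    (h : ∀ ν ∈ f.dom, π ν = ν) : pmP π hπ f = f := by
  refine ISet.ext fun y => ?_
  rw [Perm2_mem_pmP]
  constructor
  · intro hy
    have h1 := h _ ⟨_, _, hy⟩
    rw [Equiv.apply_symm_apply] at h1
    have h2 := pmC_fix h (hf.PP hy)
    rw [pmC_symm'] at h2
    rw [← h1, ← h2] at hy
    exact hy
  · intro hy
    obtain ⟨ν, q, t⟩ := y
    simp only
    rw [Perm2_symm_fix h ν ⟨_, _, hy⟩, pmC_fix (Perm2_symm_fix h) (hf.PP hy)]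
    exact hy

/-- an internal increasing sequence -/
theorem Perm2_seq (ζ : W) : ∃ s : ℕ → W, IF M s ∧ s 0 = ζ ∧ ∀ n, s n < s (n + 1) := by
  obtain ⟨g, hg, hg'⟩ := In.choice (M := M) (R := fun α β : W => α < β)
    (Om1.lt_in (M := M)) (fun α => by
      obtain ⟨β, hβ⟩ := Om1.bdd (M := M) (fun _ : ℕ => α) (IF.const α)
      exact ⟨β, hβ 0⟩)
  have h1 := IF.natRec (M := M) (S := ℕ) (a := fun _ : ℕ => ζ) (IF.const ζ)
    (g := fun y : ℕ × ℕ × W => g y.2.2) (IF.comp hg (IF.comp IF.snd IF.snd))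
  refine ⟨fun n => Nat.rec (motive := fun _ => W) ζ (fun _ t => g t) n, ?_, rfl, ?_⟩
  · exact IF.comp h1 ((IF.const 0).pair IF.id)
  · intro n
    exact hg' _

/-- an internal injection of the elements below `ζ` to elements above `ζ` -/
theorem Perm2_inj (ζ : W) : ∃ j : W → W, IF M j ∧ Set.InjOn j {β | β < ζ} ∧ ∀ β, ζ ≤ j β := by
  obtain ⟨s, hs, hs0, hs1⟩ := Perm2_seq (M := M) ζ
  obtain ⟨f, hf, hf'⟩ := Om1.below (M := M) ζ
  have hmono : StrictMono s := strictMono_nat_of_lt_succ hs1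
  refine ⟨fun β => s (f β), IF.comp hs hf, ?_, ?_⟩
  · intro a ha b hb h
    exact hf' ha hb (hmono.injective h)
  · intro β
    rw [← hs0]
    exact hmono.monotone (Nat.zero_le _)

/-- an internal involution exchanging a set `A` with its image under an injection -/
theorem Perm2_swap {A : W → Prop} (hA : In M A) {j : W → W} (hj : IF M j)
    (hinj : ∀ a b, A a → A b → j a = j b → a = b) (hout : ∀ a b, A a → A b → j a ≠ b) :
    ∃ (π : Equiv.Perm W) (_ : IF M π), (∀ a, A a → π a = j a) ∧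
      ∀ a, ¬ A a → (∀ b, A b → j b ≠ a) → π a = a := by
  classical
  let F : W → W := fun a => if A a then j a else if h : ∃ b, A b ∧ j b = a then h.choose else a
  have hF1 : ∀ a, A a → F a = j a := fun a ha => if_pos ha
  have hF2 : ∀ b, A b → F (j b) = b := by
    intro b hb
    have h1 : ¬ A (j b) := fun h => hout b _ hb h rfl
    have h2 : ∃ b', A b' ∧ j b' = j b := ⟨b, hb, rfl⟩
    have h3 : F (j b) = h2.choose := by
      simp only [F]
      rw [if_neg h1, dif_pos h2]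
    rw [h3]
    exact hinj _ _ h2.choose_spec.1 hb h2.choose_spec.2
  have hF3 : ∀ a, ¬ A a → (∀ b, A b → j b ≠ a) → F a = a := by
    intro a h1 h2
    have h3 : ¬ ∃ b, A b ∧ j b = a := by
      rintro ⟨b, hb, h⟩
      exact h2 b hb h
    simp only [F]
    rw [if_neg h1, dif_neg h3]
  have hinv : Function.Involutive F := by
    intro a
    by_cases h1 : A a
    · rw [hF1 a h1, hF2 a h1]
    · by_cases h2 : ∃ b, A b ∧ j b = a
      · obtain ⟨b, hb, rfl⟩ := h2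
        rw [hF2 b hb, hF1 b hb]
      · have h3 : ∀ b, A b → j b ≠ a := fun b hb h => h2 ⟨b, hb, h⟩
        rw [hF3 a h1 h3, hF3 a h1 h3]
  refine ⟨hinv.toPerm, ?_, hF1, hF3⟩
  refine IF.of_in ?_
  have h1 : In M (fun y : W × W => (A y.1 ∧ j y.1 = y.2) ∨ ((A y.2 ∧ j y.2 = y.1) ∨
      ((¬ A y.1 ∧ ∀ b, (A b → j b ≠ y.1)) ∧ y.1 = y.2))) := by
    refine In.or ?_ (In.or ?_ (In.and (In.and ?_ ?_) ?_))
    · exact (hA.comp IF.fst).and (In.eq (IF.comp hj IF.fst) IF.snd)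
    · exact (hA.comp IF.snd).and (In.eq (IF.comp hj IF.snd) IF.fst)
    · exact (hA.comp IF.fst).not
    · refine In.all (P := fun (y : W × W) (b : W) => A b → j b ≠ y.1) ?_
      exact (hA.comp IF.snd).imp (In.eq (IF.comp hj IF.snd) (IF.comp IF.fst IF.fst)).not
    · exact In.eq IF.fst IF.snd
  refine h1.congr ?_
  rintro ⟨a, b⟩
  simp only [Function.Involutive.coe_toPerm]
  constructor
  · rintro rfl
    by_cases h1 : A a
    · exact Or.inl ⟨h1, (hF1 a h1).symm⟩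
    · by_cases h2 : ∃ b, A b ∧ j b = a
      · obtain ⟨b, hb, rfl⟩ := h2
        rw [hF2 b hb]
        exact Or.inr (Or.inl ⟨hb, rfl⟩)
      · have h3 : ∀ b, A b → j b ≠ a := fun b hb h => h2 ⟨b, hb, h⟩
        rw [hF3 a h1 h3]
        exact Or.inr (Or.inr ⟨⟨h1, h3⟩, rfl⟩)
  · rintro (⟨h2, h3⟩ | ⟨h2, h3⟩ | ⟨⟨h2, h3⟩, h4⟩)
    · rw [hF1 a h2, h3]
    · rw [← h3, hF2 b h2]
    · rw [hF3 a h2 h3, h4]

/-- Renaming: there is an internal permutation which fixes the domain of `f` and moves the rest of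
the domain of `g` off the domain of `g'`. -/
theorem exists_rename {f g g' : Pl M W} (hg : Valid c g) (hg' : Valid c g') (h : Sb f g) :
    ∃ (π : Equiv.Perm W) (_ : IF M π), (∀ ν ∈ f.dom, π ν = ν) ∧
      ∀ ν ∈ g.dom, ν ∉ f.dom → π ν ∉ g'.dom := by
  obtain ⟨ζ₁, h1⟩ := hg.bdd
  obtain ⟨ζ₂, h2⟩ := hg'.bdd
  have hb1 : ∀ ν ∈ g.dom, ν < max ζ₁ ζ₂ := by
    rintro ν ⟨q, t, hν⟩
    exact (h1 ν q t hν).1.trans_le (le_max_left _ _)
  have hb2 : ∀ ν ∈ g'.dom, ν < max ζ₁ ζ₂ := by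
    rintro ν ⟨q, t, hν⟩
    exact (h2 ν q t hν).1.trans_le (le_max_right _ _)
  obtain ⟨j, hj, hinj, hge⟩ := Perm2_inj (M := M) (max ζ₁ ζ₂)
  have hA : In M (fun ν : W => ν ∈ g.dom ∧ ν ∉ f.dom) :=
    (In.pdom IF.id (IF.const g)).and (In.pdom IF.id (IF.const f)).not
  obtain ⟨π, hπ, hπ1, hπ2⟩ := Perm2_swap hA hj
    (fun a b ha hb hab => hinj (hb1 a ha.1) (hb1 b hb.1) hab)
    (fun a b _ hb hab => by
      have h3 := hge a
      rw [hab] at h3
      exact absurd (hb1 b hb.1) (not_lt.2 h3))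
  refine ⟨π, hπ, ?_, ?_⟩
  · intro ν hν
    refine hπ2 ν (fun h3 => h3.2 hν) ?_
    intro b hb h3
    have h4 := hge b
    rw [h3] at h4
    exact absurd (hb1 ν (h.dom hν)) (not_lt.2 h4)
  · intro ν hν hν' h3
    rw [hπ1 ν ⟨hν, hν'⟩] at h3
    exact absurd (hb2 _ h3) (not_lt.2 (hge ν))

end Pool.Agent.H.MP_a163f2_lc
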