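import Pool.Agent.H.MP_a163f2_lc.R.Ct

/-!
# Block R1: unions of countable increasing families of plans
-/

set_option autoImplicit false
set_option linter.unusedSectionVars false

namespace Pool.Agent.H.MP_a163f2_lc

open Pool.Agent.H.MP_07d118_lc

universe u v w x

variable {M : Type u} [SetStr M] [ZFC M] [Std M] {W : Type v} [LinearOrder W] [Cd M W] [Om1 M W]
variable {c : W × Hc → ℕ → ℕ} [hL : Fact (Luz M W c)]
variable {T : Type w} [Cd M T] {S : Type x} [Cd M S]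

/-- Union of an internal countable increasing family of plans. -/
noncomputable def plUn (P : T → Prop) (hP : In M P) (F : T → Pl M W) (hF : IF M F) : Pl M W :=
  ISet.mk (P := fun x => ∃ t, P t ∧ x ∈ F t)
    (In.ex (P := fun (x : W × Cond W × Fs) (t : T) => P t ∧ x ∈ F t)
      ((hP.comp IF.snd).and (In.mem IF.fst (IF.comp hF IF.snd))))

theorem Un_mem {P : T → Prop} {hP : In M P} {F : T → Pl M W} {hF : IF M F}
    {x : W × Cond W × Fs} : x ∈ plUn P hP F hF ↔ ∃ t, P t ∧ x ∈ F t := Iff.rfl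

theorem Sb_plUn {P : T → Prop} {hP : In M P} {F : T → Pl M W} {hF : IF M F}
    (h : ∀ i j, P i → P j → Sb (F i) (F j) ∨ Sb (F j) (F i)) {t : T} (ht : P t) :
    Sb (F t) (plUn P hP F hF) := by
  refine ⟨fun x hx => ⟨t, ht, hx⟩, fun ν q s hν hx => ?_⟩
  obtain ⟨t', ht', hx'⟩ := hx
  rcases h t t' ht ht' with h1 | h1
  · exact h1.2 ν q s hν hx'
  · exact h1.1 _ hx'

theorem Un_bd {P : T → Prop} (hP : In M P) {F : T → Pl M W} (hF : IF M F)
    (hv : ∀ t, P t → Valid c (F t)) (hc : ICt M {t | P t}) :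
    ∃ ζ : W, ∀ t, P t → ∀ ν q s, (ν, q, s) ∈ F t → ν < ζ ∧ Bd ζ q := by
  have h1 : In M (fun y : T × W => P y.1 → ∀ ν, ∀ q, ∀ s, (ν, q, s) ∈ F y.1 →
      ν < y.2 ∧ Bd y.2 q) := by
    refine In.imp (hP.comp IF.fst) ?_
    refine In.all (S := W) (P := fun (y : T × W) ν => ∀ q, ∀ s, (ν, q, s) ∈ F y.1 →
      ν < y.2 ∧ Bd y.2 q) ?_
    refine In.all (S := Cond W) (P := fun (y : (T × W) × W) q => ∀ s, (y.2, q, s) ∈ F y.1.1 →
      y.2 < y.1.2 ∧ Bd y.1.2 q) ?_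
    refine In.all (S := Fs) (P := fun (y : ((T × W) × W) × Cond W) s =>
      (y.1.2, y.2, s) ∈ F y.1.1.1 → y.1.2 < y.1.1.2 ∧ Bd y.1.1.2 y.2) ?_
    have e1 : IF M (fun y : (((T × W) × W) × Cond W) × Fs => y.1.1.1.1) :=
      IF.fst.comp (IF.fst.comp (IF.fst.comp IF.fst))
    have e2 : IF M (fun y : (((T × W) × W) × Cond W) × Fs => y.1.1.1.2) :=
      IF.snd.comp (IF.fst.comp (IF.fst.comp IF.fst))
    have e3 : IF M (fun y : (((T × W) × W) × Cond W) × Fs => y.1.1.2) :=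
      IF.snd.comp (IF.fst.comp IF.fst)
    have e4 : IF M (fun y : (((T × W) × W) × Cond W) × Fs => y.1.2) :=
      IF.snd.comp IF.fst
    exact In.imp (In.mem (e3.pair (e4.pair IF.snd)) (hF.comp e1))
      (In.and (In.ltW e3 e2) (In.bd e2 e4))
  obtain ⟨Z, hZ, hR⟩ := In.choice (R := fun (t : T) (ζ : W) => P t → ∀ ν, ∀ q, ∀ s,
      (ν, q, s) ∈ F t → ν < ζ ∧ Bd ζ q) h1 (by
    intro t
    by_cases ht : P t
    · obtain ⟨ζ, hζ⟩ := (hv t ht).bdd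
      exact ⟨ζ, fun _ => hζ⟩
    · obtain ⟨ζ⟩ := Om1.ne (M := M) (W := W)
      exact ⟨ζ, fun h2 => absurd h2 ht⟩)
  obtain ⟨ζ, hζ⟩ := ICt.bdd hc hP hZ
  refine ⟨ζ, fun t ht ν q s hx => ?_⟩
  have h2 : Z t < ζ := hζ t ht
  obtain ⟨h3, h4⟩ := hR t ht ν q s hx
  exact ⟨h3.trans h2, h4.mono h2.le⟩

theorem Valid_plUn {P : T → Prop} {hP : In M P} {F : T → Pl M W} {hF : IF M F}
    (h : ∀ i j, P i → P j → Sb (F i) (F j) ∨ Sb (F j) (F i)) (hv : ∀ t, P t → Valid c (F t))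
    (hc : ICt M {t | P t}) : Valid c (plUn P hP F hF) := by
  refine ⟨?_, fun ν hν => ?_⟩
  · obtain ⟨ζ, hζ⟩ := Un_bd hP hF hv hc
    refine ⟨ζ, fun ν q s hx => ?_⟩
    obtain ⟨t, ht, hx'⟩ := hx
    exact hζ t ht ν q s hx'
  · obtain ⟨q, s, hx⟩ := hν
    obtain ⟨t, ht, hx'⟩ := hx
    have h1 : Sb (F t) (plUn P hP F hF) := Sb_plUn h ht
    have h2 : ν ∈ (F t).dom := ⟨q, s, hx'⟩
    rw [h1.nm_eq h2]
    exact IsNm.mono (hv t ht) h1 ((hv t ht).nm ν h2)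

theorem Un_fin {α : Type*} {P : T → Prop} {F : T → Pl M W}
    (h : ∀ i j, P i → P j → Sb (F i) (F j) ∨ Sb (F j) (F i)) (hne : ∃ t, P t)
    (Q : α → T → Prop) (hm : ∀ x i j, Sb (F i) (F j) → Q x i → Q x j) (A : Finset α)
    (hA : ∀ x ∈ A, ∃ t, P t ∧ Q x t) : ∃ t, P t ∧ ∀ x ∈ A, Q x t := by
  classical
  induction A using Finset.induction_on with
  | empty =>
    obtain ⟨t, ht⟩ := hne
    exact ⟨t, ht, fun x hx => absurd hx (Finset.notMem_empty x)⟩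
  | insert a A _ ih =>
    obtain ⟨t, ht, h1⟩ := ih fun x hx => hA x (Finset.mem_insert_of_mem hx)
    obtain ⟨t', ht', h2⟩ := hA a (Finset.mem_insert_self a A)
    rcases h t t' ht ht' with h3 | h3
    · refine ⟨t', ht', fun x hx => ?_⟩
      rcases Finset.mem_insert.1 hx with rfl | hx
      · exact h2
      · exact hm x t t' h3 (h1 x hx)
    · refine ⟨t, ht, fun x hx => ?_⟩
      rcases Finset.mem_insert.1 hx with rfl | hx
      · exact hm _ t' t h3 h2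
      · exact h1 x hx

/-- every condition of the union of an increasing family is a condition of a member -/
theorem PP_plUn {P : T → Prop} {hP : In M P} {F : T → Pl M W} {hF : IF M F}
    (h : ∀ i j, P i → P j → Sb (F i) (F j) ∨ Sb (F j) (F i)) (hne : ∃ t, P t) {p : Cond W}
    (hp : p ∈ PP c (plUn P hP F hF)) : ∃ t, P t ∧ p ∈ PP c (F t) := by
  obtain ⟨t₁, ht₁, h1⟩ := Un_fin h hne (fun (x : W × Fs) t => x.1 ∈ (F t).dom)
    (fun x i j hs hx => hs.dom hx) p.1 (by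
      intro x hx
      obtain ⟨q, s, hy⟩ := hp.1 x.1 x.2 hx
      obtain ⟨t, ht, hy'⟩ := hy
      exact ⟨t, ht, q, s, hy'⟩)
  obtain ⟨t₂, ht₂, h2⟩ := Un_fin h hne
    (fun (x : W × W × Hc) t => ∃ q s, (x.1, q, s) ∈ F t ∧ CLe c p q ∧ ∃ u ∈ x.2.2.1, u <+: s)
    (fun x i j hs hx => by
      obtain ⟨q, s, h3, h4⟩ := hx
      exact ⟨q, s, hs.1 _ h3, h4⟩) p.2 (by
      intro x hx
      obtain ⟨q, s, hy, h4⟩ := hp.2 x.1 x.2 hx
      obtain ⟨t, ht, hy'⟩ := hy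
      exact ⟨t, ht, q, s, hy', h4⟩)
  rcases h t₁ t₂ ht₁ ht₂ with h3 | h3
  · exact ⟨t₂, ht₂, fun ν m hm => h3.dom (h1 (ν, m) hm), fun ν κ hκ => h2 (ν, κ) hκ⟩
  · refine ⟨t₁, ht₁, fun ν m hm => h1 (ν, m) hm, fun ν κ hκ => ?_⟩
    obtain ⟨q, s, h4, h5⟩ := h2 (ν, κ) hκ
    exact ⟨q, s, h3.1 _ h4, h5⟩

end Pool.Agent.H.MP_a163f2_lc
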