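import Pool.Agent.H.MP_a163f2_lc.R.Names

/-!
# Block R, reals of the extension, part 1: closure under arithmetical operations
-/

set_option autoImplicit false
set_option linter.unusedSectionVars false

namespace Pool.Agent.H.MP_a163f2_lc

open Pool.Agent.H.MP_07d118_lc

universe u v w x

variable {M : Type u} [SetStr M] [ZFC M] [Std M] {W : Type v} [LinearOrder W] [Cd M W] [Om1 M W]
variable {c : W × Hc → ℕ → ℕ} [hL : Fact (Luz M W c)]

/-- A good real is in the extension. -/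
theorem Re1_good [Countable M] {f : Pl M W} (hf : Valid c f) {G : Set (Cond W)}
    (hG : Gen c f G) {X : Set (Cond W) → ℕ → ℕ}
    (hX : GoodR c (fun _ : ℕ => f) (fun _ G => X G)) : X G ∈ RR c f G := by
  obtain ⟨n, hn, h⟩ := exists_name (T := ℕ) (f := fun _ => f) (IF.const f) hX (t := 0) hf
  exact ⟨n, hn, h G hG⟩

/-- The least number with a good property is a good value. -/
theorem Re1_inf {T : Type w} [Cd M T] {f : Pl M W} {Q : T → ℕ → Set (Cond W) → Prop}
    (hQ : Good c (fun _ : T × ℕ => f) (fun y G => Q y.1 y.2 G)) :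
    GoodF c (fun _ : T => f) (fun t G => sInf {k | Q t k G}) := by
  have h1 : Good c (fun _ : T × ℕ => f) (fun y G => ∀ k, k < y.2 → ¬ Q y.1 k G) := by
    refine Good.all (S := ℕ) (Q := fun (y : T × ℕ) (k : ℕ) G => k < y.2 → ¬ Q y.1 k G)
      (IF.const f) ?_
    refine Good.imp (IF.const f) (Good.of_in (In.lt IF.snd (IF.comp IF.snd IF.fst))) ?_
    refine Good.not (IF.const f) ?_
    exact hQ.comp (k := fun z : (T × ℕ) × ℕ => (z.1.1, z.2))
      ((IF.comp IF.fst IF.fst).pair IF.snd)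
  have h2 : Good c (fun _ : T × ℕ => f) (fun y G => ∀ k, ¬ Q y.1 k G) := by
    refine Good.all (S := ℕ) (Q := fun (y : T × ℕ) (k : ℕ) G => ¬ Q y.1 k G) (IF.const f) ?_
    refine Good.not (IF.const f) ?_
    exact hQ.comp (k := fun z : (T × ℕ) × ℕ => (z.1.1, z.2))
      ((IF.comp IF.fst IF.fst).pair IF.snd)
  have h3 : Good c (fun _ : T × ℕ => f) (fun y _ => y.2 = 0) := Good.of_in (In.nat_eq IF.snd 0)
  refine Good.congr ((Good.and hQ h1).or (Good.and h2 h3)) ?_
  rintro ⟨t, k⟩ G -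
  simp only
  constructor
  · intro hk
    by_cases he : ∃ k, Q t k G
    · left
      have h4 : sInf {k | Q t k G} ∈ {k | Q t k G} := Nat.sInf_mem he
      rw [hk] at h4
      refine ⟨h4, fun k' hk' h5 => ?_⟩
      have h6 : sInf {k | Q t k G} ≤ k' := Nat.sInf_le h5
      omega
    · right
      push Not at he
      refine ⟨he, ?_⟩
      have h7 : {k | Q t k G} = ∅ := Set.eq_empty_of_forall_notMem he
      rw [h7, Nat.sInf_empty] at hk
      exact hk.symm
  · rintro (⟨h4, h5⟩ | ⟨h4, h5⟩)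
    · apply le_antisymm (Nat.sInf_le h4)
      by_contra h6
      exact h5 _ (not_le.mp h6) (Nat.sInf_mem (s := {k | Q t k G}) ⟨k, h4⟩)
    · have h7 : {k | Q t k G} = ∅ := Set.eq_empty_of_forall_notMem h4
      rw [h7, Nat.sInf_empty, h5]

/-- A real which is definable from the generic filter by a good relation is in the extension. -/
theorem mem_RR_of_good [Countable M] {f : Pl M W} (hf : Valid c f) {G : Set (Cond W)}
    (hG : Gen c f G) {Q : ℕ → ℕ → Set (Cond W) → Prop}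
    (hQ : Good c (fun _ : ℕ × ℕ => f) (fun y G => Q y.1 y.2 G)) {x : ℕ → ℕ}
    (hx : ∀ n k, x n = k ↔ Q n k G) : x ∈ RR c f G := by
  have h1 : GoodR c (fun _ : ℕ => f) (fun _ G n => sInf {k | Q n k G}) := by
    refine Re1_inf (T := ℕ × ℕ) (Q := fun y k G => Q y.2 k G) ?_
    exact hQ.comp (k := fun z : (ℕ × ℕ) × ℕ => (z.1.2, z.2))
      ((IF.comp IF.snd IF.fst).pair IF.snd)
  have h2 := Re1_good hf hG (X := fun G n => sInf {k | Q n k G}) h1
  have h3 : (fun n => sInf {k | Q n k G}) = x := by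
    funext n
    have h4 : {k | Q n k G} = {x n} := by
      ext k
      rw [Set.mem_singleton_iff]
      constructor
      · intro h
        exact ((hx n k).mpr h).symm
      · intro h
        exact (hx n k).mp h.symm
    rw [h4]
    exact csInf_singleton _
  rw [h3] at h2
  exact h2

theorem RR_ground [Countable M] {f : Pl M W} (hf : Valid c f) {G : Set (Cond W)}
    (hG : Gen c f G) {x : ℕ → ℕ} (hx : IF M x) : x ∈ RR c f G := by
  obtain ⟨n, hn, h⟩ := ground_name (c := c) (f := f) hx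
  exact ⟨n, hn, h G hG⟩

/-- the value of a fixed name -/
theorem Re1_ev {T : Type w} [Cd M T] {f : Pl M W} (a : Nm M W) :
    GoodR c (fun _ : T => f) (fun _ G => ev a G) :=
  GoodR.ev (IF.const f) (IF.const a)

theorem RR_comp [Countable M] {f : Pl M W} (hf : Valid c f) {G : Set (Cond W)}
    (hG : Gen c f G) {x y : ℕ → ℕ} (hx : x ∈ RR c f G) (hy : y ∈ RR c f G) :
    (fun n => x (y n)) ∈ RR c f G := by
  obtain ⟨a, -, rfl⟩ := hx
  obtain ⟨b, -, rfl⟩ := hy
  refine Re1_good hf hG (X := fun G n => ev a G (ev b G n)) ?_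
  exact GoodR.app (T := ℕ × ℕ) (X := fun _ G => ev a G) (k := fun y G => ev b G y.2)
    (Re1_ev a) (Re1_ev (T := ℕ) b)

theorem RR_pair [Countable M] {f : Pl M W} (hf : Valid c f) {G : Set (Cond W)}
    (hG : Gen c f G) {x y : ℕ → ℕ} (hx : x ∈ RR c f G) (hy : y ∈ RR c f G) :
    (fun n => Nat.pair (x n) (y n)) ∈ RR c f G := by
  obtain ⟨a, -, rfl⟩ := hx
  obtain ⟨b, -, rfl⟩ := hy
  refine Re1_good hf hG (X := fun G n => Nat.pair (ev a G n) (ev b G n)) ?_
  exact GoodF.map2 (T := ℕ × ℕ) (k := fun y G => ev a G y.2) (k' := fun y G => ev b G y.2)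
    (Re1_ev (T := ℕ) a) (Re1_ev (T := ℕ) b) (F := Nat.pair) IF.natPair

open Classical in
theorem RR_jump [Countable M] {f : Pl M W} (hf : Valid c f) {G : Set (Cond W)}
    (hG : Gen c f G) {x : ℕ → ℕ} (hx : x ∈ RR c f G) :
    (fun n => if ∃ m, x (Nat.pair n m) = 0 then 1 else 0) ∈ RR c f G := by
  obtain ⟨a, -, rfl⟩ := hx
  refine Re1_good hf hG (X := fun G n => if ∃ m, ev a G (Nat.pair n m) = 0 then 1 else 0) ?_
  refine GoodF.ite (T := ℕ × ℕ) (IF.const f) (Q := fun y G => ∃ m, ev a G (Nat.pair y.2 m) = 0)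
    (k := fun _ _ => 1) (k' := fun _ _ => 0) ?_ (GoodF.of_if (IF.const 1))
    (GoodF.of_if (IF.const 0))
  refine Good.ex (S := ℕ) (Q := fun (y : ℕ × ℕ) (m : ℕ) G => ev a G (Nat.pair y.2 m) = 0) ?_
  refine Good.eq (k := fun (z : (ℕ × ℕ) × ℕ) G => ev a G (Nat.pair z.1.2 z.2))
    (k' := fun _ _ => 0) ?_ (GoodF.of_if (IF.const 0))
  exact GoodR.app (T := (ℕ × ℕ) × ℕ) (X := fun _ G => ev a G)
    (k := fun z _ => Nat.pair z.1.2 z.2) (Re1_ev a)
    (GoodF.of_if (IF.npair (IF.comp IF.snd IF.fst) IF.snd))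

theorem RR_prec [Countable M] {f : Pl M W} (hf : Valid c f) {G : Set (Cond W)}
    (hG : Gen c f G) {x : ℕ → ℕ} (hx : x ∈ RR c f G) (a : ℕ) :
    (fun n => Nat.rec (motive := fun _ => ℕ) a (fun i k => x (Nat.pair i k)) n) ∈ RR c f G := by
  obtain ⟨b, -, rfl⟩ := hx
  refine mem_RR_of_good hf hG (Q := fun n k G => ∃ l : List ℕ, l.getD 0 0 = a ∧
    (∀ i, i < n → l.getD (i + 1) 0 = ev b G (Nat.pair i (l.getD i 0))) ∧ l.getD n 0 = k) ?_ ?_
  · refine Good.ex (S := List ℕ) (Q := fun (y : ℕ × ℕ) (l : List ℕ) G => l.getD 0 0 = a ∧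
      (∀ i, i < y.1 → l.getD (i + 1) 0 = ev b G (Nat.pair i (l.getD i 0))) ∧ l.getD y.1 0 = y.2) ?_
    have hget : ∀ {T : Type} [Cd M T] {l : T → List ℕ} {i : T → ℕ}, IF M l → IF M i →
        IF M (fun t => (l t).getD (i t) 0) := fun hl hi =>
      IF.prim2 (F := fun (l : List ℕ) (i : ℕ) => l.getD i 0) (Primrec.list_getD 0) hl hi
    refine Good.and ?_ (Good.and ?_ ?_)
    · exact Good.of_in (In.nat_eq (hget IF.snd (IF.const 0)) a)
    · refine Good.all (S := ℕ) (Q := fun (z : (ℕ × ℕ) × List ℕ) (i : ℕ) G => i < z.1.1 →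
        z.2.getD (i + 1) 0 = ev b G (Nat.pair i (z.2.getD i 0))) (IF.const f) ?_
      refine Good.imp (IF.const f) (Good.of_in (In.lt IF.snd
        (IF.comp IF.fst (IF.comp IF.fst IF.fst)))) ?_
      refine Good.eq (k := fun (z : ((ℕ × ℕ) × List ℕ) × ℕ) _ => z.1.2.getD (z.2 + 1) 0)
        (k' := fun z G => ev b G (Nat.pair z.2 (z.1.2.getD z.2 0))) ?_ ?_
      · exact GoodF.of_if (hget (IF.comp IF.snd IF.fst) (IF.succ' IF.snd))
      · exact GoodR.app (T := ((ℕ × ℕ) × List ℕ) × ℕ) (X := fun _ G => ev b G)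
          (k := fun z _ => Nat.pair z.2 (z.1.2.getD z.2 0)) (Re1_ev b) (GoodF.of_if (IF.npair IF.snd (hget (IF.comp IF.snd IF.fst) IF.snd)))
    · exact Good.of_in (In.eq (hget IF.snd (IF.comp IF.fst IF.fst)) (IF.comp IF.snd IF.fst))
  · -- the sequence of the values
    obtain ⟨r, hr⟩ : ∃ r : ℕ → ℕ, ∀ n, r n =
        Nat.rec (motive := fun _ => ℕ) a (fun i k => ev b G (Nat.pair i k)) n := ⟨_, fun n => rfl⟩
    have hr0 : r 0 = a := hr 0
    have hrs : ∀ n, r (n + 1) = ev b G (Nat.pair n (r n)) := by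
      intro n
      rw [hr (n + 1), hr n]
    intro n k
    rw [← hr n]
    constructor
    · rintro rfl
      have hl : ∀ i, i ≤ n → ((List.range (n + 1)).map r).getD i 0 = r i := by
        intro i hi
        rw [List.getD_eq_getElem _ _ (by simp; omega)]
        simp
      refine ⟨(List.range (n + 1)).map r, ?_, ?_, ?_⟩
      · rw [hl 0 (Nat.zero_le n), hr0]
      · intro i hi
        rw [hl (i + 1) hi, hl i hi.le, hrs]
      · exact hl n le_rfl
    · rintro ⟨l, h0, h1, rfl⟩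
      have h2 : ∀ i, i ≤ n → l.getD i 0 = r i := by
        intro i
        induction i with
        | zero => intro _; rw [h0, hr0]
        | succ i ih =>
          intro hi
          rw [h1 i hi, ih (by omega), hrs]
      exact (h2 n le_rfl).symm

theorem RR_mu [Countable M] {f : Pl M W} (hf : Valid c f) {G : Set (Cond W)}
    (hG : Gen c f G) {x : ℕ → ℕ} (hx : x ∈ RR c f G) (y : ℕ → ℕ)
    (h : ∀ n, x (Nat.pair n (y n)) = 0 ∧ ∀ m < y n, x (Nat.pair n m) ≠ 0) : y ∈ RR c f G := by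
  obtain ⟨a, -, rfl⟩ := hx
  refine mem_RR_of_good hf hG (Q := fun n k G => ev a G (Nat.pair n k) = 0 ∧
    ∀ m, m < k → ¬ ev a G (Nat.pair n m) = 0) ?_ ?_
  · refine Good.and ?_ ?_
    · refine Good.eq (k := fun (z : ℕ × ℕ) G => ev a G (Nat.pair z.1 z.2))
        (k' := fun _ _ => 0) ?_ (GoodF.of_if (IF.const 0))
      exact GoodR.app (T := ℕ × ℕ) (X := fun _ G => ev a G)
        (k := fun z _ => Nat.pair z.1 z.2) (Re1_ev a)
        (GoodF.of_if (IF.npair IF.fst IF.snd))
    · refine Good.all (S := ℕ) (Q := fun (z : ℕ × ℕ) (m : ℕ) G => m < z.2 →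
        ¬ ev a G (Nat.pair z.1 m) = 0) (IF.const f) ?_
      refine Good.imp (IF.const f) (Good.of_in (In.lt IF.snd (IF.comp IF.snd IF.fst))) ?_
      refine Good.not (IF.const f) ?_
      refine Good.eq (k := fun (z : (ℕ × ℕ) × ℕ) G => ev a G (Nat.pair z.1.1 z.2))
        (k' := fun _ _ => 0) ?_ (GoodF.of_if (IF.const 0))
      exact GoodR.app (T := (ℕ × ℕ) × ℕ) (X := fun _ G => ev a G)
        (k := fun z _ => Nat.pair z.1.1 z.2) (Re1_ev a)
        (GoodF.of_if (IF.npair (IF.comp IF.fst IF.fst) IF.snd))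
  · intro n k
    constructor
    · rintro rfl
      exact h n
    · rintro ⟨h1, h2⟩
      rcases lt_trichotomy (y n) k with h3 | h3 | h3
      · exact absurd (h n).1 (h2 _ h3)
      · exact h3
      · exact absurd h1 ((h n).2 _ h3)

end Pool.Agent.H.MP_a163f2_lc
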