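import Pool.Agent.H.MP_a163f2_lc.R.Names

/-!
# Block R, reals of the extension, part 2: ranks for trees
-/

set_option autoImplicit false
set_option linter.unusedSectionVars false

namespace Pool.Agent.H.MP_a163f2_lc

open Pool.Agent.H.MP_07d118_lc

universe u v w x

variable {M : Type u} [SetStr M] [ZFC M] [Std M] {W : Type v} [LinearOrder W] [Cd M W] [Om1 M W]
variable {c : W × Hc → ℕ → ℕ} [hL : Fact (Luz M W c)]

/-- `u` is in the tree coded by the real `a` -/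
def Tr (a : ℕ → ℕ) (u : Fs) : Prop := ∀ v, v <+: u → a (Encodable.encode v) = 0

theorem Good.tr (f : Pl M W) (n : Nm M W) : Good c (fun _ : Fs => f) (fun u G => Tr (ev n G) u) := by
  unfold Tr
  refine Good.all (f := fun _ : Fs => f)
    (Q := fun (u v : Fs) G => v <+: u → ev n G (Encodable.encode v) = 0) (IF.const f) ?_
  refine Good.imp (f := fun _ : Fs × Fs => f) (Q := fun (y : Fs × Fs) _ => y.2 <+: y.1)
    (Q' := fun (y : Fs × Fs) G => ev n G (Encodable.encode y.2) = 0) (IF.const f)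
    (Good.of_in (In.ipre IF.snd IF.fst)) ?_
  have h1 : GoodR c (fun _ : Fs × Fs => f) (fun _ G => ev n G) :=
    GoodR.ev (x := fun _ => n) (IF.const f) (IF.const n)
  have h2 : GoodF c (fun _ : Fs × Fs => f) (fun (y : Fs × Fs) _ => Encodable.encode y.2) :=
    GoodF.of_if (IF.comp (CdP.enc (α := Fs)) IF.snd)
  exact Good.eq (h1.app h2) (GoodF.of_if (IF.const 0))

theorem Re2_snoc {T : Type w} [Cd M T] {v : T → Fs} (hv : IF M v) {m : T → ℕ} (hm : IF M m) :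
    IF M (fun t => v t ++ [m t]) :=
  IF.prim2 (F := fun (l : List ℕ) (a : ℕ) => l ++ [a]) Primrec.list_concat hv hm

/-- forcing the negation of membership in the tree is internal -/
theorem Re2_foTr [Countable M] (f : Pl M W) (n : Nm M W) :
    In M (fun y : Cond W × Fs => Fo c f y.1 (fun G => ¬ Tr (ev n G) y.2)) := by
  have h1 : Good c (fun _ : Cond W × Fs => f) (fun y G => ¬ Tr (ev n G) y.2) :=
    Good.not (IF.const f) (Good.comp (Good.tr f n) IF.snd)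
  exact Good.fo (IF.const f) h1 IF.fst

set_option synthInstance.maxSize 2000 in
/-- The ranks: `(p,u) ∈ Rk α` means that `p` forces that the rank of `u` is at most `α`. -/
theorem exists_Rk [Countable M] (f : Pl M W) (n : Nm M W) :
    ∃ Rk : W → ISet M (Cond W × Fs), IF M Rk ∧ ∀ α p u, (p, u) ∈ Rk α ↔ p ∈ PP c f ∧
      ∀ m : ℕ, ∀ q ∈ PP c f, CLe c q p → ∃ r ∈ PP c f, CLe c r q ∧
        (Fo c f r (fun G => ¬ Tr (ev n G) (u ++ [m])) ∨ ∃ β < α, (r, u ++ [m]) ∈ Rk β) := by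
  have hP : In M (fun y : (W × ISet M (W × ISet M (Cond W × Fs))) × (Cond W × Fs) =>
      y.2.1 ∈ PP c f ∧ ∀ m : ℕ, ∀ q : Cond W, q ∈ PP c f → CLe c q y.2.1 → ∃ r : Cond W,
        r ∈ PP c f ∧ CLe c r q ∧ (Fo c f r (fun G => ¬ Tr (ev n G) (y.2.2 ++ [m])) ∨
          ∃ x : W × ISet M (Cond W × Fs), x ∈ y.1.2 ∧ (r, y.2.2 ++ [m]) ∈ x.2)) := by
    refine In.and (In.pp (IF.const f) (IF.comp IF.fst IF.snd)) ?_
    refine In.all (P := fun (y : (W × ISet M (W × ISet M (Cond W × Fs))) × (Cond W × Fs))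
      (m : ℕ) => ∀ q : Cond W, q ∈ PP c f → CLe c q y.2.1 → ∃ r : Cond W,
        r ∈ PP c f ∧ CLe c r q ∧ (Fo c f r (fun G => ¬ Tr (ev n G) (y.2.2 ++ [m])) ∨
          ∃ x : W × ISet M (Cond W × Fs), x ∈ y.1.2 ∧ (r, y.2.2 ++ [m]) ∈ x.2)) ?_
    refine In.all (P := fun (y : ((W × ISet M (W × ISet M (Cond W × Fs))) × (Cond W × Fs)) × ℕ)
      (q : Cond W) => q ∈ PP c f → CLe c q y.1.2.1 → ∃ r : Cond W,
        r ∈ PP c f ∧ CLe c r q ∧ (Fo c f r (fun G => ¬ Tr (ev n G) (y.1.2.2 ++ [y.2])) ∨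
          ∃ x : W × ISet M (Cond W × Fs), x ∈ y.1.1.2 ∧ (r, y.1.2.2 ++ [y.2]) ∈ x.2)) ?_
    refine In.imp (In.pp (IF.const f) IF.snd) (In.imp (In.cle IF.snd
      (IF.comp IF.fst (IF.comp IF.snd (IF.comp IF.fst IF.fst)))) ?_)
    refine In.ex (P := fun (y : (((W × ISet M (W × ISet M (Cond W × Fs))) × (Cond W × Fs)) × ℕ) ×
      Cond W) (r : Cond W) => r ∈ PP c f ∧ CLe c r y.2 ∧
        (Fo c f r (fun G => ¬ Tr (ev n G) (y.1.1.2.2 ++ [y.1.2])) ∨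
          ∃ x : W × ISet M (Cond W × Fs), x ∈ y.1.1.1.2 ∧ (r, y.1.1.2.2 ++ [y.1.2]) ∈ x.2)) ?_
    have hu : IF M (fun y : ((((W × ISet M (W × ISet M (Cond W × Fs))) × (Cond W × Fs)) × ℕ) ×
        Cond W) × Cond W => y.1.1.1.2.2 ++ [y.1.1.2]) :=
      Re2_snoc (IF.comp IF.snd (IF.comp IF.snd (IF.comp IF.fst (IF.comp IF.fst IF.fst))))
        (IF.comp IF.snd (IF.comp IF.fst IF.fst))
    refine In.and (In.pp (IF.const f) IF.snd) (In.and (In.cle IF.snd (IF.comp IF.snd IF.fst))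
      (In.or ?_ ?_))
    · exact In.comp2 (P := fun (r : Cond W) (u : Fs) => Fo c f r (fun G => ¬ Tr (ev n G) u))
        (Re2_foTr f n) IF.snd hu
    · refine In.ex (P := fun (y : ((((W × ISet M (W × ISet M (Cond W × Fs))) × (Cond W × Fs)) ×
        ℕ) × Cond W) × Cond W) (x : W × ISet M (Cond W × Fs)) =>
          x ∈ y.1.1.1.1.2 ∧ (y.2, y.1.1.1.2.2 ++ [y.1.1.2]) ∈ x.2) ?_
      refine In.and (In.mem IF.snd (IF.comp IF.snd (IF.comp IF.fst (IF.comp IF.fst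
        (IF.comp IF.fst (IF.comp IF.fst IF.fst)))))) (In.mem ?_ (IF.comp IF.snd IF.snd))
      exact IF.pair (IF.comp IF.snd IF.fst) (IF.comp hu IF.fst)
  obtain ⟨H, hH, hrec⟩ := exists_rec (lt := fun a b : W => a < b) (Om1.lt_in (M := M) (W := W))
    (Om1.wf (M := M) (W := W)) (fun _ _ _ h1 h2 => lt_trans h1 h2)
    (IF.sec (P := fun (y : W × ISet M (W × ISet M (Cond W × Fs))) (z : Cond W × Fs) =>
      z.1 ∈ PP c f ∧ ∀ m : ℕ, ∀ q : Cond W, q ∈ PP c f → CLe c q z.1 → ∃ r : Cond W,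
        r ∈ PP c f ∧ CLe c r q ∧ (Fo c f r (fun G => ¬ Tr (ev n G) (z.2 ++ [m])) ∨
          ∃ x : W × ISet M (Cond W × Fs), x ∈ y.2 ∧ (r, z.2 ++ [m]) ∈ x.2)) hP)
  refine ⟨H, hH, fun α p u => ?_⟩
  obtain ⟨h1, h2⟩ := hrec α
  have h3 : (p, u) ∈ H α ↔ (p, u) ∈ ISet.sec (P := fun (y : W × ISet M (W × ISet M (Cond W × Fs)))
      (z : Cond W × Fs) => z.1 ∈ PP c f ∧ ∀ m : ℕ, ∀ q : Cond W, q ∈ PP c f → CLe c q z.1 →
        ∃ r : Cond W, r ∈ PP c f ∧ CLe c r q ∧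
          (Fo c f r (fun G => ¬ Tr (ev n G) (z.2 ++ [m])) ∨
          ∃ x : W × ISet M (Cond W × Fs), x ∈ y.2 ∧ (r, z.2 ++ [m]) ∈ x.2)) hP
        (α, ISet.mk h1) := by
    rw [h2]
  rw [h3, ISet.mem_sec]
  refine and_congr_right fun _ => forall_congr' fun m => forall_congr' fun q =>
    forall_congr' fun _ => forall_congr' fun _ => exists_congr fun r => and_congr_right fun _ =>
    and_congr_right fun _ => or_congr Iff.rfl ?_
  constructor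
  · rintro ⟨⟨β, A⟩, ⟨hβ, hA⟩, hr⟩
    refine ⟨β, hβ, ?_⟩
    have hA' : H β = A := hA
    rw [hA']
    exact hr
  · rintro ⟨β, hβ, hr⟩
    exact ⟨(β, H β), ⟨hβ, rfl⟩, hr⟩

/-- `Rk` is the rank family of the name `n` over the plan `f`. -/
def IsRk (c : W × Hc → ℕ → ℕ) (f : Pl M W) (n : Nm M W) (Rk : W → ISet M (Cond W × Fs)) : Prop :=
  IF M Rk ∧ ∀ α p u, (p, u) ∈ Rk α ↔ p ∈ PP c f ∧
    ∀ m : ℕ, ∀ q ∈ PP c f, CLe c q p → ∃ r ∈ PP c f, CLe c r q ∧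
      (Fo c f r (fun G => ¬ Tr (ev n G) (u ++ [m])) ∨ ∃ β < α, (r, u ++ [m]) ∈ Rk β)

/-- `u` has rank at most `α` -/
def HasRk (Rk : W → ISet M (Cond W × Fs)) (G : Set (Cond W)) (α : W) (u : Fs) : Prop :=
  ∃ p ∈ G, (p, u) ∈ Rk α

/-- The successors in the tree of a ranked node have smaller ranks. -/
theorem IsRk.step [Countable M] {f : Pl M W} (hf : Valid c f) {n : Nm M W} {Rk : W → ISet M (Cond W × Fs)}
    (h : IsRk c f n Rk) {G : Set (Cond W)} (hG : Gen c f G) {α : W} {u : Fs}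
    (hu : HasRk Rk G α u) (m : ℕ) (hm : Tr (ev n G) (u ++ [m])) :
    ∃ β < α, HasRk Rk G β (u ++ [m]) := by
  obtain ⟨p, hpG, hp⟩ := hu
  have hin : In M (fun r : Cond W => Fo c f r (fun G => ¬ Tr (ev n G) (u ++ [m])) ∨
      ∃ β : W, β < α ∧ (r, u ++ [m]) ∈ Rk β) := by
    refine In.or ?_ ?_
    · exact In.comp2 (P := fun (r : Cond W) (v : Fs) => Fo c f r (fun G => ¬ Tr (ev n G) v))
        (Re2_foTr f n) IF.id (IF.const _)
    · refine In.ex (P := fun (r : Cond W) (β : W) => β < α ∧ (r, u ++ [m]) ∈ Rk β) ?_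
      exact In.and (In.ltW IF.snd (IF.const α))
        (In.mem (IF.pair IF.fst (IF.const _)) (IF.comp h.1 IF.snd))
  have hp' := ((h.2 α p u).1 hp).2 m
  obtain ⟨q, hqG, -, hq⟩ := hG.meets_below hpG (ISet.mk hin) (by
    intro q hq hle
    obtain ⟨r, hr, h1, h2⟩ := hp' q hq hle
    exact ⟨r, hr, h1, h2⟩)
  rcases hq with hq | ⟨β, hβ, hq⟩
  · exact absurd hm (hq G hG hqG)
  · exact ⟨β, hβ, q, hqG, hq⟩

/-- `Rk α` is closed downwards. -/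
theorem Re2_down {f : Pl M W} {n : Nm M W} {Rk : W → ISet M (Cond W × Fs)} (h : IsRk c f n Rk)
    {α : W} {p p' : Cond W} {u : Fs} (hp : (p, u) ∈ Rk α) (hp' : p' ∈ PP c f)
    (hle : CLe c p' p) : (p', u) ∈ Rk α := by
  rw [h.2] at hp ⊢
  exact ⟨hp', fun m q hq hqp => hp.2 m q hq (hqp.trans hle)⟩

/-- the statement that all successors in the tree have a rank -/
theorem Re2_good {f : Pl M W} {n : Nm M W} {Rk : W → ISet M (Cond W × Fs)} (h : IF M Rk) :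
    Good c (fun _ : Fs => f) (fun u G => ∀ m : ℕ, Tr (ev n G) (u ++ [m]) →
      ∃ α : W, ∃ p : Cond W, p ∈ G ∧ (p, u ++ [m]) ∈ Rk α) := by
  refine Good.all (f := fun _ : Fs => f) (Q := fun (u : Fs) (m : ℕ) G =>
    Tr (ev n G) (u ++ [m]) → ∃ α : W, ∃ p : Cond W, p ∈ G ∧ (p, u ++ [m]) ∈ Rk α)
    (IF.const f) ?_
  refine Good.imp (f := fun _ : Fs × ℕ => f) (Q := fun (y : Fs × ℕ) G =>
    Tr (ev n G) (y.1 ++ [y.2])) (Q' := fun (y : Fs × ℕ) G =>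
      ∃ α : W, ∃ p : Cond W, p ∈ G ∧ (p, y.1 ++ [y.2]) ∈ Rk α) (IF.const f) ?_ ?_
  · exact Good.comp (Good.tr f n) (k := fun y : Fs × ℕ => y.1 ++ [y.2]) (Re2_snoc IF.fst IF.snd)
  · refine Good.ex (f := fun _ : Fs × ℕ => f) (Q := fun (y : Fs × ℕ) (α : W) G =>
      ∃ p : Cond W, p ∈ G ∧ (p, y.1 ++ [y.2]) ∈ Rk α) ?_
    refine Good.ex (f := fun _ : (Fs × ℕ) × W => f) (Q := fun (y : (Fs × ℕ) × W) (p : Cond W) G =>
      p ∈ G ∧ (p, y.1.1 ++ [y.1.2]) ∈ Rk y.2) ?_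
    refine Good.and (f := fun _ : ((Fs × ℕ) × W) × Cond W => f)
      (Q := fun (y : ((Fs × ℕ) × W) × Cond W) G => y.2 ∈ G)
      (Q' := fun (y : ((Fs × ℕ) × W) × Cond W) _ => (y.2, y.1.1.1 ++ [y.1.1.2]) ∈ Rk y.1.2)
      (Good.mem (IF.const f) IF.snd) (Good.of_in ?_)
    refine In.mem (IF.pair IF.snd (Re2_snoc ?_ ?_)) (IF.comp h (IF.comp IF.snd IF.fst))
    · exact IF.comp IF.fst (IF.comp IF.fst IF.fst)
    · exact IF.comp IF.snd (IF.comp IF.fst IF.fst)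

/-- A node without a rank has a successor in the tree without a rank. -/
theorem IsRk.unranked [Countable M] {f : Pl M W} (hf : Valid c f) {n : Nm M W}
    {Rk : W → ISet M (Cond W × Fs)} (h : IsRk c f n Rk) {G : Set (Cond W)} (hG : Gen c f G)
    {u : Fs} (hu : ∀ α, ¬ HasRk Rk G α u) :
    ∃ m, Tr (ev n G) (u ++ [m]) ∧ ∀ α, ¬ HasRk Rk G α (u ++ [m]) := by
  by_contra hcon
  have hQ : ∀ m : ℕ, Tr (ev n G) (u ++ [m]) → ∃ α : W, ∃ p : Cond W, p ∈ G ∧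
      (p, u ++ [m]) ∈ Rk α := by
    intro m hm
    by_contra h1
    refine hcon ⟨m, hm, fun α h2 => h1 ?_⟩
    obtain ⟨p, hp, h3⟩ := h2
    exact ⟨α, p, hp, h3⟩
  obtain ⟨p, hpG, hp⟩ := Good.truth (f := fun _ : Fs => f) (IF.const f) (Re2_good (c := c)
    (f := f) (n := n) h.1) (t := u) hG hQ
  have hpP : p ∈ PP c f := hG.sub p hpG
  -- below `p`, the property is dense
  have hdense : ∀ m : ℕ, ∀ q ∈ PP c f, CLe c q p → ∃ r ∈ PP c f, CLe c r q ∧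
      (Fo c f r (fun G => ¬ Tr (ev n G) (u ++ [m])) ∨ ∃ α : W, (r, u ++ [m]) ∈ Rk α) := by
    intro m q hq hle
    obtain ⟨G', hG', hqG'⟩ := exists_gen (c := c) hq
    have hpG' : p ∈ G' := hG'.up q hqG' p hpP hle
    by_cases hT : Tr (ev n G') (u ++ [m])
    · obtain ⟨α, p', hp', h1⟩ := hp G' hG' hpG' m hT
      obtain ⟨r, hr, h2, h3⟩ := hG'.dir q hqG' p' hp'
      exact ⟨r, hG'.sub r hr, h2, Or.inr ⟨α, Re2_down h h1 (hG'.sub r hr) h3⟩⟩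
    · obtain ⟨p', hp', h1⟩ := Good.truth (f := fun _ : Fs => f) (IF.const f)
        (Good.not (IF.const f) (Good.tr (c := c) f n)) (t := u ++ [m]) hG' hT
      obtain ⟨r, hr, h2, h3⟩ := hG'.dir q hqG' p' hp'
      exact ⟨r, hG'.sub r hr, h2, Or.inl (Fo.mono (hG'.sub p' hp') h1 h3)⟩
  -- choice of the bounds
  have hB : In M (fun y : (ℕ × Finset (W × Fs)) × (Cond W × W) =>
      y.2.1 ∈ PP c f ∧ CLe c y.2.1 p ∧ y.2.1.1 = y.1.2 ∧
        (Fo c f y.2.1 (fun G => ¬ Tr (ev n G) (u ++ [y.1.1])) ∨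
          (y.2.1, u ++ [y.1.1]) ∈ Rk y.2.2)) := by
    have hsn : IF M (fun y : (ℕ × Finset (W × Fs)) × (Cond W × W) => u ++ [y.1.1]) :=
      Re2_snoc (IF.const u) (IF.comp IF.fst IF.fst)
    refine In.and (In.pp (IF.const f) (IF.comp IF.fst IF.snd)) (In.and
      (In.cle (IF.comp IF.fst IF.snd) (IF.const p)) (In.and ?_ (In.or ?_ ?_)))
    · exact In.eq (IF.comp IF.fst (IF.comp IF.fst IF.snd)) (IF.comp IF.snd IF.fst)
    · exact In.comp2 (P := fun (r : Cond W) (v : Fs) => Fo c f r (fun G => ¬ Tr (ev n G) v))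
        (Re2_foTr f n) (IF.comp IF.fst IF.snd) hsn
    · exact In.mem (IF.pair (IF.comp IF.fst IF.snd) hsn)
        (IF.comp h.1 (IF.comp IF.snd IF.snd))
  have hC : In M (fun y : (ℕ × Finset (W × Fs)) × (Cond W × W) =>
      (y.2.1 ∈ PP c f ∧ CLe c y.2.1 p ∧ y.2.1.1 = y.1.2 ∧
        (Fo c f y.2.1 (fun G => ¬ Tr (ev n G) (u ++ [y.1.1])) ∨
          (y.2.1, u ++ [y.1.1]) ∈ Rk y.2.2)) ∨
      ¬ ∃ z : Cond W × W, z.1 ∈ PP c f ∧ CLe c z.1 p ∧ z.1.1 = y.1.2 ∧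
        (Fo c f z.1 (fun G => ¬ Tr (ev n G) (u ++ [y.1.1])) ∨
          (z.1, u ++ [y.1.1]) ∈ Rk z.2)) := by
    refine In.or hB (In.not ?_)
    refine In.ex (P := fun (y : (ℕ × Finset (W × Fs)) × (Cond W × W)) (z : Cond W × W) =>
      z.1 ∈ PP c f ∧ CLe c z.1 p ∧ z.1.1 = y.1.2 ∧
        (Fo c f z.1 (fun G => ¬ Tr (ev n G) (u ++ [y.1.1])) ∨
          (z.1, u ++ [y.1.1]) ∈ Rk z.2)) ?_
    exact In.comp2 (P := fun (y : ℕ × Finset (W × Fs)) (z : Cond W × W) =>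
      z.1 ∈ PP c f ∧ CLe c z.1 p ∧ z.1.1 = y.2 ∧
        (Fo c f z.1 (fun G => ¬ Tr (ev n G) (u ++ [y.1])) ∨
          (z.1, u ++ [y.1]) ∈ Rk z.2)) hB (IF.comp IF.fst IF.fst) IF.snd
  obtain ⟨F, hF, hFR⟩ := In.choice (R := fun (y : ℕ × Finset (W × Fs)) (z : Cond W × W) =>
      (z.1 ∈ PP c f ∧ CLe c z.1 p ∧ z.1.1 = y.2 ∧
        (Fo c f z.1 (fun G => ¬ Tr (ev n G) (u ++ [y.1])) ∨
          (z.1, u ++ [y.1]) ∈ Rk z.2)) ∨
      ¬ ∃ z : Cond W × W, z.1 ∈ PP c f ∧ CLe c z.1 p ∧ z.1.1 = y.2 ∧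
        (Fo c f z.1 (fun G => ¬ Tr (ev n G) (u ++ [y.1])) ∨
          (z.1, u ++ [y.1]) ∈ Rk z.2)) hC (by
    intro y
    by_cases h1 : ∃ z : Cond W × W, z.1 ∈ PP c f ∧ CLe c z.1 p ∧ z.1.1 = y.2 ∧
        (Fo c f z.1 (fun G => ¬ Tr (ev n G) (u ++ [y.1])) ∨
          (z.1, u ++ [y.1]) ∈ Rk z.2)
    · obtain ⟨z, hz⟩ := h1
      exact ⟨z, Or.inl hz⟩
    · obtain ⟨α₀⟩ := Om1.ne (M := M) (W := W)
      exact ⟨(p, α₀), Or.inr h1⟩)
  obtain ⟨ζ, hζ⟩ := hf.bdd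
  have hct : ICt M ((Set.univ : Set ℕ) ×ˢ {s : Finset (W × Fs) | ∀ x ∈ s, x.1 < ζ}) :=
    ICt.nat.prod (ICt.stems ζ)
  have hctin : In M (fun t : ℕ × Finset (W × Fs) =>
      t ∈ ((Set.univ : Set ℕ) ×ˢ {s : Finset (W × Fs) | ∀ x ∈ s, x.1 < ζ})) := by
    refine In.congr (P := fun t : ℕ × Finset (W × Fs) => ∀ x : W × Fs, x ∈ t.2 → x.1 < ζ) ?_ ?_
    · refine In.all (P := fun (t : ℕ × Finset (W × Fs)) (x : W × Fs) => x ∈ t.2 → x.1 < ζ) ?_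
      exact In.imp (In.fmem IF.snd (IF.comp IF.snd IF.fst))
        (In.ltW (IF.comp IF.fst IF.snd) (IF.const ζ))
    · intro t
      exact ⟨fun h1 => h1.2, fun h1 => ⟨Set.mem_univ _, h1⟩⟩
  obtain ⟨α, hα⟩ := ICt.bdd hct hctin (F := fun t => (F t).2) (IF.comp IF.snd hF)
  refine hu α ⟨p, hpG, ?_⟩
  rw [h.2]
  refine ⟨hpP, fun m q hq hle => ?_⟩
  obtain ⟨r, hr, h1, h2⟩ := hdense m q hq hle
  have hex : ∃ z : Cond W × W, z.1 ∈ PP c f ∧ CLe c z.1 p ∧ z.1.1 = r.1 ∧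
      (Fo c f z.1 (fun G => ¬ Tr (ev n G) (u ++ [m])) ∨ (z.1, u ++ [m]) ∈ Rk z.2) := by
    rcases h2 with h2 | ⟨β, h2⟩
    · exact ⟨(r, α), hr, h1.trans hle, rfl, Or.inl h2⟩
    · exact ⟨(r, β), hr, h1.trans hle, rfl, Or.inr h2⟩
  have hS : (m, r.1) ∈ ((Set.univ : Set ℕ) ×ˢ {s : Finset (W × Fs) | ∀ x ∈ s, x.1 < ζ}) := by
    refine ⟨Set.mem_univ _, fun x hx => ?_⟩
    obtain ⟨q', t, h3⟩ := hr.1 x.1 x.2 hx
    exact (hζ _ _ _ h3).1
  have hlt := hα _ hS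
  rcases hFR (m, r.1) with ⟨h3, -, h5, h6⟩ | h3
  · have hst : r.1 = (F (m, r.1)).1.1 := h5.symm
    obtain ⟨h7, h8⟩ := cup_le_of_stem (c := c) hst
    have h9 : cup r (F (m, r.1)).1 ∈ PP c f := PP_cup hr h3 h7 h8
    refine ⟨_, h9, h7.trans h1, ?_⟩
    rcases h6 with h6 | h6
    · exact Or.inl (Fo.mono h3 h6 h8)
    · exact Or.inr ⟨_, hlt, Re2_down h h6 h9 h8⟩
  · exact absurd hex h3

end Pool.Agent.H.MP_a163f2_lc
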