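import Pool.Agent.H.MP_a163f2_lc.R.Re1
import Pool.Agent.H.MP_a163f2_lc.R.Re2
import Pool.Agent.H.MP_a163f2_lc.P.P5

/-!
# Block R, reals of the extension, part 3: the interface `RU`; forcing of `U3` statements
-/

set_option autoImplicit false
set_option linter.unusedSectionVars false

namespace Pool.Agent.H.MP_a163f2_lc

open Pool.Agent.H.MP_07d118_lc

universe u v w x

variable {M : Type u} [SetStr M] [ZFC M] [Std M] {W : Type v} [LinearOrder W] [Cd M W] [Om1 M W]
variable {c : W × Hc → ℕ → ℕ} [hL : Fact (Luz M W c)]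

/-! ### Ranked case -/

/-- If the root has a rank, all nodes of the tree have ranks below it, and there is a rank
function. -/
theorem Re_ranked [Countable M] {f : Pl M W} (hf : Valid c f) {n : Nm M W}
    {Rk : W → ISet M (Cond W × Fs)} (h : IsRk c f n Rk) {G : Set (Cond W)} (hG : Gen c f G)
    {α₀ : W} (h0 : HasRk Rk G α₀ []) :
    ∃ (α : W) (ρ : Fs → W), (∀ u, ρ u < α) ∧ ∀ (u : Fs) (m : ℕ),
      Tr (ev n G) (u ++ [m]) → ρ (u ++ [m]) < ρ u := by
  classical
  have hA : ∀ u : Fs, Tr (ev n G) u → ∃ α ≤ α₀, HasRk Rk G α u := by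
    intro u
    induction u using List.reverseRecOn with
    | nil => exact fun _ => ⟨α₀, le_refl _, h0⟩
    | append_singleton u m ih =>
      intro hu
      obtain ⟨α, h1, h2⟩ := ih fun v hv => hu v (hv.trans (List.prefix_append _ _))
      obtain ⟨β, h3, h4⟩ := h.step hf hG h2 m hu
      exact ⟨β, h3.le.trans h1, h4⟩
  have hB : ∀ u : Fs, ∃ α : W, α ≤ α₀ ∧ (Tr (ev n G) u → HasRk Rk G α u ∧
      ∀ β, HasRk Rk G β u → α ≤ β) := by
    intro u
    by_cases hu : Tr (ev n G) u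
    · obtain ⟨β, h1, h2⟩ := hA u hu
      obtain ⟨α, h3, h4⟩ := (Om1.wf (M := M) (W := W)).has_min {α | HasRk Rk G α u} ⟨β, h2⟩
      exact ⟨α, (not_lt.1 (h4 β h2)).trans h1, fun _ => ⟨h3, fun γ hγ => not_lt.1 (h4 γ hγ)⟩⟩
    · exact ⟨α₀, le_refl _, fun h => absurd h hu⟩
  choose ρ hρ1 hρ2 using hB
  obtain ⟨α, hα⟩ := Om1.bdd (M := M) (fun _ : ℕ => α₀) (IF.const _)
  refine ⟨α, ρ, fun u => (hρ1 u).trans_lt (hα 0), fun u m hm => ?_⟩
  have hu : Tr (ev n G) u := fun v hv => hm v (hv.trans (List.prefix_append _ _))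
  obtain ⟨β, h3, h4⟩ := h.step hf hG (hρ2 u hu).1 m hm
  exact ((hρ2 _ hm).2 β h4).trans_lt h3

/-! ### Unranked case: the leftmost branch -/

/-- the node `u` is in the tree and has no rank -/
def Re_B (n : Nm M W) (Rk : W → ISet M (Cond W × Fs)) (G : Set (Cond W)) (u : Fs) : Prop :=
  Tr (ev n G) u ∧ ∀ α, ¬ HasRk Rk G α u

theorem Re_B_good (f : Pl M W) (n : Nm M W) {Rk : W → ISet M (Cond W × Fs)} (hR : IF M Rk) :
    Good c (fun _ : Fs => f) (fun u G => Re_B n Rk G u) := by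
  refine Good.and (Good.tr f n) ?_
  refine Good.all (IF.const f) (S := W) (Q := fun (u : Fs) (α : W) G => ¬ HasRk Rk G α u) ?_
  refine Good.not (IF.const f) ?_
  refine Good.ex (S := Cond W) (Q := fun (y : Fs × W) (p : Cond W) G =>
    p ∈ G ∧ (p, y.1) ∈ Rk y.2) ?_
  refine Good.and (Good.mem (IF.const f) IF.snd) (Good.of_in ?_)
  exact In.mem (IF.snd.pair (IF.fst.comp IF.fst)) (hR.comp (IF.snd.comp IF.fst))

theorem Re_take_ini (y : ℕ → ℕ) {j k : ℕ} (h : j ≤ k) : (ini y k).take j = ini y j := by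
  unfold ini
  rw [← List.map_take, List.take_range, min_eq_left h]

theorem Re_unranked [Countable M] {f : Pl M W} (hf : Valid c f) {n : Nm M W}
    {Rk : W → ISet M (Cond W × Fs)} (h : IsRk c f n Rk) {G : Set (Cond W)} (hG : Gen c f G)
    (h0 : ∀ α, ¬ HasRk Rk G α []) :
    ∃ y ∈ RR c f G, ∀ k, ev n G (cd y k) = 0 := by
  classical
  let nx : Fs → ℕ := fun u => if h : ∃ m, Re_B n Rk G (u ++ [m]) then Nat.find h else 0
  let lb : ℕ → Fs := fun k => Nat.rec [] (fun _ l => l ++ [nx l]) k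
  let y : ℕ → ℕ := fun k => nx (lb k)
  have hlb0 : lb 0 = [] := rfl
  have hlbS : ∀ k, lb (k + 1) = lb k ++ [y k] := fun k => rfl
  have hini : ∀ k, ini y k = lb k := by
    intro k
    induction k with
    | zero => rfl
    | succ k ih => rw [P5_ini_succ, ih, hlbS]
  have hnx : ∀ u, (∀ α, ¬ HasRk Rk G α u) → Re_B n Rk G (u ++ [nx u]) := by
    intro u hu
    have h1 : ∃ m, Re_B n Rk G (u ++ [m]) := h.unranked hf hG hu
    have h2 : nx u = Nat.find h1 := dif_pos h1
    rw [h2]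
    exact Nat.find_spec h1
  have hmin : ∀ u m, m < nx u → ¬ Re_B n Rk G (u ++ [m]) := by
    intro u m hm hB
    have h1 : ∃ m, Re_B n Rk G (u ++ [m]) := ⟨m, hB⟩
    have h2 : nx u = Nat.find h1 := dif_pos h1
    rw [h2] at hm
    exact Nat.find_min h1 hm hB
  have hUr : ∀ k, ∀ α, ¬ HasRk Rk G α (lb k) := by
    intro k
    induction k with
    | zero => exact h0
    | succ k ih => exact (hnx _ ih).2
  have hBk : ∀ k, Re_B n Rk G (lb (k + 1)) := fun k => hnx _ (hUr k)
  refine ⟨y, ?_, fun k => ?_⟩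
  · have hQ : Good c (fun _ : ℕ × ℕ => f) (fun z G => ∃ l : Fs,
        (l.length = z.1 + 1 ∧ l.getD z.1 0 = z.2) ∧ ∀ j : ℕ, j < z.1 + 1 →
          (Re_B n Rk G (l.take (j + 1)) ∧ ∀ m : ℕ, m < l.getD j 0 →
            ¬ Re_B n Rk G (l.take j ++ [m]))) := by
      have hB := Re_B_good (c := c) f n h.1
      have htake : IF M (fun z : Fs × ℕ => z.1.take z.2) :=
        IF.prim2 (F := fun (l : List ℕ) (j : ℕ) => l.take j)
          (Primrec.list_take.comp Primrec.snd Primrec.fst) IF.fst IF.snd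
      refine Good.ex (S := Fs) (Q := fun (z : ℕ × ℕ) (l : Fs) G =>
        (l.length = z.1 + 1 ∧ l.getD z.1 0 = z.2) ∧ ∀ j : ℕ, j < z.1 + 1 →
          (Re_B n Rk G (l.take (j + 1)) ∧ ∀ m : ℕ, m < l.getD j 0 →
            ¬ Re_B n Rk G (l.take j ++ [m]))) ?_
      refine Good.and (Good.of_in ?_) ?_
      · exact In.and (In.eq (IF.length IF.snd) (IF.succ' (IF.fst.comp IF.fst)))
          (In.eq (IF.getD IF.snd (IF.fst.comp IF.fst)) (IF.snd.comp IF.fst))
      refine Good.all (IF.const f) (S := ℕ) (Q := fun (z : (ℕ × ℕ) × Fs) (j : ℕ) G =>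
        j < z.1.1 + 1 → (Re_B n Rk G (z.2.take (j + 1)) ∧ ∀ m : ℕ, m < z.2.getD j 0 →
            ¬ Re_B n Rk G (z.2.take j ++ [m]))) ?_
      refine Good.imp (IF.const f) (Good.of_in ?_) (Good.and ?_ ?_)
      · exact In.lt IF.snd (IF.succ' (IF.fst.comp (IF.fst.comp IF.fst)))
      · exact hB.comp (k := fun z : ((ℕ × ℕ) × Fs) × ℕ => z.1.2.take (z.2 + 1))
          (htake.comp ((IF.snd.comp IF.fst).pair (IF.succ' IF.snd)))
      · refine Good.all (IF.const f) (S := ℕ) (Q := fun (z : ((ℕ × ℕ) × Fs) × ℕ) (m : ℕ) G =>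
          m < z.1.2.getD z.2 0 → ¬ Re_B n Rk G (z.1.2.take z.2 ++ [m])) ?_
        refine Good.imp (IF.const f) (Good.of_in ?_) (Good.not (IF.const f) ?_)
        · exact In.lt IF.snd (IF.getD (IF.snd.comp (IF.fst.comp IF.fst)) (IF.snd.comp IF.fst))
        · refine hB.comp (k := fun z : (((ℕ × ℕ) × Fs) × ℕ) × ℕ => z.1.1.2.take z.1.2 ++ [z.2]) ?_
          refine IF.append (htake.comp ((IF.snd.comp (IF.fst.comp IF.fst)).pair
            (IF.snd.comp IF.fst))) ?_
          exact IF.comp (g := fun m : ℕ => [m]) (IF.prim (Primrec.list_cons.comp Primrec.id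
            (Primrec.const []))) IF.snd
    refine mem_RR_of_good hf hG (Q := fun i k G => ∃ l : Fs,
        (l.length = i + 1 ∧ l.getD i 0 = k) ∧ ∀ j : ℕ, j < i + 1 →
          (Re_B n Rk G (l.take (j + 1)) ∧ ∀ m : ℕ, m < l.getD j 0 →
            ¬ Re_B n Rk G (l.take j ++ [m]))) hQ fun i k => ?_
    have hget : ∀ i j, j < i + 1 → (ini y (i + 1)).getD j 0 = y j := fun i j hj => P5_fn_ini hj
    constructor
    · rintro rfl
      refine ⟨ini y (i + 1), ⟨P5_ini_length _ _, hget i i (Nat.lt_succ_self i)⟩,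
        fun j hj => ⟨?_, fun m hm => ?_⟩⟩
      · rw [Re_take_ini y (by omega), hini]
        exact hBk j
      · rw [hget i j hj] at hm
        rw [Re_take_ini y (by omega), hini]
        exact hmin _ m hm
    · rintro ⟨l, ⟨hl, rfl⟩, hj⟩
      have key : ∀ j, j < i + 1 → l.take j = lb j → l.getD j 0 = y j := by
        intro j hji e
        obtain ⟨h1, h2⟩ := hj j hji
        have h3 : l.take (j + 1) = l.take j ++ [l.getD j 0] := by
          rw [List.take_add_one, List.getD_eq_getElem _ _ (by omega)]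
          simp [List.getElem?_eq_getElem (show j < l.length by omega)]
        rw [h3, e] at h1
        rcases lt_trichotomy (l.getD j 0) (y j) with h4 | h4 | h4
        · exact absurd h1 (hmin _ _ h4)
        · exact h4
        · have h5 := h2 _ h4
          rw [e] at h5
          exact absurd (hBk j) h5
      have htk : ∀ j, j ≤ i + 1 → l.take j = lb j := by
        intro j
        induction j with
        | zero => intro _; simp [hlb0]
        | succ j ih =>
          intro hj'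
          have h3 : l.take (j + 1) = l.take j ++ [l.getD j 0] := by
            rw [List.take_add_one, List.getD_eq_getElem _ _ (by omega)]
            simp [List.getElem?_eq_getElem (show j < l.length by omega)]
          rw [h3, key j (by omega) (ih (by omega)), ih (by omega), hlbS]
      exact (key i (Nat.lt_succ_self i) (htk i (Nat.le_succ i))).symm
  · rw [cd_eq, hini]
    have h1 := (hBk k).1 (lb k) (by rw [hlbS]; exact List.prefix_append _ _)
    exact h1

theorem RR_del [Countable M] {f : Pl M W} (hf : Valid c f) {G : Set (Cond W)}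
    (hG : Gen c f G) {a : ℕ → ℕ} (ha : a ∈ RR c f G) :
    (∃ y ∈ RR c f G, ∀ k, a (cd y k) = 0) ∨
    ∃ (α : W) (ρ : Fs → W), (∀ u, ρ u < α) ∧ ∀ (u : Fs) (n : ℕ),
      (∀ v, v <+: u ++ [n] → a (Encodable.encode v) = 0) → ρ (u ++ [n]) < ρ u := by
  obtain ⟨n, -, rfl⟩ := ha
  obtain ⟨Rk, h1, h2⟩ := exists_Rk (c := c) f n
  have h : IsRk c f n Rk := ⟨h1, h2⟩
  by_cases h0 : ∃ α, HasRk Rk G α []
  · obtain ⟨α₀, h0⟩ := h0
    exact Or.inr (Re_ranked hf h hG h0)
  · exact Or.inl (Re_unranked hf h hG fun α hα => h0 ⟨α, hα⟩)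

theorem RR_RU [Countable M] {f : Pl M W} (hf : Valid c f) {G : Set (Cond W)}
    (hG : Gen c f G) : RU M W (RR c f G) where
  ground _ hx := RR_ground hf hG hx
  comp _ hx _ hy := RR_comp hf hG hx hy
  pair _ hx _ hy := RR_pair hf hG hx hy
  jump _ hx := RR_jump hf hG hx
  prec _ hx a := RR_prec hf hG hx a
  mu _ hx y h := RR_mu hf hG hx y h
  del _ ha := RR_del hf hG ha

/-- Sigma-1-3 facts go up from a subplan. -/
theorem U3.up_plan [Countable M] {f g : Pl M W} (hf : Valid c f) (hg : Valid c g) (h : Sb f g)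
    {G : Set (Cond W)} (hG : Gen c g G) {x a : ℕ → ℕ} (hx : x ∈ RR c f (G ∩ PP c f))
    (ha : a ∈ RR c f (G ∩ PP c f)) (hU : U3 (RR c f (G ∩ PP c f)) x a) : U3 (RR c g G) x a :=
  U3.up (M := M) (W := W) (RR_RU hf (hG.restrict hf h)) (RR_RU hg hG) (RR_restrict hf h hG) hx ha hU

/-- components of reals of the extension -/
theorem RR_zx [Countable M] {f : Pl M W} (hf : Valid c f) {G : Set (Cond W)}
    (hG : Gen c f G) {x : ℕ → ℕ} (hx : x ∈ RR c f G) : zx x ∈ RR c f G := by
  have hR := (RR_RU hf hG).rc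
  exact (RF.mem hR).1 (RF.comp hR ((RF.mem hR).2 hx) (RF.of_primrec hR
    (f := fun n : ℕ => 2 * n + 1) (Primrec.nat_add.comp
      (Primrec.nat_mul.comp (Primrec.const 2) Primrec.id) (Primrec.const 1))))

theorem RR_za [Countable M] {f : Pl M W} (hf : Valid c f) {G : Set (Cond W)}
    (hG : Gen c f G) {x : ℕ → ℕ} (hx : x ∈ RR c f G) : za x ∈ RR c f G := by
  have hR := (RR_RU hf hG).rc
  exact (RF.mem hR).1 (RF.comp hR ((RF.mem hR).2 hx) (RF.of_primrec hR
    (f := fun n : ℕ => 2 * n + 2) (Primrec.nat_add.comp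
      (Primrec.nat_mul.comp (Primrec.const 2) Primrec.id) (Primrec.const 2))))

theorem RR_t3 [Countable M] {f : Pl M W} (hf : Valid c f) {G : Set (Cond W)}
    (hG : Gen c f G) {x y : ℕ → ℕ} (hx : x ∈ RR c f G) (hy : y ∈ RR c f G) (i : ℕ) :
    T3 x y i ∈ RR c f G := by
  have hR := (RR_RU hf hG).rc
  have h2 : Primrec (fun n : ℕ => n / 2) := Primrec.nat_div.comp Primrec.id (Primrec.const 2)
  have h : RF (RR c f G) (fun n : ℕ => if n = 0 then i else if n % 2 = 1 then x (n / 2)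
      else y (n / 2 - 1)) := by
    refine RF.ite hR (RP.eq hR (RF.of_primrec hR Primrec.id) (RF.const hR 0)) (RF.const hR i) ?_
    refine RF.ite hR (RP.eq hR (RF.of_primrec hR (Primrec.nat_mod.comp Primrec.id
      (Primrec.const 2))) (RF.const hR 1)) (RF.comp hR ((RF.mem hR).2 hx)
        (RF.of_primrec hR h2)) ?_
    exact RF.comp hR ((RF.mem hR).2 hy) (RF.of_primrec hR (f := fun n : ℕ => n / 2 - 1)
      (Primrec.nat_sub.comp h2 (Primrec.const 1)))
  exact (RF.mem hR).1 h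

/-- forced Sigma-1-3 statements about components of names go up -/
theorem Fo_U3_up [Countable M] {f g : Pl M W} (hf : Valid c f) (hg : Valid c g) (h : Sb f g)
    {z a : Nm M W} (hz : IsNm c f z) (ha : IsNm c f a) {F H : (ℕ → ℕ) → ℕ → ℕ}
    (hF : ∀ G, Gen c f G → F (ev z G) ∈ RR c f G) (hH : ∀ G, Gen c f G → H (ev a G) ∈ RR c f G)
    {p p' : Cond W} (hp : p ∈ PP c f) (hle : CLe c p' p)
    (hQ : Fo c f p (fun G => U3 (RR c f G) (F (ev z G)) (H (ev a G)))) :
    Fo c g p' (fun G => U3 (RR c g G) (F (ev z G)) (H (ev a G))) := by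
  intro G hG hp'
  have hG' := hG.restrict hf h
  have hpG : p ∈ G ∩ PP c f := ⟨hG.up _ hp' _ (PP_mono h hp) hle, hp⟩
  have h1 := U3.up_plan hf hg h hG (hF _ hG') (hH _ hG') (hQ _ hG' hpG)
  rw [ev_restrict hf h hG hz, ev_restrict hf h hG ha] at h1
  exact h1

end Pool.Agent.H.MP_a163f2_lc
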