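import Pool.Agent.H.MP_a163f2_lc.R.Good

/-!
# Block R1: good values and good reals
-/

set_option autoImplicit false
set_option linter.unusedSectionVars false

namespace Pool.Agent.H.MP_a163f2_lc

open Pool.Agent.H.MP_07d118_lc

universe u v w x

variable {M : Type u} [SetStr M] [ZF M] [Std M] {W : Type v} [LinearOrder W] [Cd M W] [Om1 M W]
variable {c : W × Hc → ℕ → ℕ} [hL : Fact (Luz M W c)]
variable {T : Type w} [Cd M T] {S : Type x} [Cd M S]

/-! ### Values -/

/-- `k t G` is a value in a coded type with an internal forcing relation. -/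
def GoodF (c : W × Hc → ℕ → ℕ) {T : Type w} [Cd M T] {S : Type x} [Cd M S] (f : T → Pl M W)
    (k : T → Set (Cond W) → S) : Prop :=
  Good c (fun y : T × S => f y.1) (fun y G => k y.1 G = y.2)

theorem GoodF.congr {f : T → Pl M W} {k k' : T → Set (Cond W) → S} (h : GoodF c f k)
    (e : ∀ t G, Gen c (f t) G → k' t G = k t G) : GoodF c f k' :=
  Good.congr h fun y G hG => by rw [e y.1 G hG]

theorem GoodF.of_if {f : T → Pl M W} {k : T → S} (h : IF M k) : GoodF c f (fun t _ => k t) :=
  Good.of_in h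

/-- substitution of a good value for a variable of the context -/
theorem Good.subst {f : T → Pl M W} {Q : T → S → Set (Cond W) → Prop}
    (h : Good c (fun y : T × S => f y.1) (fun y G => Q y.1 y.2 G)) {k : T → Set (Cond W) → S}
    (hk : GoodF c f k) : Good c f (fun t G => Q t (k t G) G) :=
  (Good.ex (Q := fun t s G => k t G = s ∧ Q t s G) (Good.and hk h)).congr
    fun _ _ _ => by simp

/-- change of the context -/
theorem GoodF_comp {U : Type*} [Cd M U] {f : T → Pl M W} {k : T → Set (Cond W) → S}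
    (hk : GoodF c f k) {g : U → T} (hg : IF M g) :
    GoodF c (fun u => f (g u)) (fun u G => k (g u) G) :=
  Good.comp (k := fun y : U × S => (g y.1, y.2)) hk ((IF.comp hg IF.fst).pair IF.snd)

theorem GoodF.subst {V : Type*} [Cd M V] {f : T → Pl M W} {k' : T → S → Set (Cond W) → V}
    (h : GoodF c (fun y : T × S => f y.1) (fun y G => k' y.1 y.2 G)) {k : T → Set (Cond W) → S}
    (hk : GoodF c f k) : GoodF c f (fun t G => k' t (k t G) G) := by
  have h1 : Good c (fun z : (T × V) × S => f z.1.1) (fun z G => k' z.1.1 z.2 G = z.1.2) :=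
    Good.comp (k := fun z : (T × V) × S => ((z.1.1, z.2), z.1.2)) h
      (((IF.comp IF.fst IF.fst).pair IF.snd).pair (IF.comp IF.snd IF.fst))
  have h2 : GoodF c (fun y : T × V => f y.1) (fun y G => k y.1 G) := GoodF_comp hk IF.fst
  exact Good.subst (T := T × V) (f := fun y : T × V => f y.1)
    (Q := fun (y : T × V) (s : S) G => k' y.1 s G = y.2) h1 h2

/-- internal functions of good values -/
theorem GoodF.map {V : Type*} [Cd M V] {f : T → Pl M W} {k : T → Set (Cond W) → S}
    (hk : GoodF c f k) {F : S → V} (hF : IF M F) : GoodF c f (fun t G => F (k t G)) := by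
  have h2 : GoodF c (fun y : T × V => f y.1) (fun y G => k y.1 G) := GoodF_comp hk IF.fst
  have h1 : Good c (fun z : (T × V) × S => f z.1.1) (fun z _ => F z.2 = z.1.2) :=
    Good.of_in (In.eq (IF.comp hF IF.snd) (IF.comp IF.snd IF.fst))
  exact Good.subst (T := T × V) (f := fun y : T × V => f y.1)
    (Q := fun (y : T × V) (s : S) _ => F s = y.2) h1 h2

theorem GoodF.pair {V : Type*} [Cd M V] {f : T → Pl M W} {k : T → Set (Cond W) → S}
    (hk : GoodF c f k) {k' : T → Set (Cond W) → V} (hk' : GoodF c f k') :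
    GoodF c f (fun t G => (k t G, k' t G)) := by
  have h1 : Good c (fun y : T × (S × V) => f y.1) (fun y G => k y.1 G = y.2.1) :=
    Good.comp (k := fun y : T × (S × V) => (y.1, y.2.1)) hk
      (IF.fst.pair (IF.comp IF.fst IF.snd))
  have h2 : Good c (fun y : T × (S × V) => f y.1) (fun y G => k' y.1 G = y.2.2) :=
    Good.comp (k := fun y : T × (S × V) => (y.1, y.2.2)) hk'
      (IF.fst.pair (IF.comp IF.snd IF.snd))
  exact (Good.and h1 h2).congr fun y G _ => Prod.ext_iff

theorem GoodF.map2 {V : Type*} [Cd M V] {U : Type*} [Cd M U] {f : T → Pl M W}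
    {k : T → Set (Cond W) → S} (hk : GoodF c f k) {k' : T → Set (Cond W) → V}
    (hk' : GoodF c f k') {F : S → V → U} (hF : IF M (fun y : S × V => F y.1 y.2)) :
    GoodF c f (fun t G => F (k t G) (k' t G)) :=
  (hk.pair hk').map hF

theorem Good.eq {f : T → Pl M W} {k k' : T → Set (Cond W) → S} (h : GoodF c f k)
    (h' : GoodF c f k') : Good c f (fun t G => k t G = k' t G) :=
  Good.subst (Q := fun t s G => k t G = s) h h'

/-- internal relations of good values -/
theorem Good.rel {f : T → Pl M W} {P : S → Prop} (hP : In M P) {k : T → Set (Cond W) → S}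
    (hk : GoodF c f k) : Good c f (fun t G => P (k t G)) :=
  Good.subst (Q := fun _ s _ => P s) (Good.of_in (In.comp hP IF.snd)) hk

/-- relations between a good value and the context -/
theorem Good_rel2 {f : T → Pl M W} {P : T → S → Prop} (hP : In M (fun y : T × S => P y.1 y.2))
    {k : T → Set (Cond W) → S} (hk : GoodF c f k) : Good c f (fun t G => P t (k t G)) :=
  Good.subst (Q := fun t s _ => P t s) (Good.of_in hP) hk

open Classical in
theorem GoodF.ite {f : T → Pl M W} (hf : IF M f) {Q : T → Set (Cond W) → Prop}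
    (hQ : Good c f Q) {k k' : T → Set (Cond W) → S} (h : GoodF c f k) (h' : GoodF c f k') :
    GoodF c f (fun t G => if Q t G then k t G else k' t G) := by
  have h1 : Good c (fun y : T × S => f y.1) (fun y G => Q y.1 G) := Good.comp hQ IF.fst
  have h2 := h1.not (IF.comp hf IF.fst)
  refine ((h1.and h).or (h2.and h')).congr fun y G _ => ?_
  by_cases hq : Q y.1 G <;> simp [hq]

open Classical in
/-- a case distinction which does not depend on the filter -/
theorem GoodF_iteI {f : T → Pl M W} {P : T → Prop} (hP : In M P)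
    {k k' : T → Set (Cond W) → S} (h : GoodF c f k) (h' : GoodF c f k') :
    GoodF c f (fun t G => if P t then k t G else k' t G) := by
  have h1 : Good c (fun y : T × S => f y.1) (fun y _ => P y.1) :=
    Good.of_in (In.comp hP IF.fst)
  have h2 : Good c (fun y : T × S => f y.1) (fun y _ => ¬ P y.1) :=
    Good.of_in (In.comp hP.not IF.fst)
  refine ((h1.and h).or (h2.and h')).congr fun y G _ => ?_
  by_cases hq : P y.1 <;> simp [hq]

/-- A good family of reals. -/
def GoodR (c : W × Hc → ℕ → ℕ) {T : Type w} [Cd M T] (f : T → Pl M W)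
    (X : T → Set (Cond W) → ℕ → ℕ) : Prop :=
  GoodF c (fun y : T × ℕ => f y.1) (fun y G => X y.1 G y.2)

theorem GoodR.app {f : T → Pl M W} {X : T → Set (Cond W) → ℕ → ℕ} (hX : GoodR c f X)
    {k : T → Set (Cond W) → ℕ} (hk : GoodF c f k) : GoodF c f (fun t G => X t G (k t G)) :=
  GoodF.subst (k' := fun t n G => X t G n) hX hk

theorem GoodR.comp {f : T → Pl M W} {X : T → Set (Cond W) → ℕ → ℕ} (hX : GoodR c f X)
    {k : S → T} (hk : IF M k) : GoodR c (fun s => f (k s)) (fun s G => X (k s) G) :=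
  GoodF_comp (g := fun y : S × ℕ => (k y.1, y.2)) hX ((IF.comp hk IF.fst).pair IF.snd)

/-! ### The values of names -/

/-- `n` has a value for the filter `G` -/
def GoodF_EX (n : Nm M W) (G : Set (Cond W)) : Prop :=
  (∀ a b : Cond W × Fs, a ∈ n → a.1 ∈ G → b ∈ n → b.1 ∈ G → a.2 <+: b.2 ∨ b.2 <+: a.2) ∧
    ∀ k : ℕ, ∃ a : Cond W × Fs, a ∈ n ∧ a.1 ∈ G ∧ k ≤ a.2.length

theorem GoodF_pre_iff {x : ℕ → ℕ} {t : Fs} :
    Pre x t ↔ ∀ i, i < t.length → x i = t.getD i 0 := by
  unfold Pre ini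
  constructor
  · intro h i hi
    have h1 : t.getD i 0 = ((List.range t.length).map x).getD i 0 := by rw [h]
    rw [h1, List.getD_eq_getElem _ _ (by simpa using hi)]
    simp
  · intro h
    apply List.ext_getElem
    · simp
    · intro i h1 h2
      rw [List.getElem_map, List.getElem_range, h i h2, List.getD_eq_getElem _ _ h2]

theorem GoodF_prefix_getD {s t : Fs} (h : s <+: t) {i : ℕ} (hi : i < s.length) :
    t.getD i 0 = s.getD i 0 := by
  obtain ⟨r, rfl⟩ := h
  rw [List.getD_eq_getElem _ _ hi, List.getD_eq_getElem _ _ (by simp; omega),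
    List.getElem_append_left hi]

theorem GoodF_ex_iff {n : Nm M W} {G : Set (Cond W)} : (∃ x, Ev n G x) ↔ GoodF_EX n G := by
  constructor
  · rintro ⟨x, h1, h2⟩
    refine ⟨?_, ?_⟩
    · rintro ⟨q, t⟩ ⟨q', t'⟩ ha hq hb hq'
      have e1 : Pre x t := h1 q t ha hq
      have e2 : Pre x t' := h1 q' t' hb hq'
      have key : ∀ s s' : Fs, Pre x s → Pre x s' → s.length ≤ s'.length → s <+: s' := by
        intro s s' hs hs' hl
        rw [List.prefix_iff_eq_take]
        apply List.ext_getElem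
        · simp [hl]
        · intro i h3 h4
          rw [List.getElem_take]
          have h5 := GoodF_pre_iff.1 hs i h3
          have h6 : i < s'.length := lt_of_lt_of_le h3 hl
          have h7 := GoodF_pre_iff.1 hs' i h6
          rw [List.getD_eq_getElem _ _ h3] at h5
          rw [List.getD_eq_getElem _ _ h6] at h7
          rw [← h5, ← h7]
      rcases le_total t.length t'.length with h | h
      · exact Or.inl (key t t' e1 e2 h)
      · exact Or.inr (key t' t e2 e1 h)
    · intro k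
      obtain ⟨q, t, h3, h4, h5⟩ := h2 k
      exact ⟨(q, t), h3, h4, h5⟩
  · rintro ⟨h1, h2⟩
    choose a ha1 ha2 ha3 using h2
    refine ⟨fun i => (a (i + 1)).2.getD i 0, ?_, ?_⟩
    · intro q t hn hq
      rw [GoodF_pre_iff]
      intro i hi
      have h3 : i < (a (i + 1)).2.length := by have := ha3 (i + 1); omega
      rcases h1 (a (i + 1)) (q, t) (ha1 _) (ha2 _) hn hq with h | h
      · exact (GoodF_prefix_getD h h3).symm
      · exact GoodF_prefix_getD h hi
    · intro k
      exact ⟨(a k).1, (a k).2, ha1 k, ha2 k, ha3 k⟩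

theorem GoodF_ev_iff {n : Nm M W} {G : Set (Cond W)} {i l : ℕ} :
    ev n G i = l ↔
      (GoodF_EX n G ∧ ∃ a : Cond W × Fs, a ∈ n ∧ a.1 ∈ G ∧ i < a.2.length ∧ a.2.getD i 0 = l) ∨
      (¬ GoodF_EX n G ∧ l = 0) := by
  by_cases h : GoodF_EX n G
  · obtain ⟨x, hx⟩ := GoodF_ex_iff.2 h
    have h0 : ∃ x, Ev n G x := ⟨x, hx⟩
    have h1 : Ev n G (ev n G) := by
      unfold ev
      rw [dif_pos h0]
      exact h0.choose_spec
    simp only [h, true_and, not_true_eq_false, false_and, or_false]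
    constructor
    · intro e
      obtain ⟨q, t, h3, h4, h5⟩ := h1.2 (i + 1)
      refine ⟨(q, t), h3, h4, by simpa using h5, ?_⟩
      rw [← e]
      exact (GoodF_pre_iff.1 (h1.1 q t h3 h4) i (by omega)).symm
    · rintro ⟨⟨q, t⟩, h3, h4, h5, h6⟩
      rw [← h6]
      exact GoodF_pre_iff.1 (h1.1 q t h3 h4) i h5
  · have h0 : ¬ ∃ x, Ev n G x := fun h' => h (GoodF_ex_iff.1 h')
    have h1 : ev n G i = 0 := by
      unfold ev
      rw [dif_neg h0]
    simp only [h, false_and, not_false_eq_true, true_and, false_or, h1]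
    exact eq_comm

theorem GoodF_EX_good {f : T → Pl M W} (hf : IF M f) {x : T → Nm M W} (hx : IF M x) :
    Good c f (fun t G => GoodF_EX (x t) G) := by
  refine Good.and ?_ ?_
  · refine Good.all hf (Q := fun (t : T) (a : Cond W × Fs) G => ∀ b : Cond W × Fs, a ∈ x t →
      a.1 ∈ G → b ∈ x t → b.1 ∈ G → a.2 <+: b.2 ∨ b.2 <+: a.2) ?_
    have hf1 : IF M (fun y : T × (Cond W × Fs) => f y.1) := IF.comp hf IF.fst
    refine Good.all (f := fun y : T × (Cond W × Fs) => f y.1) hf1
      (Q := fun (y : T × (Cond W × Fs)) (b : Cond W × Fs) G => y.2 ∈ x y.1 →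
      y.2.1 ∈ G → b ∈ x y.1 → b.1 ∈ G → y.2.2 <+: b.2 ∨ b.2 <+: y.2.2) ?_
    have hf2 : IF M (fun z : (T × (Cond W × Fs)) × (Cond W × Fs) => f z.1.1) :=
      IF.comp hf1 IF.fst
    have hx2 : IF M (fun z : (T × (Cond W × Fs)) × (Cond W × Fs) => x z.1.1) :=
      IF.comp hx (IF.comp IF.fst IF.fst)
    have ha : IF M (fun z : (T × (Cond W × Fs)) × (Cond W × Fs) => z.1.2) :=
      IF.comp IF.snd IF.fst
    have hb : IF M (fun z : (T × (Cond W × Fs)) × (Cond W × Fs) => z.2) := IF.snd
    have ha1 : IF M (fun z : (T × (Cond W × Fs)) × (Cond W × Fs) => z.1.2.1) :=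
      IF.comp IF.fst ha
    have ha2 : IF M (fun z : (T × (Cond W × Fs)) × (Cond W × Fs) => z.1.2.2) :=
      IF.comp IF.snd ha
    have hb1 : IF M (fun z : (T × (Cond W × Fs)) × (Cond W × Fs) => z.2.1) :=
      IF.comp IF.fst hb
    have hb2 : IF M (fun z : (T × (Cond W × Fs)) × (Cond W × Fs) => z.2.2) :=
      IF.comp IF.snd hb
    exact Good.imp hf2 (Good.of_in (In.mem ha hx2)) (Good.imp hf2 (Good.mem hf2 ha1)
      (Good.imp hf2 (Good.of_in (In.mem hb hx2)) (Good.imp hf2 (Good.mem hf2 hb1)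
      (Good.of_in ((In.ipre ha2 hb2).or (In.ipre hb2 ha2))))))
  · refine Good.all hf (Q := fun (t : T) (k : ℕ) G => ∃ a : Cond W × Fs, a ∈ x t ∧ a.1 ∈ G ∧
      k ≤ a.2.length) ?_
    refine Good.ex (f := fun y : T × ℕ => f y.1) (Q := fun (y : T × ℕ) (a : Cond W × Fs) G =>
      a ∈ x y.1 ∧ a.1 ∈ G ∧ y.2 ≤ a.2.length) ?_
    have hx2 : IF M (fun z : (T × ℕ) × (Cond W × Fs) => x z.1.1) :=
      IF.comp hx (IF.comp IF.fst IF.fst)
    have ha : IF M (fun z : (T × ℕ) × (Cond W × Fs) => z.2) := IF.snd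
    have ha1 : IF M (fun z : (T × ℕ) × (Cond W × Fs) => z.2.1) := IF.comp IF.fst ha
    have ha2 : IF M (fun z : (T × ℕ) × (Cond W × Fs) => z.2.2) := IF.comp IF.snd ha
    have hk : IF M (fun z : (T × ℕ) × (Cond W × Fs) => z.1.2) := IF.comp IF.snd IF.fst
    exact Good.and (Good.of_in (In.mem ha hx2)) (Good.and
      (Good.mem (IF.comp hf (IF.comp IF.fst IF.fst)) ha1)
      (Good.of_in (In.le hk (IF.length ha2))))

theorem GoodF_ev_good {f : T → Pl M W} (hf : IF M f) {x : T → Nm M W} (hx : IF M x)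
    {i l : T → ℕ} (hi : IF M i) (hl : IF M l) :
    Good c f (fun t G => ev (x t) G (i t) = l t) := by
  have h1 : Good c f (fun t G => GoodF_EX (x t) G) := GoodF_EX_good hf hx
  have h2 : Good c f (fun t G => ∃ a : Cond W × Fs, a ∈ x t ∧ a.1 ∈ G ∧ i t < a.2.length ∧
      a.2.getD (i t) 0 = l t) := by
    refine Good.ex (Q := fun (t : T) (a : Cond W × Fs) G => a ∈ x t ∧ a.1 ∈ G ∧
      i t < a.2.length ∧ a.2.getD (i t) 0 = l t) ?_
    have hx2 : IF M (fun z : T × (Cond W × Fs) => x z.1) := IF.comp hx IF.fst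
    have ha : IF M (fun z : T × (Cond W × Fs) => z.2) := IF.snd
    have ha1 : IF M (fun z : T × (Cond W × Fs) => z.2.1) := IF.comp IF.fst ha
    have ha2 : IF M (fun z : T × (Cond W × Fs) => z.2.2) := IF.comp IF.snd ha
    have hi2 : IF M (fun z : T × (Cond W × Fs) => i z.1) := IF.comp hi IF.fst
    have hl2 : IF M (fun z : T × (Cond W × Fs) => l z.1) := IF.comp hl IF.fst
    exact Good.and (Good.of_in (In.mem ha hx2)) (Good.and (Good.mem (IF.comp hf IF.fst) ha1)
      (Good.and (Good.of_in (In.lt hi2 (IF.length ha2)))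
        (Good.of_in (In.eq (IF.getD ha2 hi2) hl2))))
  exact ((h1.and h2).or ((h1.not hf).and (Good.of_in (In.eq hl (IF.const 0))))).congr
    fun t G _ => GoodF_ev_iff

/-- the value of a name (no hypothesis on `x t`: the statement that `x t` has a value is good) -/
theorem GoodR.ev {f : T → Pl M W} (hf : IF M f) {x : T → Nm M W} (hx : IF M x) :
    GoodR c f (fun t G => ev (x t) G) :=
  GoodF_ev_good (T := (T × ℕ) × ℕ) (f := fun z => f z.1.1) (x := fun z => x z.1.1)
    (i := fun z => z.1.2) (l := fun z => z.2) (IF.comp hf (IF.comp IF.fst IF.fst))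
    (IF.comp hx (IF.comp IF.fst IF.fst)) (IF.comp IF.snd IF.fst) IF.snd

theorem GoodF_ini_iff {x : ℕ → ℕ} {k : ℕ} {u : Fs} :
    ini x k = u ↔ k = u.length ∧ ∀ i : ℕ, i < u.length → x i = u.getD i 0 := by
  constructor
  · rintro rfl
    refine ⟨by simp [ini], ?_⟩
    exact GoodF_pre_iff.1 (by unfold Pre ini; simp)
  · rintro ⟨rfl, h⟩
    exact GoodF_pre_iff.2 h

theorem GoodF.ini {f : T → Pl M W} (hf : IF M f) {X : T → Set (Cond W) → ℕ → ℕ}
    (hX : GoodR c f X) {k : T → Set (Cond W) → ℕ} (hk : GoodF c f k) :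
    GoodF c f (fun t G => ini (X t G) (k t G)) := by
  have hf1 : IF M (fun y : T × Fs => f y.1) := IF.comp hf IF.fst
  have h1 : Good c (fun y : T × Fs => f y.1) (fun y G => k y.1 G = y.2.length) :=
    Good.comp (k := fun y : T × Fs => (y.1, y.2.length)) hk (IF.fst.pair (IF.length IF.snd))
  have h2 : Good c (fun y : T × Fs => f y.1) (fun y G => ∀ i : ℕ, i < y.2.length →
      X y.1 G i = y.2.getD i 0) := by
    refine Good.all hf1 (Q := fun (y : T × Fs) (i : ℕ) G => i < y.2.length →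
      X y.1 G i = y.2.getD i 0) ?_
    refine Good.imp (IF.comp hf1 IF.fst) (Good.of_in (In.lt IF.snd (IF.length
      (IF.comp IF.snd IF.fst)))) ?_
    exact Good.comp (k := fun z : (T × Fs) × ℕ => ((z.1.1, z.2), z.1.2.getD z.2 0)) hX
      (((IF.comp IF.fst IF.fst).pair IF.snd).pair (IF.getD (IF.comp IF.snd IF.fst) IF.snd))
  exact (h1.and h2).congr fun y G _ => GoodF_ini_iff

theorem GoodF.cd {f : T → Pl M W} (hf : IF M f) {X : T → Set (Cond W) → ℕ → ℕ}
    (hX : GoodR c f X) {k : T → Set (Cond W) → ℕ} (hk : GoodF c f k) :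
    GoodF c f (fun t G => cd (X t G) (k t G)) :=
  (GoodF.ini hf hX hk).map (F := fun u : Fs => Encodable.encode u) CdP.enc

theorem GoodF_appI {f : T → Pl M W} {X : T → Set (Cond W) → ℕ → ℕ} (hX : GoodR c f X)
    {i : ℕ → ℕ} (hi : IF M i) : GoodR c f (fun t G n => X t G (i n)) :=
  GoodR.app (T := T × ℕ) (f := fun y : T × ℕ => f y.1) (X := fun y G => X y.1 G)
    (k := fun y _ => i y.2) (GoodR.comp hX IF.fst) (GoodF.of_if (IF.comp hi IF.snd))

theorem GoodR.jn {f : T → Pl M W} {X Y : T → Set (Cond W) → ℕ → ℕ} (hX : GoodR c f X)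
    (hY : GoodR c f Y) : GoodR c f (fun t G => jn (X t G) (Y t G)) := by
  have hd : IF M (fun n : ℕ => n / 2) :=
    IF.prim (Primrec.nat_div.comp Primrec.id (Primrec.const 2))
  have hP : In M (fun n : ℕ => n % 2 = 0) :=
    In.eq (IF.prim (Primrec.nat_mod.comp Primrec.id (Primrec.const 2))) (IF.const 0)
  have h1 : GoodF c (fun y : T × ℕ => f y.1) (fun y G => X y.1 G (y.2 / 2)) := GoodF_appI hX hd
  have h2 : GoodF c (fun y : T × ℕ => f y.1) (fun y G => Y y.1 G (y.2 / 2)) := GoodF_appI hY hd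
  refine (GoodF_iteI (P := fun y : T × ℕ => y.2 % 2 = 0) (In.comp hP IF.snd) h1 h2).congr
    fun y G _ => ?_
  by_cases h : y.2 % 2 = 0 <;> simp [MP_a163f2_lc.jn, h]

theorem GoodR.zx {f : T → Pl M W} {X : T → Set (Cond W) → ℕ → ℕ} (hX : GoodR c f X) :
    GoodR c f (fun t G => zx (X t G)) :=
  GoodF_appI hX (i := fun n => 2 * n + 1) (IF.succ' (IF.mul (IF.const 2) IF.id))

theorem GoodR.za {f : T → Pl M W} {X : T → Set (Cond W) → ℕ → ℕ} (hX : GoodR c f X) :
    GoodR c f (fun t G => za (X t G)) :=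
  GoodF_appI hX (i := fun n => 2 * n + 2) (IF.succ' (IF.succ' (IF.mul (IF.const 2) IF.id)))

theorem Good.eqR {f : T → Pl M W} (hf : IF M f) {X Y : T → Set (Cond W) → ℕ → ℕ}
    (hX : GoodR c f X) (hY : GoodR c f Y) : Good c f (fun t G => X t G = Y t G) :=
  (Good.all hf (Q := fun (t : T) (n : ℕ) G => X t G n = Y t G n) (Good.eq hX hY)).congr
    fun _ _ _ => funext_iff

end Pool.Agent.H.MP_a163f2_lc
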