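import Pool.Agent.H.MP_a163f2_lc.R.Ct

/-!
# Block R, part D1: closed points, and the countable chain condition for internal families
-/

set_option autoImplicit false
set_option linter.unusedSectionVars false

namespace Pool.Agent.H.MP_a163f2_lc

open Pool.Agent.H.MP_07d118_lc

universe u v w x

variable {M : Type u} [SetStr M] [ZFC M] [Std M] {W : Type v} [LinearOrder W] [Cd M W] [Om1 M W]
variable {c : W × Hc → ℕ → ℕ} [hL : Fact (Luz M W c)]
variable {T : Type w} [Cd M T] {S : Type x} [Cd M S]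

/-- the supremum of an internal sequence -/
theorem exists_supW {g : ℕ → W} (hg : IF M g) : ∃ δ : W, (∀ n, g n < δ) ∧ ∀ ζ < δ, ∃ n, ζ ≤ g n := by
  obtain ⟨δ₀, h₀⟩ := Om1.bdd (M := M) g hg
  obtain ⟨δ, h1, h2⟩ := WellFounded.has_min (Om1.wf (M := M) (W := W)) {δ | ∀ n, g n < δ} ⟨δ₀, h₀⟩
  refine ⟨δ, h1, fun ζ hζ => ?_⟩
  by_contra hcon
  push Not at hcon
  exact h2 ζ hcon hζ

/-- points closed under a monotone internal relation -/
theorem exists_closedW {R : W → W → Prop} (hR : In M (fun y : W × W => R y.1 y.2))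
    (hex : ∀ ζ, ∃ η, R ζ η) (hup : ∀ ζ η η', R ζ η → η ≤ η' → R ζ η')
    (hdn : ∀ ζ ζ' η, R ζ η → ζ' ≤ ζ → R ζ' η) (ζ₀ : W) :
    ∃ δ : W, ζ₀ < δ ∧ ∀ ζ < δ, ∃ η < δ, ζ < η ∧ R ζ η := by
  obtain ⟨k, hk, hkR⟩ := In.choice (R := fun ζ η : W => ζ < η ∧ R ζ η)
    (In.and (In.ltW IF.fst IF.snd) hR) (by
      intro ζ
      obtain ⟨η, h1⟩ := hex ζ
      obtain ⟨η', h2⟩ := Om1.bdd (M := M) (fun _ : ℕ => max ζ η) (IF.const _)
      have h3 := h2 0
      exact ⟨η', lt_of_le_of_lt (le_max_left _ _) h3,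
        hup _ _ _ h1 (lt_of_le_of_lt (le_max_right _ _) h3).le⟩)
  have hg : IF M (fun n : ℕ => Nat.rec (motive := fun _ => W) ζ₀ (fun _ ζ => k ζ) n) :=
    IF.comp (IF.natRec (S := ℕ) (T := W) (a := fun _ => ζ₀) (IF.const ζ₀)
      (g := fun y => k y.2.2) (IF.comp hk (IF.comp IF.snd IF.snd)))
      (f := fun n : ℕ => ((0 : ℕ), n)) ((IF.const 0).pair IF.id)
  obtain ⟨g, hgd⟩ : ∃ g : ℕ → W, g = fun n : ℕ =>
    Nat.rec (motive := fun _ => W) ζ₀ (fun _ ζ => k ζ) n := ⟨_, rfl⟩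
  have hg0 : g 0 = ζ₀ := by rw [hgd]; rfl
  have hgS : ∀ n, g (n + 1) = k (g n) := fun n => by rw [hgd]
  rw [← hgd] at hg
  obtain ⟨δ, h1, h2⟩ := exists_supW hg
  refine ⟨δ, hg0 ▸ h1 0, fun ζ hζ => ?_⟩
  obtain ⟨n, hn⟩ := h2 ζ hζ
  refine ⟨g (n + 1), h1 _, ?_, ?_⟩
  · rw [hgS]
    exact lt_of_le_of_lt hn (hkR (g n)).1
  · rw [hgS]
    exact hdn _ _ _ (hkR (g n)).2 hn

/-- the stem of the condition `p`, restricted to the nodes below `ζ` -/
def sty (ζ : W) (p : Cond W) : Finset (W × Fs) := p.1.filter (fun x => x.1 < ζ)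

theorem mem_sty {ζ : W} {p : Cond W} {x : W × Fs} : x ∈ sty ζ p ↔ x ∈ p.1 ∧ x.1 < ζ := by
  unfold sty
  rw [Finset.mem_filter]

theorem IF.sty {ζ : T → W} (hζ : IF M ζ) {p : T → Cond W} (hp : IF M p) :
    IF M (fun t => MP_a163f2_lc.sty (ζ t) (p t)) :=
  IF.ffilter (P := fun t (x : W × Fs) => x.1 < ζ t) (IF.comp IF.fst hp)
    (In.ltW (IF.comp IF.fst IF.snd) (IF.comp hζ IF.fst))

/-- the countable chain condition: in an internal family of conditions indexed by the first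
uncountable ordinal there are two compatible ones -/
theorem ccc {p : W → Cond W} (hp : IF M p) :
    ∃ α β, α < β ∧ CLe c (cup (p α) (p β)) (p α) ∧ CLe c (cup (p α) (p β)) (p β) := by
  -- the bound for one type
  have hQ : In M (fun y : (W × Finset (W × Fs)) × W =>
      (∃ α, y.1.1 < α ∧ sty y.1.1 (p α) = y.1.2) →
      ∃ α, y.1.1 < α ∧ α < y.2 ∧ sty y.1.1 (p α) = y.1.2 ∧ Bd y.2 (p α)) := by
    refine In.imp ?_ ?_
    · refine In.ex (P := fun (y : (W × Finset (W × Fs)) × W) (α : W) =>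
        y.1.1 < α ∧ sty y.1.1 (p α) = y.1.2) (In.and ?_ (In.eq ?_ ?_))
      · exact In.ltW (IF.comp IF.fst (IF.comp IF.fst IF.fst)) IF.snd
      · exact IF.sty (IF.comp IF.fst (IF.comp IF.fst IF.fst)) (IF.comp hp IF.snd)
      · exact IF.comp IF.snd (IF.comp IF.fst IF.fst)
    · refine In.ex (P := fun (y : (W × Finset (W × Fs)) × W) (α : W) =>
        y.1.1 < α ∧ α < y.2 ∧ sty y.1.1 (p α) = y.1.2 ∧ Bd y.2 (p α))
        (In.and ?_ (In.and ?_ (In.and (In.eq ?_ ?_) ?_)))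
      · exact In.ltW (IF.comp IF.fst (IF.comp IF.fst IF.fst)) IF.snd
      · exact In.ltW IF.snd (IF.comp IF.snd IF.fst)
      · exact IF.sty (IF.comp IF.fst (IF.comp IF.fst IF.fst)) (IF.comp hp IF.snd)
      · exact IF.comp IF.snd (IF.comp IF.fst IF.fst)
      · exact In.bd (IF.comp IF.snd IF.fst) (IF.comp hp IF.snd)
  obtain ⟨B, hB, hBR⟩ := In.choice (R := fun (y : W × Finset (W × Fs)) (η : W) =>
    (∃ α, y.1 < α ∧ sty y.1 (p α) = y.2) →
      ∃ α, y.1 < α ∧ α < η ∧ sty y.1 (p α) = y.2 ∧ Bd η (p α)) hQ (by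
      intro y
      by_cases h : ∃ α, y.1 < α ∧ sty y.1 (p α) = y.2
      · obtain ⟨α, h1, h2⟩ := h
        obtain ⟨ζ, hζ⟩ := exists_Bd M (p α)
        obtain ⟨η, hη⟩ := Om1.bdd (M := M) (fun _ : ℕ => max α ζ) (IF.const _)
        have h3 := hη 0
        exact ⟨η, fun _ => ⟨α, h1, lt_of_le_of_lt (le_max_left _ _) h3, h2,
          hζ.mono (lt_of_le_of_lt (le_max_right _ _) h3).le⟩⟩
      · exact ⟨y.1, fun h' => absurd h' h⟩)
  -- the bound for all types below `ζ`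
  obtain ⟨ζ₀⟩ := Om1.ne (M := M) (W := W)
  obtain ⟨δ, hδ₀, hδ⟩ := exists_closedW (M := M) (R := fun ζ η : W => ∀ y : W × Finset (W × Fs),
    y.1 ≤ ζ → (∀ x ∈ y.2, x.1 < y.1) → B y ≤ η) (by
      refine In.all (P := fun (z : W × W) (y : W × Finset (W × Fs)) => y.1 ≤ z.1 →
        (∀ x ∈ y.2, x.1 < y.1) → B y ≤ z.2) (In.imp ?_ (In.imp ?_ ?_))
      · exact In.leW (IF.comp IF.fst IF.snd) (IF.comp IF.fst IF.fst)
      · refine In.all (P := fun (z : (W × W) × (W × Finset (W × Fs))) (x : W × Fs) =>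
          x ∈ z.2.2 → x.1 < z.2.1) (In.imp ?_ ?_)
        · exact In.fmem IF.snd (IF.comp IF.snd (IF.comp IF.snd IF.fst))
        · exact In.ltW (IF.comp IF.fst IF.snd) (IF.comp IF.fst (IF.comp IF.snd IF.fst))
      · exact In.leW (IF.comp hB IF.snd) (IF.comp IF.snd IF.fst))
    (by
      intro ζ
      have hA : In M (fun y : W × Finset (W × Fs) => y ∈ {y : W × Finset (W × Fs) |
          y.1 ≤ ζ ∧ ∀ x ∈ y.2, x.1 < y.1}) := by
        refine In.and (In.leW IF.fst (IF.const ζ)) ?_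
        refine In.all (P := fun (z : W × Finset (W × Fs)) (x : W × Fs) =>
          x ∈ z.2 → x.1 < z.1) (In.imp ?_ ?_)
        · exact In.fmem IF.snd (IF.comp IF.snd IF.fst)
        · exact In.ltW (IF.comp IF.fst IF.snd) (IF.comp IF.fst IF.fst)
      obtain ⟨ζ', hζ'⟩ := Om1.bdd (M := M) (fun _ : ℕ => ζ) (IF.const _)
      have h1 : ζ < ζ' := hζ' 0
      obtain ⟨η, hη⟩ := ICt.bdd (M := M) (((ICt.below ζ').prod (ICt.stems ζ')).mono (by
        rintro ⟨a, s⟩ ⟨h2, h3⟩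
        exact ⟨lt_of_le_of_lt h2 h1, fun x hx => ((h3 x hx).trans_le h2).trans h1⟩)) hA hB
      exact ⟨η, fun y h2 h3 => (hη y ⟨h2, h3⟩).le⟩)
    (fun ζ η η' h h' y h1 h2 => (h y h1 h2).trans h')
    (fun ζ ζ' η h h' y h1 h2 => h y (h1.trans h') h2) ζ₀
  -- all nodes below `δ` of the condition with index `δ` are below some `ζ < δ`
  have hnode : ∀ s : Finset W, (∀ a ∈ s, a < δ) → ∃ ζ < δ, ∀ a ∈ s, a < ζ := by
    intro s
    classical
    induction s using Finset.induction_on with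
    | empty =>
      intro _
      obtain ⟨η, hη, -⟩ := hδ ζ₀ hδ₀
      exact ⟨η, hη, fun a ha => absurd ha (Finset.notMem_empty a)⟩
    | insert a s _ ih =>
      intro h
      obtain ⟨ζ, hζ, h1⟩ := ih fun b hb => h b (Finset.mem_insert_of_mem hb)
      have ha : max a ζ < δ := max_lt (h a (Finset.mem_insert_self a s)) hζ
      obtain ⟨η, hη, h2, -⟩ := hδ _ ha
      refine ⟨η, hη, fun b hb => ?_⟩
      rcases Finset.mem_insert.1 hb with rfl | hb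
      · exact lt_of_le_of_lt (le_max_left _ _) h2
      · exact (h1 b hb).trans (lt_of_le_of_lt (le_max_right _ _) h2)
  classical
  obtain ⟨ζ, hζ, hN⟩ := hnode (((p δ).1.image (fun x => x.1) ∪ (p δ).2.image (fun x => x.1)).filter
    (fun a => a < δ)) fun a ha => (Finset.mem_filter.1 ha).2
  have hN1 : ∀ ν m, (ν, m) ∈ (p δ).1 → ν < δ → ν < ζ := fun ν m h h' =>
    hN ν (Finset.mem_filter.2 ⟨Finset.mem_union_left _ (Finset.mem_image.2 ⟨_, h, rfl⟩), h'⟩)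
  have hN2 : ∀ ν κ, (ν, κ) ∈ (p δ).2 → ν < δ → ν < ζ := fun ν κ h h' =>
    hN ν (Finset.mem_filter.2 ⟨Finset.mem_union_right _ (Finset.mem_image.2 ⟨_, h, rfl⟩), h'⟩)
  obtain ⟨η, hη, -, hBη⟩ := hδ ζ hζ
  obtain ⟨α, h1, h2, h3, h4⟩ := hBR (ζ, sty ζ (p δ)) ⟨δ, hζ, rfl⟩
  have h5 : B (ζ, sty ζ (p δ)) < δ :=
    lt_of_le_of_lt (hBη (ζ, sty ζ (p δ)) le_rfl fun x hx => (mem_sty.1 hx).2) hη
  simp only at h1 h3
  refine ⟨α, δ, h2.trans h5, ⟨?_, ?_, ?_⟩, ?_, ?_, ?_⟩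
  · exact fun x hx => mem_cup1.2 (Or.inl hx)
  · exact fun x hx => mem_cup2.2 (Or.inl hx)
  · intro ν m hm hm' κ hκ
    exfalso
    have h6 := (mem_cup1.1 hm).resolve_left hm'
    obtain ⟨ξ, h⟩ := κ
    have h7 : ν < δ := (h4.2 ν ξ h hκ).1.trans h5
    have h8 : (ν, m) ∈ sty ζ (p δ) := mem_sty.2 ⟨h6, hN1 ν m h6 h7⟩
    rw [← h3] at h8
    exact hm' (mem_sty.1 h8).1
  · exact fun x hx => mem_cup1.2 (Or.inr hx)
  · exact fun x hx => mem_cup2.2 (Or.inr hx)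
  · intro ν m hm hm' κ hκ
    exfalso
    have h6 := (mem_cup1.1 hm).resolve_right hm'
    have h7 : ν < δ := (h4.1 ν m h6).trans h5
    have h8 : (ν, m) ∈ sty ζ (p α) := mem_sty.2 ⟨h6, hN2 ν κ hκ h7⟩
    rw [h3] at h8
    exact hm' (mem_sty.1 h8).1

end Pool.Agent.H.MP_a163f2_lc
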