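import Pool.Agent.H.MP_a163f2_lc.Iface

/-!
# Block R: definitions (blueprint, sections 1 to 5)
-/

set_option autoImplicit false
set_option linter.unusedSectionVars false

namespace Pool.Agent.H.MP_a163f2_lc

open Pool.Agent.H.MP_07d118_lc

universe u v

/-- Conditions: the stem (a finite set of pairs `(ν, m)`, saying `m ∈ y_ν`) and the promises
(a finite set of triples `(ν, ξ, h)`). -/
abbrev Cond (W : Type v) : Type v := Finset (W × Fs) × Finset (W × W × Hc)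

section cond

variable {W : Type v} [LinearOrder W]

/-- The order of the conditions, given the family of reals `c`. -/
def CLe (c : W × Hc → ℕ → ℕ) (p' p : Cond W) : Prop :=
  p.1 ⊆ p'.1 ∧ p.2 ⊆ p'.2 ∧
    ∀ ν m, (ν, m) ∈ p'.1 → (ν, m) ∉ p.1 → ∀ κ, (ν, κ) ∈ p.2 → ¬ Pre (c κ) m

/-- all indices occurring in `p` are smaller than `ζ` -/
def Bd (ζ : W) (p : Cond W) : Prop :=
  (∀ ν m, (ν, m) ∈ p.1 → ν < ζ) ∧ ∀ ν ξ h, (ν, ξ, h) ∈ p.2 → ν < ζ ∧ ξ < ζ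

/-- union of conditions -/
def cup (p q : Cond W) : Cond W := (p.1 ∪ q.1, p.2 ∪ q.2)

open Classical in
/-- restriction of a condition to the nodes in `A` -/
noncomputable def crs (A : Set W) (p : Cond W) : Cond W :=
  (p.1.filter (fun x => x.1 ∈ A), p.2.filter (fun x => x.1 ∈ A))

end cond

section plans

variable (M : Type u) [SetStr M] [ZF M] [Std M] (W : Type v) [LinearOrder W] [Cd M W]

/-- Names of reals, and plans. -/
abbrev Nm : Type v := ISet M (Cond W × Fs)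
abbrev Pl : Type v := ISet M (W × Cond W × Fs)

variable {M W}

/-- the domain of a plan -/
def Pl.dom (f : Pl M W) : Set W := {ν | ∃ q t, (ν, q, t) ∈ f}

/-- the name of the node `ν` in the plan `f` -/
noncomputable def Pl.nm (f : Pl M W) (ν : W) : Nm M W :=
  ISet.mk (P := fun x : Cond W × Fs => (ν, x.1, x.2) ∈ f)
    (In.mem ((IF.const ν).pair IF.id) (IF.const f))

/-- The forcing of a plan. -/
def PP (c : W × Hc → ℕ → ℕ) (f : Pl M W) : Set (Cond W) :=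
  {p | (∀ ν m, (ν, m) ∈ p.1 → ν ∈ f.dom) ∧ ∀ ν κ, (ν, κ) ∈ p.2 →
    ∃ q t, (ν, q, t) ∈ f ∧ CLe c p q ∧ ∃ u ∈ κ.2.1, u <+: t}

/-- `x` is a name of a real over the plan `f`. -/
structure IsNm (c : W × Hc → ℕ → ℕ) (f : Pl M W) (x : Nm M W) : Prop where
  sub : ∀ q t, (q, t) ∈ x → q ∈ PP c f
  cons : ∀ q t q' t', (q, t) ∈ x → (q', t') ∈ x → ∀ r ∈ PP c f, CLe c r q → CLe c r q' →
    t <+: t' ∨ t' <+: t
  tot : ∀ n : ℕ, ∀ p ∈ PP c f, ∃ r ∈ PP c f, CLe c r p ∧ ∃ q t, (q, t) ∈ x ∧ CLe c r q ∧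
    n ≤ t.length
  bdd : ∃ ζ : W, ∀ q t, (q, t) ∈ x → Bd ζ q

/-- `f` is a valid plan. -/
structure Valid (c : W × Hc → ℕ → ℕ) (f : Pl M W) : Prop where
  bdd : ∃ ζ : W, ∀ ν q t, (ν, q, t) ∈ f → ν < ζ ∧ Bd ζ q
  nm : ∀ ν ∈ f.dom, IsNm c f (f.nm ν)

/-- `f` is a subplan of `g`. -/
def Sb (f g : Pl M W) : Prop := (∀ x, x ∈ f → x ∈ g) ∧ ∀ ν q t, ν ∈ f.dom → (ν, q, t) ∈ g → (ν, q, t) ∈ f

/-- Generic filters of the forcing of a plan. -/
structure Gen (c : W × Hc → ℕ → ℕ) (f : Pl M W) (G : Set (Cond W)) : Prop where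
  sub : ∀ p ∈ G, p ∈ PP c f
  ne : G.Nonempty
  up : ∀ p ∈ G, ∀ q ∈ PP c f, CLe c p q → q ∈ G
  dir : ∀ p ∈ G, ∀ q ∈ G, ∃ r ∈ G, CLe c r p ∧ CLe c r q
  meets : ∀ D : ISet M (Cond W), (∀ p ∈ PP c f, ∃ q ∈ PP c f, CLe c q p ∧ q ∈ D) →
    ∃ p ∈ G, p ∈ D

/-- `x` is the value of the name `n`. -/
def Ev (n : Nm M W) (G : Set (Cond W)) (x : ℕ → ℕ) : Prop :=
  (∀ q t, (q, t) ∈ n → q ∈ G → Pre x t) ∧ ∀ k, ∃ q t, (q, t) ∈ n ∧ q ∈ G ∧ k ≤ t.length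

open Classical in
/-- the value of a name -/
noncomputable def ev (n : Nm M W) (G : Set (Cond W)) : ℕ → ℕ :=
  if h : ∃ x, Ev n G x then h.choose else fun _ => 0

/-- the reals of the extension -/
def RR (c : W × Hc → ℕ → ℕ) (f : Pl M W) (G : Set (Cond W)) : Set (ℕ → ℕ) :=
  {x | ∃ n : Nm M W, IsNm c f n ∧ ev n G = x}

/-- the generic set added at the node `ν` -/
def yy (G : Set (Cond W)) (ν : W) : Set Fs := {m | ∃ p ∈ G, (ν, m) ∈ p.1}

/-- the set of finite sequences coded by a real -/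
def fset (y : ℕ → ℕ) : Set Fs := {m | y (Encodable.encode m) = 1}

/-- `Y` codes the real `z`. -/
def CodS (c : W × Hc → ℕ → ℕ) (Y : Set Fs) (z : ℕ → ℕ) : Prop :=
  ∀ κ : W × Hc, (Y ∩ {m | Pre (c κ) m}).Finite ↔ Clo κ.2 z

/-- the real `y` codes the real `z` -/
def Cod (c : W × Hc → ℕ → ℕ) (y z : ℕ → ℕ) : Prop := CodS c (fset y) z

/-- `p` forces `Q` (a property of the generic filter) over the plan `f`. -/
def Fo (c : W × Hc → ℕ → ℕ) (f : Pl M W) (p : Cond W) (Q : Set (Cond W) → Prop) : Prop :=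
  ∀ G, Gen c f G → p ∈ G → Q G

end plans

section rules

variable {M : Type u} [SetStr M] [ZF M] [Std M] {W : Type v} [LinearOrder W] [Cd M W]

variable (M W) in
/-- Items: plan, key, condition, permission real. -/
abbrev Item : Type v := Pl M W × Nm M W × Cond W × Nm M W

/-- Some future in `A` of `(g,p)` puts the real `zx z` into the first set of the key. -/
def Fut (c : W × Hc → ℕ → ℕ) (I : Item M W) (A : Set (Pl M W)) (g : Pl M W) (p : Cond W)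
    (z : Nm M W) : Prop :=
  ∃ g' ∈ A, Sb g g' ∧ ∃ p' ∈ PP c g', CLe c p' p ∧
    Fo c g' p' (fun G => U3 (RR c g' G) (zx (ev z G)) (zx (ev I.2.1 G)))

/-- The plan `g` obeys the item `I`, where `A` is the class of the futures. -/
def Obey (c : W × Hc → ℕ → ℕ) (I : Item M W) (A : Set (Pl M W)) (g : Pl M W) : Prop :=
  ∀ ν ∈ g.dom, ν ∉ I.1.dom → ∀ i < 2, ∀ p ∈ PP c g, CLe c p I.2.2.1 →
    Fo c g p (fun G => za (ev (g.nm ν) G) = ev I.2.1 G ∧ ev (g.nm ν) G 0 = i) →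
    (Fo c g p (fun G => ev I.2.1 G 0 = 0) →
      (i = 0 → ∀ p₁ ∈ PP c g, CLe c p₁ p → Fut c I A g p₁ (g.nm ν)) ∧
      (i = 1 → ¬ Fut c I A g p (g.nm ν))) ∧
    (Fo c g p (fun G => ev I.2.1 G 0 ≠ 0) →
      Fo c g p (fun G => ev I.2.2.2 G (2 * zx (ev (g.nm ν) G) 0 + i) = 1))

/-- The legal plans with respect to the items before `κ`, given the classes for smaller ordinals. -/
def AlF (c : W × Hc → ℕ → ℕ) (it : W → Item M W) (κ : W) (F : ∀ η, η < κ → Set (Pl M W)) :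
    Set (Pl M W) :=
  {g | Valid c g ∧ ∀ η, ∀ h : η < κ, Sb (it η).1 g ∧ Obey c (it η) (F η h) g}

/-- The legal plans with respect to the items before `κ`. -/
noncomputable def Al (hw : WellFounded ((· < ·) : W → W → Prop)) (c : W × Hc → ℕ → ℕ)
    (it : W → Item M W) (κ : W) : Set (Pl M W) := hw.fix (AlF c it) κ

theorem mem_Al {hw : WellFounded ((· < ·) : W → W → Prop)} {c : W × Hc → ℕ → ℕ}
    {it : W → Item M W} {κ : W} {g : Pl M W} :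
    g ∈ Al hw c it κ ↔ Valid c g ∧ ∀ η < κ, Sb (it η).1 g ∧ Obey c (it η) (Al hw c it η) g := by
  unfold Al
  rw [hw.fix_eq]
  rfl

/-- The real `w` lists (as codes) the reals `zx (a_η)` of the effective order items before `κ`. -/
def ListOK (it : W → Item M W) (κ : W) (G : Set (Cond W)) (w : ℕ → ℕ) : Prop :=
  (∀ n, (w (2 * n) = 1 ∧ w (2 * n + 1) = 0) ∨ (w (2 * n) = 0 ∧ w (2 * n + 1) = 1)) ∧
  (∀ η < κ, (it η).2.2.1 ∈ G → ev (it η).2.1 G 0 = 1 → ∃ j, ∀ n,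
    w (2 * Encodable.encode [j, n, zx (ev (it η).2.1 G) n] + 1) = 1) ∧
  ∀ j, (∃ k, w (2 * Encodable.encode [j, 0, k] + 1) = 1) → ∃ η < κ, (it η).2.2.1 ∈ G ∧
    ev (it η).2.1 G 0 = 1 ∧ ∀ n k, w (2 * Encodable.encode [j, n, k] + 1) = 1 ↔
      k = zx (ev (it η).2.1 G) n

/-- Validity of the item with index `κ`. -/
structure VItem (hw : WellFounded ((· < ·) : W → W → Prop)) (c : W × Hc → ℕ → ℕ)
    (it : W → Item M W) (κ : W) : Prop where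
  al : (it κ).1 ∈ Al hw c it κ
  key : IsNm c (it κ).1 (it κ).2.1
  cond : (it κ).2.2.1 ∈ PP c (it κ).1
  perm : IsNm c (it κ).1 (it κ).2.2.2
  fresh : ∀ η < κ, ∀ r ∈ PP c (it κ).1, CLe c r (it κ).2.2.1 → CLe c r (it η).2.2.1 →
    ¬ Fo c (it κ).1 r (fun G => ev (it κ).2.1 G = ev (it η).2.1 G)
  flag :
    -- side item
    (Fo c (it κ).1 (it κ).2.2.1 (fun G => ev (it κ).2.1 G 0 = 0) ∧
      ¬ ∃ g ∈ Al hw c it κ, Sb (it κ).1 g ∧ ∃ p' ∈ PP c g, CLe c p' (it κ).2.2.1 ∧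
        Fo c g p' (fun G => ∃ x ∈ RR c g G, U3 (RR c g G) x (zx (ev (it κ).2.1 G)) ∧
          U3 (RR c g G) x (za (ev (it κ).2.1 G)))) ∨
    -- order item
    (Fo c (it κ).1 (it κ).2.2.1 (fun G => ev (it κ).2.1 G 0 = 1 ∧ za (ev (it κ).2.1 G) = 0 ∧
      ListOK it κ G (ev (it κ).2.2.2 G))) ∨
    -- diagonal item
    (Fo c (it κ).1 (it κ).2.2.1 (fun G => ev (it κ).2.1 G 0 = 2) ∧
      (∀ ν ∈ (it κ).1.dom, ∀ i < 2, Fo c (it κ).1 (it κ).2.2.1 (fun G =>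
        ¬ (za (ev ((it κ).1.nm ν) G) = ev (it κ).2.1 G ∧ ev ((it κ).1.nm ν) G 0 = i))) ∧
      ((Fo c (it κ).1 (it κ).2.2.1 (fun G => ev (it κ).2.2.2 G 0 = 1 ∧ ev (it κ).2.2.2 G 1 = 0 ∧
          U3 (RR c (it κ).1 G) (ev (it κ).2.1 G) (za (zx (ev (it κ).2.1 G))))) ∨
        (Fo c (it κ).1 (it κ).2.2.1 (fun G => ev (it κ).2.2.2 G 0 = 0 ∧ ev (it κ).2.2.2 G 1 = 1 ∧
          U3 (RR c (it κ).1 G) (ev (it κ).2.1 G) (zx (zx (ev (it κ).2.1 G))))) ∨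
        (Fo c (it κ).1 (it κ).2.2.1 (fun G => ∀ n, ev (it κ).2.2.2 G n = 0) ∧
          ¬ ∃ g ∈ Al hw c it κ, Sb (it κ).1 g ∧ Obey c (it κ) ∅ g ∧ ∃ p' ∈ PP c g,
            CLe c p' (it κ).2.2.1 ∧ Fo c g p' (fun G =>
              U3 (RR c g G) (ev (it κ).2.1 G) (zx (zx (ev (it κ).2.1 G))) ∨
              U3 (RR c g G) (ev (it κ).2.1 G) (za (zx (ev (it κ).2.1 G)))))))

variable (M W) in
/-- Histories: length, items, current plan. -/
abbrev Hi : Type v := W × IFn M W (Item M W) × Pl M W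

/-- Validity of histories. -/
def VHi (hw : WellFounded ((· < ·) : W → W → Prop)) (c : W × Hc → ℕ → ℕ) (s : Hi M W) : Prop :=
  s.2.2 ∈ Al hw c s.2.1.1 s.1 ∧ ∀ κ < s.1, VItem hw c s.2.1.1 κ

/-- `s'` extends `s`. -/
def HLe (s' s : Hi M W) : Prop :=
  s.1 ≤ s'.1 ∧ (∀ κ < s.1, s'.2.1.1 κ = s.2.1.1 κ) ∧ Sb s.2.2 s'.2.2

variable (M W) in
/-- The final forcing. -/
def QQ (hw : WellFounded ((· < ·) : W → W → Prop)) (c : W × Hc → ℕ → ℕ) : Type v :=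
  {x : Hi M W × Cond W // VHi hw c x.1 ∧ x.2 ∈ PP c x.1.2.2}

/-- The order of the final forcing. -/
def QLe {hw : WellFounded ((· < ·) : W → W → Prop)} {c : W × Hc → ℕ → ℕ} (x' x : QQ M W hw c) :
    Prop := HLe x'.1.1 x.1.1 ∧ CLe c x'.1.2 x.1.2

end rules

end Pool.Agent.H.MP_a163f2_lc
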