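import Pool.Agent.H.MP_a163f2_lc.R.D8d

/-!
# Block R, part D: the conclusions about the final model
-/

set_option autoImplicit false
set_option linter.unusedSectionVars false

namespace Pool.Agent.H.MP_a163f2_lc

open Pool.Agent.H.MP_07d118_lc

universe u v w x

variable {M : Type u} [SetStr M] [ZFC M] [Std M] {W : Type v} [LinearOrder W] [Cd M W] [Om1 M W]
variable {c : W × Hc → ℕ → ℕ} [hL : Fact (Luz M W c)]
variable {hw : WellFounded ((· < ·) : W → W → Prop)} {GG : Set (HC M W)}

/-- the set of the conditions is internal -/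
theorem In.qv [Countable M] : In M (fun x : HC M W => x ∈ QV hw c) := In.qv0

/-- the order is internal -/
theorem In.ql : In M (fun y : HC M W × HC M W => QL c y.1 y.2) := In.ql0

theorem QV_nonempty : (QV (M := M) (W := W) hw c).Nonempty := by
  have hne : Nonempty W := Om1.ne M
  have hmin : ∃ α : W, ∀ β, ¬ β < α := by
    exact ⟨hw.min Set.univ ⟨Classical.arbitrary W, trivial⟩, fun β =>
      hw.not_lt_min Set.univ (Set.mem_univ β)⟩
  obtain ⟨α, hα⟩ := hmin
  let f : Pl M W := ISet.mk (In.const False)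
  let I : Item M W := (f, ISet.mk (In.const False), (∅, ∅), ISet.mk (In.const False))
  refine ⟨((α, ⟨fun _ => I, IF.const I⟩, f), (∅, ∅)), ⟨?_, fun κ hκ => absurd hκ (hα κ)⟩,
    empty_PP f⟩
  rw [mem_Al]
  refine ⟨⟨⟨α, fun ν q t h => h.elim⟩, ?_⟩, fun η hη => absurd hη (hα η)⟩
  rintro ν ⟨q, t, h⟩
  exact h.elim

theorem QL_refl (x : HC M W) : QL c x x := QL.refl0 x

theorem QL_trans {x y z : HC M W} (h : QL c x y) (h' : QL c y z) : QL c x z := h.trans0 h'

theorem RN_RU [Countable M] (hG : QGen hw c GG) : RU M W (RN GG) := RN_RU0 hG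

/-- The main result of part D. -/
theorem exists_pkg [Countable M] (hG : QGen hw c GG) :
    ∃ (Ef : Set W) (key w e : W → ℕ → ℕ), Pkg (RN GG) (KN c GG) Ef key w e :=
  ⟨Ef GG, keyE GG, wE GG, eE GG, exists_pkg0 hG⟩

end Pool.Agent.H.MP_a163f2_lc
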