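import Pool.Agent.H.MP_a163f2_lc.R.Defs

/-!
# Block R1: conditions, plans, names, generic filters: elementary facts

Lemmas 1.1 to 1.4 and 1.6 of the blueprint.
-/

set_option autoImplicit false
set_option linter.unusedSectionVars false

namespace Pool.Agent.H.MP_a163f2_lc

open Pool.Agent.H.MP_07d118_lc

universe u v w

section cond

variable {W : Type v} [LinearOrder W] {c : W × Hc → ℕ → ℕ}

theorem CLe.refl (p : Cond W) : CLe c p p :=
  ⟨fun _ h => h, fun _ h => h, fun _ _ h h' => absurd h h'⟩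

theorem CLe.trans {p q r : Cond W} (h1 : CLe c p q) (h2 : CLe c q r) : CLe c p r := by
  refine ⟨fun _ h => h1.1 (h2.1 h), fun _ h => h1.2.1 (h2.2.1 h), fun ν m hm hm' κ hκ => ?_⟩
  by_cases h : (ν, m) ∈ q.1
  · exact h2.2.2 ν m h hm' κ hκ
  · exact h1.2.2 ν m hm h κ (h2.2.1 hκ)

theorem mem_cup1 {p q : Cond W} {x : W × Fs} : x ∈ (cup p q).1 ↔ x ∈ p.1 ∨ x ∈ q.1 :=
  Finset.mem_union

theorem mem_cup2 {p q : Cond W} {x : W × W × Hc} : x ∈ (cup p q).2 ↔ x ∈ p.2 ∨ x ∈ q.2 :=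
  Finset.mem_union

theorem cup_comm (p q : Cond W) : cup p q = cup q p :=
  Prod.ext (Finset.union_comm _ _) (Finset.union_comm _ _)

theorem le_cup {r p q : Cond W} (h1 : CLe c r p) (h2 : CLe c r q) : CLe c r (cup p q) := by
  refine ⟨fun x h => ?_, fun x h => ?_, fun ν m hm hm' κ hκ => ?_⟩
  · rcases mem_cup1.1 h with h | h
    · exact h1.1 h
    · exact h2.1 h
  · rcases mem_cup2.1 h with h | h
    · exact h1.2.1 h
    · exact h2.2.1 h
  · rw [mem_cup1, not_or] at hm'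
    rcases mem_cup2.1 hκ with h | h
    · exact h1.2.2 ν m hm hm'.1 κ h
    · exact h2.2.2 ν m hm hm'.2 κ h

theorem cup_le_left {r p q : Cond W} (h1 : CLe c r p) (h2 : CLe c r q) : CLe c (cup p q) p := by
  refine ⟨fun x h => mem_cup1.2 (Or.inl h), fun x h => mem_cup2.2 (Or.inl h),
    fun ν m hm hm' κ hκ => ?_⟩
  rcases mem_cup1.1 hm with h | h
  · exact absurd h hm'
  · exact h1.2.2 ν m (h2.1 h) hm' κ hκ

theorem cup_le_right {r p q : Cond W} (h1 : CLe c r p) (h2 : CLe c r q) : CLe c (cup p q) q := by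
  rw [cup_comm]
  exact cup_le_left h2 h1

/-- Conditions with the same stem are compatible. -/
theorem cup_le_of_stem {p q : Cond W} (h : p.1 = q.1) : CLe c (cup p q) p ∧ CLe c (cup p q) q := by
  constructor
  · refine ⟨fun x hx => mem_cup1.2 (Or.inl hx), fun x hx => mem_cup2.2 (Or.inl hx),
      fun ν m hm hm' κ hκ => ?_⟩
    rcases mem_cup1.1 hm with h1 | h1
    · exact absurd h1 hm'
    · rw [← h] at h1
      exact absurd h1 hm'
  · refine ⟨fun x hx => mem_cup1.2 (Or.inr hx), fun x hx => mem_cup2.2 (Or.inr hx),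
      fun ν m hm hm' κ hκ => ?_⟩
    rcases mem_cup1.1 hm with h1 | h1
    · rw [h] at h1
      exact absurd h1 hm'
    · exact absurd h1 hm'

theorem mem_crs1 {A : Set W} {p : Cond W} {x : W × Fs} : x ∈ (crs A p).1 ↔ x ∈ p.1 ∧ x.1 ∈ A := by
  simp [crs]

theorem mem_crs2 {A : Set W} {p : Cond W} {x : W × W × Hc} :
    x ∈ (crs A p).2 ↔ x ∈ p.2 ∧ x.1 ∈ A := by
  simp [crs]

theorem le_crs (A : Set W) (p : Cond W) : CLe c p (crs A p) := by
  refine ⟨fun x h => (mem_crs1.1 h).1, fun x h => (mem_crs2.1 h).1, fun ν m hm hm' κ hκ => ?_⟩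
  exact absurd (mem_crs1.2 ⟨hm, (mem_crs2.1 hκ).2⟩) hm'

theorem crs_le_crs {A : Set W} {p q : Cond W} (h : CLe c p q) : CLe c (crs A p) (crs A q) := by
  refine ⟨fun x hx => ?_, fun x hx => ?_, fun ν m hm hm' κ hκ => ?_⟩
  · rw [mem_crs1] at hx ⊢
    exact ⟨h.1 hx.1, hx.2⟩
  · rw [mem_crs2] at hx ⊢
    exact ⟨h.2.1 hx.1, hx.2⟩
  · rw [mem_crs1] at hm
    rw [mem_crs2] at hκ
    refine h.2.2 ν m hm.1 (fun h1 => hm' (mem_crs1.2 ⟨h1, hm.2⟩)) κ hκ.1

theorem crs_eq {A : Set W} {p : Cond W} (h1 : ∀ x ∈ p.1, x.1 ∈ A) (h2 : ∀ x ∈ p.2, x.1 ∈ A) :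
    crs A p = p := by
  refine Prod.ext (Finset.ext fun x => ?_) (Finset.ext fun x => ?_)
  · rw [mem_crs1]
    exact ⟨fun h => h.1, fun h => ⟨h, h1 x h⟩⟩
  · rw [mem_crs2]
    exact ⟨fun h => h.1, fun h => ⟨h, h2 x h⟩⟩

theorem crs_crs {A B : Set W} (p : Cond W) : crs A (crs B p) = crs (A ∩ B) p := by
  refine Prod.ext (Finset.ext fun x => ?_) (Finset.ext fun x => ?_)
  · rw [mem_crs1, mem_crs1, mem_crs1]
    exact ⟨fun h => ⟨h.1.1, h.2, h.1.2⟩, fun h => ⟨⟨h.1, h.2.2⟩, h.2.1⟩⟩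
  · rw [mem_crs2, mem_crs2, mem_crs2]
    exact ⟨fun h => ⟨h.1.1, h.2, h.1.2⟩, fun h => ⟨⟨h.1, h.2.2⟩, h.2.1⟩⟩

theorem crs_cup (A : Set W) (p q : Cond W) : crs A (cup p q) = cup (crs A p) (crs A q) := by
  refine Prod.ext (Finset.ext fun x => ?_) (Finset.ext fun x => ?_)
  · rw [mem_crs1, mem_cup1, mem_cup1, mem_crs1, mem_crs1]
    tauto
  · rw [mem_crs2, mem_cup2, mem_cup2, mem_crs2, mem_crs2]
    tauto

/-- If `r` extends `p` then `cup r p = r`. -/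
theorem cup_eq_left {r p : Cond W} (h : CLe c r p) : cup r p = r :=
  Prod.ext (Finset.union_eq_left.2 h.1) (Finset.union_eq_left.2 h.2.1)

theorem Bd.mono {ζ ζ' : W} (h : ζ ≤ ζ') {p : Cond W} (hp : Bd ζ p) : Bd ζ' p :=
  ⟨fun ν m hm => (hp.1 ν m hm).trans_le h, fun ν ξ k hk =>
    ⟨(hp.2 ν ξ k hk).1.trans_le h, (hp.2 ν ξ k hk).2.trans_le h⟩⟩

theorem Bd.cup {ζ : W} {p q : Cond W} (hp : Bd ζ p) (hq : Bd ζ q) : Bd ζ (cup p q) := by
  refine ⟨fun ν m hm => ?_, fun ν ξ k hk => ?_⟩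
  · rcases mem_cup1.1 hm with h | h
    · exact hp.1 ν m h
    · exact hq.1 ν m h
  · rcases mem_cup2.1 hk with h | h
    · exact hp.2 ν ξ k h
    · exact hq.2 ν ξ k h

theorem Bd.of_le {ζ : W} {p q : Cond W} (hp : Bd ζ p) (h : CLe c p q) : Bd ζ q :=
  ⟨fun ν m hm => hp.1 ν m (h.1 hm), fun ν ξ k hk => hp.2 ν ξ k (h.2.1 hk)⟩

end cond

section plans

variable {M : Type u} [SetStr M] [ZF M] [Std M] {W : Type v} [LinearOrder W] [Cd M W]
variable {c : W × Hc → ℕ → ℕ}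

theorem Pl.mem_nm {f : Pl M W} {ν : W} {q : Cond W} {t : Fs} :
    (q, t) ∈ f.nm ν ↔ (ν, q, t) ∈ f := Iff.rfl

theorem PP.dom1 {f : Pl M W} {p : Cond W} (hp : p ∈ PP c f) {x : W × Fs} (h : x ∈ p.1) :
    x.1 ∈ f.dom := hp.1 x.1 x.2 h

theorem PP.dom2 {f : Pl M W} {p : Cond W} (hp : p ∈ PP c f) {x : W × W × Hc} (h : x ∈ p.2) :
    x.1 ∈ f.dom := by
  obtain ⟨q, t, h1, -⟩ := hp.2 x.1 x.2 h
  exact ⟨q, t, h1⟩

theorem PP.crs_eq {f : Pl M W} {p : Cond W} (hp : p ∈ PP c f) : crs f.dom p = p :=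
  MP_a163f2_lc.crs_eq (fun _ h => PP.dom1 hp h) (fun _ h => PP.dom2 hp h)

/-- If `p` extends a condition of the plan `f`, so does the restriction of `p`. -/
theorem crs_le_of_le {f : Pl M W} {p q : Cond W} (hq : q ∈ PP c f) (h : CLe c p q) :
    CLe c (crs f.dom p) q := by
  have := crs_le_crs (A := f.dom) h
  rwa [PP.crs_eq hq] at this

theorem empty_PP (f : Pl M W) : ((∅, ∅) : Cond W) ∈ PP c f :=
  ⟨fun ν m h => by simp at h, fun ν κ h => by simp at h⟩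

theorem le_empty (p : Cond W) : CLe c p (∅, ∅) :=
  ⟨fun x h => by simp at h, fun x h => by simp at h, fun ν m _ _ κ h => by simp at h⟩

theorem PP_cup {f : Pl M W} {p q : Cond W} (hp : p ∈ PP c f) (hq : q ∈ PP c f)
    (h1 : CLe c (cup p q) p) (h2 : CLe c (cup p q) q) : cup p q ∈ PP c f := by
  refine ⟨fun ν m hm => ?_, fun ν κ hκ => ?_⟩
  · rcases mem_cup1.1 hm with h | h
    · exact hp.1 ν m h
    · exact hq.1 ν m h
  · rcases mem_cup2.1 hκ with h | h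
    · obtain ⟨q', t, h3, h4, h5⟩ := hp.2 ν κ h
      exact ⟨q', t, h3, h1.trans h4, h5⟩
    · obtain ⟨q', t, h3, h4, h5⟩ := hq.2 ν κ h
      exact ⟨q', t, h3, h2.trans h4, h5⟩

/-- compatible conditions of a plan have their union as a common extension in the plan -/
theorem PP_cup' {f : Pl M W} {r p q : Cond W} (hp : p ∈ PP c f) (hq : q ∈ PP c f)
    (h1 : CLe c r p) (h2 : CLe c r q) :
    cup p q ∈ PP c f ∧ CLe c (cup p q) p ∧ CLe c (cup p q) q ∧ CLe c r (cup p q) :=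
  ⟨PP_cup hp hq (cup_le_left h1 h2) (cup_le_right h1 h2), cup_le_left h1 h2, cup_le_right h1 h2,
    le_cup h1 h2⟩

/-! ### Subplans -/

theorem Sb.refl (f : Pl M W) : Sb f f := ⟨fun _ h => h, fun _ _ _ _ h => h⟩

theorem Sb.dom {f g : Pl M W} (h : Sb f g) : f.dom ⊆ g.dom := by
  rintro ν ⟨q, t, h1⟩
  exact ⟨q, t, h.1 _ h1⟩

theorem Sb.trans {f g k : Pl M W} (h1 : Sb f g) (h2 : Sb g k) : Sb f k :=
  ⟨fun x hx => h2.1 x (h1.1 x hx), fun ν q t hν hx => h1.2 ν q t hν (h2.2 ν q t (h1.dom hν) hx)⟩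

theorem Sb.nm_eq {f g : Pl M W} (h : Sb f g) {ν : W} (hν : ν ∈ f.dom) : g.nm ν = f.nm ν := by
  ext ⟨q, t⟩
  rw [Pl.mem_nm, Pl.mem_nm]
  exact ⟨fun h1 => h.2 ν q t hν h1, fun h1 => h.1 _ h1⟩

theorem Sb.antisymm {f g : Pl M W} (h1 : Sb f g) (h2 : Sb g f) : f = g :=
  ISet.ext fun t => ⟨h1.1 t, h2.1 t⟩

/-- the forcing of a subplan is contained in the forcing of the plan -/
theorem PP_mono {f g : Pl M W} (h : Sb f g) : PP c f ⊆ PP c g := by
  intro p hp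
  refine ⟨fun ν m hm => h.dom (hp.1 ν m hm), fun ν κ hκ => ?_⟩
  obtain ⟨q, t, h1, h2⟩ := hp.2 ν κ hκ
  exact ⟨q, t, h.1 _ h1, h2⟩

/-- the conditions of the names of the nodes of a valid plan -/
theorem Valid.PP {f : Pl M W} (hf : Valid c f) {ν : W} {q : Cond W} {t : Fs}
    (h : (ν, q, t) ∈ f) : q ∈ PP c f :=
  (hf.nm ν ⟨q, t, h⟩).sub q t h

/-- Lemma 1.1. -/
theorem crs_PP {f g : Pl M W} (hf : Valid c f) (h : Sb f g) {p : Cond W} (hp : p ∈ PP c g) :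
    crs f.dom p ∈ PP c f := by
  refine ⟨fun ν m hm => (mem_crs1.1 hm).2, fun ν κ hκ => ?_⟩
  obtain ⟨h1, h2⟩ := mem_crs2.1 hκ
  obtain ⟨q, t, h3, h4, h5⟩ := hp.2 ν κ h1
  have h6 : (ν, q, t) ∈ f := h.2 ν q t h2 h3
  exact ⟨q, t, h6, crs_le_of_le (hf.PP h6) h4, h5⟩

/-- Lemma 1.2. -/
theorem amal {f g : Pl M W} (h : Sb f g) {p r : Cond W} (hp : p ∈ PP c g) (hr : r ∈ PP c f)
    (hle : CLe c r (crs f.dom p)) :
    cup r p ∈ PP c g ∧ CLe c (cup r p) p ∧ CLe c (cup r p) r := by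
  have h1 : CLe c (cup r p) p := by
    refine ⟨fun x hx => mem_cup1.2 (Or.inr hx), fun x hx => mem_cup2.2 (Or.inr hx),
      fun ν m hm hm' κ hκ => ?_⟩
    have h2 : (ν, m) ∈ r.1 := (mem_cup1.1 hm).resolve_right hm'
    refine hle.2.2 ν m h2 (fun h3 => hm' (mem_crs1.1 h3).1) κ ?_
    exact mem_crs2.2 ⟨hκ, hr.1 ν m h2⟩
  have h2 : CLe c (cup r p) r := by
    refine ⟨fun x hx => mem_cup1.2 (Or.inl hx), fun x hx => mem_cup2.2 (Or.inl hx),
      fun ν m hm hm' κ hκ => ?_⟩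
    have h2 : (ν, m) ∈ p.1 := (mem_cup1.1 hm).resolve_left hm'
    exact absurd (hle.1 (mem_crs1.2 ⟨h2, PP.dom2 hr hκ⟩)) hm'
  exact ⟨PP_cup (PP_mono h hr) hp h2 h1, h1, h2⟩

/-- Lemma 1.2, restriction of the amalgam. -/
theorem crs_cup_eq {f : Pl M W} {p r : Cond W} (hr : r ∈ PP c f) (hle : CLe c r (crs f.dom p)) :
    crs f.dom (cup r p) = r := by
  rw [crs_cup, PP.crs_eq hr, cup_eq_left hle]

/-- Lemma 1.3, names. -/
theorem IsNm.mono {f g : Pl M W} (hf : Valid c f) (h : Sb f g) {x : Nm M W} (hx : IsNm c f x) :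
    IsNm c g x where
  sub q t hq := PP_mono h (hx.sub q t hq)
  cons q t q' t' h1 h2 r hr h3 h4 :=
    hx.cons q t q' t' h1 h2 (crs f.dom r) (crs_PP hf h hr) (crs_le_of_le (hx.sub q t h1) h3)
      (crs_le_of_le (hx.sub q' t' h2) h4)
  tot n p hp := by
    obtain ⟨r, hr, h1, q, t, h2, h3, h4⟩ := hx.tot n (crs f.dom p) (crs_PP hf h hp)
    obtain ⟨h5, h6, h7⟩ := amal h hp hr h1
    exact ⟨cup r p, h5, h6, q, t, h2, h7.trans h3, h4⟩
  bdd := hx.bdd

/-- the union of two plans -/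
noncomputable def plU (f g : Pl M W) : Pl M W := ISet.mk (f.in_mem.or g.in_mem)

theorem mem_plU {f g : Pl M W} {x : W × Cond W × Fs} : x ∈ plU f g ↔ x ∈ f ∨ x ∈ g := Iff.rfl

theorem plU_dom {f g : Pl M W} : (plU f g).dom = f.dom ∪ g.dom := by
  ext ν
  constructor
  · rintro ⟨q, t, h | h⟩
    · exact Or.inl ⟨q, t, h⟩
    · exact Or.inr ⟨q, t, h⟩
  · rintro (⟨q, t, h⟩ | ⟨q, t, h⟩)
    · exact ⟨q, t, Or.inl h⟩
    · exact ⟨q, t, Or.inr h⟩

theorem Sb_plU_left {f g g' : Pl M W} (h : Sb f g) (h' : Sb f g') (hd : g.dom ∩ g'.dom ⊆ f.dom) :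
    Sb g (plU g g') := by
  refine ⟨fun x hx => Or.inl hx, fun ν q t hν hx => ?_⟩
  rcases hx with hx | hx
  · exact hx
  · exact h.1 _ (h'.2 ν q t (hd ⟨hν, q, t, hx⟩) hx)

theorem plU_comm (f g : Pl M W) : plU f g = plU g f := by
  ext x
  rw [mem_plU, mem_plU, or_comm]

theorem Sb_plU_right {f g g' : Pl M W} (h : Sb f g) (h' : Sb f g') (hd : g.dom ∩ g'.dom ⊆ f.dom) :
    Sb g' (plU g g') := by
  rw [plU_comm]
  exact Sb_plU_left h' h (by rwa [Set.inter_comm])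

theorem Valid_plU {f g g' : Pl M W} (h : Sb f g) (h' : Sb f g') (hd : g.dom ∩ g'.dom ⊆ f.dom)
    (hg : Valid c g) (hg' : Valid c g') : Valid c (plU g g') where
  bdd := by
    obtain ⟨ζ, hζ⟩ := hg.bdd
    obtain ⟨ζ', hζ'⟩ := hg'.bdd
    refine ⟨max ζ ζ', fun ν q t hx => ?_⟩
    rcases hx with hx | hx
    · obtain ⟨h1, h2⟩ := hζ ν q t hx
      exact ⟨h1.trans_le (le_max_left _ _), h2.mono (le_max_left _ _)⟩
    · obtain ⟨h1, h2⟩ := hζ' ν q t hx
      exact ⟨h1.trans_le (le_max_right _ _), h2.mono (le_max_right _ _)⟩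
  nm := by
    intro ν hν
    rw [plU_dom] at hν
    rcases hν with hν | hν
    · have h1 := Sb_plU_left h h' hd
      rw [h1.nm_eq hν]
      exact (hg.nm ν hν).mono hg h1
    · have h1 := Sb_plU_right h h' hd
      rw [h1.nm_eq hν]
      exact (hg'.nm ν hν).mono hg' h1

/-- Lemma 1.3, amalgamation of conditions: if `p` and `p'` are conditions of two plans with common
part `f`, and `r` is a condition of `f` which extends both restrictions, then `r ∪ p ∪ p'` is a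
condition of the union of the plans. -/
theorem amal3 {f g g' : Pl M W} (h : Sb f g) (h' : Sb f g') (hd : g.dom ∩ g'.dom ⊆ f.dom)
    {p p' r : Cond W} (hp : p ∈ PP c g) (hp' : p' ∈ PP c g') (hr : r ∈ PP c f)
    (h1 : CLe c r (crs f.dom p)) (h2 : CLe c r (crs f.dom p')) :
    cup (cup r p) (cup r p') ∈ PP c (plU g g') ∧ CLe c (cup (cup r p) (cup r p')) p ∧
      CLe c (cup (cup r p) (cup r p')) p' ∧ CLe c (cup (cup r p) (cup r p')) r := by
  obtain ⟨a1, a2, a3⟩ := amal h hp hr h1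
  obtain ⟨b1, b2, b3⟩ := amal h' hp' hr h2
  have hs := Sb_plU_left h h' hd
  have hs' := Sb_plU_right h h' hd
  have key : CLe c (cup r p) (crs g.dom (cup r p')) := by
    have e : crs g.dom (cup r p') = r := by
      refine Prod.ext (Finset.ext fun x => ?_) (Finset.ext fun x => ?_)
      · rw [mem_crs1]
        constructor
        · rintro ⟨h3, h4⟩
          have h5 : x.1 ∈ f.dom := hd ⟨h4, PP.dom1 b1 h3⟩
          rcases mem_cup1.1 h3 with h6 | h6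
          · exact h6
          · exact h2.1 (mem_crs1.2 ⟨h6, h5⟩)
        · intro h3
          exact ⟨mem_cup1.2 (Or.inl h3), h.dom (PP.dom1 hr h3)⟩
      · rw [mem_crs2]
        constructor
        · rintro ⟨h3, h4⟩
          have h5 : x.1 ∈ f.dom := hd ⟨h4, PP.dom2 b1 h3⟩
          rcases mem_cup2.1 h3 with h6 | h6
          · exact h6
          · exact h2.2.1 (mem_crs2.2 ⟨h6, h5⟩)
        · intro h3
          exact ⟨mem_cup2.2 (Or.inl h3), h.dom (PP.dom2 hr h3)⟩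
    rw [e]
    exact a3
  obtain ⟨d1, d2, d3⟩ := amal hs (PP_mono hs' b1) a1 key
  exact ⟨d1, d3.trans a2, d2.trans b2, d3.trans a3⟩

/-! ### Adding a node -/

/-- the plan `f` with the new node `ν` whose name is `x` -/
noncomputable def addN (f : Pl M W) (ν : W) (x : Nm M W) : Pl M W :=
  ISet.mk (P := fun y => y ∈ f ∨ y.1 = ν ∧ y.2 ∈ x)
    (f.in_mem.or ((In.eq IF.fst (IF.const ν)).and (In.mem IF.snd (IF.const x))))

theorem mem_addN {f : Pl M W} {ν : W} {x : Nm M W} {y : W × Cond W × Fs} :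
    y ∈ addN f ν x ↔ y ∈ f ∨ y.1 = ν ∧ y.2 ∈ x := Iff.rfl

theorem Sb_addN {f : Pl M W} {ν : W} (hν : ν ∉ f.dom) (x : Nm M W) : Sb f (addN f ν x) := by
  refine ⟨fun y hy => Or.inl hy, fun η q t hη hy => ?_⟩
  rcases hy with hy | ⟨h1, -⟩
  · exact hy
  · have h2 : η = ν := h1
    rw [h2] at hη
    exact absurd hη hν

theorem addN_nm {f : Pl M W} {ν : W} (hν : ν ∉ f.dom) (x : Nm M W) : (addN f ν x).nm ν = x := by
  ext ⟨q, t⟩
  rw [Pl.mem_nm, mem_addN]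
  constructor
  · rintro (h | h)
    · exact absurd ⟨q, t, h⟩ hν
    · exact h.2
  · intro h
    exact Or.inr ⟨rfl, h⟩

theorem addN_dom {f : Pl M W} {ν : W} {x : Nm M W} (hx : IsNm c f x) :
    (addN f ν x).dom = insert ν f.dom := by
  ext η
  constructor
  · rintro ⟨q, t, h | h⟩
    · exact Or.inr ⟨q, t, h⟩
    · exact Or.inl h.1
  · rintro (rfl | ⟨q, t, h⟩)
    · obtain ⟨r, -, -, q, t, h, -⟩ := hx.tot 0 _ (empty_PP f)
      exact ⟨q, t, Or.inr ⟨rfl, h⟩⟩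
    · exact ⟨q, t, Or.inl h⟩

/-- Lemma 1.4. -/
theorem Valid_addN [Om1 M W] {f : Pl M W} (hf : Valid c f) {ν : W} (hν : ν ∉ f.dom) {x : Nm M W}
    (hx : IsNm c f x) : Valid c (addN f ν x) where
  bdd := by
    obtain ⟨ζ, hζ⟩ := hf.bdd
    obtain ⟨ζ', hζ'⟩ := hx.bdd
    obtain ⟨ζ'', hζ''⟩ := Om1.bdd (M := M) (fun _ => ν) (IF.const ν)
    refine ⟨max ζ'' (max ζ ζ'), fun η q t hy => ?_⟩
    rcases hy with hy | ⟨h1, h2⟩
    · obtain ⟨h1, h2⟩ := hζ η q t hy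
      exact ⟨h1.trans_le ((le_max_left _ _).trans (le_max_right _ _)),
        h2.mono ((le_max_left _ _).trans (le_max_right _ _))⟩
    · have h3 : η = ν := h1
      rw [h3]
      exact ⟨(hζ'' 0).trans_le (le_max_left _ _),
        (hζ' q t h2).mono ((le_max_right _ _).trans (le_max_right _ _))⟩
  nm := by
    intro η hη
    rw [addN_dom hx] at hη
    have h1 := Sb_addN hν x
    by_cases h2 : η ∈ f.dom
    · rw [h1.nm_eq h2]
      exact (hf.nm η h2).mono hf h1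
    · obtain rfl : η = ν := hη.resolve_right h2
      rw [addN_nm hν]
      exact hx.mono hf h1

/-! ### Generic filters -/

theorem Gen.mem_of_le {f : Pl M W} {G : Set (Cond W)} (hG : Gen c f G) {p q : Cond W} (hp : p ∈ G)
    (hq : q ∈ PP c f) (h : CLe c p q) : q ∈ G := hG.up p hp q hq h

theorem Gen.empty_mem {f : Pl M W} {G : Set (Cond W)} (hG : Gen c f G) :
    ((∅, ∅) : Cond W) ∈ G := by
  obtain ⟨p, hp⟩ := hG.ne
  exact hG.up p hp _ (empty_PP f) (le_empty p)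

/-- Two members of a generic filter: their union is in the filter. -/
theorem Gen.cup_mem {f : Pl M W} {G : Set (Cond W)} (hG : Gen c f G) {p q : Cond W} (hp : p ∈ G)
    (hq : q ∈ G) : cup p q ∈ G ∧ CLe c (cup p q) p ∧ CLe c (cup p q) q := by
  obtain ⟨r, hr, h1, h2⟩ := hG.dir p hp q hq
  obtain ⟨h3, h4, h5, h6⟩ := PP_cup' (hG.sub p hp) (hG.sub q hq) h1 h2
  exact ⟨hG.up r hr _ h3 h6, h4, h5⟩

end plans

end Pool.Agent.H.MP_a163f2_lc
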