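import Pool.Agent.H.MP_a163f2_lc.R.Perm2
import Pool.Agent.H.MP_a163f2_lc.R.Re
import Pool.Agent.H.MP_a163f2_lc.R.Un

/-!
# Block R, part C (section 4): the classes `Al`: invariance under permutations
-/

set_option autoImplicit false
set_option linter.unusedSectionVars false

namespace Pool.Agent.H.MP_a163f2_lc

open Pool.Agent.H.MP_07d118_lc

universe u v w x

variable {M : Type u} [SetStr M] [ZFC M] [Std M] {W : Type v} [LinearOrder W] [Cd M W] [Om1 M W]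
variable {c : W × Hc → ℕ → ℕ} [hL : Fact (Luz M W c)]

/-- Formal correctness of an item: plan, names and condition. -/
structure ItOK (c : W × Hc → ℕ → ℕ) (I : Item M W) : Prop where
  val : Valid c I.1
  key : IsNm c I.1 I.2.1
  cond : I.2.2.1 ∈ PP c I.1
  perm : IsNm c I.1 I.2.2.2

theorem VItem.itok {hw : WellFounded ((· < ·) : W → W → Prop)} {it : W → Item M W} {κ : W}
    (h : VItem hw c it κ) : ItOK c (it κ) :=
  ⟨(mem_Al.1 h.al).1, h.key, h.cond, h.perm⟩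

/-- The clause of `Obey` for the node `ν`. -/
def ObeyN (c : W × Hc → ℕ → ℕ) (I : Item M W) (A : Set (Pl M W)) (g : Pl M W) (ν : W) : Prop :=
  ∀ i < 2, ∀ p ∈ PP c g, CLe c p I.2.2.1 →
    Fo c g p (fun G => za (ev (g.nm ν) G) = ev I.2.1 G ∧ ev (g.nm ν) G 0 = i) →
    (Fo c g p (fun G => ev I.2.1 G 0 = 0) →
      (i = 0 → ∀ p₁ ∈ PP c g, CLe c p₁ p → Fut c I A g p₁ (g.nm ν)) ∧
      (i = 1 → ¬ Fut c I A g p (g.nm ν))) ∧
    (Fo c g p (fun G => ev I.2.1 G 0 ≠ 0) →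
      Fo c g p (fun G => ev I.2.2.2 G (2 * zx (ev (g.nm ν) G) 0 + i) = 1))

theorem Obey_iff {I : Item M W} {A : Set (Pl M W)} {g : Pl M W} :
    Obey c I A g ↔ ∀ ν ∈ g.dom, ν ∉ I.1.dom → ObeyN c I A g ν := Iff.rfl

/-- The classes decrease. -/
theorem Al_anti {hw : WellFounded ((· < ·) : W → W → Prop)} {it : W → Item M W} {κ κ' : W}
    (h : κ' ≤ κ) {g : Pl M W} (hg : g ∈ Al hw c it κ) : g ∈ Al hw c it κ' := by
  rw [mem_Al] at hg ⊢
  exact ⟨hg.1, fun η hη => hg.2 η (hη.trans_le h)⟩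

theorem Al.valid {hw : WellFounded ((· < ·) : W → W → Prop)} {it : W → Item M W} {κ : W}
    {g : Pl M W} (hg : g ∈ Al hw c it κ) : Valid c g := (mem_Al.1 hg).1

theorem Al.sb {hw : WellFounded ((· < ·) : W → W → Prop)} {it : W → Item M W} {κ : W}
    {g : Pl M W} (hg : g ∈ Al hw c it κ) {η : W} (h : η < κ) : Sb (it η).1 g :=
  ((mem_Al.1 hg).2 η h).1

/-- Possible futures are invariant under permutations. -/
theorem Fut_perm {π : Equiv.Perm W} (hπ : IF M π) {I : Item M W} (hI : ItOK c I)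
    (hfix : ∀ ν ∈ I.1.dom, π ν = ν) {A : Set (Pl M W)} (hA : ∀ g ∈ A, pmP π hπ g ∈ A)
    {g : Pl M W} {p : Cond W} {z : Nm M W} (h : Fut c I A g p z) :
    Fut c I A (pmP π hπ g) (pmC π p) (pmN π hπ z) := by
  obtain ⟨g', hg', hs, p', hp', hle, hFo⟩ := h
  refine ⟨pmP π hπ g', hA g' hg', pmP_Sb hs, pmC π p', pmC_PP.2 hp', pmC_le.2 hle, ?_⟩
  rw [pm_Fo]
  refine hFo.imp fun G _ _ h => ?_
  have e : ev I.2.1 (pmC π '' G) = ev I.2.1 G := by
    have h1 := pmN_fix (hπ := hπ) hfix hI.key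
    have h2 := pm_ev (hπ := hπ) (x := I.2.1) (G := G)
    rwa [h1] at h2
  rw [pm_RR, pm_ev, e]
  exact h

/-- The clause of `Obey` is invariant under permutations. -/
theorem ObeyN_perm {π : Equiv.Perm W} (hπ : IF M π) {I : Item M W} (hI : ItOK c I)
    (hfix : ∀ ν ∈ I.1.dom, π ν = ν) {A : Set (Pl M W)} (hA : ∀ g ∈ A, pmP π hπ g ∈ A)
    (hA' : ∀ g ∈ A, pmP π.symm (IF.symm hπ) g ∈ A) {g : Pl M W} {ν : W}
    (h : ObeyN c I A g ν) : ObeyN c I A (pmP π hπ g) (π ν) := by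
  have hfix' := Perm2_symm_fix hfix
  have ek : ∀ G, ev I.2.1 (pmC π '' G) = ev I.2.1 G := by
    intro G
    have h1 := pmN_fix (hπ := hπ) hfix hI.key
    have h2 := pm_ev (hπ := hπ) (x := I.2.1) (G := G)
    rwa [h1] at h2
  have ew : ∀ G, ev I.2.2.2 (pmC π '' G) = ev I.2.2.2 G := by
    intro G
    have h1 := pmN_fix (hπ := hπ) hfix hI.perm
    have h2 := pm_ev (hπ := hπ) (x := I.2.2.2) (G := G)
    rwa [h1] at h2
  have en : ∀ G, ev ((pmP π hπ g).nm (π ν)) (pmC π '' G) = ev (g.nm ν) G := by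
    intro G
    rw [pmP_nm, pm_ev]
  -- back translation of futures
  have back : ∀ p, Fut c I A (pmP π hπ g) (pmC π p) ((pmP π hπ g).nm (π ν)) →
      Fut c I A g p (g.nm ν) := by
    intro p h1
    have h2 := Fut_perm (IF.symm hπ) hI hfix' hA' h1
    rw [Perm2_pmP_inv, pmC_symm, pmP_nm] at h2
    have h3 : pmN π.symm (IF.symm hπ) (pmN π hπ (g.nm ν)) = g.nm ν := by
      refine ISet.ext fun y => ?_
      rw [Perm2_mem_pmN, Perm2_mem_pmN]
      change (pmC π.symm (pmC π y.1), y.2) ∈ g.nm ν ↔ y ∈ g.nm ν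
      rw [pmC_symm]
    rwa [h3] at h2
  intro i hi p' hp' hle hFo
  obtain ⟨p, rfl⟩ : ∃ p, p' = pmC π p := ⟨pmC π.symm p', (pmC_symm' π p').symm⟩
  have hp : p ∈ PP c g := pmC_PP.1 hp'
  have hle' : CLe c p I.2.2.1 := by
    have h1 : CLe c (pmC π p) (pmC π I.2.2.1) := by
      rw [pmC_fix hfix hI.cond]
      exact hle
    exact pmC_le.1 h1
  have hFo' : Fo c g p (fun G => za (ev (g.nm ν) G) = ev I.2.1 G ∧ ev (g.nm ν) G 0 = i) := by
    rw [pm_Fo] at hFo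
    refine hFo.imp fun G _ _ h1 => ?_
    rw [en, ek] at h1
    exact h1
  obtain ⟨h1, h2⟩ := h i hi p hp hle' hFo'
  refine ⟨fun h3 => ?_, fun h3 => ?_⟩
  · have h4 : Fo c g p (fun G => ev I.2.1 G 0 = 0) := by
      rw [pm_Fo] at h3
      refine h3.imp fun G _ _ h5 => ?_
      rw [ek] at h5
      exact h5
    obtain ⟨h5, h6⟩ := h1 h4
    refine ⟨fun hi0 p₁' hp₁' hle₁ => ?_, fun hi1 h7 => h6 hi1 (back p h7)⟩
    obtain ⟨p₁, rfl⟩ : ∃ p, p₁' = pmC π p := ⟨pmC π.symm p₁', (pmC_symm' π p₁').symm⟩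
    rw [pmP_nm]
    exact Fut_perm hπ hI hfix hA (h5 hi0 p₁ (pmC_PP.1 hp₁') (pmC_le.1 hle₁))
  · have h4 : Fo c g p (fun G => ev I.2.1 G 0 ≠ 0) := by
      rw [pm_Fo] at h3
      refine h3.imp fun G _ _ h5 => ?_
      rw [ek] at h5
      exact h5
    rw [pm_Fo]
    refine (h2 h4).imp fun G _ _ h5 => ?_
    rw [ew, en]
    exact h5

/-- (C1) The classes are invariant under internal permutations which fix the domains of the plans
of the items. -/
theorem Al_perm {hw : WellFounded ((· < ·) : W → W → Prop)} {it : W → Item M W} {κ : W}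
    (hit : ∀ η < κ, ItOK c (it η)) {π : Equiv.Perm W} (hπ : IF M π)
    (hfix : ∀ η < κ, ∀ ν ∈ (it η).1.dom, π ν = ν) {g : Pl M W} (hg : g ∈ Al hw c it κ) :
    pmP π hπ g ∈ Al hw c it κ := by
  induction κ using hw.induction generalizing π g with
  | _ κ ih =>
    rw [mem_Al]
    refine ⟨pmP_Valid (Al.valid hg), fun η hη => ⟨?_, ?_⟩⟩
    · have h1 : Sb (pmP π hπ (it η).1) (pmP π hπ g) := pmP_Sb (Al.sb hg hη)
      rwa [pmP_fix (hit η hη).val (hfix η hη)] at h1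
    · rw [Obey_iff]
      intro ν' hν' hν''
      rw [pmP_dom] at hν'
      obtain ⟨ν, hν, rfl⟩ := hν'
      have h1 : ν ∉ (it η).1.dom := fun h2 => hν'' (by rw [hfix η hη ν h2]; exact h2)
      refine ObeyN_perm hπ (hit η hη) (hfix η hη) (fun g' hg' => ?_) (fun g' hg' => ?_)
        (((mem_Al.1 hg).2 η hη).2 ν hν h1)
      · exact ih η hη (fun ζ hζ => hit ζ (hζ.trans hη)) hπ
          (fun ζ hζ => hfix ζ (hζ.trans hη)) hg'
      · exact ih η hη (fun ζ hζ => hit ζ (hζ.trans hη)) (IF.symm hπ)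
          (fun ζ hζ => Perm2_symm_fix (hfix ζ (hζ.trans hη))) hg'

end Pool.Agent.H.MP_a163f2_lc
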