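import Pool.Agent.H.MP_a163f2_lc.R.C1

/-!
# Block R, part C (section 4): amalgamation (Lemma A), invariance of futures (Lemma B), new nodes,
unions
-/

set_option autoImplicit false
set_option linter.unusedSectionVars false

namespace Pool.Agent.H.MP_a163f2_lc

open Pool.Agent.H.MP_07d118_lc

universe u v w x

variable {M : Type u} [SetStr M] [ZFC M] [Std M] {W : Type v} [LinearOrder W] [Cd M W] [Om1 M W]
variable {c : W × Hc → ℕ → ℕ} [hL : Fact (Luz M W c)]

/-- Amalgamation in the class `A` over plans above all plans of the items before `κ`. -/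
def AmP (c : W × Hc → ℕ → ℕ) (it : W → Item M W) (κ : W) (A : Set (Pl M W)) : Prop :=
  ∀ f g g' : Pl M W, Valid c f → (∀ η < κ, Sb (it η).1 f) → Sb f g → Sb f g' →
    g.dom ∩ g'.dom ⊆ f.dom → g ∈ A → g' ∈ A → plU g g' ∈ A

/-- Lemma B, from the amalgamation property. -/
theorem Fut_iff_of_am [Countable M] {hw : WellFounded ((· < ·) : W → W → Prop)}
    {it : W → Item M W} {η : W} (hit : ∀ ζ < η, ItOK c (it ζ))
    (hv : Valid c (it η).1) (hk : IsNm c (it η).1 (it η).2.1)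
    (ham : AmP c it η (Al hw c it η)) {g g₁ : Pl M W} (hg : g ∈ Al hw c it η)
    (hg₁ : g₁ ∈ Al hw c it η) (hs : Sb g g₁) (hI : Sb (it η).1 g) {z : Nm M W}
    (hz : IsNm c g z) {p : Cond W} (hp : p ∈ PP c g₁) :
    Fut c (it η) (Al hw c it η) g₁ p z ↔ Fut c (it η) (Al hw c it η) g (crs g.dom p) z := by
  have hgv := Al.valid hg
  constructor
  · rintro ⟨g', hg', hs', p', hp', hle, hFo⟩
    exact ⟨g', hg', hs.trans hs', p', hp', hle.trans (le_crs _ _), hFo⟩
  · rintro ⟨g', hg', hs', p', hp', hle, hFo⟩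
    obtain ⟨π, hπ, hfix, hout⟩ := exists_rename (Al.valid hg') (Al.valid hg₁) hs'
    have hfixI : ∀ ζ < η, ∀ ν ∈ (it ζ).1.dom, π ν = ν := fun ζ hζ ν hν =>
      hfix ν ((Al.sb hg hζ).dom hν)
    have hg'' : pmP π hπ g' ∈ Al hw c it η := Al_perm hit hπ hfixI hg'
    have hsg'' : Sb g (pmP π hπ g') := by
      have h1 : Sb (pmP π hπ g) (pmP π hπ g') := pmP_Sb hs'
      rwa [pmP_fix hgv hfix] at h1
    have hd : (pmP π hπ g').dom ∩ g₁.dom ⊆ g.dom := by
      rintro x ⟨hx, hx1⟩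
      rw [pmP_dom] at hx
      obtain ⟨ν, hν, rfl⟩ := hx
      by_cases h1 : ν ∈ g.dom
      · rw [hfix ν h1]
        exact h1
      · exact absurd hx1 (hout ν hν h1)
    have hU : plU (pmP π hπ g') g₁ ∈ Al hw c it η :=
      ham g _ _ hgv (fun ζ hζ => Al.sb hg hζ) hsg'' hs hd hg'' hg₁
    have hUv := Al.valid hU
    have hp'' : pmC π p' ∈ PP c (pmP π hπ g') := pmC_PP.2 hp'
    have hr : crs g.dom (pmC π p') ∈ PP c g := crs_PP hgv hsg'' hp''
    have hrp : crs g.dom p ∈ PP c g := crs_PP hgv hs hp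
    have hle2 : CLe c (crs g.dom (pmC π p')) (crs g.dom p) := by
      have h1 : CLe c (pmC π p') (pmC π (crs g.dom p)) := pmC_le.2 hle
      rw [pmC_fix hfix hrp] at h1
      have h2 := crs_le_crs (A := g.dom) h1
      rwa [PP.crs_eq hrp] at h2
    obtain ⟨h1, h2, h3, -⟩ := amal3 hsg'' hs hd hp'' hp hr (CLe.refl _) hle2
    have hIv := hv
    refine ⟨_, hU, Sb_plU_right hsg'' hs hd, _, h1, h3, ?_⟩
    have hsI : Sb (it η).1 (pmP π hπ g') := hI.trans hsg''
    have hz'' : IsNm c (pmP π hπ g') z := hz.mono hgv hsg''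
    have hk'' : IsNm c (pmP π hπ g') (it η).2.1 := hk.mono hIv hsI
    have hg''v := Al.valid hg''
    refine Fo_U3_up (F := zx) (H := zx) hg''v hUv (Sb_plU_left hsg'' hs hd) hz'' hk''
      (fun G hG => RR_zx hg''v hG (ev_mem_RR hz'')) (fun G hG => RR_zx hg''v hG (ev_mem_RR hk''))
      hp'' h2 ?_
    rw [pm_Fo]
    refine hFo.imp fun G _ _ h => ?_
    have e1 : ev z (pmC π '' G) = ev z G := by
      have h4 := pmN_fix (hπ := hπ) hfix hz
      have h5 := pm_ev (hπ := hπ) (x := z) (G := G)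
      rwa [h4] at h5
    have e2 : ev (it η).2.1 (pmC π '' G) = ev (it η).2.1 G := by
      have h4 := pmN_fix (hπ := hπ) (fun ν hν => hfix ν (hI.dom hν)) hk
      have h5 := pm_ev (hπ := hπ) (x := (it η).2.1) (G := G)
      rwa [h4] at h5
    rw [pm_RR, e1, e2]
    exact h

/-- A statement about names of a subplan is forced over the plan iff it is forced over the
subplan by the restriction. -/
theorem Fo_restrict_iff [Countable M] {g g₁ : Pl M W} (hg : Valid c g) (hs : Sb g g₁)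
    {Q : Set (Cond W) → Prop} (hQ : Good c (fun _ : ℕ => g) (fun _ G => Q G))
    (hr : ∀ G, Gen c g₁ G → (Q (G ∩ PP c g) ↔ Q G)) {p : Cond W} (hp : p ∈ PP c g₁) :
    Fo c g₁ p Q ↔ Fo c g (crs g.dom p) Q := by
  have h1 := Good.restrict (f := fun _ : ℕ => g) (IF.const g) hQ (t := 0) hg hs hp
  rw [← h1]
  constructor
  · intro h
    exact h.imp fun G hG _ h2 => (hr G hG).2 h2
  · intro h
    exact h.imp fun G hG _ h2 => (hr G hG).1 h2

/-- The clause for a node of a plan is inherited by extensions of the plan. -/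
theorem ObeyN_up [Countable M] {hw : WellFounded ((· < ·) : W → W → Prop)} {it : W → Item M W}
    {η : W} (hit : ∀ ζ ≤ η, ItOK c (it ζ)) (ham : AmP c it η (Al hw c it η)) {g g₁ : Pl M W}
    (hg : g ∈ Al hw c it η) (hg₁ : g₁ ∈ Al hw c it η) (hs : Sb g g₁) (hI : Sb (it η).1 g) {ν : W}
    (hν : ν ∈ g.dom) (h : ObeyN c (it η) (Al hw c it η) g ν) :
    ObeyN c (it η) (Al hw c it η) g₁ ν := by
  have hgv := Al.valid hg
  have hIok := hit η le_rfl
  have hx : IsNm c g (g.nm ν) := hgv.nm ν hν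
  have hk : IsNm c g (it η).2.1 := hIok.key.mono hIok.val hI
  have hwn : IsNm c g (it η).2.2.2 := hIok.perm.mono hIok.val hI
  have hcn : (it η).2.2.1 ∈ PP c g := PP_mono hI hIok.cond
  have hit' : ∀ ζ < η, ItOK c (it ζ) := fun ζ hζ => hit ζ hζ.le
  have gx : GoodR c (fun _ : ℕ => g) (fun _ G => ev (g.nm ν) G) := GoodR.ev (IF.const g) (IF.const _)
  have gk : GoodR c (fun _ : ℕ => g) (fun _ G => ev (it η).2.1 G) :=
    GoodR.ev (IF.const g) (IF.const _)
  have gw : GoodR c (fun _ : ℕ => g) (fun _ G => ev (it η).2.2.2 G) :=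
    GoodR.ev (IF.const g) (IF.const _)
  have rx : ∀ G, Gen c g₁ G → ev (g.nm ν) (G ∩ PP c g) = ev (g.nm ν) G := fun G hG =>
    ev_restrict hgv hs hG hx
  have rk : ∀ G, Gen c g₁ G → ev (it η).2.1 (G ∩ PP c g) = ev (it η).2.1 G := fun G hG =>
    ev_restrict hgv hs hG hk
  have rw' : ∀ G, Gen c g₁ G → ev (it η).2.2.2 (G ∩ PP c g) = ev (it η).2.2.2 G := fun G hG =>
    ev_restrict hgv hs hG hwn
  intro i hi p hp hle hFo
  rw [hs.nm_eq hν] at hFo ⊢
  have hp' : crs g.dom p ∈ PP c g := crs_PP hgv hs hp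
  have hle' : CLe c (crs g.dom p) (it η).2.2.1 := crs_le_of_le hcn hle
  have hFo' : Fo c g (crs g.dom p)
      (fun G => za (ev (g.nm ν) G) = ev (it η).2.1 G ∧ ev (g.nm ν) G 0 = i) := by
    refine (Fo_restrict_iff hgv hs ?_ ?_ hp).1 hFo
    · exact (Good.eqR (IF.const g) gx.za gk).and
        (Good.eq (gx.app (GoodF.of_if (IF.const 0))) (GoodF.of_if (IF.const i)))
    · intro G hG
      rw [rx G hG, rk G hG]
  obtain ⟨h1, h2⟩ := h i hi _ hp' hle' hFo'
  refine ⟨fun h3 => ?_, fun h3 => ?_⟩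
  · have h4 : Fo c g (crs g.dom p) (fun G => ev (it η).2.1 G 0 = 0) := by
      refine (Fo_restrict_iff hgv hs ?_ ?_ hp).1 h3
      · exact Good.eq (gk.app (GoodF.of_if (IF.const 0))) (GoodF.of_if (IF.const 0))
      · intro G hG
        rw [rk G hG]
    obtain ⟨h5, h6⟩ := h1 h4
    refine ⟨fun hi0 p₁ hp₁ hle₁ => ?_, fun hi1 h7 => h6 hi1 ?_⟩
    · rw [Fut_iff_of_am hit' hIok.val hIok.key ham hg hg₁ hs hI hx hp₁]
      exact h5 hi0 _ (crs_PP hgv hs hp₁) (crs_le_crs hle₁)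
    · rwa [Fut_iff_of_am hit' hIok.val hIok.key ham hg hg₁ hs hI hx hp] at h7
  · have h4 : Fo c g (crs g.dom p) (fun G => ev (it η).2.1 G 0 ≠ 0) := by
      refine (Fo_restrict_iff hgv hs ?_ ?_ hp).1 h3
      · exact Good.not (IF.const g)
          (Good.eq (gk.app (GoodF.of_if (IF.const 0))) (GoodF.of_if (IF.const 0)))
      · intro G hG
        rw [rk G hG]
    refine (Fo_restrict_iff hgv hs ?_ ?_ hp).2 (h2 h4)
    · refine Good.eq (gw.app (k := fun _ G => 2 * zx (ev (g.nm ν) G) 0 + i) ?_)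
        (GoodF.of_if (IF.const 1))
      have h5 : GoodF c (fun _ : ℕ => g) (fun _ G => zx (ev (g.nm ν) G) 0) :=
        gx.zx.app (GoodF.of_if (IF.const 0))
      exact h5.map (F := fun n => 2 * n + i) (IF.add (IF.mul (IF.const 2) IF.id) (IF.const i))
    · intro G hG
      rw [rx G hG, rw' G hG]

/-- Lemma A. -/
theorem Al_amP [Countable M] {hw : WellFounded ((· < ·) : W → W → Prop)} {it : W → Item M W}
    {κ : W} (hit : ∀ η < κ, ItOK c (it η)) : AmP c it κ (Al hw c it κ) := by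
  induction κ using hw.induction with
  | _ κ ih =>
    intro f g g' hf hif hs hs' hd hg hg'
    have hv : Valid c (plU g g') := Valid_plU hs hs' hd (Al.valid hg) (Al.valid hg')
    have h1 := Sb_plU_left hs hs' hd
    have h2 := Sb_plU_right hs hs' hd
    rw [mem_Al]
    refine ⟨hv, fun η hη => ⟨(hif η hη).trans (hs.trans h1), ?_⟩⟩
    have hit' : ∀ ζ < η, ItOK c (it ζ) := fun ζ hζ => hit ζ (hζ.trans hη)
    have ham : AmP c it η (Al hw c it η) := ih η hη hit'
    have hU : plU g g' ∈ Al hw c it η :=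
      ham f g g' hf (fun ζ hζ => hif ζ (hζ.trans hη)) hs hs' hd (Al_anti hη.le hg)
        (Al_anti hη.le hg')
    have hit'' : ∀ ζ ≤ η, ItOK c (it ζ) := fun ζ hζ => hit ζ (hζ.trans_lt hη)
    rw [Obey_iff]
    intro ν hν hν'
    rw [plU_dom] at hν
    rcases hν with hν | hν
    · exact ObeyN_up hit'' ham (Al_anti hη.le hg) hU h1 (Al.sb hg hη) hν
        (((mem_Al.1 hg).2 η hη).2 ν hν hν')
    · exact ObeyN_up hit'' ham (Al_anti hη.le hg') hU h2 (Al.sb hg' hη) hν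
        (((mem_Al.1 hg').2 η hη).2 ν hν hν')

/-- Lemma A (amalgamation). -/
theorem Al_amal [Countable M] {hw : WellFounded ((· < ·) : W → W → Prop)} {it : W → Item M W}
    {κ : W} (hit : ∀ η < κ, ItOK c (it η)) {f g g' : Pl M W} (hf : Valid c f)
    (hif : ∀ η < κ, Sb (it η).1 f) (hs : Sb f g) (hs' : Sb f g') (hd : g.dom ∩ g'.dom ⊆ f.dom)
    (hg : g ∈ Al hw c it κ) (hg' : g' ∈ Al hw c it κ) : plU g g' ∈ Al hw c it κ :=
  Al_amP hit f g g' hf hif hs hs' hd hg hg'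

/-- Lemma B (invariance of futures). -/
theorem Fut_iff [Countable M] {hw : WellFounded ((· < ·) : W → W → Prop)} {it : W → Item M W}
    {η : W} (hit : ∀ ζ ≤ η, ItOK c (it ζ)) {g g₁ : Pl M W} (hg : g ∈ Al hw c it η)
    (hg₁ : g₁ ∈ Al hw c it η) (hs : Sb g g₁) (hI : Sb (it η).1 g) {z : Nm M W}
    (hz : IsNm c g z) {p : Cond W} (hp : p ∈ PP c g₁) :
    Fut c (it η) (Al hw c it η) g₁ p z ↔ Fut c (it η) (Al hw c it η) g (crs g.dom p) z :=
  Fut_iff_of_am (fun ζ hζ => hit ζ hζ.le) (hit η le_rfl).val (hit η le_rfl).key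
    (Al_amP fun ζ hζ => hit ζ hζ.le) hg hg₁ hs hI hz hp

/-- An extension of a legal plan is legal if the clauses of the new nodes hold. -/
theorem Al_ext [Countable M] {hw : WellFounded ((· < ·) : W → W → Prop)} {it : W → Item M W}
    {κ : W} (hit : ∀ η < κ, ItOK c (it η)) {g g₁ : Pl M W} (hg : g ∈ Al hw c it κ)
    (hv : Valid c g₁) (hs : Sb g g₁)
    (h : ∀ η < κ, ∀ ν ∈ g₁.dom, ν ∉ g.dom → ObeyN c (it η) (Al hw c it η) g₁ ν) :
    g₁ ∈ Al hw c it κ := by
  induction κ using hw.induction with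
  | _ κ ih =>
    rw [mem_Al]
    refine ⟨hv, fun η hη => ⟨(Al.sb hg hη).trans hs, ?_⟩⟩
    have hU : g₁ ∈ Al hw c it η := ih η hη (fun ζ hζ => hit ζ (hζ.trans hη)) (Al_anti hη.le hg)
      (fun ζ hζ => h ζ (hζ.trans hη))
    rw [Obey_iff]
    intro ν hν hν'
    by_cases h1 : ν ∈ g.dom
    · exact ObeyN_up (fun ζ hζ => hit ζ (hζ.trans_lt hη))
        (Al_amP fun ζ hζ => hit ζ (hζ.trans hη)) (Al_anti hη.le hg) hU hs (Al.sb hg hη) h1
        (((mem_Al.1 hg).2 η hη).2 ν h1 hν')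
    · exact h η hη ν hν h1

/-- (C4) Adding a node. -/
theorem Al_addN [Countable M] {hw : WellFounded ((· < ·) : W → W → Prop)} {it : W → Item M W}
    {κ : W} (hit : ∀ η < κ, ItOK c (it η)) {g : Pl M W} (hg : g ∈ Al hw c it κ) {ν : W}
    (hν : ν ∉ g.dom) {x : Nm M W} (hx : IsNm c g x)
    (h : ∀ η < κ, ObeyN c (it η) (Al hw c it η) (addN g ν x) ν) :
    addN g ν x ∈ Al hw c it κ := by
  refine Al_ext hit hg (Valid_addN (Al.valid hg) hν hx) (Sb_addN hν x) fun η hη ν' hν' hν'' => ?_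
  rw [addN_dom hx] at hν'
  rcases hν' with rfl | hν'
  · exact h η hη
  · exact absurd hν' hν''

/-- (C3) Unions of countable internal increasing families. -/
theorem Al_union [Countable M] {hw : WellFounded ((· < ·) : W → W → Prop)} {it : W → Item M W}
    {κ : W} (hit : ∀ η < κ, ItOK c (it η)) {T : Type w} [Cd M T] {P : T → Prop} {hP : In M P}
    {F : T → Pl M W} {hF : IF M F} (h : ∀ i j, P i → P j → Sb (F i) (F j) ∨ Sb (F j) (F i))
    (hne : ∃ t, P t) (hc : ICt M {t | P t}) (hg : ∀ t, P t → F t ∈ Al hw c it κ) :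
    plUn P hP F hF ∈ Al hw c it κ := by
  have hv : Valid c (plUn P hP F hF) := Valid_plUn h (fun t ht => Al.valid (hg t ht)) hc
  induction κ using hw.induction with
  | _ κ ih =>
    obtain ⟨t₀, ht₀⟩ := hne
    rw [mem_Al]
    refine ⟨hv, fun η hη => ⟨(Al.sb (hg t₀ ht₀) hη).trans (Sb_plUn h ht₀), ?_⟩⟩
    have hU : plUn P hP F hF ∈ Al hw c it η :=
      ih η hη (fun ζ hζ => hit ζ (hζ.trans hη)) (fun t ht => Al_anti hη.le (hg t ht))
    rw [Obey_iff]
    intro ν hν hν'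
    obtain ⟨q, s, h1⟩ := hν
    obtain ⟨t, ht, h2⟩ := Un_mem.1 h1
    have h3 : ν ∈ (F t).dom := ⟨q, s, h2⟩
    exact ObeyN_up (fun ζ hζ => hit ζ (hζ.trans_lt hη))
      (Al_amP fun ζ hζ => hit ζ (hζ.trans hη)) (Al_anti hη.le (hg t ht)) hU (Sb_plUn h ht)
      (Al.sb (hg t ht) hη) h3 (((mem_Al.1 (hg t ht)).2 η hη).2 ν h3 hν')

end Pool.Agent.H.MP_a163f2_lc
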