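import Pool.Agent.H.MP_a163f2_lc.R.Int

/-!
# Block R1: internally countable sets
-/

set_option autoImplicit false
set_option linter.unusedSectionVars false

namespace Pool.Agent.H.MP_a163f2_lc

open Pool.Agent.H.MP_07d118_lc

universe u v w x

variable {M : Type u} [SetStr M] [ZFC M] [Std M] {W : Type v} [LinearOrder W] [Cd M W] [Om1 M W]
variable {c : W × Hc → ℕ → ℕ} [hL : Fact (Luz M W c)]
variable {T : Type w} [Cd M T] {S : Type x} [Cd M S]

/-- `A` is countable in the model. -/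
def ICt (M : Type u) [SetStr M] [ZF M] [Std M] {T : Type w} [Cd M T] (A : Set T) : Prop :=
  ∃ g : T → ℕ, IF M g ∧ Set.InjOn g A

theorem ICt.mono {A B : Set T} (h : ICt M B) (hAB : A ⊆ B) : ICt M A := by
  obtain ⟨g, h1, h2⟩ := h
  exact ⟨g, h1, h2.mono hAB⟩

/-- preimages under injective internal functions -/
theorem ICt.preimage {B : Set S} (h : ICt M B) {F : T → S} (hF : IF M F) {A : Set T}
    (h1 : ∀ a ∈ A, F a ∈ B) (h2 : Set.InjOn F A) : ICt M A := by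
  obtain ⟨g, hg, hi⟩ := h
  exact ⟨fun t => g (F t), IF.comp hg hF,
    fun a ha b hb e => h2 ha hb (hi (h1 a ha) (h1 b hb) e)⟩

theorem ICt.prod {A : Set T} {B : Set S} (hA : ICt M A) (hB : ICt M B) : ICt M (A ×ˢ B) := by
  obtain ⟨g, hg, hi⟩ := hA
  obtain ⟨g', hg', hi'⟩ := hB
  refine ⟨fun y => Nat.pair (g y.1) (g' y.2), IF.npair (IF.comp hg IF.fst) (IF.comp hg' IF.snd), ?_⟩
  rintro ⟨a, b⟩ ⟨ha, hb⟩ ⟨a', b'⟩ ⟨ha', hb'⟩ e
  rw [Nat.pair_eq_pair] at e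
  exact Prod.ext (hi ha ha' e.1) (hi' hb hb' e.2)

theorem ICt.nat : ICt M (Set.univ : Set ℕ) := ⟨fun n => n, IF.id, Set.injOn_id _⟩

theorem ICt.fs : ICt M (Set.univ : Set Fs) :=
  ⟨_, CdP.enc, Encodable.encode_injective.injOn⟩

theorem ICt.hc : ICt M (Set.univ : Set Hc) :=
  ⟨_, CdP.enc, Encodable.encode_injective.injOn⟩

theorem ICt.below (α : W) : ICt M {β : W | β < α} := Om1.below α

theorem Ct_mem {f : T → ℕ} (hf : IF M f) {L : T → Fs} (hL : IF M L) :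
    In M (fun t => f t ∈ L t) := by
  have h : PrimrecRel (fun (L : List ℕ) (b : ℕ) => ∃ a ∈ L, a = b) :=
    PrimrecRel.exists_mem_list (R := fun a b : ℕ => a = b) Primrec.eq
  exact (In.prim2 (P := fun (L : List ℕ) (b : ℕ) => ∃ a ∈ L, a = b) h hL hf).congr
    fun t => by simp

/-- finite subsets of a countable set -/
theorem ICt.finset {A : Set T} (h : ICt M A) : ICt M {s : Finset T | ↑s ⊆ A} := by
  obtain ⟨g, hg, hi⟩ := h
  have h1 : In M (fun y : Finset T × Fs => (∀ t, t ∈ y.1 → g t ∈ y.2) ∧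
      ∀ i, i ∈ y.2 → ∃ t, t ∈ y.1 ∧ g t = i) := by
    refine In.and ?_ ?_
    · exact In.all (P := fun (y : Finset T × Fs) (t : T) => t ∈ y.1 → g t ∈ y.2)
        (In.imp (In.fmem IF.snd (IF.comp IF.fst IF.fst))
          (Ct_mem (IF.comp hg IF.snd) (IF.comp IF.snd IF.fst)))
    · refine In.all (P := fun (y : Finset T × Fs) (i : ℕ) => i ∈ y.2 → ∃ t, t ∈ y.1 ∧ g t = i)
        (In.imp (Ct_mem IF.snd (IF.comp IF.snd IF.fst)) ?_)
      exact In.ex (P := fun (y : (Finset T × Fs) × ℕ) (t : T) => t ∈ y.1.1 ∧ g t = y.2)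
        (In.and (In.fmem IF.snd (IF.comp IF.fst (IF.comp IF.fst IF.fst)))
          (In.eq (IF.comp hg IF.snd) (IF.comp IF.snd IF.fst)))
  obtain ⟨F, hF, hR⟩ := In.choice (R := fun (s : Finset T) (L : Fs) => (∀ t, t ∈ s → g t ∈ L) ∧
    ∀ i, i ∈ L → ∃ t, t ∈ s ∧ g t = i) h1 (by
      intro s
      refine ⟨s.toList.map g, fun t ht => List.mem_map.2 ⟨t, Finset.mem_toList.2 ht, rfl⟩,
        fun i hi => ?_⟩
      obtain ⟨t, ht, e⟩ := List.mem_map.1 hi
      exact ⟨t, Finset.mem_toList.1 ht, e⟩)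
  have key : ∀ s s' : Finset T, ↑s ⊆ A → ↑s' ⊆ A → F s = F s' → s ⊆ s' := by
    intro s s' hs hs' e t ht
    have h2 := (hR s).1 t ht
    rw [e] at h2
    obtain ⟨t', ht', e'⟩ := (hR s').2 _ h2
    have h3 : t' = t := hi (hs' ht') (hs ht) e'
    rw [← h3]
    exact ht'
  refine ⟨fun s => Encodable.encode (F s), IF.comp CdP.enc hF, ?_⟩
  intro s hs s' hs' e
  have e' : F s = F s' := Encodable.encode_injective e
  exact Finset.Subset.antisymm (key s s' hs hs' e') (key s' s hs' hs e'.symm)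

/-- the stems with nodes below `ζ` -/
theorem ICt.stems (ζ : W) : ICt M {s : Finset (W × Fs) | ∀ x ∈ s, x.1 < ζ} := by
  refine (ICt.finset ((ICt.below ζ).prod ICt.fs)).mono ?_
  intro s hs x hx
  exact ⟨hs x hx, Set.mem_univ _⟩

theorem Ct_enum {A : Set T} (h : ICt M A) (hA : In M (fun t => t ∈ A)) (hne : A.Nonempty) :
    ∃ e : ℕ → T, IF M e ∧ (∀ n, e n ∈ A) ∧ ∀ a ∈ A, ∃ n, e n = a := by
  obtain ⟨g, hg, hi⟩ := h
  obtain ⟨a₀, ha₀⟩ := hne
  have h1 : In M (fun y : ℕ × T => (y.2 ∈ A ∧ g y.2 = y.1) ∨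
      ((∀ b, b ∈ A → ¬ g b = y.1) ∧ y.2 = a₀)) := by
    refine In.or (In.and (hA.comp IF.snd) (In.eq (IF.comp hg IF.snd) IF.fst))
      (In.and ?_ (In.eq IF.snd (IF.const a₀)))
    exact In.all (P := fun (y : ℕ × T) (b : T) => b ∈ A → ¬ g b = y.1)
      (In.imp (hA.comp IF.snd) (In.not (In.eq (IF.comp hg IF.snd) (IF.comp IF.fst IF.fst))))
  obtain ⟨e, he, hR⟩ := In.choice (R := fun (n : ℕ) (a : T) => (a ∈ A ∧ g a = n) ∨
    ((∀ b, b ∈ A → ¬ g b = n) ∧ a = a₀)) h1 (by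
      intro n
      by_cases h2 : ∃ b, b ∈ A ∧ g b = n
      · obtain ⟨b, hb, hn⟩ := h2
        exact ⟨b, Or.inl ⟨hb, hn⟩⟩
      · push Not at h2
        exact ⟨a₀, Or.inr ⟨fun b hb => h2 b hb, rfl⟩⟩)
  refine ⟨e, he, fun n => ?_, fun a ha => ⟨g a, ?_⟩⟩
  · rcases hR n with h2 | h2
    · exact h2.1
    · rw [h2.2]
      exact ha₀
  · rcases hR (g a) with h2 | h2
    · exact hi h2.1 ha h2.2
    · exact absurd rfl (h2.1 a ha)

theorem Ct_bound (M : Type u) [SetStr M] [ZFC M] [Std M] {W : Type v} [LinearOrder W] [Cd M W]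
    [Om1 M W] (s : Finset W) : ∃ ζ : W, ∀ a ∈ s, a < ζ := by
  classical
  induction s using Finset.induction_on with
  | empty =>
    obtain ⟨ζ⟩ := Om1.ne (M := M) (W := W)
    exact ⟨ζ, fun a ha => absurd ha (Finset.notMem_empty a)⟩
  | insert a s _ ih =>
    obtain ⟨ζ, hζ⟩ := ih
    obtain ⟨ζ', hζ'⟩ := Om1.bdd (M := M) (fun _ : ℕ => max a ζ) (IF.const _)
    have h1 := hζ' 0
    refine ⟨ζ', fun b hb => ?_⟩
    rcases Finset.mem_insert.1 hb with rfl | hb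
    · exact lt_of_le_of_lt (le_max_left _ _) h1
    · exact (hζ b hb).trans (lt_of_le_of_lt (le_max_right _ _) h1)

/-- conditions have bounded indices -/
theorem exists_Bd (M : Type u) [SetStr M] [ZFC M] [Std M] {W : Type v} [LinearOrder W] [Cd M W]
    [Om1 M W] (p : Cond W) : ∃ ζ : W, Bd ζ p := by
  classical
  obtain ⟨ζ, hζ⟩ := Ct_bound M (p.1.image (fun x => x.1) ∪ (p.2.image (fun x => x.1) ∪
    p.2.image (fun x => x.2.1)))
  refine ⟨ζ, fun ν m h => hζ ν ?_, fun ν ξ h hm => ⟨hζ ν ?_, hζ ξ ?_⟩⟩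
  · exact Finset.mem_union_left _ (Finset.mem_image.2 ⟨_, h, rfl⟩)
  · exact Finset.mem_union_right _ (Finset.mem_union_left _ (Finset.mem_image.2 ⟨_, hm, rfl⟩))
  · exact Finset.mem_union_right _ (Finset.mem_union_right _ (Finset.mem_image.2 ⟨_, hm, rfl⟩))

/-- the conditions with indices below `ζ` -/
theorem ICt.conds (ζ : W) : ICt M {p : Cond W | Bd ζ p} := by
  refine ((ICt.stems ζ).prod (ICt.finset ((ICt.below ζ).prod ((ICt.below ζ).prod
    ICt.hc)))).mono ?_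
  rintro p ⟨h1, h2⟩
  refine ⟨fun x hx => h1 x.1 x.2 hx, ?_⟩
  rintro ⟨ν, ξ, h⟩ hx
  exact ⟨(h2 ν ξ h hx).1, (h2 ν ξ h hx).2, Set.mem_univ _⟩

/-- an internal function to `W` is bounded on an internal countable set -/
theorem ICt.bdd {A : Set T} (h : ICt M A) (hA : In M (fun t => t ∈ A)) {F : T → W} (hF : IF M F) :
    ∃ ζ, ∀ a ∈ A, F a < ζ := by
  by_cases hne : A.Nonempty
  · obtain ⟨e, he, h1, h2⟩ := Ct_enum h hA hne
    obtain ⟨ζ, hζ⟩ := Om1.bdd (M := M) (fun n => F (e n)) (IF.comp hF he)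
    refine ⟨ζ, fun a ha => ?_⟩
    obtain ⟨n, rfl⟩ := h2 a ha
    exact hζ n
  · obtain ⟨ζ⟩ := Om1.ne (M := M) (W := W)
    exact ⟨ζ, fun a ha => absurd ⟨a, ha⟩ hne⟩

/-- an internal countable nonempty set is enumerated by the natural numbers -/
theorem ICt.enum {A : Set T} (h : ICt M A) (hA : In M (fun t => t ∈ A)) (hne : A.Nonempty) :
    ∃ e : ℕ → T, IF M e ∧ (∀ n, e n ∈ A) ∧ ∀ a ∈ A, ∃ n, e n = a := by
  exact Ct_enum h hA hne

end Pool.Agent.H.MP_a163f2_lc
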