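import Pool.Agent.H.MP_a163f2_lc.R.Re
import Pool.Agent.H.MP_a163f2_lc.E.E0

/-!
# Block R, part D0: the final forcing and its generic filters (typed)
-/

set_option autoImplicit false
set_option linter.unusedSectionVars false

namespace Pool.Agent.H.MP_a163f2_lc

open Pool.Agent.H.MP_07d118_lc

universe u v w x

section

variable (M : Type u) [SetStr M] [ZF M] [Std M] (W : Type v) [LinearOrder W] [Cd M W]

/-- pairs of a history and a condition -/
abbrev HC : Type v := Hi M W × Cond W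

variable {M W}

/-- the conditions of the final forcing -/
def QV (hw : WellFounded ((· < ·) : W → W → Prop)) (c : W × Hc → ℕ → ℕ) : Set (HC M W) :=
  {x | VHi hw c x.1 ∧ x.2 ∈ PP c x.1.2.2}

/-- the order of the final forcing -/
def QL (c : W × Hc → ℕ → ℕ) (x' x : HC M W) : Prop := HLe x'.1 x.1 ∧ CLe c x'.2 x.2

/-- generic filters of the final forcing -/
structure QGen (hw : WellFounded ((· < ·) : W → W → Prop)) (c : W × Hc → ℕ → ℕ)
    (GG : Set (HC M W)) : Prop where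
  sub : ∀ x ∈ GG, x ∈ QV hw c
  ne : GG.Nonempty
  up : ∀ x ∈ GG, ∀ y ∈ QV hw c, QL c x y → y ∈ GG
  dir : ∀ x ∈ GG, ∀ y ∈ GG, ∃ z ∈ GG, QL c z x ∧ QL c z y
  meets : ∀ D : ISet M (HC M W), (∀ x ∈ QV hw c, ∃ y ∈ QV hw c, QL c y x ∧ y ∈ D) →
    ∃ x ∈ GG, x ∈ D

/-- the reals of the final model -/
def RN (GG : Set (HC M W)) : Set (ℕ → ℕ) :=
  {x | ∃ F : ISet M (HC M W × ℕ × ℕ), ∀ n k, x n = k ↔ ∃ y ∈ GG, (y, n, k) ∈ F}

/-- the histories which occur -/
def HS (GG : Set (HC M W)) : Set (Hi M W) := {s | ∃ p, (s, p) ∈ GG}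

/-- the conditions which occur with the history `s` -/
def Gs (GG : Set (HC M W)) (s : Hi M W) : Set (Cond W) := {p | (s, p) ∈ GG}

/-- the coded reals of the final model -/
def KN (c : W × Hc → ℕ → ℕ) (GG : Set (HC M W)) : Set (ℕ → ℕ) :=
  {z | z ∈ RN GG ∧ ∃ y ∈ RN GG, Cod c y z}

end

end Pool.Agent.H.MP_a163f2_lc
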