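import Pool.Agent.H.MP_a163f2_lc.R.I3

/-!
# Block R, part C6: the validity of items and histories is internal
-/

set_option autoImplicit false
set_option linter.unusedSectionVars false
set_option synthInstance.maxSize 1000

namespace Pool.Agent.H.MP_a163f2_lc

open Pool.Agent.H.MP_07d118_lc

universe u v w x

variable {M : Type u} [SetStr M] [ZF M] [Std M] {W : Type v} [LinearOrder W] [Cd M W] [Om1 M W]
variable {c : W × Hc → ℕ → ℕ} [hL : Fact (Luz M W c)]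
variable {hw : WellFounded ((· < ·) : W → W → Prop)}
variable {T : Type w} [Cd M T] {S : Type x} [Cd M S]

/-- freshness of the item `κ` -/
def VFresh (c : W × Hc → ℕ → ℕ) (it : W → Item M W) (κ : W) : Prop :=
  ∀ η, η < κ → ∀ r, r ∈ PP c (it κ).1 → CLe c r (it κ).2.2.1 → CLe c r (it η).2.2.1 →
    ¬ Fo c (it κ).1 r (fun G => ev (it κ).2.1 G = ev (it η).2.1 G)

/-- the flag of side items -/
def VSide (hw : WellFounded ((· < ·) : W → W → Prop)) (c : W × Hc → ℕ → ℕ)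
    (it : W → Item M W) (κ : W) : Prop :=
  Fo c (it κ).1 (it κ).2.2.1 (fun G => ev (it κ).2.1 G 0 = 0) ∧
      ¬ ∃ g, g ∈ Al hw c it κ ∧ Sb (it κ).1 g ∧ ∃ p', p' ∈ PP c g ∧ CLe c p' (it κ).2.2.1 ∧
        Fo c g p' (fun G => ∃ x ∈ RR c g G, U3 (RR c g G) x (zx (ev (it κ).2.1 G)) ∧
          U3 (RR c g G) x (za (ev (it κ).2.1 G)))

/-- the flag of order items -/
def VOrd (c : W × Hc → ℕ → ℕ) (it : W → Item M W) (κ : W) : Prop :=
  Fo c (it κ).1 (it κ).2.2.1 (fun G => ev (it κ).2.1 G 0 = 1 ∧ za (ev (it κ).2.1 G) = 0 ∧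
      ListOK it κ G (ev (it κ).2.2.2 G))

/-- the flag of diagonal items, beginning -/
def VDiag0 (c : W × Hc → ℕ → ℕ) (it : W → Item M W) (κ : W) : Prop :=
  Fo c (it κ).1 (it κ).2.2.1 (fun G => ev (it κ).2.1 G 0 = 2) ∧
      (∀ ν, ν ∈ (it κ).1.dom → ∀ i, i < 2 → Fo c (it κ).1 (it κ).2.2.1 (fun G =>
        ¬ (za (ev ((it κ).1.nm ν) G) = ev (it κ).2.1 G ∧ ev ((it κ).1.nm ν) G 0 = i)))

def VDiagA (c : W × Hc → ℕ → ℕ) (it : W → Item M W) (κ : W) : Prop :=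
  Fo c (it κ).1 (it κ).2.2.1 (fun G => ev (it κ).2.2.2 G 0 = 1 ∧ ev (it κ).2.2.2 G 1 = 0 ∧
          U3 (RR c (it κ).1 G) (ev (it κ).2.1 G) (za (zx (ev (it κ).2.1 G))))

def VDiagB (c : W × Hc → ℕ → ℕ) (it : W → Item M W) (κ : W) : Prop :=
  Fo c (it κ).1 (it κ).2.2.1 (fun G => ev (it κ).2.2.2 G 0 = 0 ∧ ev (it κ).2.2.2 G 1 = 1 ∧
          U3 (RR c (it κ).1 G) (ev (it κ).2.1 G) (zx (zx (ev (it κ).2.1 G))))

def VDiagC (hw : WellFounded ((· < ·) : W → W → Prop)) (c : W × Hc → ℕ → ℕ)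
    (it : W → Item M W) (κ : W) : Prop :=
  Fo c (it κ).1 (it κ).2.2.1 (fun G => ∀ n, ev (it κ).2.2.2 G n = 0) ∧
          ¬ ∃ g, g ∈ Al hw c it κ ∧ Sb (it κ).1 g ∧ Obey c (it κ) ∅ g ∧ ∃ p', p' ∈ PP c g ∧
            CLe c p' (it κ).2.2.1 ∧ Fo c g p' (fun G =>
              U3 (RR c g G) (ev (it κ).2.1 G) (zx (zx (ev (it κ).2.1 G))) ∨
              U3 (RR c g G) (ev (it κ).2.1 G) (za (zx (ev (it κ).2.1 G))))

theorem VItem_iff {it : W → Item M W} {κ : W} : VItem hw c it κ ↔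
    ((it κ).1 ∈ Al hw c it κ ∧ IsNm c (it κ).1 (it κ).2.1 ∧ (it κ).2.2.1 ∈ PP c (it κ).1 ∧
      IsNm c (it κ).1 (it κ).2.2.2) ∧ VFresh c it κ ∧
      (VSide hw c it κ ∨ VOrd c it κ ∨
        (VDiag0 c it κ ∧ (VDiagA c it κ ∨ VDiagB c it κ ∨ VDiagC hw c it κ))) := by
  constructor
  · intro h
    refine ⟨⟨h.al, h.key, h.cond, h.perm⟩, h.fresh, ?_⟩
    rcases h.flag with h1 | h1 | ⟨h1, h2, h3⟩
    · exact Or.inl h1
    · exact Or.inr (Or.inl h1)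
    · exact Or.inr (Or.inr ⟨⟨h1, h2⟩, h3⟩)
  · rintro ⟨⟨h1, h2, h3, h4⟩, h5, h6⟩
    refine ⟨h1, h2, h3, h4, h5, ?_⟩
    rcases h6 with h6 | h6 | ⟨⟨h6, h7⟩, h8⟩
    · exact Or.inl h6
    · exact Or.inr (Or.inl h6)
    · exact Or.inr (Or.inr ⟨h6, h7, h8⟩)

section

variable [Countable M] {it : T → Its M W} (hit : IF M it) {κ : T → W} (hκ : IF M κ)

include hit hκ

theorem In.vfresh : In M (fun t => VFresh c (it t).1 (κ t)) := by
  unfold VFresh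
  refine In.all (P := fun (t : T) (η : W) => η < κ t → ∀ r, r ∈ PP c ((it t).1 (κ t)).1 →
    CLe c r ((it t).1 (κ t)).2.2.1 → CLe c r ((it t).1 η).2.2.1 →
    ¬ Fo c ((it t).1 (κ t)).1 r (fun G => ev ((it t).1 (κ t)).2.1 G =
      ev ((it t).1 η).2.1 G)) (In.imp (In.ltW IF.snd (IF.comp hκ IF.fst)) ?_)
  refine In.all (P := fun (y : T × W) (r : Cond W) => r ∈ PP c ((it y.1).1 (κ y.1)).1 →
    CLe c r ((it y.1).1 (κ y.1)).2.2.1 → CLe c r ((it y.1).1 y.2).2.2.1 →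
    ¬ Fo c ((it y.1).1 (κ y.1)).1 r (fun G => ev ((it y.1).1 (κ y.1)).2.1 G =
      ev ((it y.1).1 y.2).2.1 G)) ?_
  have e1 : IF M (fun y : (T × W) × Cond W => y.1.1) := IF.comp IF.fst IF.fst
  have hI : IF M (fun y : (T × W) × Cond W => (it y.1.1).1 (κ y.1.1)) :=
    IF.app (IF.comp hit e1) (IF.comp hκ e1)
  have hJ : IF M (fun y : (T × W) × Cond W => (it y.1.1).1 y.1.2) :=
    IF.app (IF.comp hit e1) (IF.comp IF.snd IF.fst)
  refine In.imp (In.pp (IF.it1 hI) IF.snd) (In.imp (In.cle IF.snd (IF.it3 hI))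
    (In.imp (In.cle IF.snd (IF.it3 hJ)) (In.not ?_)))
  exact Good.fo (IF.it1 hI) (Q := fun (y : (T × W) × Cond W) G =>
    ev ((it y.1.1).1 (κ y.1.1)).2.1 G = ev ((it y.1.1).1 y.1.2).2.1 G)
    (Good.eqR (IF.it1 hI) (GoodR.ev (IF.it1 hI) (IF.it2 hI)) (GoodR.ev (IF.it1 hI) (IF.it2 hJ)))
    IF.snd

theorem In.vside : In M (fun t => VSide hw c (it t).1 (κ t)) := by
  unfold VSide
  have hI0 : IF M (fun t => (it t).1 (κ t)) := IF.app hit hκ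
  refine In.and ?_ (In.not ?_)
  · exact Good.fo (IF.it1 hI0) (Q := fun (t : T) G => ev ((it t).1 (κ t)).2.1 G 0 = 0)
      (Good.eq (GoodR.app (GoodR.ev (IF.it1 hI0) (IF.it2 hI0)) (GoodF.of_if (IF.const 0)))
        (GoodF.of_if (IF.const 0))) (IF.it3 hI0)
  refine In.ex (P := fun (t : T) (g : Pl M W) => g ∈ Al hw c (it t).1 (κ t) ∧
    Sb ((it t).1 (κ t)).1 g ∧ ∃ p', p' ∈ PP c g ∧ CLe c p' ((it t).1 (κ t)).2.2.1 ∧
        Fo c g p' (fun G => ∃ x ∈ RR c g G,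
          MP_a163f2_lc.U3 (RR c g G) x (zx (ev ((it t).1 (κ t)).2.1 G)) ∧
          MP_a163f2_lc.U3 (RR c g G) x (za (ev ((it t).1 (κ t)).2.1 G)))) ?_
  refine In.and (In.al (IF.comp hit IF.fst) (IF.comp hκ IF.fst) IF.snd) (In.and
    (In.sb (IF.it1 (IF.comp hI0 IF.fst)) IF.snd) ?_)
  refine In.ex (P := fun (y : T × Pl M W) (p' : Cond W) => p' ∈ PP c y.2 ∧
    CLe c p' ((it y.1).1 (κ y.1)).2.2.1 ∧
        Fo c y.2 p' (fun G => ∃ x ∈ RR c y.2 G,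
          MP_a163f2_lc.U3 (RR c y.2 G) x (zx (ev ((it y.1).1 (κ y.1)).2.1 G)) ∧
          MP_a163f2_lc.U3 (RR c y.2 G) x (za (ev ((it y.1).1 (κ y.1)).2.1 G)))) ?_
  have e1 : IF M (fun y : (T × Pl M W) × Cond W => y.1.1) := IF.comp IF.fst IF.fst
  have e2 : IF M (fun y : (T × Pl M W) × Cond W => y.1.2) := IF.comp IF.snd IF.fst
  have hI : IF M (fun y : (T × Pl M W) × Cond W => (it y.1.1).1 (κ y.1.1)) := IF.comp hI0 e1
  refine In.and (In.pp e2 IF.snd) (In.and (In.cle IF.snd (IF.it3 hI)) ?_)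
  refine Good.fo e2 (Q := fun (y : (T × Pl M W) × Cond W) G => ∃ x ∈ RR c y.1.2 G,
          MP_a163f2_lc.U3 (RR c y.1.2 G) x (zx (ev ((it y.1.1).1 (κ y.1.1)).2.1 G)) ∧
          MP_a163f2_lc.U3 (RR c y.1.2 G) x (za (ev ((it y.1.1).1 (κ y.1.1)).2.1 G))) ?_ IF.snd
  refine Good.exRR e2 (Q := fun (y : (T × Pl M W) × Cond W) x G =>
          MP_a163f2_lc.U3 (RR c y.1.2 G) x (zx (ev ((it y.1.1).1 (κ y.1.1)).2.1 G)) ∧
          MP_a163f2_lc.U3 (RR c y.1.2 G) x (za (ev ((it y.1.1).1 (κ y.1.1)).2.1 G))) ?_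
  have e3 : IF M (fun y : ((T × Pl M W) × Cond W) × Nm M W => y.1.1.2) := IF.comp e2 IF.fst
  have gx : GoodR c (fun y : ((T × Pl M W) × Cond W) × Nm M W => y.1.1.2)
      (fun y G => ev y.2 G) := GoodR.ev e3 IF.snd
  have ga : GoodR c (fun y : ((T × Pl M W) × Cond W) × Nm M W => y.1.1.2)
      (fun y G => ev ((it y.1.1.1).1 (κ y.1.1.1)).2.1 G) :=
    GoodR.ev e3 (IF.comp (IF.it2 hI) IF.fst)
  exact Good.and (Good.U3 e3 gx ga.zx) (Good.U3 e3 gx ga.za)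

theorem In.vord : In M (fun t => VOrd c (it t).1 (κ t)) := by
  unfold VOrd
  have hI0 : IF M (fun t => (it t).1 (κ t)) := IF.app hit hκ
  have hf : IF M (fun t => ((it t).1 (κ t)).1) := IF.it1 hI0
  have ga : GoodR c (fun t => ((it t).1 (κ t)).1) (fun t G => ev ((it t).1 (κ t)).2.1 G) :=
    GoodR.ev hf (IF.it2 hI0)
  have gw : GoodR c (fun t => ((it t).1 (κ t)).1) (fun t G => ev ((it t).1 (κ t)).2.2.2 G) :=
    GoodR.ev hf (IF.it4 hI0)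
  refine Good.fo hf (Q := fun (t : T) G => ev ((it t).1 (κ t)).2.1 G 0 = 1 ∧
    za (ev ((it t).1 (κ t)).2.1 G) = 0 ∧ ListOK (it t).1 (κ t) G (ev ((it t).1 (κ t)).2.2.2 G))
    ?_ (IF.it3 hI0)
  refine Good.and (Good.eq (GoodR.app ga (GoodF.of_if (IF.const 0))) (GoodF.of_if (IF.const 1)))
    (Good.and ?_ (Good.listOK hf hit hκ gw))
  have g0 : GoodR c (fun t => ((it t).1 (κ t)).1) (fun (_ : T) _ => (0 : ℕ → ℕ)) :=
    GoodF.of_if (T := T × ℕ) (k := fun y => (0 : ℕ → ℕ) y.2) ((IF.const 0).congr fun _ => rfl)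
  exact Good.eqR hf ga.za g0

theorem In.vdiag0 : In M (fun t => VDiag0 c (it t).1 (κ t)) := by
  unfold VDiag0
  have hI0 : IF M (fun t => (it t).1 (κ t)) := IF.app hit hκ
  have hf : IF M (fun t => ((it t).1 (κ t)).1) := IF.it1 hI0
  refine In.and ?_ ?_
  · exact Good.fo hf (Q := fun (t : T) G => ev ((it t).1 (κ t)).2.1 G 0 = 2)
      (Good.eq (GoodR.app (GoodR.ev hf (IF.it2 hI0)) (GoodF.of_if (IF.const 0)))
        (GoodF.of_if (IF.const 2))) (IF.it3 hI0)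
  refine In.all (P := fun (t : T) (ν : W) => ν ∈ ((it t).1 (κ t)).1.dom → ∀ i, i < 2 →
    Fo c ((it t).1 (κ t)).1 ((it t).1 (κ t)).2.2.1 (fun G =>
        ¬ (za (ev (((it t).1 (κ t)).1.nm ν) G) = ev ((it t).1 (κ t)).2.1 G ∧
          ev (((it t).1 (κ t)).1.nm ν) G 0 = i))) ?_
  refine In.imp (In.pdom IF.snd (IF.comp hf IF.fst)) ?_
  refine In.all (P := fun (y : T × W) (i : ℕ) => i < 2 →
    Fo c ((it y.1).1 (κ y.1)).1 ((it y.1).1 (κ y.1)).2.2.1 (fun G =>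
        ¬ (za (ev (((it y.1).1 (κ y.1)).1.nm y.2) G) = ev ((it y.1).1 (κ y.1)).2.1 G ∧
          ev (((it y.1).1 (κ y.1)).1.nm y.2) G 0 = i))) ?_
  refine In.imp (In.lt IF.snd (IF.const 2)) ?_
  have e1 : IF M (fun y : (T × W) × ℕ => y.1.1) := IF.comp IF.fst IF.fst
  have e2 : IF M (fun y : (T × W) × ℕ => y.1.2) := IF.comp IF.snd IF.fst
  have hI : IF M (fun y : (T × W) × ℕ => (it y.1.1).1 (κ y.1.1)) := IF.comp hI0 e1
  have hf2 : IF M (fun y : (T × W) × ℕ => ((it y.1.1).1 (κ y.1.1)).1) := IF.it1 hI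
  have gn : GoodR c (fun y : (T × W) × ℕ => ((it y.1.1).1 (κ y.1.1)).1)
      (fun y G => ev (((it y.1.1).1 (κ y.1.1)).1.nm y.1.2) G) := GoodR.ev hf2 (IF.nmP hf2 e2)
  refine Good.fo hf2 (Q := fun (y : (T × W) × ℕ) G =>
        ¬ (za (ev (((it y.1.1).1 (κ y.1.1)).1.nm y.1.2) G) = ev ((it y.1.1).1 (κ y.1.1)).2.1 G ∧
          ev (((it y.1.1).1 (κ y.1.1)).1.nm y.1.2) G 0 = y.2)) ?_ (IF.it3 hI)
  exact Good.not hf2 (Good.and (Good.eqR hf2 gn.za (GoodR.ev hf2 (IF.it2 hI)))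
    (Good.eq (GoodR.app gn (GoodF.of_if (IF.const 0))) (GoodF.of_if IF.snd)))

theorem In.vdiagA : In M (fun t => VDiagA c (it t).1 (κ t)) := by
  unfold VDiagA
  have hI0 : IF M (fun t => (it t).1 (κ t)) := IF.app hit hκ
  have hf : IF M (fun t => ((it t).1 (κ t)).1) := IF.it1 hI0
  have ga : GoodR c (fun t => ((it t).1 (κ t)).1) (fun t G => ev ((it t).1 (κ t)).2.1 G) :=
    GoodR.ev hf (IF.it2 hI0)
  have gw : GoodR c (fun t => ((it t).1 (κ t)).1) (fun t G => ev ((it t).1 (κ t)).2.2.2 G) :=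
    GoodR.ev hf (IF.it4 hI0)
  refine Good.fo hf (Q := fun (t : T) G => ev ((it t).1 (κ t)).2.2.2 G 0 = 1 ∧
    ev ((it t).1 (κ t)).2.2.2 G 1 = 0 ∧ MP_a163f2_lc.U3 (RR c ((it t).1 (κ t)).1 G)
      (ev ((it t).1 (κ t)).2.1 G) (za (zx (ev ((it t).1 (κ t)).2.1 G)))) ?_ (IF.it3 hI0)
  exact Good.and (Good.eq (GoodR.app gw (GoodF.of_if (IF.const 0))) (GoodF.of_if (IF.const 1)))
    (Good.and (Good.eq (GoodR.app gw (GoodF.of_if (IF.const 1))) (GoodF.of_if (IF.const 0)))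
      (Good.U3 hf ga ga.zx.za))

theorem In.vdiagB : In M (fun t => VDiagB c (it t).1 (κ t)) := by
  unfold VDiagB
  have hI0 : IF M (fun t => (it t).1 (κ t)) := IF.app hit hκ
  have hf : IF M (fun t => ((it t).1 (κ t)).1) := IF.it1 hI0
  have ga : GoodR c (fun t => ((it t).1 (κ t)).1) (fun t G => ev ((it t).1 (κ t)).2.1 G) :=
    GoodR.ev hf (IF.it2 hI0)
  have gw : GoodR c (fun t => ((it t).1 (κ t)).1) (fun t G => ev ((it t).1 (κ t)).2.2.2 G) :=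
    GoodR.ev hf (IF.it4 hI0)
  refine Good.fo hf (Q := fun (t : T) G => ev ((it t).1 (κ t)).2.2.2 G 0 = 0 ∧
    ev ((it t).1 (κ t)).2.2.2 G 1 = 1 ∧ MP_a163f2_lc.U3 (RR c ((it t).1 (κ t)).1 G)
      (ev ((it t).1 (κ t)).2.1 G) (zx (zx (ev ((it t).1 (κ t)).2.1 G)))) ?_ (IF.it3 hI0)
  exact Good.and (Good.eq (GoodR.app gw (GoodF.of_if (IF.const 0))) (GoodF.of_if (IF.const 0)))
    (Good.and (Good.eq (GoodR.app gw (GoodF.of_if (IF.const 1))) (GoodF.of_if (IF.const 1)))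
      (Good.U3 hf ga ga.zx.zx))

theorem In.vdiagC : In M (fun t => VDiagC hw c (it t).1 (κ t)) := by
  unfold VDiagC
  have hI0 : IF M (fun t => (it t).1 (κ t)) := IF.app hit hκ
  have hf : IF M (fun t => ((it t).1 (κ t)).1) := IF.it1 hI0
  refine In.and ?_ (In.not ?_)
  · have gw : GoodR c (fun t => ((it t).1 (κ t)).1) (fun t G => ev ((it t).1 (κ t)).2.2.2 G) :=
      GoodR.ev hf (IF.it4 hI0)
    refine Good.fo hf (Q := fun (t : T) G => ∀ n, ev ((it t).1 (κ t)).2.2.2 G n = 0) ?_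
      (IF.it3 hI0)
    refine Good.all hf (Q := fun (t : T) (n : ℕ) G => ev ((it t).1 (κ t)).2.2.2 G n = 0) ?_
    exact Good.eq gw (GoodF.of_if (IF.const 0))
  refine In.ex (P := fun (t : T) (g : Pl M W) => g ∈ Al hw c (it t).1 (κ t) ∧
    Sb ((it t).1 (κ t)).1 g ∧ Obey c ((it t).1 (κ t)) ∅ g ∧ ∃ p', p' ∈ PP c g ∧
    CLe c p' ((it t).1 (κ t)).2.2.1 ∧
        Fo c g p' (fun G => MP_a163f2_lc.U3 (RR c g G) (ev ((it t).1 (κ t)).2.1 G)
            (zx (zx (ev ((it t).1 (κ t)).2.1 G))) ∨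
          MP_a163f2_lc.U3 (RR c g G) (ev ((it t).1 (κ t)).2.1 G)
            (za (zx (ev ((it t).1 (κ t)).2.1 G))))) ?_
  refine In.and (In.al (IF.comp hit IF.fst) (IF.comp hκ IF.fst) IF.snd) (In.and
    (In.sb (IF.it1 (IF.comp hI0 IF.fst)) IF.snd) (In.and
    (In.obey (A := fun _ => ∅) (IF.comp hI0 IF.fst) ((In.const False).congr fun _ => Iff.rfl)
      IF.snd) ?_))
  refine In.ex (P := fun (y : T × Pl M W) (p' : Cond W) => p' ∈ PP c y.2 ∧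
    CLe c p' ((it y.1).1 (κ y.1)).2.2.1 ∧
        Fo c y.2 p' (fun G => MP_a163f2_lc.U3 (RR c y.2 G) (ev ((it y.1).1 (κ y.1)).2.1 G)
            (zx (zx (ev ((it y.1).1 (κ y.1)).2.1 G))) ∨
          MP_a163f2_lc.U3 (RR c y.2 G) (ev ((it y.1).1 (κ y.1)).2.1 G)
            (za (zx (ev ((it y.1).1 (κ y.1)).2.1 G))))) ?_
  have e1 : IF M (fun y : (T × Pl M W) × Cond W => y.1.1) := IF.comp IF.fst IF.fst
  have e2 : IF M (fun y : (T × Pl M W) × Cond W => y.1.2) := IF.comp IF.snd IF.fst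
  have hI : IF M (fun y : (T × Pl M W) × Cond W => (it y.1.1).1 (κ y.1.1)) := IF.comp hI0 e1
  refine In.and (In.pp e2 IF.snd) (In.and (In.cle IF.snd (IF.it3 hI)) ?_)
  have ga : GoodR c (fun y : (T × Pl M W) × Cond W => y.1.2)
      (fun y G => ev ((it y.1.1).1 (κ y.1.1)).2.1 G) := GoodR.ev e2 (IF.it2 hI)
  refine Good.fo e2 (Q := fun (y : (T × Pl M W) × Cond W) G =>
        MP_a163f2_lc.U3 (RR c y.1.2 G) (ev ((it y.1.1).1 (κ y.1.1)).2.1 G)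
            (zx (zx (ev ((it y.1.1).1 (κ y.1.1)).2.1 G))) ∨
          MP_a163f2_lc.U3 (RR c y.1.2 G) (ev ((it y.1.1).1 (κ y.1.1)).2.1 G)
            (za (zx (ev ((it y.1.1).1 (κ y.1.1)).2.1 G)))) ?_ IF.snd
  exact Good.or (Good.U3 e2 ga ga.zx.zx) (Good.U3 e2 ga ga.zx.za)

theorem In.vitem : In M (fun t => VItem hw c (it t).1 (κ t)) := by
  have hI : IF M (fun t => (it t).1 (κ t)) := IF.app hit hκ
  exact ((In.and (In.al hit hκ (IF.it1 hI)) (In.and (In.isNm (IF.it1 hI) (IF.it2 hI)) (In.and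
    (In.pp (IF.it1 hI) (IF.it3 hI)) (In.isNm (IF.it1 hI) (IF.it4 hI))))).and
    ((In.vfresh hit hκ).and ((In.vside hit hκ).or ((In.vord hit hκ).or
      ((In.vdiag0 hit hκ).and ((In.vdiagA hit hκ).or ((In.vdiagB hit hκ).or
        (In.vdiagC hit hκ)))))))).congr fun t => VItem_iff

end

theorem In.vhi [Countable M] : In M (fun s : Hi M W => VHi hw c s) := by
  unfold VHi
  refine In.and (In.al (IF.comp IF.fst IF.snd) IF.fst (IF.comp IF.snd IF.snd)) ?_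
  refine In.all (P := fun (s : Hi M W) (κ : W) => κ < s.1 → VItem hw c s.2.1.1 κ) ?_
  exact In.imp (In.ltW IF.snd (IF.comp IF.fst IF.fst))
    (In.vitem (IF.comp IF.fst (IF.comp IF.snd IF.fst)) IF.snd)

end Pool.Agent.H.MP_a163f2_lc
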