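import Pool.Agent.H.MP_a163f2_lc.R.C2
import Pool.Agent.H.MP_a163f2_lc.R.I4

/-!
# Block R, interface between the parts C and D
-/

set_option autoImplicit false
set_option linter.unusedSectionVars false

namespace Pool.Agent.H.MP_a163f2_lc

open Pool.Agent.H.MP_07d118_lc

universe u v w x

variable {M : Type u} [SetStr M] [ZFC M] [Std M] {W : Type v} [LinearOrder W] [Cd M W] [Om1 M W]
variable {c : W × Hc → ℕ → ℕ} [hL : Fact (Luz M W c)]
variable {hw : WellFounded ((· < ·) : W → W → Prop)}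
variable {T : Type w} [Cd M T]

theorem stub_union [Countable M] {it : W → Item M W} (hit : IF M it) {κ : W}
    (hv : ∀ η < κ, VItem hw c it η) {P : T → Prop} {hP : In M P} {F : T → Pl M W} {hF : IF M F}
    (h : ∀ i j, P i → P j → Sb (F i) (F j) ∨ Sb (F j) (F i)) (hne : ∃ t, P t)
    (hc : ICt M {t | P t}) (ha : ∀ t, P t → F t ∈ Al hw c it κ) :
    plUn P hP F hF ∈ Al hw c it κ :=
  Al_union (fun η hη => (hv η hη).itok) h hne hc ha

/-- the rule of the item `η` at the node `ν` -/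
def Rule (hw : WellFounded ((· < ·) : W → W → Prop)) (c : W × Hc → ℕ → ℕ) (it : W → Item M W)
    (η : W) (g : Pl M W) (ν : W) : Prop :=
  ∀ i < 2, ∀ p ∈ PP c g, CLe c p (it η).2.2.1 →
    Fo c g p (fun G => za (ev (g.nm ν) G) = ev (it η).2.1 G ∧ ev (g.nm ν) G 0 = i) →
    (Fo c g p (fun G => ev (it η).2.1 G 0 = 0) →
      (i = 0 → ∀ p₁ ∈ PP c g, CLe c p₁ p → Fut c (it η) (Al hw c it η) g p₁ (g.nm ν)) ∧
      (i = 1 → ¬ Fut c (it η) (Al hw c it η) g p (g.nm ν))) ∧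
    (Fo c g p (fun G => ev (it η).2.1 G 0 ≠ 0) →
      Fo c g p (fun G => ev (it η).2.2.2 G (2 * zx (ev (g.nm ν) G) 0 + i) = 1))

theorem stub_addN [Countable M] {it : W → Item M W} (hit : IF M it) {κ : W}
    (hv : ∀ η < κ, VItem hw c it η) {f : Pl M W} (hf : f ∈ Al hw c it κ) {ν : W}
    (hν : ν ∉ f.dom) {x : Nm M W} (hx : IsNm c f x)
    (h : ∀ η < κ, addN f ν x ∈ Al hw c it η → Rule hw c it η (addN f ν x) ν) :
    addN f ν x ∈ Al hw c it κ := by
  -- all rules hold, by induction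
  have key : ∀ η ≤ κ, addN f ν x ∈ Al hw c it η := by
    intro η
    induction η using hw.induction with
    | _ η ih =>
      intro hη
      exact Al_addN (fun ζ hζ => (hv ζ (lt_of_lt_of_le hζ hη)).itok) (Al_anti hη hf) hν hx
        fun ζ hζ => h ζ (lt_of_lt_of_le hζ hη) (ih ζ hζ (hζ.le.trans hη))
  exact key κ le_rfl

theorem stub_fut [Countable M] {it : W → Item M W} (hit : IF M it) {κ : W}
    (hv : ∀ η ≤ κ, VItem hw c it η) {g g₁ : Pl M W} (hg : g ∈ Al hw c it κ)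
    (hg₁ : g₁ ∈ Al hw c it κ) (h : Sb g g₁) (hI : Sb (it κ).1 g) {z : Nm M W} (hz : IsNm c g z)
    {p : Cond W} (hp : p ∈ PP c g₁) :
    Fut c (it κ) (Al hw c it κ) g₁ p z ↔ Fut c (it κ) (Al hw c it κ) g (crs g.dom p) z :=
  Fut_iff (fun ζ hζ => (hv ζ hζ).itok) hg hg₁ h hI hz hp

end Pool.Agent.H.MP_a163f2_lc
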