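import Pool.Agent.H.MP_a163f2_lc.R.D3
import Pool.Agent.H.MP_a163f2_lc.R.DStub
import Pool.Agent.H.MP_a163f2_lc.R.D0

/-!
# Block R, part D2: histories
-/

set_option autoImplicit false
set_option linter.unusedSectionVars false

namespace Pool.Agent.H.MP_a163f2_lc

open Pool.Agent.H.MP_07d118_lc

universe u v w x

section basic

variable {M : Type u} [SetStr M] [ZFC M] [Std M] {W : Type v} [LinearOrder W] [Cd M W] [Om1 M W]
variable {c : W × Hc → ℕ → ℕ} [hL : Fact (Luz M W c)] {hw : WellFounded ((· < ·) : W → W → Prop)}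

theorem Al_mono {it : W → Item M W} {κ κ' : W} (h : κ ≤ κ') :
    Al hw c it κ' ⊆ Al hw c it κ := by
  intro g hg
  rw [mem_Al] at hg ⊢
  exact ⟨hg.1, fun η hη => hg.2 η (lt_of_lt_of_le hη h)⟩

theorem Al_congr {it it' : W → Item M W} {κ : W} (h : ∀ η < κ, it η = it' η) :
    Al hw c it κ = Al hw c it' κ := by
  induction κ using hw.induction with
  | _ κ ih =>
    ext g
    rw [mem_Al, mem_Al]
    refine and_congr_right fun _ => forall_congr' fun η => forall_congr' fun hη => ?_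
    rw [h η hη, ih η hη (fun ζ hζ => h ζ (hζ.trans hη))]

theorem ListOK_congr {it it' : W → Item M W} {κ : W} (h : ∀ η < κ, it η = it' η)
    {G : Set (Cond W)} {x : ℕ → ℕ} (hx : ListOK it κ G x) : ListOK it' κ G x := by
  refine ⟨hx.1, fun η hη => ?_, fun j hj => ?_⟩
  · rw [← h η hη]
    exact hx.2.1 η hη
  · obtain ⟨η, hη, h1⟩ := hx.2.2 j hj
    refine ⟨η, hη, ?_⟩
    rw [← h η hη]
    exact h1

theorem VItem_congr {it it' : W → Item M W} {κ : W} (h : ∀ η ≤ κ, it η = it' η)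
    (hv : VItem hw c it κ) : VItem hw c it' κ := by
  have e := h κ le_rfl
  have eA : Al hw c it κ = Al hw c it' κ := Al_congr fun η hη => h η hη.le
  refine ⟨?_, ?_, ?_, ?_, ?_, ?_⟩
  · rw [← e, ← eA]
    exact hv.al
  · rw [← e]
    exact hv.key
  · rw [← e]
    exact hv.cond
  · rw [← e]
    exact hv.perm
  · intro η hη
    rw [← e, ← h η hη.le]
    exact hv.fresh η hη
  · rw [← e, ← eA]
    rcases hv.flag with h1 | h1 | h1
    · exact Or.inl h1
    · exact Or.inr (Or.inl (h1.imp fun G hG hp hQ =>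
        ⟨hQ.1, hQ.2.1, ListOK_congr (fun η hη => h η hη.le) hQ.2.2⟩))
    · exact Or.inr (Or.inr h1)

theorem HLe.refl (s : Hi M W) : HLe s s := ⟨le_rfl, fun _ _ => rfl, Sb.refl _⟩

theorem HLe.trans {r s t : Hi M W} (h : HLe r s) (h' : HLe s t) : HLe r t :=
  ⟨h'.1.trans h.1, fun κ hκ => (h.2.1 κ (lt_of_lt_of_le hκ h'.1)).trans (h'.2.1 κ hκ),
    h'.2.2.trans h.2.2⟩

theorem VHi.valid {s : Hi M W} (h : VHi hw c s) : Valid c s.2.2 := (mem_Al.1 h.1).1

/-- the items of a valid history are valid for the extensions -/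
theorem HLe.item {s' s : Hi M W} (h : HLe s' s) {κ : W} (hκ : κ < s.1) :
    s'.2.1.1 κ = s.2.1.1 κ := h.2.1 κ hκ

theorem HLe.al {s' s : Hi M W} (hs' : VHi hw c s') (h : HLe s' s) :
    s'.2.2 ∈ Al hw c s.2.1.1 s.1 := by
  have h1 := Al_mono (hw := hw) (c := c) (it := s'.2.1.1) h.1 hs'.1
  rwa [Al_congr (fun η hη => h.2.1 η hη)] at h1

theorem VHi.sb {s : Hi M W} (h : VHi hw c s) {κ : W} (hκ : κ < s.1) :
    Sb (s.2.1.1 κ).1 s.2.2 := ((mem_Al.1 h.1).2 κ hκ).1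

theorem VHi.item_valid {s : Hi M W} (h : VHi hw c s) {κ : W} (hκ : κ < s.1) :
    Valid c (s.2.1.1 κ).1 := (mem_Al.1 (h.2 κ hκ).al).1

theorem exists_sucW (M : Type u) [SetStr M] [ZFC M] [Std M] {W : Type v} [LinearOrder W] [Cd M W]
    [Om1 M W] (η : W) : ∃ κ : W, η < κ ∧ ∀ ζ < κ, ζ ≤ η := by
  have h : ({x : W | η < x} : Set W).Nonempty := by
    obtain ⟨α, hα⟩ := Om1.bdd (M := M) (fun _ => η) (IF.const η)
    exact ⟨α, hα 0⟩
  have hwf := Om1.wf (M := M) (W := W)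
  refine ⟨hwf.min _ h, hwf.min_mem _ h, fun ζ hζ => ?_⟩
  by_contra h1
  exact hwf.not_lt_min _ (x := ζ) (not_le.1 h1) hζ

theorem In.hle : In M (fun y : Hi M W × Hi M W => HLe y.1 y.2) := by
  refine In.and ?_ (In.and ?_ ?_)
  · exact In.leW (IF.comp IF.fst IF.snd) (IF.comp IF.fst IF.fst)
  · refine In.all (P := fun (y : Hi M W × Hi M W) (κ : W) => κ < y.2.1 →
      y.1.2.1.1 κ = y.2.2.1.1 κ) (In.imp ?_ (In.eq ?_ ?_))
    · exact In.ltW IF.snd (IF.comp IF.fst (IF.comp IF.snd IF.fst))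
    · exact IF.app (IF.comp IF.fst (IF.comp IF.snd (IF.comp IF.fst IF.fst))) IF.snd
    · exact IF.app (IF.comp IF.fst (IF.comp IF.snd (IF.comp IF.snd IF.fst))) IF.snd
  · exact In.sb (IF.comp IF.snd (IF.comp IF.snd IF.snd)) (IF.comp IF.snd (IF.comp IF.snd IF.fst))

/-- Countable internal chains of histories have upper bounds. -/
theorem hist_sig [Countable M] (C : ISet M (Hi M W)) (hct : ICt M C.1) (hne : ∃ s, s ∈ C)
    (hV : ∀ s, s ∈ C → VHi hw c s) (hch : ∀ s t, s ∈ C → t ∈ C → HLe s t ∨ HLe t s) :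
    ∃ t : Hi M W, VHi hw c t ∧ ∀ s, s ∈ C → HLe t s := by
  -- the length
  obtain ⟨ζ, hζ⟩ := hct.bdd (F := fun s : Hi M W => s.1) C.in_mem IF.fst
  have hS : ({α : W | ∀ s, s ∈ C → s.1 ≤ α} : Set W).Nonempty := ⟨ζ, fun s hs => (hζ s hs).le⟩
  obtain ⟨μ, hμ, hμ'⟩ : ∃ μ : W, (∀ s, s ∈ C → s.1 ≤ μ) ∧ ∀ κ < μ, ∃ s, s ∈ C ∧ κ < s.1 := by
    refine ⟨hw.min _ hS, hw.min_mem _ hS, fun κ hκ => ?_⟩
    by_contra h
    push Not at h
    exact hw.not_lt_min _ (show κ ∈ ({α : W | ∀ s, s ∈ C → s.1 ≤ α} : Set W) from h) hκ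
  -- the items
  obtain ⟨h, hh, hR⟩ := In.choice (M := M) (R := fun (κ : W) (s : Hi M W) =>
    (∃ s', s' ∈ C ∧ κ < s'.1) → (s ∈ C ∧ κ < s.1)) (by
      refine In.imp ?_ (In.and ?_ ?_)
      · refine In.ex (P := fun (y : W × Hi M W) (s' : Hi M W) => s' ∈ C ∧ y.1 < s'.1)
          (In.and ?_ ?_)
        · exact In.mem IF.snd (IF.const C)
        · exact In.ltW (IF.comp IF.fst IF.fst) (IF.comp IF.fst IF.snd)
      · exact In.mem IF.snd (IF.const C)
      · exact In.ltW IF.fst (IF.comp IF.fst IF.snd)) (by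
      intro κ
      by_cases h : ∃ s' : Hi M W, s' ∈ C ∧ κ < s'.1
      · obtain ⟨s, hs⟩ := h
        exact ⟨s, fun _ => hs⟩
      · exact ⟨hne.choose, fun h' => absurd h' h⟩)
  have hit : IF M (fun κ : W => (h κ).2.1.1 κ) :=
    IF.app (IF.comp IF.fst (IF.comp IF.snd hh)) IF.id
  set it : W → Item M W := fun κ => (h κ).2.1.1 κ with hitdef
  have hA : ∀ s, s ∈ C → ∀ κ < s.1, it κ = s.2.1.1 κ := by
    intro s hs κ hκ
    have h1 := hR κ ⟨s, hs, hκ⟩
    rcases hch s (h κ) hs h1.1 with h2 | h2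
    · exact (h2.2.1 κ h1.2).symm
    · exact h2.2.1 κ hκ
  have hB : ∀ κ < μ, VItem hw c it κ := by
    intro κ hκ
    obtain ⟨s, hs, hκs⟩ := hμ' κ hκ
    exact VItem_congr (fun η hη => (hA s hs η (lt_of_le_of_lt hη hκs)).symm) ((hV s hs).2 κ hκs)
  have hF : IF M (fun s : Hi M W => s.2.2) := IF.comp IF.snd IF.snd
  have hchP : ∀ i j : Hi M W, i ∈ C → j ∈ C → Sb i.2.2 j.2.2 ∨ Sb j.2.2 i.2.2 := by
    intro i j hi hj
    rcases hch i j hi hj with h1 | h1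
    · exact Or.inr h1.2.2
    · exact Or.inl h1.2.2
  set F : Pl M W := plUn (fun s : Hi M W => s ∈ C) C.in_mem (fun s => s.2.2) hF with hFdef
  have hFsb : ∀ s, s ∈ C → Sb s.2.2 F := fun s hs => Sb_plUn hchP hs
  have hFv : Valid c F := Valid_plUn hchP (fun s hs => (hV s hs).valid) hct
  have hFal : F ∈ Al hw c it μ := by
    rw [mem_Al]
    refine ⟨hFv, fun η hη => ?_⟩
    obtain ⟨κ, hκ, hκ'⟩ := exists_sucW M η
    obtain ⟨s₁, hs₁, hη₁⟩ := hμ' η hη
    have hP : In M (fun s : Hi M W => s ∈ C ∧ η < s.1) :=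
      In.and C.in_mem (In.ltW (IF.const η) IF.fst)
    have hFe : F = plUn (fun s : Hi M W => s ∈ C ∧ η < s.1) hP (fun s => s.2.2) hF := by
      apply ISet.ext
      intro x
      rw [hFdef, Un_mem, Un_mem]
      constructor
      · rintro ⟨s, hs, hx⟩
        rcases hch s s₁ hs hs₁ with h1 | h1
        · exact ⟨s, ⟨hs, lt_of_lt_of_le hη₁ h1.1⟩, hx⟩
        · exact ⟨s₁, ⟨hs₁, hη₁⟩, h1.2.2.1 x hx⟩
      · rintro ⟨s, hs, hx⟩
        exact ⟨s, hs.1, hx⟩
    have h1 : F ∈ Al hw c it κ := by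
      rw [hFe]
      refine stub_union hit (fun ζ hζ => hB ζ (lt_of_le_of_lt (hκ' ζ hζ) hη))
        (fun i j hi hj => hchP i j hi.1 hj.1) ⟨s₁, hs₁, hη₁⟩ (hct.mono fun s hs => hs.1) ?_
      rintro s ⟨hs, hηs⟩
      have h2 : κ ≤ s.1 := by
        by_contra h3
        exact absurd (hκ' s.1 (not_le.1 h3)) (not_le.2 hηs)
      have h3 := Al_mono h2 (hV s hs).1
      rwa [Al_congr (fun ζ hζ => (hA s hs ζ (lt_of_lt_of_le hζ h2)).symm)] at h3
    exact (mem_Al.1 h1).2 η hκ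
  exact ⟨(μ, ⟨it, hit⟩, F), ⟨hFal, hB⟩, fun s hs => ⟨hμ s hs, hA s hs, hFsb s hs⟩⟩

/-- The system of the histories. -/
theorem hist_sys [Countable M] :
    Sys c (fun s : Hi M W => VHi hw c s) (fun s' s => HLe s' s) (fun s => s.2.2) where
  vin := In.vhi
  lein := In.hle
  plin := IF.comp IF.snd IF.snd
  refl s := HLe.refl s
  trans r s t h h' := h.trans h'
  valid s hs := hs.valid
  sb s t h := h.2.2
  sig C h1 h2 h3 h4 := hist_sig C h1 h2 h3 h4

end basic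

end Pool.Agent.H.MP_a163f2_lc
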