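import Pool.Agent.H.MP_a163f2_lc.R.D1
import Pool.Agent.H.MP_a163f2_lc.R.Basic

/-!
# Block R, part D3: countably closed systems of plans, deciding names (blueprint 5.1)
-/

set_option autoImplicit false
set_option linter.unusedSectionVars false

namespace Pool.Agent.H.MP_a163f2_lc

open Pool.Agent.H.MP_07d118_lc

universe u v w x

variable {M : Type u} [SetStr M] [ZFC M] [Std M] {W : Type v} [LinearOrder W] [Cd M W] [Om1 M W]
variable {c : W × Hc → ℕ → ℕ} [hL : Fact (Luz M W c)]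
variable {T : Type w} [Cd M T] {X : Type x} [Cd M X]

/-- countability is internal -/
theorem In.ict : In M (fun C : ISet M X => ICt M C.1) := by
  have h : In M (fun C : ISet M X => ∃ g : IFn M X ℕ, ∀ a : X, a ∈ C → ∀ b : X, b ∈ C →
      g.1 a = g.1 b → a = b) := by
    refine In.ex (P := fun (C : ISet M X) (g : IFn M X ℕ) => ∀ a : X, a ∈ C → ∀ b : X, b ∈ C →
      g.1 a = g.1 b → a = b) ?_
    refine In.all (P := fun (y : ISet M X × IFn M X ℕ) (a : X) => a ∈ y.1 → ∀ b : X, b ∈ y.1 →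
      y.2.1 a = y.2.1 b → a = b) (In.imp (In.mem IF.snd (IF.comp IF.fst IF.fst)) ?_)
    refine In.all (P := fun (y : (ISet M X × IFn M X ℕ) × X) (b : X) => b ∈ y.1.1 →
      y.1.2.1 y.2 = y.1.2.1 b → y.2 = b) (In.imp ?_ (In.imp ?_ ?_))
    · exact In.mem IF.snd (IF.comp IF.fst (IF.comp IF.fst IF.fst))
    · exact In.eq (IF.app (IF.comp IF.snd (IF.comp IF.fst IF.fst)) (IF.comp IF.snd IF.fst))
        (IF.app (IF.comp IF.snd (IF.comp IF.fst IF.fst)) IF.snd)
    · exact In.eq (IF.comp IF.snd IF.fst) IF.snd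
  refine h.congr fun C => ?_
  constructor
  · rintro ⟨g, hg, hi⟩
    exact ⟨⟨g, hg⟩, fun a ha b hb e => hi ha hb e⟩
  · rintro ⟨g, hg⟩
    exact ⟨g.1, g.2, fun a ha b hb e => hg a ha b hb e⟩

/-- the range of an internal sequence is countable -/
theorem ICt.range {e : ℕ → X} (he : IF M e) : ICt M (Set.range e) := by
  obtain ⟨g, hg, hR⟩ := In.choice (R := fun (a : X) (n : ℕ) => (∃ m, e m = a) → e n = a) (by
    refine In.imp ?_ (In.eq (IF.comp he IF.snd) IF.fst)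
    exact In.ex (P := fun (y : X × ℕ) (m : ℕ) => e m = y.1)
      (In.eq (IF.comp he IF.snd) (IF.comp IF.fst IF.fst))) (by
      intro a
      by_cases h : ∃ m, e m = a
      · obtain ⟨m, hm⟩ := h
        exact ⟨m, fun _ => hm⟩
      · exact ⟨0, fun h' => absurd h' h⟩)
  refine ⟨g, hg, ?_⟩
  rintro a ha b hb h
  rw [← hR a ha, ← hR b hb, h]

/-- the image of an internal countable set is countable -/
theorem ICt.image {A : Set T} (h : ICt M A) (hA : In M (fun t => t ∈ A)) {F : T → X}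
    (hF : IF M F) : ICt M (F '' A) := by
  by_cases hne : A.Nonempty
  · obtain ⟨e, he, h1, h2⟩ := h.enum hA hne
    refine (ICt.range (IF.comp hF he)).mono ?_
    rintro _ ⟨a, ha, rfl⟩
    obtain ⟨n, rfl⟩ := h2 a ha
    exact ⟨n, rfl⟩
  · refine (ICt.range (e := fun _ : ℕ => (0 : ℕ)) (IF.const 0)).preimage (F := fun _ : X => (0 : ℕ))
      (IF.const 0) (fun _ _ => ⟨0, rfl⟩) ?_
    rintro _ ⟨a, ha, -⟩
    exact absurd ⟨a, ha⟩ hne

/-- A countably closed system: `V` the valid elements, `le t s` means `t` extends `s`, `pl s` the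
plan of `s`. -/
structure Sys (c : W × Hc → ℕ → ℕ) (V : X → Prop) (le : X → X → Prop) (pl : X → Pl M W) :
    Prop where
  vin : In M V
  lein : In M (fun y : X × X => le y.1 y.2)
  plin : IF M pl
  refl : ∀ s, le s s
  trans : ∀ r s t, le r s → le s t → le r t
  valid : ∀ s, V s → Valid c (pl s)
  sb : ∀ s t, le t s → Sb (pl s) (pl t)
  sig : ∀ C : ISet M X, ICt M C.1 → (∃ s, s ∈ C) → (∀ s, s ∈ C → V s) →
    (∀ s t, s ∈ C → t ∈ C → le s t ∨ le t s) → ∃ t, V t ∧ ∀ s, s ∈ C → le t s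

variable {V : X → Prop} {le : X → X → Prop} {pl : X → Pl M W}

/-- upper bounds, chosen internally -/
theorem Sys.exists_ub (hS : Sys c V le pl) (s₀ : X) : ∃ Ub : ISet M X → X, IF M Ub ∧
    ∀ C : ISet M X, (ICt M C.1 ∧ (∃ s, s ∈ C) ∧ (∀ s, s ∈ C → V s) ∧
      ∀ s, s ∈ C → ∀ t, t ∈ C → le s t ∨ le t s) → (V (Ub C) ∧ ∀ s, s ∈ C → le (Ub C) s) := by
  refine In.choice (R := fun (C : ISet M X) (t : X) => (ICt M C.1 ∧ (∃ s, s ∈ C) ∧
    (∀ s, s ∈ C → V s) ∧ ∀ s, s ∈ C → ∀ t, t ∈ C → le s t ∨ le t s) →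
      (V t ∧ ∀ s, s ∈ C → le t s)) ?_ ?_
  · refine In.imp (In.and (In.ict.comp IF.fst) (In.and ?_ (In.and ?_ ?_))) (In.and ?_ ?_)
    · exact In.ex (P := fun (y : ISet M X × X) (s : X) => s ∈ y.1)
        (In.mem IF.snd (IF.comp IF.fst IF.fst))
    · exact In.all (P := fun (y : ISet M X × X) (s : X) => s ∈ y.1 → V s)
        (In.imp (In.mem IF.snd (IF.comp IF.fst IF.fst)) (hS.vin.comp IF.snd))
    · refine In.all (P := fun (y : ISet M X × X) (s : X) => s ∈ y.1 → ∀ t, t ∈ y.1 →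
        le s t ∨ le t s) (In.imp (In.mem IF.snd (IF.comp IF.fst IF.fst)) ?_)
      refine In.all (P := fun (y : (ISet M X × X) × X) (t : X) => t ∈ y.1.1 →
        le y.2 t ∨ le t y.2) (In.imp ?_ (In.or ?_ ?_))
      · exact In.mem IF.snd (IF.comp IF.fst (IF.comp IF.fst IF.fst))
      · exact In.comp2 (P := le) hS.lein (IF.comp IF.snd IF.fst) IF.snd
      · exact In.comp2 (P := le) hS.lein IF.snd (IF.comp IF.snd IF.fst)
    · exact hS.vin.comp IF.snd
    · refine In.all (P := fun (y : ISet M X × X) (s : X) => s ∈ y.1 → le y.2 s)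
        (In.imp (In.mem IF.snd (IF.comp IF.fst IF.fst)) ?_)
      exact In.comp2 (P := le) hS.lein (IF.comp IF.snd IF.fst) IF.snd
  · intro C
    by_cases h : ICt M C.1 ∧ (∃ s, s ∈ C) ∧ (∀ s, s ∈ C → V s) ∧
        ∀ s, s ∈ C → ∀ t, t ∈ C → le s t ∨ le t s
    · obtain ⟨t, h1, h2⟩ := hS.sig C h.1 h.2.1 h.2.2.1 (fun s t hs ht => h.2.2.2 s hs t ht)
      exact ⟨t, fun _ => ⟨h1, h2⟩⟩
    · exact ⟨s₀, fun h' => absurd h' h⟩

theorem Sys.decide_one (hS : Sys c V le pl) {Dec : X → Cond W → Prop}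
    (hD : In M (fun y : X × Cond W => Dec y.1 y.2))
    (hmono : ∀ s t q r, V s → V t → le t s → q ∈ PP c (pl s) → r ∈ PP c (pl t) → CLe c r q →
      Dec s q → Dec t r) {s₀ : X} (h₀ : V s₀) {p₀ : Cond W} (hp₀ : p₀ ∈ PP c (pl s₀))
    (hex : ∀ s, V s → le s s₀ → ∀ q ∈ PP c (pl s), CLe c q p₀ → ∃ t, V t ∧ le t s ∧
      ∃ r ∈ PP c (pl t), CLe c r q ∧ Dec t r) :
    ∃ s, V s ∧ le s s₀ ∧ ∀ q ∈ PP c (pl s), CLe c q p₀ → ∃ r ∈ PP c (pl s), CLe c r q ∧ Dec s r := by
  by_contra hcon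
  -- the step
  have hstep : ∀ s : X, ∃ y : X × Cond W, (V s ∧ le s s₀) → (V y.1 ∧ le y.1 s ∧
      y.2 ∈ PP c (pl y.1) ∧ Dec y.1 y.2 ∧ ∀ u, u ∈ PP c (pl s) → Dec s u →
        ¬ (CLe c (cup y.2 u) y.2 ∧ CLe c (cup y.2 u) u)) := by
    intro s
    by_cases hs : V s ∧ le s s₀
    · have h1 : ∃ q ∈ PP c (pl s), CLe c q p₀ ∧ ∀ r ∈ PP c (pl s), CLe c r q → ¬ Dec s r := by
        by_contra h2
        push Not at h2
        exact hcon ⟨s, hs.1, hs.2, fun q hq hqp => by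
          obtain ⟨r, h3, h4, h5⟩ := h2 q hq hqp
          exact ⟨r, h3, h4, h5⟩⟩
      obtain ⟨q, hq, hqp, h2⟩ := h1
      obtain ⟨t, ht, hts, r, hr, hrq, hrD⟩ := hex s hs.1 hs.2 q hq hqp
      refine ⟨(t, r), fun _ => ⟨ht, hts, hr, hrD, fun u hu hDu h3 => ?_⟩⟩
      have hsb := hS.sb s t hts
      have h4 := PP_cup hr (PP_mono hsb hu) h3.1 h3.2
      have h5 := crs_PP (hS.valid s hs.1) hsb h4
      exact h2 _ h5 (crs_le_of_le hq (h3.1.trans hrq))
        (hmono s s u _ hs.1 hs.1 (hS.refl s) hu h5 (crs_le_of_le hu h3.2) hDu)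
    · exact ⟨(s, p₀), fun h => absurd h hs⟩
  obtain ⟨step, hstepin, hstepR⟩ := In.choice (R := fun (s : X) (y : X × Cond W) =>
    (V s ∧ le s s₀) → (V y.1 ∧ le y.1 s ∧ y.2 ∈ PP c (pl y.1) ∧ Dec y.1 y.2 ∧
      ∀ u, u ∈ PP c (pl s) → Dec s u → ¬ (CLe c (cup y.2 u) y.2 ∧ CLe c (cup y.2 u) u))) (by
    refine In.imp (In.and (hS.vin.comp IF.fst) (In.comp2 (P := le) hS.lein IF.fst (IF.const s₀)))
      (In.and (hS.vin.comp (IF.comp IF.fst IF.snd)) (In.and
        (In.comp2 (P := le) hS.lein (IF.comp IF.fst IF.snd) IF.fst) (In.and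
          (In.pp (IF.comp hS.plin (IF.comp IF.fst IF.snd)) (IF.comp IF.snd IF.snd)) (In.and
            (In.comp2 (P := Dec) hD (IF.comp IF.fst IF.snd) (IF.comp IF.snd IF.snd)) ?_))))
    refine In.all (P := fun (y : X × (X × Cond W)) (u : Cond W) => u ∈ PP c (pl y.1) →
      Dec y.1 u → ¬ (CLe c (cup y.2.2 u) y.2.2 ∧ CLe c (cup y.2.2 u) u)) (In.imp ?_ (In.imp ?_
        (In.not (In.and ?_ ?_))))
    · exact In.pp (IF.comp hS.plin (IF.comp IF.fst IF.fst)) IF.snd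
    · exact In.comp2 (P := Dec) hD (IF.comp IF.fst IF.fst) IF.snd
    · exact In.cle (IF.cup (IF.comp IF.snd (IF.comp IF.snd IF.fst)) IF.snd)
        (IF.comp IF.snd (IF.comp IF.snd IF.fst))
    · exact In.cle (IF.cup (IF.comp IF.snd (IF.comp IF.snd IF.fst)) IF.snd) IF.snd) hstep
  obtain ⟨Ub, hUb, hUbR⟩ := hS.exists_ub s₀
  -- the sets of the earlier steps
  have hCin : In M (fun y : (W × ISet M (W × X)) × X => y.2 = s₀ ∨
      ∃ z : W × X, z ∈ y.1.2 ∧ (step z.2).1 = y.2) := by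
    refine In.or (In.eq IF.snd (IF.const s₀)) ?_
    refine In.ex (P := fun (y : (W × ISet M (W × X)) × X) (z : W × X) => z ∈ y.1.2 ∧
      (step z.2).1 = y.2) (In.and ?_ (In.eq ?_ ?_))
    · exact In.mem IF.snd (IF.comp IF.snd (IF.comp IF.fst IF.fst))
    · exact IF.comp IF.fst (IF.comp hstepin (IF.comp IF.snd IF.snd))
    · exact IF.comp IF.snd IF.fst
  obtain ⟨H, hH, hHR⟩ := exists_rec (M := M) (T := X) (Om1.lt_in (M := M) (W := W))
    (Om1.wf (M := M)) (fun a b c h h' => lt_trans h h')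
    (Φ := fun y => Ub (ISet.sec (P := fun (y : W × ISet M (W × X)) (x : X) => x = s₀ ∨
      ∃ z : W × X, z ∈ y.2 ∧ (step z.2).1 = x) hCin y)) (IF.comp hUb (IF.sec (P := fun (y : W × ISet M (W × X)) (x : X) => x = s₀ ∨
      ∃ z : W × X, z ∈ y.2 ∧ (step z.2).1 = x) hCin))
  have hC : ∀ α, ∃ C : ISet M X, H α = Ub C ∧ ∀ x, x ∈ C ↔ x = s₀ ∨ ∃ β < α, (step (H β)).1 = x := by
    intro α
    obtain ⟨h, hα⟩ := hHR α
    refine ⟨ISet.sec (P := fun (y : W × ISet M (W × X)) (x : X) => x = s₀ ∨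
      ∃ z : W × X, z ∈ y.2 ∧ (step z.2).1 = x) hCin (α, ISet.mk h), hα, fun x => ?_⟩
    show (x = s₀ ∨ ∃ z : W × X, z ∈ ISet.mk h ∧ (step z.2).1 = x) ↔ _
    refine or_congr_right ?_
    constructor
    · rintro ⟨⟨β, s⟩, ⟨h1, h2⟩, h3⟩
      have h2' : H β = s := h2
      exact ⟨β, h1, by rw [h2']; exact h3⟩
    · rintro ⟨β, h1, h2⟩
      exact ⟨(β, H β), ⟨h1, rfl⟩, h2⟩
  have key : ∀ α, V (H α) ∧ le (H α) s₀ ∧ ∀ β < α, le (H α) (step (H β)).1 := by
    intro α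
    induction α using (Om1.wf (M := M) (W := W)).induction with
    | _ α ih =>
      obtain ⟨C, hα, hmem⟩ := hC α
      have hst : ∀ β < α, V (step (H β)).1 ∧ le (step (H β)).1 (H β) := fun β hβ =>
        ⟨(hstepR (H β) ⟨(ih β hβ).1, (ih β hβ).2.1⟩).1, (hstepR (H β) ⟨(ih β hβ).1, (ih β hβ).2.1⟩).2.1⟩
      have hcases : ∀ x, x ∈ C → x = s₀ ∨ ∃ β < α, (step (H β)).1 = x := fun x hx => (hmem x).1 hx
      have h1 := hUbR C ⟨?_, ⟨s₀, (hmem s₀).2 (Or.inl rfl)⟩, ?_, ?_⟩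
      · rw [← hα] at h1
        exact ⟨h1.1, h1.2 s₀ ((hmem s₀).2 (Or.inl rfl)), fun β hβ =>
          h1.2 _ ((hmem _).2 (Or.inr ⟨β, hβ, rfl⟩))⟩
      · -- countability
        have h2 : ICt M ((fun β => (step (H β)).1) '' {β | β < α}) :=
          ICt.image (ICt.below α) (In.ltW IF.id (IF.const α)) (IF.comp IF.fst (IF.comp hstepin hH))
        obtain ⟨g, hg, hi⟩ := h2
        classical
        refine ⟨fun x => if x = s₀ then 0 else g x + 1, ?_, ?_⟩
        · exact IF.ite (In.eq IF.id (IF.const s₀)) (IF.const 0) (IF.comp IF.succ hg)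
        · intro a ha b hb e
          simp only at e
          rcases hcases a ha with rfl | ⟨β, hβ, rfl⟩
          · rcases hcases b hb with rfl | ⟨β', hβ', rfl⟩
            · rfl
            · by_cases h3 : (step (H β')).1 = a
              · exact h3.symm
              · rw [if_pos rfl, if_neg h3] at e
                omega
          · rcases hcases b hb with rfl | ⟨β', hβ', rfl⟩
            · by_cases h3 : (step (H β)).1 = b
              · exact h3
              · rw [if_pos rfl, if_neg h3] at e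
                omega
            · by_cases h3 : (step (H β)).1 = s₀ <;> by_cases h4 : (step (H β')).1 = s₀
              · rw [h3, h4]
              · rw [if_pos h3, if_neg h4] at e
                omega
              · rw [if_neg h3, if_pos h4] at e
                omega
              · rw [if_neg h3, if_neg h4] at e
                exact hi ⟨β, hβ, rfl⟩ ⟨β', hβ', rfl⟩ (Nat.add_right_cancel e)
      · intro x hx
        rcases hcases x hx with rfl | ⟨β, hβ, rfl⟩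
        · exact h₀
        · exact (hst β hβ).1
      · intro x hx y hy
        rcases hcases x hx with rfl | ⟨β, hβ, rfl⟩
        · rcases hcases y hy with rfl | ⟨β', hβ', rfl⟩
          · exact Or.inl (hS.refl _)
          · exact Or.inr (hS.trans _ _ _ (hst β' hβ').2 (ih β' hβ').2.1)
        · rcases hcases y hy with rfl | ⟨β', hβ', rfl⟩
          · exact Or.inl (hS.trans _ _ _ (hst β hβ).2 (ih β hβ).2.1)
          · rcases lt_trichotomy β β' with h | rfl | h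
            · exact Or.inr (hS.trans _ _ _ (hst β' hβ').2 ((ih β' hβ').2.2 β h))
            · exact Or.inl (hS.refl _)
            · exact Or.inl (hS.trans _ _ _ (hst β hβ).2 ((ih β hβ).2.2 β' h))
  -- the antichain
  obtain ⟨α, β, hαβ, h1, h2⟩ := ccc (M := M) (c := c) (p := fun α => (step (H α)).2)
    (IF.comp IF.snd (IF.comp hstepin hH))
  have hα := hstepR (H α) ⟨(key α).1, (key α).2.1⟩
  have hβ := hstepR (H β) ⟨(key β).1, (key β).2.1⟩
  have h3 := (key β).2.2 α hαβ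
  have h4 : (step (H α)).2 ∈ PP c (pl (H β)) := PP_mono (hS.sb _ _ h3) hα.2.2.1
  refine hβ.2.2.2.2 _ h4 (hmono _ _ _ _ hα.1 (key β).1 h3 hα.2.2.1 h4 (CLe.refl _) hα.2.2.2.1) ?_
  rw [cup_comm]
  exact ⟨h2, h1⟩

end Pool.Agent.H.MP_a163f2_lc
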