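import Pool.Agent.H.MP_a163f2_lc.R.D3

/-!
# Block R, part D3b: deciding countably many statements
-/

set_option autoImplicit false
set_option linter.unusedSectionVars false

namespace Pool.Agent.H.MP_a163f2_lc

open Pool.Agent.H.MP_07d118_lc

universe u v w x

variable {M : Type u} [SetStr M] [ZFC M] [Std M] {W : Type v} [LinearOrder W] [Cd M W] [Om1 M W]
variable {c : W × Hc → ℕ → ℕ} [hL : Fact (Luz M W c)]
variable {X : Type x} [Cd M X]
variable {V : X → Prop} {le : X → X → Prop} {pl : X → Pl M W}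

theorem Sys.decide_all (hS : Sys c V le pl) {Dec : ℕ → X → Cond W → Prop}
    (hD : In M (fun y : ℕ × X × Cond W => Dec y.1 y.2.1 y.2.2))
    (hmono : ∀ n s t q r, V s → V t → le t s → q ∈ PP c (pl s) → r ∈ PP c (pl t) → CLe c r q →
      Dec n s q → Dec n t r) {s₀ : X} (h₀ : V s₀) {p₀ : Cond W} (hp₀ : p₀ ∈ PP c (pl s₀))
    (hex : ∀ n s, V s → le s s₀ → ∀ q ∈ PP c (pl s), CLe c q p₀ → ∃ t, V t ∧ le t s ∧
      ∃ r ∈ PP c (pl t), CLe c r q ∧ Dec n t r) :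
    ∃ s, V s ∧ le s s₀ ∧ ∀ n, ∀ q ∈ PP c (pl s), CLe c q p₀ →
      ∃ r ∈ PP c (pl s), CLe c r q ∧ Dec n s r := by
  have hDn : ∀ n, In M (fun y : X × Cond W => Dec n y.1 y.2) := fun n =>
    In.comp (P := fun y : ℕ × X × Cond W => Dec y.1 y.2.1 y.2.2) hD
      (f := fun y : X × Cond W => (n, y.1, y.2)) (IF.pair (IF.const n) (IF.pair IF.fst IF.snd))
  obtain ⟨step, hstep, hR⟩ := In.choice (M := M) (R := fun (y : ℕ × X) (t : X) =>
    (V y.2 ∧ le y.2 s₀) → (V t ∧ le t y.2 ∧ ∀ q, q ∈ PP c (pl t) → CLe c q p₀ →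
      ∃ r, r ∈ PP c (pl t) ∧ CLe c r q ∧ Dec y.1 t r)) (by
    refine In.imp (In.and (hS.vin.comp (IF.comp IF.snd IF.fst))
      (In.comp2 (P := le) hS.lein (IF.comp IF.snd IF.fst) (IF.const s₀)))
      (In.and (hS.vin.comp IF.snd) (In.and
        (In.comp2 (P := le) hS.lein IF.snd (IF.comp IF.snd IF.fst)) ?_))
    refine In.all (P := fun (y : (ℕ × X) × X) (q : Cond W) => q ∈ PP c (pl y.2) → CLe c q p₀ →
      ∃ r, r ∈ PP c (pl y.2) ∧ CLe c r q ∧ Dec y.1.1 y.2 r) (In.imp ?_ (In.imp ?_ ?_))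
    · exact In.pp (IF.comp hS.plin (IF.comp IF.snd IF.fst)) IF.snd
    · exact In.cle IF.snd (IF.const p₀)
    · refine In.ex (P := fun (y : ((ℕ × X) × X) × Cond W) (r : Cond W) =>
        r ∈ PP c (pl y.1.2) ∧ CLe c r y.2 ∧ Dec y.1.1.1 y.1.2 r) (In.and ?_ (In.and ?_ ?_))
      · exact In.pp (IF.comp hS.plin (IF.comp IF.snd (IF.comp IF.fst IF.fst))) IF.snd
      · exact In.cle IF.snd (IF.comp IF.snd IF.fst)
      · exact In.comp (P := fun y : ℕ × X × Cond W => Dec y.1 y.2.1 y.2.2) hD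
          (f := fun y : (((ℕ × X) × X) × Cond W) × Cond W => (y.1.1.1.1, y.1.1.2, y.2))
          (IF.pair (IF.comp IF.fst (IF.comp IF.fst (IF.comp IF.fst IF.fst)))
            (IF.pair (IF.comp IF.snd (IF.comp IF.fst IF.fst)) IF.snd))) (by
    rintro ⟨n, s⟩
    by_cases hs : V s ∧ le s s₀
    · obtain ⟨t, h1, h2, h3⟩ := hS.decide_one (hDn n) (fun s t q r => hmono n s t q r) hs.1
        (PP_mono (hS.sb _ _ hs.2) hp₀)
        (fun t ht hts q hq hqp => hex n t ht (hS.trans _ _ _ hts hs.2) q hq hqp)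
      refine ⟨t, fun _ => ⟨h1, h2, fun q hq hqp => ?_⟩⟩
      obtain ⟨r, h4, h5, h6⟩ := h3 q hq hqp
      exact ⟨r, h4, h5, h6⟩
    · exact ⟨s, fun h => absurd h hs⟩)
  let e : ℕ → X := fun n => Nat.rec (motive := fun _ => X) s₀ (fun n t => step (n, t)) n
  have he : IF M e := by
    have h1 := IF.natRec (M := M) (S := ℕ) (T := X) (a := fun _ => s₀) (IF.const s₀)
      (g := fun y => step (y.2.1, y.2.2))
      (IF.comp hstep (IF.pair (IF.comp IF.fst IF.snd) (IF.comp IF.snd IF.snd)))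
    exact IF.comp h1 (f := fun n : ℕ => (0, n)) (IF.pair (IF.const 0) IF.id)
  have e0 : e 0 = s₀ := rfl
  have es : ∀ n, e (n + 1) = step (n, e n) := fun n => rfl
  have hinv : ∀ n, V (e n) ∧ le (e n) s₀ := by
    intro n
    induction n with
    | zero => exact ⟨h₀, hS.refl s₀⟩
    | succ n ih =>
      have h1 := hR (n, e n) ih
      rw [es]
      exact ⟨h1.1, hS.trans _ _ _ h1.2.1 ih.2⟩
  have hle : ∀ n k, le (e (n + k)) (e n) := by
    intro n k
    induction k with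
    | zero => exact hS.refl _
    | succ k ih =>
      have h1 := hR (n + k, e (n + k)) (hinv _)
      rw [← add_assoc, es]
      exact hS.trans _ _ _ h1.2.1 ih
  have hC : In M (fun x : X => ∃ n : ℕ, e n = x) :=
    In.ex (P := fun (x : X) (n : ℕ) => e n = x) (In.eq (IF.comp he IF.snd) IF.fst)
  obtain ⟨s, hs, hse⟩ := hS.sig (ISet.mk hC) ((ICt.range he).mono (fun x hx => hx))
    ⟨e 0, 0, rfl⟩ (by rintro _ ⟨n, rfl⟩; exact (hinv n).1) (by
      rintro _ _ ⟨n, rfl⟩ ⟨m, rfl⟩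
      rcases le_total n m with h | h
      · right
        obtain ⟨k, rfl⟩ := Nat.exists_eq_add_of_le h
        exact hle n k
      · left
        obtain ⟨k, rfl⟩ := Nat.exists_eq_add_of_le h
        exact hle m k)
  refine ⟨s, hs, hse _ ⟨0, rfl⟩, fun n q hq hqp => ?_⟩
  have h1 := hR (n, e n) (hinv n)
  rw [← es] at h1
  have hsb := hS.sb _ _ (hse (e (n + 1)) ⟨n + 1, rfl⟩)
  have h2 : crs (pl (e (n + 1))).dom q ∈ PP c (pl (e (n + 1))) :=
    crs_PP (hS.valid _ h1.1) hsb hq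
  have h3 : CLe c (crs (pl (e (n + 1))).dom q) p₀ :=
    crs_le_of_le (PP_mono (hS.sb _ _ (hinv (n + 1)).2) hp₀) hqp
  obtain ⟨r, hr, hrq, hD⟩ := h1.2.2 _ h2 h3
  have h4 := amal hsb hq hr hrq
  exact ⟨cup r q, h4.1, h4.2.1, hmono n _ s r _ h1.1 hs (hse _ ⟨n + 1, rfl⟩) hr h4.1 h4.2.2 hD⟩

end Pool.Agent.H.MP_a163f2_lc
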