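import Pool.Agent.H.MP_a163f2_lc.R.D2
import Pool.Agent.H.MP_a163f2_lc.R.D3b
import Pool.Agent.H.MP_a163f2_lc.R.CodN
import Pool.Agent.H.MP_a163f2_lc.R.Nuc

/-!
# Block R, part D4: generic filters of the final forcing
-/

set_option autoImplicit false
set_option linter.unusedSectionVars false

namespace Pool.Agent.H.MP_a163f2_lc

open Pool.Agent.H.MP_07d118_lc

universe u v w x

variable {M : Type u} [SetStr M] [ZFC M] [Std M] {W : Type v} [LinearOrder W] [Cd M W] [Om1 M W]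
variable {c : W × Hc → ℕ → ℕ} [hL : Fact (Luz M W c)]
variable {hw : WellFounded ((· < ·) : W → W → Prop)} {GG : Set (HC M W)}

/-- the set of the conditions is internal -/
theorem In.qv0 [Countable M] : In M (fun x : HC M W => x ∈ QV hw c) :=
  In.and (In.comp (P := fun s : Hi M W => VHi hw c s) In.vhi IF.fst)
    (In.pp (IF.comp IF.snd (IF.comp IF.snd IF.fst)) IF.snd)

/-- the order is internal -/
theorem In.ql0 : In M (fun y : HC M W × HC M W => QL c y.1 y.2) :=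
  In.and (In.comp2 (P := fun s' s : Hi M W => HLe s' s) In.hle (IF.comp IF.fst IF.fst)
    (IF.comp IF.fst IF.snd)) (In.cle (IF.comp IF.snd IF.fst) (IF.comp IF.snd IF.snd))

theorem In.qv' [Countable M] {T : Type w} [Cd M T] {x : T → HC M W} (hx : IF M x) :
    In M (fun t => x t ∈ QV hw c) := In.comp (P := fun x : HC M W => x ∈ QV hw c) In.qv0 hx

theorem In.ql' {T : Type w} [Cd M T] {x y : T → HC M W} (hx : IF M x) (hy : IF M y) :
    In M (fun t => QL c (x t) (y t)) :=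
  In.comp2 (P := fun x y : HC M W => QL c x y) In.ql0 hx hy

theorem QL.refl0 (x : HC M W) : QL c x x := ⟨HLe.refl _, CLe.refl _⟩

theorem QL.trans0 {x y z : HC M W} (h : QL c x y) (h' : QL c y z) : QL c x z :=
  ⟨h.1.trans h'.1, h.2.trans h'.2⟩

theorem QGen.meets_below [Countable M] (hG : QGen hw c GG) {x : HC M W} (hx : x ∈ GG)
    {D : HC M W → Prop} (hD : In M D)
    (hd : ∀ y ∈ QV hw c, QL c y x → ∃ z ∈ QV hw c, QL c z y ∧ D z) :
    ∃ z ∈ GG, QL c z x ∧ D z := by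
  have hD' : In M (fun z : HC M W => (QL c z x ∧ D z) ∨
      ¬ ∃ y : HC M W, y ∈ QV hw c ∧ QL c y z ∧ QL c y x) := by
    refine In.or (In.and (In.ql' IF.id (IF.const x)) hD) (In.not ?_)
    exact In.ex (P := fun (z y : HC M W) => y ∈ QV hw c ∧ QL c y z ∧ QL c y x)
      (In.and (In.qv' IF.snd) (In.and (In.ql' IF.snd IF.fst) (In.ql' IF.snd (IF.const x))))
  obtain ⟨z, hz, hzD⟩ := hG.meets (ISet.mk hD') (by
    intro y hy
    by_cases h : ∃ w : HC M W, w ∈ QV hw c ∧ QL c w y ∧ QL c w x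
    · obtain ⟨w, hwQ, hwy, hwx⟩ := h
      obtain ⟨z, hz, hzw, hzD⟩ := hd w hwQ hwx
      exact ⟨z, hz, hzw.trans0 hwy, Or.inl ⟨hzw.trans0 hwx, hzD⟩⟩
    · exact ⟨y, hy, QL.refl0 y, Or.inr h⟩)
  rcases hzD with h | h
  · exact ⟨z, hz, h⟩
  · obtain ⟨w, hw1, hw2, hw3⟩ := hG.dir z hz x hx
    exact absurd ⟨w, hG.sub w hw1, hw2, hw3⟩ h

theorem QGen.hist (hG : QGen hw c GG) {s : Hi M W} (hs : s ∈ HS GG) : VHi hw c s := by
  obtain ⟨p, hp⟩ := hs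
  exact (hG.sub _ hp).1

/-- smaller histories -/
theorem QGen.down (hG : QGen hw c GG) {s s' : Hi M W} {p : Cond W} (h : (s, p) ∈ GG)
    (hs' : VHi hw c s') (hle : HLe s s') : (s', crs s'.2.2.dom p) ∈ GG :=
  hG.up (s, p) h (s', crs s'.2.2.dom p) ⟨hs', crs_PP hs'.valid hle.2.2 (hG.sub _ h).2⟩
    ⟨hle, le_crs _ _⟩

/-- the filter given by a history is generic -/
theorem QGen.gen [Countable M] (hG : QGen hw c GG) {s : Hi M W} (hs : s ∈ HS GG) :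
    Gen c s.2.2 (Gs GG s) where
  sub p hp := (hG.sub _ hp).2
  ne := hs
  up p hp q hq hle := hG.up (s, p) hp (s, q) ⟨(hG.sub _ hp).1, hq⟩ ⟨HLe.refl s, hle⟩
  dir p hp q hq := by
    obtain ⟨z, hz, h1, h2⟩ := hG.dir _ hp _ hq
    exact ⟨crs s.2.2.dom z.2, hG.down (s := z.1) (p := z.2) hz (hG.sub _ hp).1 h1.1,
      crs_le_of_le (hG.sub _ hp).2 h1.2, crs_le_of_le (hG.sub _ hq).2 h2.2⟩
  meets D hD := by
    obtain ⟨p, hp⟩ := hs
    have hV := (hG.sub _ hp).1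
    obtain ⟨z, hz, hzp, hle, d, hdD, hd, hzd⟩ := hG.meets_below (x := (s, p)) hp
      (D := fun z => HLe z.1 s ∧ ∃ d : Cond W, d ∈ D ∧ d ∈ PP c s.2.2 ∧ CLe c z.2 d) (by
        refine In.and (In.comp2 (P := fun s' s : Hi M W => HLe s' s) In.hle IF.fst (IF.const s)) ?_
        refine In.ex (P := fun (z : HC M W) (d : Cond W) => d ∈ D ∧ d ∈ PP c s.2.2 ∧ CLe c z.2 d)
          (In.and (In.mem IF.snd (IF.const D)) (In.and (In.pp (IF.const _) IF.snd)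
            (In.cle (IF.comp IF.snd IF.fst) IF.snd)))) (by
        intro y hy hyx
        obtain ⟨d, hd, hdle, hdD⟩ := hD _ (crs_PP hV.valid hyx.1.2.2 hy.2)
        have h1 := amal hyx.1.2.2 hy.2 hd hdle
        exact ⟨(y.1, cup d y.2), ⟨hy.1, h1.1⟩, ⟨HLe.refl _, h1.2.1⟩, hyx.1, d, hdD, hd, h1.2.2⟩)
    exact ⟨d, hG.up z hz (s, d) ⟨hV, hd⟩ ⟨hle, hzd⟩, hdD⟩

/-- two occurring histories have a common occurring extension -/
theorem QGen.dirH (hG : QGen hw c GG) {s s' : Hi M W} (hs : s ∈ HS GG) (hs' : s' ∈ HS GG) :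
    ∃ t ∈ HS GG, HLe t s ∧ HLe t s' := by
  obtain ⟨p, hp⟩ := hs
  obtain ⟨p', hp'⟩ := hs'
  obtain ⟨z, hz, h1, h2⟩ := hG.dir _ hp _ hp'
  exact ⟨z.1, ⟨z.2, hz⟩, h1.1, h2.1⟩

/-- the filters cohere -/
theorem QGen.coh (hG : QGen hw c GG) {s s' : Hi M W} (hs : s ∈ HS GG) (hs' : s' ∈ HS GG)
    (h : HLe s' s) : Gs GG s = Gs GG s' ∩ PP c s.2.2 := by
  ext p
  constructor
  · intro hp
    obtain ⟨p', hp'⟩ := hs'
    obtain ⟨z, hz, h1, h2⟩ := hG.dir _ hp _ hp'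
    have h3 := (hG.sub _ hp).2
    have h4 : p ∈ PP c s'.2.2 := PP_mono h.2.2 h3
    have h5 := hG.down (s := z.1) (p := z.2) hz (hG.sub _ hp').1 h2.1
    exact ⟨hG.up _ h5 (s', p) ⟨(hG.sub _ hp').1, h4⟩ ⟨HLe.refl _, crs_le_of_le h4 h1.2⟩, h3⟩
  · rintro ⟨hp, hp'⟩
    exact hG.up _ hp (s, p) ⟨hG.hist hs, hp'⟩ ⟨h, CLe.refl _⟩

theorem QGen.mem_HS (_hG : QGen hw c GG) {s : Hi M W} {p : Cond W} (h : p ∈ Gs GG s) :
    s ∈ HS GG := ⟨p, h⟩

/-- all conditions -/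
def Gi (GG : Set (HC M W)) : Set (Cond W) := {p | ∃ s, (s, p) ∈ GG}

theorem QGen.Gi_iff (hG : QGen hw c GG) {s : Hi M W} (hs : s ∈ HS GG) {p : Cond W}
    (hp : p ∈ PP c s.2.2) : p ∈ Gi GG ↔ p ∈ Gs GG s := by
  constructor
  · rintro ⟨s', h⟩
    obtain ⟨t, ht, h1, h2⟩ := hG.dirH hs ⟨p, h⟩
    rw [hG.coh hs ht h1]
    have h3 : p ∈ Gs GG s' := h
    rw [hG.coh ⟨p, h⟩ ht h2] at h3
    exact ⟨h3.1, hp⟩
  · exact fun h => ⟨s, h⟩

theorem QGen.ev_eq [Countable M] (hG : QGen hw c GG) {s : Hi M W} (hs : s ∈ HS GG) {n : Nm M W}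
    (hn : IsNm c s.2.2 n) : ev n (Gi GG) = ev n (Gs GG s) := by
  have h := Ev_ev (hG.gen hs) hn
  refine Ev.ev_eq ⟨fun q t hq hqG => h.1 q t hq ((hG.Gi_iff hs (hn.sub q t hq)).1 hqG),
    fun k => ?_⟩
  obtain ⟨q, t, h1, h2, h3⟩ := h.2 k
  exact ⟨q, t, h1, (hG.Gi_iff hs (hn.sub q t h1)).2 h2, h3⟩

theorem QGen.RRs_mono [Countable M] (hG : QGen hw c GG) {s s' : Hi M W} (hs : s ∈ HS GG) (hs' : s' ∈ HS GG)
    (h : HLe s' s) : RR c s.2.2 (Gs GG s) ⊆ RR c s'.2.2 (Gs GG s') := by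
  rw [hG.coh hs hs' h]
  exact RR_restrict (hG.hist hs).valid h.2.2 (hG.gen hs')

end Pool.Agent.H.MP_a163f2_lc
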