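import Pool.Agent.H.MP_a163f2_lc.R.D4

/-!
# Block R, part D5: the reals of the final model
-/

set_option autoImplicit false
set_option linter.unusedSectionVars false

namespace Pool.Agent.H.MP_a163f2_lc

open Pool.Agent.H.MP_07d118_lc

universe u v w x

variable {M : Type u} [SetStr M] [ZFC M] [Std M] {W : Type v} [LinearOrder W] [Cd M W] [Om1 M W]
variable {c : W × Hc → ℕ → ℕ} [hL : Fact (Luz M W c)]
variable {hw : WellFounded ((· < ·) : W → W → Prop)} {GG : Set (HC M W)}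

theorem RN_of_RR [Countable M] (hG : QGen hw c GG) {s : Hi M W} (hs : s ∈ HS GG) :
    RR c s.2.2 (Gs GG s) ⊆ RN GG := by
  rintro _ ⟨n, hn, rfl⟩
  have hg : Good c (fun _ : ℕ × ℕ => s.2.2) (fun t G => ev n G t.1 = t.2) :=
    GoodF_ev_good (IF.const s.2.2) (IF.const n) IF.fst IF.snd
  have hF : In M (fun y : HC M W × ℕ × ℕ => HLe y.1.1 s ∧
      Fo c s.2.2 (crs s.2.2.dom y.1.2) (fun G => ev n G y.2.1 = y.2.2)) := by
    refine In.and (In.comp2 (P := fun s' s : Hi M W => HLe s' s) In.hle (IF.comp IF.fst IF.fst)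
      (IF.const s)) ?_
    exact Good.fo (IF.const s.2.2) (Q := fun (y : HC M W × ℕ × ℕ) G => ev n G y.2.1 = y.2.2)
      (GoodF_ev_good (IF.const s.2.2) (IF.const n) (IF.comp IF.fst IF.snd) (IF.comp IF.snd IF.snd))
      (IF.crs (IF.const s.2.2) (IF.comp IF.snd IF.fst))
  refine ⟨ISet.mk hF, fun m k => ⟨fun h => ?_, ?_⟩⟩
  · obtain ⟨p, hp, hfo⟩ := hg.truth (IF.const s.2.2) (t := (m, k)) (hG.gen hs) h
    refine ⟨(s, p), hp, HLe.refl s, ?_⟩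
    show Fo c s.2.2 (crs s.2.2.dom p) _
    rw [PP.crs_eq (hG.sub _ hp).2]
    exact hfo
  · rintro ⟨y, hy, h1, h2⟩
    exact h2 _ (hG.gen hs) (hG.down (s := y.1) (p := y.2) hy (hG.hist hs) h1)

set_option synthInstance.maxSize 1000 in
theorem RN_exists [Countable M] (hG : QGen hw c GG) {x : ℕ → ℕ} (hx : x ∈ RN GG) :
    ∃ s ∈ HS GG, x ∈ RR c s.2.2 (Gs GG s) := by
  obtain ⟨F, hF⟩ := hx
  let F' : HC M W → ℕ → ℕ → Prop := fun y n k => ∃ z : HC M W, (z, n, k) ∈ F ∧ z ∈ QV hw c ∧ QL c y z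
  have hF' : In M (fun y : HC M W × ℕ × ℕ => F' y.1 y.2.1 y.2.2) := by
    refine In.ex (P := fun (y : HC M W × ℕ × ℕ) (z : HC M W) =>
      (z, y.2.1, y.2.2) ∈ F ∧ z ∈ QV hw c ∧ QL c y.1 z) (In.and ?_ (In.and (In.qv' IF.snd) ?_))
    · exact In.mem (IF.pair IF.snd (IF.pair (IF.comp IF.fst (IF.comp IF.snd IF.fst))
        (IF.comp IF.snd (IF.comp IF.snd IF.fst)))) (IF.const F)
    · exact In.ql' (IF.comp IF.fst IF.fst) IF.snd
  have hF'' : ∀ {T : Type v} [Cd M T] {y : T → HC M W} (_ : IF M y) {n k : T → ℕ} (_ : IF M n)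
      (_ : IF M k), In M (fun t => F' (y t) (n t) (k t)) := by
    intro T _ y hy n k hn hk
    exact In.comp (P := fun y : HC M W × ℕ × ℕ => F' y.1 y.2.1 y.2.2) hF'
      (IF.pair hy (IF.pair hn hk))
  let Dec : ℕ → Hi M W → Cond W → Prop := fun n s r => (∃ k, F' (s, r) n k) ∨
    ¬ ∃ z : HC M W, z ∈ QV hw c ∧ QL c z (s, r) ∧ ∃ k, F' z n k
  have hDec : In M (fun y : ℕ × Hi M W × Cond W => Dec y.1 y.2.1 y.2.2) := by
    refine In.or ?_ (In.not ?_)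
    · exact In.ex (P := fun (y : ℕ × Hi M W × Cond W) (k : ℕ) => F' (y.2.1, y.2.2) y.1 k)
        (hF'' (IF.pair (IF.comp IF.fst (IF.comp IF.snd IF.fst))
          (IF.comp IF.snd (IF.comp IF.snd IF.fst))) (IF.comp IF.fst IF.fst) IF.snd)
    · refine In.ex (P := fun (y : ℕ × Hi M W × Cond W) (z : HC M W) => z ∈ QV hw c ∧
        QL c z (y.2.1, y.2.2) ∧ ∃ k, F' z y.1 k) (In.and (In.qv' IF.snd) (In.and ?_ ?_))
      · exact In.ql' IF.snd (IF.pair (IF.comp IF.fst (IF.comp IF.snd IF.fst))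
          (IF.comp IF.snd (IF.comp IF.snd IF.fst)))
      · exact In.ex (P := fun (y : (ℕ × Hi M W × Cond W) × HC M W) (k : ℕ) => F' y.2 y.1.1 k)
          (hF'' (IF.comp IF.snd IF.fst) (IF.comp IF.fst (IF.comp IF.fst IF.fst)) IF.snd)
  have hmono : ∀ n s t q r, VHi hw c s → VHi hw c t → HLe t s → q ∈ PP c s.2.2 →
      r ∈ PP c t.2.2 → CLe c r q → Dec n s q → Dec n t r := by
    rintro n s t q r hs ht hle hq hr hrq (⟨k, z, h1, h2, h3⟩ | h)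
    · exact Or.inl ⟨k, z, h1, h2, QL.trans0 (y := (s, q)) ⟨hle, hrq⟩ h3⟩
    · refine Or.inr ?_
      rintro ⟨z, h1, h2, h3⟩
      exact h ⟨z, h1, QL.trans0 (y := (t, r)) h2 ⟨hle, hrq⟩, h3⟩
  obtain ⟨x₀, hx₀⟩ := hG.ne
  obtain ⟨⟨s, p⟩, hsp, -, hD⟩ := hG.meets_below hx₀ (D := fun z => ∀ n, ∀ q : Cond W,
      q ∈ PP c z.1.2.2 → CLe c q z.2 → ∃ r : Cond W, r ∈ PP c z.1.2.2 ∧ CLe c r q ∧ Dec n z.1 r) (by
    refine In.all (P := fun (z : HC M W) (n : ℕ) => ∀ q : Cond W,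
      q ∈ PP c z.1.2.2 → CLe c q z.2 → ∃ r : Cond W, r ∈ PP c z.1.2.2 ∧ CLe c r q ∧ Dec n z.1 r) ?_
    refine In.all (P := fun (y : HC M W × ℕ) (q : Cond W) =>
      q ∈ PP c y.1.1.2.2 → CLe c q y.1.2 → ∃ r : Cond W, r ∈ PP c y.1.1.2.2 ∧ CLe c r q ∧
        Dec y.2 y.1.1 r) (In.imp ?_ (In.imp ?_ ?_))
    · exact In.pp (IF.comp IF.snd (IF.comp IF.snd (IF.comp IF.fst (IF.comp IF.fst IF.fst)))) IF.snd
    · exact In.cle IF.snd (IF.comp IF.snd (IF.comp IF.fst IF.fst))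
    · refine In.ex (P := fun (y : (HC M W × ℕ) × Cond W) (r : Cond W) => r ∈ PP c y.1.1.1.2.2 ∧
        CLe c r y.2 ∧ Dec y.1.2 y.1.1.1 r) (In.and ?_ (In.and ?_ ?_))
      · exact In.pp (IF.comp IF.snd (IF.comp IF.snd (IF.comp IF.fst (IF.comp IF.fst
          (IF.comp IF.fst IF.fst))))) IF.snd
      · exact In.cle IF.snd (IF.comp IF.snd IF.fst)
      · exact In.comp (P := fun y : ℕ × Hi M W × Cond W => Dec y.1 y.2.1 y.2.2) hDec
          (f := fun y : ((HC M W × ℕ) × Cond W) × Cond W => (y.1.1.2, y.1.1.1.1, y.2))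
          (IF.pair (IF.comp IF.snd (IF.comp IF.fst IF.fst)) (IF.pair (IF.comp IF.fst
            (IF.comp IF.fst (IF.comp IF.fst IF.fst))) IF.snd))) (by
    rintro ⟨s₀, p₀⟩ ⟨hs₀, hp₀⟩ -
    obtain ⟨s, hs, hle, h⟩ := (hist_sys (c := c) (hw := hw)).decide_all hDec hmono hs₀ hp₀ (by
      intro n s hs hss q hq hqp
      by_cases h : ∃ z : HC M W, z ∈ QV hw c ∧ QL c z (s, q) ∧ ∃ k, F' z n k
      · obtain ⟨z, h1, h2, h3⟩ := h
        exact ⟨z.1, h1.1, h2.1, z.2, h1.2, h2.2, Or.inl h3⟩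
      · exact ⟨s, hs, HLe.refl s, q, hq, CLe.refl q, Or.inr h⟩)
    refine ⟨(s, p₀), ⟨hs, PP_mono hle.2.2 hp₀⟩, ⟨hle, CLe.refl _⟩, fun n q hq hqp => ?_⟩
    obtain ⟨r, h1, h2, h3⟩ := h n q hq hqp
    exact ⟨r, h1, h2, h3⟩)
  have hs : s ∈ HS GG := ⟨p, hsp⟩
  have hgen := hG.gen hs
  have hdec : ∀ n, ∃ r ∈ Gs GG s, Dec n s r := by
    intro n
    have hin : In M (fun r : Cond W => Dec n s r) :=
      In.comp (P := fun y : ℕ × Hi M W × Cond W => Dec y.1 y.2.1 y.2.2) hDec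
        (f := fun r : Cond W => (n, s, r)) (IF.pair (IF.const n) (IF.pair (IF.const s) IF.id))
    obtain ⟨r, hr, -, h⟩ := hgen.meets_below (p := p) hsp (ISet.mk hin) (by
      intro q hq hqp
      obtain ⟨r, h1, h2, h3⟩ := hD n q hq hqp
      exact ⟨r, h1, h2, h3⟩)
    exact ⟨r, hr, h⟩
  have hiff : ∀ n k, x n = k ↔ ∃ r : Cond W, r ∈ Gs GG s ∧ F' (s, r) n k := by
    intro n k
    have hback : ∀ r k', r ∈ Gs GG s → F' (s, r) n k' → x n = k' := by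
      rintro r k' hr ⟨z, h1, h2, h3⟩
      exact (hF n k').2 ⟨z, hG.up _ hr z h2 h3, h1⟩
    constructor
    · intro h
      obtain ⟨y, hy, hyF⟩ := (hF n k).1 h
      obtain ⟨r, hr, ⟨k', hk'⟩ | hno⟩ := hdec n
      · have h1 := hback r k' hr hk'
        rw [h] at h1
        subst h1
        exact ⟨r, hr, hk'⟩
      · obtain ⟨z, hz, hz1, hz2⟩ := hG.dir y hy (s, r) hr
        exact absurd ⟨z, hG.sub _ hz, hz2, k, y, hyF, hG.sub _ hy, hz1⟩ hno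
    · rintro ⟨r, hr, hk⟩
      exact hback r k hr hk
  refine ⟨s, hs, mem_RR_of_good (hG.hist hs).valid hgen
    (Q := fun n k G => ∃ r : Cond W, r ∈ G ∧ F' (s, r) n k) ?_ hiff⟩
  refine Good.ex (Q := fun (y : ℕ × ℕ) (r : Cond W) G => r ∈ G ∧ F' (s, r) y.1 y.2) (Good.and ?_ ?_)
  · exact Good.mem (IF.const s.2.2) IF.snd
  · exact Good.of_in (P := fun y : (ℕ × ℕ) × Cond W => F' (s, y.2) y.1.1 y.1.2)
      (In.comp (P := fun y : HC M W × ℕ × ℕ => F' y.1 y.2.1 y.2.2) hF'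
        (f := fun y : (ℕ × ℕ) × Cond W => ((s, y.2), y.1.1, y.1.2))
        (IF.pair (IF.pair (IF.const s) IF.snd) (IF.pair (IF.comp IF.fst IF.fst)
          (IF.comp IF.snd IF.fst))))

/-- an occurring history extending a given one, with a given real -/
theorem RN_ext [Countable M] (hG : QGen hw c GG) {s : Hi M W} (hs : s ∈ HS GG) {x : ℕ → ℕ}
    (hx : x ∈ RN GG) : ∃ t ∈ HS GG, HLe t s ∧ x ∈ RR c t.2.2 (Gs GG t) := by
  obtain ⟨s', hs', h1⟩ := RN_exists hG hx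
  obtain ⟨t, ht, h2, h3⟩ := hG.dirH hs hs'
  exact ⟨t, ht, h2, hG.RRs_mono hs' ht h3 h1⟩

theorem HS_ne (hG : QGen hw c GG) : (HS GG).Nonempty := by
  obtain ⟨x, hx⟩ := hG.ne
  exact ⟨x.1, x.2, hx⟩

theorem RN_two [Countable M] (hG : QGen hw c GG) {x y : ℕ → ℕ} (hx : x ∈ RN GG)
    (hy : y ∈ RN GG) : ∃ t ∈ HS GG, x ∈ RR c t.2.2 (Gs GG t) ∧ y ∈ RR c t.2.2 (Gs GG t) := by
  obtain ⟨s, hs, h1⟩ := RN_exists hG hx
  obtain ⟨t, ht, h2, h3⟩ := RN_ext hG hs hy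
  exact ⟨t, ht, hG.RRs_mono hs ht h2 h1, h3⟩

theorem QGen.RUs [Countable M] (hG : QGen hw c GG) {s : Hi M W} (hs : s ∈ HS GG) :
    RU M W (RR c s.2.2 (Gs GG s)) := RR_RU (hG.hist hs).valid (hG.gen hs)

theorem RN_RU0 [Countable M] (hG : QGen hw c GG) : RU M W (RN GG) where
  ground x hx := by
    obtain ⟨s, hs⟩ := HS_ne hG
    exact RN_of_RR hG hs ((hG.RUs hs).ground x hx)
  comp x hx y hy := by
    obtain ⟨s, hs, h1, h2⟩ := RN_two hG hx hy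
    exact RN_of_RR hG hs ((hG.RUs hs).comp x h1 y h2)
  pair x hx y hy := by
    obtain ⟨s, hs, h1, h2⟩ := RN_two hG hx hy
    exact RN_of_RR hG hs ((hG.RUs hs).pair x h1 y h2)
  jump x hx := by
    obtain ⟨s, hs, h1⟩ := RN_exists hG hx
    exact RN_of_RR hG hs ((hG.RUs hs).jump x h1)
  prec x hx a := by
    obtain ⟨s, hs, h1⟩ := RN_exists hG hx
    exact RN_of_RR hG hs ((hG.RUs hs).prec x h1 a)
  mu x hx y h := by
    obtain ⟨s, hs, h1⟩ := RN_exists hG hx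
    exact RN_of_RR hG hs ((hG.RUs hs).mu x h1 y h)
  del a ha := by
    obtain ⟨s, hs, h1⟩ := RN_exists hG ha
    rcases (hG.RUs hs).del a h1 with ⟨y, hy, h⟩ | h
    · exact Or.inl ⟨y, RN_of_RR hG hs hy, h⟩
    · exact Or.inr h

/-- the coded reals are the values of the nodes -/
theorem KN_iff [Countable M] (hG : QGen hw c GG) {z : ℕ → ℕ} :
    z ∈ KN c GG ↔ ∃ s ∈ HS GG, ∃ ν ∈ s.2.2.dom, z = ev (s.2.2.nm ν) (Gs GG s) := by
  constructor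
  · rintro ⟨hz, y, hy, hc⟩
    obtain ⟨s, hs, h1, h2⟩ := RN_two hG hz hy
    obtain ⟨ν, hν, h⟩ := nuc (hG.hist hs).valid (hG.gen hs) h2 h1 hc
    exact ⟨s, hs, ν, hν, h⟩
  · rintro ⟨s, hs, ν, hν, rfl⟩
    have hv := (hG.hist hs).valid
    obtain ⟨n, hn, h⟩ := exists_yy hv hν
    refine ⟨RN_of_RR hG hs (ev_mem_RR (hv.nm ν hν)), _, RN_of_RR hG hs (ev_mem_RR hn), ?_⟩
    unfold Cod
    rw [h _ (hG.gen hs)]
    exact cod_yy hv (hG.gen hs) hν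

/-- node values along extensions -/
theorem QGen.node_up [Countable M] (hG : QGen hw c GG) {s s' : Hi M W} (hs : s ∈ HS GG)
    (hs' : s' ∈ HS GG) (h : HLe s' s) {ν : W} (hν : ν ∈ s.2.2.dom) :
    ν ∈ s'.2.2.dom ∧ ev (s'.2.2.nm ν) (Gs GG s') = ev (s.2.2.nm ν) (Gs GG s) := by
  refine ⟨h.2.2.dom hν, ?_⟩
  rw [h.2.2.nm_eq hν, hG.coh hs hs' h]
  exact (ev_restrict (hG.hist hs).valid h.2.2 (hG.gen hs') ((hG.hist hs).valid.nm ν hν)).symm

/-- absoluteness from a history to the final model -/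
theorem QGen.U3_up [Countable M] (hG : QGen hw c GG) {s : Hi M W} (hs : s ∈ HS GG)
    {x a : ℕ → ℕ} (hx : x ∈ RR c s.2.2 (Gs GG s)) (ha : a ∈ RR c s.2.2 (Gs GG s))
    (h : U3 (RR c s.2.2 (Gs GG s)) x a) : U3 (RN GG) x a :=
  U3.up (hG.RUs hs) (RN_RU0 hG) (RN_of_RR hG hs) hx ha h

/-- a true instance of `U3` is true from some history on -/
theorem QGen.U3_down [Countable M] (hG : QGen hw c GG) {s : Hi M W} (hs : s ∈ HS GG)
    {x a : ℕ → ℕ} (hx : x ∈ RR c s.2.2 (Gs GG s)) (ha : a ∈ RR c s.2.2 (Gs GG s))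
    (h : U3 (RN GG) x a) : ∃ t ∈ HS GG, HLe t s ∧ U3 (RR c t.2.2 (Gs GG t)) x a := by
  obtain ⟨y, hy, h1⟩ := U3.down (RN_RU0 hG) h
  obtain ⟨t, ht, h2, h3⟩ := RN_ext hG hs hy
  exact ⟨t, ht, h2, h1 _ (hG.RUs ht) (RN_of_RR hG ht) (hG.RRs_mono hs ht h2 hx)
    (hG.RRs_mono hs ht h2 ha) h3⟩

end Pool.Agent.H.MP_a163f2_lc
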