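import Pool.Agent.H.MP_a163f2_lc.R.D2

/-!
# Block R, part D6: extending a history by a plan or by an item
-/

set_option autoImplicit false
set_option linter.unusedSectionVars false

namespace Pool.Agent.H.MP_a163f2_lc

open Pool.Agent.H.MP_07d118_lc

universe u v w x

variable {M : Type u} [SetStr M] [ZFC M] [Std M] {W : Type v} [LinearOrder W] [Cd M W] [Om1 M W]
variable {c : W × Hc → ℕ → ℕ} [hL : Fact (Luz M W c)]
variable {hw : WellFounded ((· < ·) : W → W → Prop)}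

/-- extending the current plan -/
theorem ext_plan {s : Hi M W} (hs : VHi hw c s) {g : Pl M W}
    (hg : g ∈ Al hw c s.2.1.1 s.1) (hsb : Sb s.2.2 g) :
    VHi hw c (s.1, s.2.1, g) ∧ HLe (s.1, s.2.1, g) s :=
  ⟨⟨hg, hs.2⟩, le_rfl, fun _ _ => rfl, hsb⟩

open Classical in
/-- the items of `s`, then the item `I` -/
noncomputable def appI (s : Hi M W) (I : Item M W) : W → Item M W :=
  fun κ => if κ = s.1 then I else s.2.1.1 κ

theorem appI_self (s : Hi M W) (I : Item M W) : appI s I s.1 = I := by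
  unfold appI
  exact if_pos rfl

theorem appI_lt (s : Hi M W) (I : Item M W) {κ : W} (h : κ < s.1) : appI s I κ = s.2.1.1 κ := by
  unfold appI
  exact if_neg h.ne

theorem IF.appI (s : Hi M W) (I : Item M W) : IF M (MP_a163f2_lc.appI s I) := by
  classical
  exact (IF.ite (P := fun κ : W => κ = s.1) (In.eq IF.id (IF.const s.1)) (f := fun _ => I)
    (g := fun κ => s.2.1.1 κ) (IF.const I) s.2.1.2).congr fun κ => by
      unfold MP_a163f2_lc.appI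
      split_ifs <;> rfl

/-- the flag clause of the validity of an item `I` at the place `κ` -/
def Flag (hw : WellFounded ((· < ·) : W → W → Prop)) (c : W × Hc → ℕ → ℕ)
    (it : W → Item M W) (κ : W) (I : Item M W) : Prop :=
  (Fo c I.1 I.2.2.1 (fun G => ev I.2.1 G 0 = 0) ∧
    ¬ ∃ g ∈ Al hw c it κ, Sb I.1 g ∧ ∃ p' ∈ PP c g, CLe c p' I.2.2.1 ∧
      Fo c g p' (fun G => ∃ x ∈ RR c g G, U3 (RR c g G) x (zx (ev I.2.1 G)) ∧
        U3 (RR c g G) x (za (ev I.2.1 G)))) ∨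
  (Fo c I.1 I.2.2.1 (fun G => ev I.2.1 G 0 = 1 ∧ za (ev I.2.1 G) = 0 ∧
    ListOK it κ G (ev I.2.2.2 G))) ∨
  (Fo c I.1 I.2.2.1 (fun G => ev I.2.1 G 0 = 2) ∧
    (∀ ν ∈ I.1.dom, ∀ i < 2, Fo c I.1 I.2.2.1 (fun G =>
      ¬ (za (ev (I.1.nm ν) G) = ev I.2.1 G ∧ ev (I.1.nm ν) G 0 = i))) ∧
    ((Fo c I.1 I.2.2.1 (fun G => ev I.2.2.2 G 0 = 1 ∧ ev I.2.2.2 G 1 = 0 ∧
        U3 (RR c I.1 G) (ev I.2.1 G) (za (zx (ev I.2.1 G))))) ∨
      (Fo c I.1 I.2.2.1 (fun G => ev I.2.2.2 G 0 = 0 ∧ ev I.2.2.2 G 1 = 1 ∧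
        U3 (RR c I.1 G) (ev I.2.1 G) (zx (zx (ev I.2.1 G))))) ∨
      (Fo c I.1 I.2.2.1 (fun G => ∀ n, ev I.2.2.2 G n = 0) ∧
        ¬ ∃ g ∈ Al hw c it κ, Sb I.1 g ∧ Obey c I ∅ g ∧ ∃ p' ∈ PP c g,
          CLe c p' I.2.2.1 ∧ Fo c g p' (fun G =>
            U3 (RR c g G) (ev I.2.1 G) (zx (zx (ev I.2.1 G))) ∨
            U3 (RR c g G) (ev I.2.1 G) (za (zx (ev I.2.1 G)))))))

theorem VItem.flag' {it : W → Item M W} {κ : W} (h : VItem hw c it κ) :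
    Flag hw c it κ (it κ) := h.flag

/-- validity of an appended item -/
theorem VItem_app {s : Hi M W} {I : Item M W} (hal : I.1 ∈ Al hw c s.2.1.1 s.1)
    (hkey : IsNm c I.1 I.2.1) (hcond : I.2.2.1 ∈ PP c I.1) (hperm : IsNm c I.1 I.2.2.2)
    (hfresh : ∀ η < s.1, ∀ r ∈ PP c I.1, CLe c r I.2.2.1 → CLe c r (s.2.1.1 η).2.2.1 →
      ¬ Fo c I.1 r (fun G => ev I.2.1 G = ev (s.2.1.1 η).2.1 G))
    (hflag : Flag hw c s.2.1.1 s.1 I) : VItem hw c (appI s I) s.1 := by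
  have eA : Al hw c s.2.1.1 s.1 = Al hw c (appI s I) s.1 :=
    Al_congr fun η hη => (appI_lt s I hη).symm
  refine ⟨?_, ?_, ?_, ?_, ?_, ?_⟩
  · rw [appI_self, ← eA]
    exact hal
  · rw [appI_self]
    exact hkey
  · rw [appI_self]
    exact hcond
  · rw [appI_self]
    exact hperm
  · intro η hη
    rw [appI_self, appI_lt s I hη]
    exact hfresh η hη
  · rw [appI_self, ← eA]
    rcases hflag with h1 | h1 | h1
    · exact Or.inl h1
    · exact Or.inr (Or.inl (h1.imp fun G hG hp hQ =>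
        ⟨hQ.1, hQ.2.1, ListOK_congr (fun η hη => (appI_lt s I hη).symm) hQ.2.2⟩))
    · exact Or.inr (Or.inr h1)

/-- appending an item -/
theorem append_item {s : Hi M W} (hs : VHi hw c s) {I : Item M W} (hsb : Sb s.2.2 I.1)
    (hal : I.1 ∈ Al hw c s.2.1.1 s.1)
    (hkey : IsNm c I.1 I.2.1) (hcond : I.2.2.1 ∈ PP c I.1) (hperm : IsNm c I.1 I.2.2.2)
    (hfresh : ∀ η < s.1, ∀ r ∈ PP c I.1, CLe c r I.2.2.1 → CLe c r (s.2.1.1 η).2.2.1 →
      ¬ Fo c I.1 r (fun G => ev I.2.1 G = ev (s.2.1.1 η).2.1 G))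
    (hflag : Flag hw c s.2.1.1 s.1 I) :
    ∃ s' : Hi M W, VHi hw c s' ∧ HLe s' s ∧ s.1 < s'.1 ∧ s'.2.1.1 s.1 = I ∧ s'.2.2 = I.1 := by
  obtain ⟨μ', h1, h2⟩ := exists_sucW M s.1
  have hv := VItem_app hal hkey hcond hperm hfresh hflag
  refine ⟨(μ', ⟨appI s I, IF.appI s I⟩, I.1), ⟨?_, ?_⟩, ⟨h1.le, fun κ hκ => appI_lt s I hκ, hsb⟩,
    h1, appI_self s I, rfl⟩
  · rw [mem_Al]
    refine ⟨(mem_Al.1 hal).1, fun η hη => ?_⟩
    rcases (h2 η hη).lt_or_eq with h3 | h3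
    · have h4 := (mem_Al.1 hal).2 η h3
      show Sb (appI s I η).1 I.1 ∧ Obey c (appI s I η) (Al hw c (appI s I) η) I.1
      rw [appI_lt s I h3, ← Al_congr (fun ζ hζ => (appI_lt s I (hζ.trans h3)).symm)]
      exact h4
    · subst h3
      show Sb (appI s I s.1).1 I.1 ∧ Obey c (appI s I s.1) (Al hw c (appI s I) s.1) I.1
      rw [appI_self]
      exact ⟨Sb.refl _, fun ν hν hν' => absurd hν hν'⟩
  · intro κ hκ
    rcases (h2 κ hκ).lt_or_eq with h3 | h3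
    · exact VItem_congr (fun η hη => (appI_lt s I (lt_of_le_of_lt hη h3)).symm) (hs.2 κ h3)
    · subst h3
      exact hv

end Pool.Agent.H.MP_a163f2_lc
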