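import Pool.Agent.H.MP_a163f2_lc.R.D6

/-!
# Block R, part D7a: adding a node (T3, T4 of the blueprint)

`new_node`: the name of the new node is T(x,a,i) if p is in G, otherwise
T(0,T(0,0,3),0) (`exists_name`), the node is any index outside of the domain; the rules
of the other items are vacuous by `VItem.fresh`, and below conditions which do not force
`p` into G since the flag of a key is 0, 1 or 2 below the condition of the item
(`stub_addN`, `Good.restrict`).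
-/

set_option autoImplicit false
set_option linter.unusedSectionVars false

namespace Pool.Agent.H.MP_a163f2_lc

open Pool.Agent.H.MP_07d118_lc

universe u v w x

variable {M : Type u} [SetStr M] [ZFC M] [Std M] {W : Type v} [LinearOrder W] [Cd M W] [Om1 M W]
variable {c : W × Hc → ℕ → ℕ} [hL : Fact (Luz M W c)]
variable {hw : WellFounded ((· < ·) : W → W → Prop)}

/-- the flag of a key is 0, 1 or 2 below the condition of the item -/
theorem VItem.flag_lt {it : W → Item M W} {κ : W} (h : VItem hw c it κ) {G : Set (Cond W)}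
    (hG : Gen c (it κ).1 G) (hp : (it κ).2.2.1 ∈ G) : ev (it κ).2.1 G 0 < 3 := by
  rcases h.flag with h1 | h1 | h1
  · rw [h1.1 G hG hp]
    norm_num
  · rw [(h1 G hG hp).1]
    norm_num
  · rw [h1.1 G hG hp]
    norm_num

/-- `T3` of good reals is good -/
theorem D7a_t3 {T : Type w} [Cd M T] {f : T → Pl M W} {X Y : T → Set (Cond W) → ℕ → ℕ}
    (hX : GoodR c f X) (hY : GoodR c f Y) (i : ℕ) :
    GoodR c f (fun t G => T3 (X t G) (Y t G) i) := by
  have hd : IF M (fun n : ℕ => n / 2) :=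
    IF.prim (Primrec.nat_div.comp Primrec.id (Primrec.const 2))
  have hd' : IF M (fun n : ℕ => n / 2 - 1) :=
    IF.prim (Primrec.nat_sub.comp (Primrec.nat_div.comp Primrec.id (Primrec.const 2))
      (Primrec.const 1))
  have hP : In M (fun n : ℕ => n % 2 = 1) :=
    In.eq (IF.prim (Primrec.nat_mod.comp Primrec.id (Primrec.const 2))) (IF.const 1)
  have hP0 : In M (fun n : ℕ => n = 0) := In.eq IF.id (IF.const 0)
  have h1 : GoodF c (fun y : T × ℕ => f y.1) (fun y G => X y.1 G (y.2 / 2)) := GoodF_appI hX hd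
  have h2 : GoodF c (fun y : T × ℕ => f y.1) (fun y G => Y y.1 G (y.2 / 2 - 1)) :=
    GoodF_appI hY hd'
  have h3 := GoodF_iteI (P := fun y : T × ℕ => y.2 % 2 = 1) (In.comp hP IF.snd) h1 h2
  have h4 := GoodF_iteI (P := fun y : T × ℕ => y.2 = 0) (In.comp hP0 IF.snd)
    (GoodF.of_if (c := c) (f := fun y : T × ℕ => f y.1) (k := fun _ : T × ℕ => i) (IF.const i)) h3
  refine h4.congr fun y G _ => ?_
  show T3 (X y.1 G) (Y y.1 G) i y.2 = _
  unfold T3
  by_cases e1 : y.2 = 0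
  · rw [if_pos e1, if_pos e1]
  · rw [if_neg e1, if_neg e1]
    by_cases e2 : y.2 % 2 = 1
    · rw [if_pos e2, if_pos e2]
    · rw [if_neg e2, if_neg e2]

/-- the value of the new name outside of the condition -/
def D7a_zd : ℕ → ℕ := fun n => if n = 2 then 3 else 0

theorem D7a_zd_in : IF M D7a_zd := by
  have h : Primrec D7a_zd :=
    Primrec.ite (Primrec.eq.comp Primrec.id (Primrec.const 2)) (Primrec.const 3) (Primrec.const 0)
  exact IF.prim h

/-- the name of the new node -/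
theorem D7a_name [Countable M] {f : Pl M W} (hf : Valid c f) (p : Cond W) (x a : Nm M W) (i : ℕ) :
    ∃ n : Nm M W, IsNm c f n ∧
      (∀ G, Gen c f G → p ∈ G → ev n G = T3 (ev x G) (ev a G) i) ∧
      ∀ G, Gen c f G → p ∉ G → ev n G = D7a_zd := by
  classical
  have hX : GoodR c (fun _ : ℕ => f) (fun _ G => ev x G) := GoodR.ev (IF.const f) (IF.const x)
  have hY : GoodR c (fun _ : ℕ => f) (fun _ G => ev a G) := GoodR.ev (IF.const f) (IF.const a)
  have h1 := D7a_t3 hX hY i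
  have h2 : GoodR c (fun _ : ℕ => f) (fun _ _ => D7a_zd) :=
    GoodF.of_if (IF.comp (D7a_zd_in (M := M)) IF.snd)
  have h3 : Good c (fun _ : ℕ × ℕ => f) (fun _ G => p ∈ G) := Good.mem (IF.const f) (IF.const p)
  have h4 : GoodR c (fun _ : ℕ => f)
      (fun _ G => if p ∈ G then T3 (ev x G) (ev a G) i else D7a_zd) := by
    refine (GoodF.ite (f := fun _ : ℕ × ℕ => f) (IF.const f) h3 h1 h2).congr fun y G _ => ?_
    by_cases e : p ∈ G <;> simp [e]
  obtain ⟨n, hn, h5⟩ := exists_name (IF.const f) h4 (t := 0) hf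
  refine ⟨n, hn, fun G hG hp => ?_, fun G hG hp => ?_⟩
  · rw [h5 G hG, if_pos hp]
  · rw [h5 G hG, if_neg hp]

/-- the keys of two items which are both effective are different -/
theorem D7a_fresh [Countable M] {it : W → Item M W} {η κ : W} (hηκ : η < κ)
    (hκ : VItem hw c it κ) (hη : VItem hw c it η) {g : Pl M W} (hs : Sb (it κ).1 g)
    {G : Set (Cond W)} (hG : Gen c g G) (h1 : (it κ).2.2.1 ∈ G) (h2 : (it η).2.2.1 ∈ G) :
    ev (it κ).2.1 G ≠ ev (it η).2.1 G := by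
  intro he
  have hv : Valid c (it κ).1 := (mem_Al.1 hκ.al).1
  have hsη : Sb (it η).1 (it κ).1 := ((mem_Al.1 hκ.al).2 η hηκ).1
  have hvη : Valid c (it η).1 := (mem_Al.1 hη.al).1
  have hG' := hG.restrict hv hs
  have e1 : ev (it κ).2.1 (G ∩ PP c (it κ).1) = ev (it κ).2.1 G := ev_restrict hv hs hG hκ.key
  have e2 : ev (it η).2.1 (G ∩ PP c (it κ).1) = ev (it η).2.1 G :=
    ev_restrict hv hs hG (hη.key.mono hvη hsη)
  have hg : Good c (fun _ : ℕ => (it κ).1) (fun _ G => ev (it κ).2.1 G = ev (it η).2.1 G) :=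
    Good.eqR (IF.const _) (GoodR.ev (IF.const _) (IF.const _)) (GoodR.ev (IF.const _) (IF.const _))
  obtain ⟨q, hq, hqF⟩ := hg.truth (IF.const _) (t := 0) hG' (by rw [e1, e2]; exact he)
  have m1 : (it κ).2.2.1 ∈ G ∩ PP c (it κ).1 := ⟨h1, hκ.cond⟩
  have m2 : (it η).2.2.1 ∈ G ∩ PP c (it κ).1 := ⟨h2, PP_mono hsη hη.cond⟩
  obtain ⟨h3, h4, h5⟩ := hG'.cup_mem hq m1
  obtain ⟨h6, h7, h8⟩ := hG'.cup_mem h3 m2
  exact hκ.fresh η hηκ _ (hG'.sub _ h6) (h7.trans h5) h8 (hqF.mono (hG'.sub _ hq) (h7.trans h4))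

theorem new_node [Countable M] {s : Hi M W} (hs : VHi hw c s) {κ : W} (hκ : κ < s.1)
    {p : Cond W} (hp : p ∈ PP c s.2.2) (hpκ : CLe c p (s.2.1.1 κ).2.2.1) {x : Nm M W}
    (hx : IsNm c s.2.2 x) {i : ℕ} (hi : i < 2)
    (hrule : ∀ n : Nm M W, IsNm c s.2.2 n → (∀ G, Gen c s.2.2 G → p ∈ G →
        ev n G = T3 (ev x G) (ev (s.2.1.1 κ).2.1 G) i) →
      ∀ ν, ν ∉ s.2.2.dom → addN s.2.2 ν n ∈ Al hw c s.2.1.1 κ →
      ∀ r ∈ PP c (addN s.2.2 ν n), (∀ G, Gen c (addN s.2.2 ν n) G → r ∈ G → p ∈ G) →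
      (Fo c (addN s.2.2 ν n) r (fun G => ev (s.2.1.1 κ).2.1 G 0 = 0) →
        (i = 0 → ∀ p₁ ∈ PP c (addN s.2.2 ν n), CLe c p₁ r →
          Fut c (s.2.1.1 κ) (Al hw c s.2.1.1 κ) (addN s.2.2 ν n) p₁ n) ∧
        (i = 1 → ¬ Fut c (s.2.1.1 κ) (Al hw c s.2.1.1 κ) (addN s.2.2 ν n) r n)) ∧
      (Fo c (addN s.2.2 ν n) r (fun G => ev (s.2.1.1 κ).2.1 G 0 ≠ 0) →
        Fo c (addN s.2.2 ν n) r (fun G =>
          ev (s.2.1.1 κ).2.2.2 G (2 * zx (ev n G) 0 + i) = 1))) :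
    ∃ (s' : Hi M W) (ν : W), VHi hw c s' ∧ HLe s' s ∧ ν ∈ s'.2.2.dom ∧
      ∀ G, Gen c s'.2.2 G → p ∈ G →
        ev (s'.2.2.nm ν) G = T3 (ev x G) (ev (s.2.1.1 κ).2.1 G) i := by
  obtain ⟨n, hn, hn1, hn2⟩ := D7a_name hs.valid p x (s.2.1.1 κ).2.1 i
  obtain ⟨ν, hν⟩ : ∃ ν, ν ∉ s.2.2.dom := by
    obtain ⟨ζ, hζ⟩ := hs.valid.bdd
    refine ⟨ζ, ?_⟩
    rintro ⟨q, t, h⟩
    exact lt_irrefl _ (hζ _ _ _ h).1
  have hfg : Sb s.2.2 (addN s.2.2 ν n) := Sb_addN hν n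
  have hakey : IsNm c s.2.2 (s.2.1.1 κ).2.1 := (hs.2 κ hκ).key.mono (hs.item_valid hκ) (hs.sb hκ)
  -- the value below `p`
  have hval : ∀ G, Gen c (addN s.2.2 ν n) G → p ∈ G →
      ev n G = T3 (ev x G) (ev (s.2.1.1 κ).2.1 G) i := by
    intro G hG hpG
    have h1 := hn1 _ (hG.restrict hs.valid hfg) ⟨hpG, hp⟩
    rwa [ev_restrict hs.valid hfg hG hn, ev_restrict hs.valid hfg hG hx,
      ev_restrict hs.valid hfg hG hakey] at h1
  have hval' : ∀ G, Gen c (addN s.2.2 ν n) G → p ∉ G → ev n G = D7a_zd := by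
    intro G hG hpG
    have h1 := hn2 _ (hG.restrict hs.valid hfg) (fun h => hpG h.1)
    rwa [ev_restrict hs.valid hfg hG hn] at h1
  have hal : addN s.2.2 ν n ∈ Al hw c s.2.1.1 s.1 := by
    refine stub_addN s.2.1.2 hs.2 hs.1 hν hn fun η hη hgη => ?_
    intro i' hi' r hr hrη hfo
    rw [addN_nm hν] at hfo ⊢
    have hvη := hs.2 η hη
    have hsη : Sb (s.2.1.1 η).1 (addN s.2.2 ν n) := (hs.sb hη).trans hfg
    -- the conditions of the items
    have hrη' : ∀ G, Gen c (addN s.2.2 ν n) G → r ∈ G → (s.2.1.1 η).2.2.1 ∈ G :=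
      fun G hG hrG => hG.up r hrG _ (PP_mono hsη hvη.cond) hrη
    have hrp : ∀ G, Gen c (addN s.2.2 ν n) G → r ∈ G → p ∈ G := by
      intro G hG hrG
      by_contra hpG
      have h1 := (hfo G hG hrG).1
      rw [hval' G hG hpG] at h1
      have h2 := hvη.flag_lt (hG.restrict (hs.item_valid hη) hsη) ⟨hrη' G hG hrG, hvη.cond⟩
      rw [ev_restrict (hs.item_valid hη) hsη hG hvη.key, ← h1] at h2
      simp [za, D7a_zd] at h2
    obtain ⟨G₀, hG₀, hr₀⟩ := exists_gen hr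
    have hii : i' = i := by
      have h1 := (hfo G₀ hG₀ hr₀).2
      rw [hval G₀ hG₀ (hrp G₀ hG₀ hr₀), T3_zero] at h1
      exact h1.symm
    have hke : ev (s.2.1.1 κ).2.1 G₀ = ev (s.2.1.1 η).2.1 G₀ := by
      have h1 := (hfo G₀ hG₀ hr₀).1
      rwa [hval G₀ hG₀ (hrp G₀ hG₀ hr₀), za_T3] at h1
    have hκm : (s.2.1.1 κ).2.2.1 ∈ G₀ :=
      hG₀.up p (hrp G₀ hG₀ hr₀) _ (PP_mono ((hs.sb hκ).trans hfg) (hs.2 κ hκ).cond) hpκ
    have hηκ : η = κ := by
      rcases lt_trichotomy η κ with h | h | h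
      · exact absurd hke (D7a_fresh h (hs.2 κ hκ) hvη ((hs.sb hκ).trans hfg) hG₀ hκm
          (hrη' G₀ hG₀ hr₀))
      · exact h
      · exact absurd hke.symm (D7a_fresh h hvη (hs.2 κ hκ) hsη hG₀ (hrη' G₀ hG₀ hr₀) hκm)
    subst hηκ
    subst hii
    exact hrule n hn hn1 ν hν hgη r hr hrp
  obtain ⟨h1, h2⟩ := ext_plan hs hal hfg
  refine ⟨_, ν, h1, h2, ?_, fun G hG hpG => ?_⟩
  · show ν ∈ (addN s.2.2 ν n).dom
    rw [addN_dom hn]
    exact Set.mem_insert _ _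
  · show ev ((addN s.2.2 ν n).nm ν) G = _
    rw [addN_nm hν]
    exact hval G hG hpG

/-- T3: side items -/
theorem node_side [Countable M] {s : Hi M W} (hs : VHi hw c s) {κ : W} (hκ : κ < s.1)
    {p : Cond W} (hp : p ∈ PP c s.2.2) (hpκ : CLe c p (s.2.1.1 κ).2.2.1)
    (h0 : Fo c s.2.2 p (fun G => ev (s.2.1.1 κ).2.1 G 0 = 0)) {x : Nm M W}
    (hx : IsNm c s.2.2 x) :
    ∃ (s' : Hi M W) (p' : Cond W) (ν : W) (i : ℕ), VHi hw c s' ∧ HLe s' s ∧
      p' ∈ PP c s'.2.2 ∧ CLe c p' p ∧ ν ∈ s'.2.2.dom ∧ i < 2 ∧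
      Fo c s'.2.2 p' (fun G =>
        ev (s'.2.2.nm ν) G = T3 (ev x G) (ev (s.2.1.1 κ).2.1 G) i) := by
  have hv := hs.valid
  have hvi := hs.2 κ hκ
  have hkv := hs.item_valid hκ
  have hks := hs.sb hκ
  have hakey : IsNm c s.2.2 (s.2.1.1 κ).2.1 := hvi.key.mono hkv hks
  obtain ⟨y₁, hy, hy1, -⟩ := D7a_name hv (∅, ∅) x (s.2.1.1 κ).2.1 1
  have hyv : ∀ G, Gen c s.2.2 G → ev y₁ G = T3 (ev x G) (ev (s.2.1.1 κ).2.1 G) 1 :=
    fun G hG => hy1 G hG hG.empty_mem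
  have hzero : ∀ g : Pl M W, Sb s.2.2 g → ∀ G, Gen c g G → p ∈ G →
      ev (s.2.1.1 κ).2.1 G 0 = 0 := by
    intro g hg G hG hpG
    have h1 := h0 _ (hG.restrict hv hg) ⟨hpG, hp⟩
    beta_reduce at h1
    rwa [ev_restrict hv hg hG hakey] at h1
  by_cases hA : ∀ p₂ ∈ PP c s.2.2, CLe c p₂ p →
      Fut c (s.2.1.1 κ) (Al hw c s.2.1.1 κ) s.2.2 p₂ y₁
  · -- the left side
    obtain ⟨s', ν, h1, h2, h3, h4⟩ := new_node hs hκ hp hpκ hx (i := 0) (by norm_num) (by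
      intro n hn hnv ν hν hg r hr hrp
      have hfg : Sb s.2.2 (addN s.2.2 ν n) := Sb_addN hν n
      refine ⟨fun _ => ⟨fun _ p₁ hp₁ hle => ?_, fun h => by norm_num at h⟩, fun h => ?_⟩
      · -- the union with `p`
        obtain ⟨G, hG, hpG⟩ := exists_gen hp₁
        obtain ⟨h5, h6, h7⟩ := hG.cup_mem hpG (hrp G hG (hG.up _ hpG _ hr hle))
        have hq := hG.sub _ h5
        have h8 := hA _ (crs_PP hv hfg hq) (crs_le_of_le hp h7)
        rw [← stub_fut s.2.1.2 (fun η hη => hs.2 η (lt_of_le_of_lt hη hκ))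
          (Al_mono hκ.le hs.1) hg hfg hks hy hq] at h8
        obtain ⟨g', hg', hsg, p', hp', hle', hF⟩ := h8
        refine ⟨g', hg', hsg, p', hp', hle'.trans h6, hF.imp fun G' hG' hpG' hU => ?_⟩
        have hfg' := hfg.trans hsg
        have h9 : p ∈ G' := hG'.up _ hpG' _ (PP_mono hfg' hp) (hle'.trans h7)
        have e1 := hnv _ (hG'.restrict hv hfg') ⟨h9, hp⟩
        have e2 := hyv _ (hG'.restrict hv hfg')
        rw [ev_restrict hv hfg' hG' hn] at e1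
        rw [ev_restrict hv hfg' hG' hy] at e2
        rw [e2, zx_T3] at hU
        rw [e1, zx_T3]
        exact hU
      · obtain ⟨G, hG, hrG⟩ := exists_gen hr
        exact absurd (hzero _ hfg G hG (hrp G hG hrG)) (h G hG hrG))
    exact ⟨s', p, ν, 0, h1, h2, PP_mono h2.2.2 hp, CLe.refl _, h3, by norm_num,
      fun G hG hpG => h4 G hG hpG⟩
  · push Not at hA
    obtain ⟨p₂, hp₂, hle₂, hA⟩ := hA
    obtain ⟨s', ν, h1, h2, h3, h4⟩ := new_node hs hκ hp₂ (hle₂.trans hpκ) hx (i := 1)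
      (by norm_num) (by
      intro n hn hnv ν hν hg r hr hrp
      have hfg : Sb s.2.2 (addN s.2.2 ν n) := Sb_addN hν n
      refine ⟨fun _ => ⟨fun h => by norm_num at h, fun _ hFut => hA ?_⟩, fun h => ?_⟩
      · obtain ⟨g', hg', hsg, p', hp', hle', hF⟩ := hFut
        have hfg' := hfg.trans hsg
        have hgv : Valid c (addN s.2.2 ν n) := (mem_Al.1 hg).1
        obtain ⟨G, hG, hpG⟩ := exists_gen hp'
        have h5 : p₂ ∈ G := (hrp _ (hG.restrict hgv hsg)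
          ⟨hG.up _ hpG _ (PP_mono hsg hr) hle', hr⟩).1
        obtain ⟨h6, h7, h8⟩ := hG.cup_mem hpG h5
        refine ⟨g', hg', hfg', cup p' p₂, hG.sub _ h6, h8, fun G' hG' hc => ?_⟩
        have hU := hF G' hG' (hG'.up _ hc _ hp' h7)
        beta_reduce at hU
        have h9 : p₂ ∈ G' := hG'.up _ hc _ (PP_mono hfg' hp₂) h8
        have e1 := hnv _ (hG'.restrict hv hfg') ⟨h9, hp₂⟩
        have e2 := hyv _ (hG'.restrict hv hfg')
        rw [ev_restrict hv hfg' hG' hn] at e1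
        rw [ev_restrict hv hfg' hG' hy] at e2
        rw [e1, zx_T3] at hU
        beta_reduce
        rw [e2, zx_T3]
        exact hU
      · obtain ⟨G, hG, hrG⟩ := exists_gen hr
        have h5 := hrp G hG hrG
        exact absurd (hzero _ hfg G hG (hG.up _ h5 _ (PP_mono hfg hp) hle₂)) (h G hG hrG))
    exact ⟨s', p₂, ν, 1, h1, h2, PP_mono h2.2.2 hp₂, hle₂, h3, by norm_num,
      fun G hG hpG => h4 G hG hpG⟩

/-- T4: order items and diagonal items -/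
theorem node_w [Countable M] {s : Hi M W} (hs : VHi hw c s) {κ : W} (hκ : κ < s.1)
    {p : Cond W} (hp : p ∈ PP c s.2.2) (hpκ : CLe c p (s.2.1.1 κ).2.2.1)
    (h0 : Fo c s.2.2 p (fun G => ev (s.2.1.1 κ).2.1 G 0 ≠ 0)) {x : Nm M W}
    (hx : IsNm c s.2.2 x) {i : ℕ} (hi : i < 2)
    (hp' : Fo c s.2.2 p (fun G => ev (s.2.1.1 κ).2.2.2 G (2 * ev x G 0 + i) = 1)) :
    ∃ (s' : Hi M W) (ν : W), VHi hw c s' ∧ HLe s' s ∧ ν ∈ s'.2.2.dom ∧
      Fo c s'.2.2 p (fun G =>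
        ev (s'.2.2.nm ν) G = T3 (ev x G) (ev (s.2.1.1 κ).2.1 G) i) := by
  have hv := hs.valid
  have hvi := hs.2 κ hκ
  have hkv := hs.item_valid hκ
  have hks := hs.sb hκ
  have hakey : IsNm c s.2.2 (s.2.1.1 κ).2.1 := hvi.key.mono hkv hks
  have hperm : IsNm c s.2.2 (s.2.1.1 κ).2.2.2 := hvi.perm.mono hkv hks
  obtain ⟨s', ν, h1, h2, h3, h4⟩ := new_node hs hκ hp hpκ hx hi (by
    intro n hn hnv ν hν hg r hr hrp
    have hfg : Sb s.2.2 (addN s.2.2 ν n) := Sb_addN hν n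
    refine ⟨fun h => ?_, fun _ G hG hrG => ?_⟩
    · exfalso
      obtain ⟨G, hG, hrG⟩ := exists_gen hr
      have h5 := h0 _ (hG.restrict hv hfg) ⟨hrp G hG hrG, hp⟩
      beta_reduce at h5
      rw [ev_restrict hv hfg hG hakey] at h5
      exact h5 (h G hG hrG)
    · have h5 := hp' _ (hG.restrict hv hfg) ⟨hrp G hG hrG, hp⟩
      beta_reduce at h5
      have e1 := hnv _ (hG.restrict hv hfg) ⟨hrp G hG hrG, hp⟩
      rw [ev_restrict hv hfg hG hperm, ev_restrict hv hfg hG hx] at h5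
      rw [ev_restrict hv hfg hG hn, ev_restrict hv hfg hG hx] at e1
      beta_reduce
      rw [e1, zx_T3]
      exact h5)
  exact ⟨s', ν, h1, h2, h3, fun G hG hpG => h4 G hG hpG⟩

end Pool.Agent.H.MP_a163f2_lc
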