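import Pool.Agent.H.MP_a163f2_lc.R.D6

/-!
# Block R, part D7b: items for side keys (T1)
-/

set_option autoImplicit false
set_option linter.unusedSectionVars false

namespace Pool.Agent.H.MP_a163f2_lc

open Pool.Agent.H.MP_07d118_lc

universe u v w x

variable {M : Type u} [SetStr M] [ZFC M] [Std M] {W : Type v} [LinearOrder W] [Cd M W] [Om1 M W]
variable {c : W × Hc → ℕ → ℕ} [hL : Fact (Luz M W c)]
variable {hw : WellFounded ((· < ·) : W → W → Prop)}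

/-- T1. If some condition below `p` and some `p_κ` forces `a = a_κ`, take it. Otherwise `p` is
fresh: if some legal extension of the plan has a condition below `p` which forces a common
point, take it (`ext_plan`); otherwise append the item (plan of s, a, p, a) (`append_item`). -/
theorem item_side [Countable M] {s : Hi M W} (hs : VHi hw c s) {p : Cond W}
    (hp : p ∈ PP c s.2.2) {a : Nm M W} (ha : IsNm c s.2.2 a)
    (h0 : Fo c s.2.2 p (fun G => ev a G 0 = 0)) :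
    ∃ (s' : Hi M W) (p' : Cond W), VHi hw c s' ∧ HLe s' s ∧ p' ∈ PP c s'.2.2 ∧ CLe c p' p ∧
      (Fo c s'.2.2 p' (fun G => ∃ x ∈ RR c s'.2.2 G, U3 (RR c s'.2.2 G) x (zx (ev a G)) ∧
          U3 (RR c s'.2.2 G) x (za (ev a G))) ∨
        ∃ κ < s'.1, CLe c p' (s'.2.1.1 κ).2.2.1 ∧
          Fo c s'.2.2 p' (fun G => ev a G = ev (s'.2.1.1 κ).2.1 G)) := by
  by_cases h1 : ∃ κ < s.1, ∃ p1 ∈ PP c s.2.2, CLe c p1 p ∧ CLe c p1 (s.2.1.1 κ).2.2.1 ∧
      Fo c s.2.2 p1 (fun G => ev a G = ev (s.2.1.1 κ).2.1 G)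
  · obtain ⟨κ, hκ, p1, hp1, h2, h3, h4⟩ := h1
    exact ⟨s, p1, hs, HLe.refl s, hp1, h2, Or.inr ⟨κ, hκ, h3, h4⟩⟩
  by_cases h2 : ∃ g ∈ Al hw c s.2.1.1 s.1, Sb s.2.2 g ∧ ∃ p' ∈ PP c g, CLe c p' p ∧
      Fo c g p' (fun G => ∃ x ∈ RR c g G, U3 (RR c g G) x (zx (ev a G)) ∧
        U3 (RR c g G) x (za (ev a G)))
  · obtain ⟨g, hg, hsb, p', hp', h3, h4⟩ := h2
    obtain ⟨h5, h6⟩ := ext_plan hs hg hsb
    exact ⟨_, p', h5, h6, hp', h3, Or.inl h4⟩
  · obtain ⟨s', h3, h4, h5, h6, h7⟩ := append_item hs (I := (s.2.2, a, p, a)) (Sb.refl _)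
      hs.1 ha hp ha (fun η hη r hr hrp hrη hF => h1 ⟨η, hη, r, hr, hrp, hrη, hF⟩)
      (Or.inl ⟨h0, h2⟩)
    refine ⟨s', p, h3, h4, by rw [h7]; exact hp, CLe.refl _, Or.inr ⟨s.1, h5, ?_, ?_⟩⟩
    · rw [h6]
      exact CLe.refl _
    · rw [h6]
      exact fun G _ _ => rfl

end Pool.Agent.H.MP_a163f2_lc
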