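import Pool.Agent.H.MP_a163f2_lc.R.D6
import Pool.Agent.H.MP_a163f2_lc.R.D1

/-!
# Block R, part D7c: a ground model real for the diagonal items
-/

set_option autoImplicit false
set_option linter.unusedSectionVars false

namespace Pool.Agent.H.MP_a163f2_lc

open Pool.Agent.H.MP_07d118_lc

universe u v w x

variable {M : Type u} [SetStr M] [ZFC M] [Std M] {W : Type v} [LinearOrder W] [Cd M W] [Om1 M W]
variable {c : W × Hc → ℕ → ℕ} [hL : Fact (Luz M W c)]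
variable {hw : WellFounded ((· < ·) : W → W → Prop)}

variable {T : Type w} [Cd M T]

/-- the chain condition, for conditions indexed by an unbounded internal set: the same proof
as `ccc` in R/D1, with the closed point replaced by a member of `A` above it -/
theorem ccc_unb {A : W → Prop} (hA : In M A) (hA' : ∀ ζ, ∃ α, ζ < α ∧ A α) {p : W → Cond W}
    (hp : IF M p) :
    ∃ α β, A α ∧ A β ∧ α < β ∧ CLe c (cup (p α) (p β)) (p α) ∧ CLe c (cup (p α) (p β)) (p β) := by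
  -- the bound for one type
  have hQ : In M (fun y : (W × Finset (W × Fs)) × W =>
      (∃ α, A α ∧ y.1.1 < α ∧ sty y.1.1 (p α) = y.1.2) →
      ∃ α, A α ∧ y.1.1 < α ∧ α < y.2 ∧ sty y.1.1 (p α) = y.1.2 ∧ Bd y.2 (p α)) := by
    refine In.imp ?_ ?_
    · refine In.ex (P := fun (y : (W × Finset (W × Fs)) × W) (α : W) =>
        A α ∧ y.1.1 < α ∧ sty y.1.1 (p α) = y.1.2) (In.and (hA.comp IF.snd)
        (In.and ?_ (In.eq ?_ ?_)))
      · exact In.ltW (IF.comp IF.fst (IF.comp IF.fst IF.fst)) IF.snd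
      · exact IF.sty (IF.comp IF.fst (IF.comp IF.fst IF.fst)) (IF.comp hp IF.snd)
      · exact IF.comp IF.snd (IF.comp IF.fst IF.fst)
    · refine In.ex (P := fun (y : (W × Finset (W × Fs)) × W) (α : W) =>
        A α ∧ y.1.1 < α ∧ α < y.2 ∧ sty y.1.1 (p α) = y.1.2 ∧ Bd y.2 (p α))
        (In.and (hA.comp IF.snd) (In.and ?_ (In.and ?_ (In.and (In.eq ?_ ?_) ?_))))
      · exact In.ltW (IF.comp IF.fst (IF.comp IF.fst IF.fst)) IF.snd
      · exact In.ltW IF.snd (IF.comp IF.snd IF.fst)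
      · exact IF.sty (IF.comp IF.fst (IF.comp IF.fst IF.fst)) (IF.comp hp IF.snd)
      · exact IF.comp IF.snd (IF.comp IF.fst IF.fst)
      · exact In.bd (IF.comp IF.snd IF.fst) (IF.comp hp IF.snd)
  obtain ⟨B, hB, hBR⟩ := In.choice (R := fun (y : W × Finset (W × Fs)) (η : W) =>
    (∃ α, A α ∧ y.1 < α ∧ sty y.1 (p α) = y.2) →
      ∃ α, A α ∧ y.1 < α ∧ α < η ∧ sty y.1 (p α) = y.2 ∧ Bd η (p α)) hQ (by
      intro y
      by_cases h : ∃ α, A α ∧ y.1 < α ∧ sty y.1 (p α) = y.2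
      · obtain ⟨α, h0, h1, h2⟩ := h
        obtain ⟨ζ, hζ⟩ := exists_Bd M (p α)
        obtain ⟨η, hη⟩ := Om1.bdd (M := M) (fun _ : ℕ => max α ζ) (IF.const _)
        have h3 := hη 0
        exact ⟨η, fun _ => ⟨α, h0, h1, lt_of_le_of_lt (le_max_left _ _) h3, h2,
          hζ.mono (lt_of_le_of_lt (le_max_right _ _) h3).le⟩⟩
      · exact ⟨y.1, fun h' => absurd h' h⟩)
  -- the bound for all types below `ζ`
  obtain ⟨ζ₀⟩ := Om1.ne (M := M) (W := W)
  obtain ⟨δ, hδ₀, hδ⟩ := exists_closedW (M := M) (R := fun ζ η : W => ∀ y : W × Finset (W × Fs),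
    y.1 ≤ ζ → (∀ x ∈ y.2, x.1 < y.1) → B y ≤ η) (by
      refine In.all (P := fun (z : W × W) (y : W × Finset (W × Fs)) => y.1 ≤ z.1 →
        (∀ x ∈ y.2, x.1 < y.1) → B y ≤ z.2) (In.imp ?_ (In.imp ?_ ?_))
      · exact In.leW (IF.comp IF.fst IF.snd) (IF.comp IF.fst IF.fst)
      · refine In.all (P := fun (z : (W × W) × (W × Finset (W × Fs))) (x : W × Fs) =>
          x ∈ z.2.2 → x.1 < z.2.1) (In.imp ?_ ?_)
        · exact In.fmem IF.snd (IF.comp IF.snd (IF.comp IF.snd IF.fst))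
        · exact In.ltW (IF.comp IF.fst IF.snd) (IF.comp IF.fst (IF.comp IF.snd IF.fst))
      · exact In.leW (IF.comp hB IF.snd) (IF.comp IF.snd IF.fst))
    (by
      intro ζ
      have hS : In M (fun y : W × Finset (W × Fs) => y ∈ {y : W × Finset (W × Fs) |
          y.1 ≤ ζ ∧ ∀ x ∈ y.2, x.1 < y.1}) := by
        refine In.and (In.leW IF.fst (IF.const ζ)) ?_
        refine In.all (P := fun (z : W × Finset (W × Fs)) (x : W × Fs) =>
          x ∈ z.2 → x.1 < z.1) (In.imp ?_ ?_)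
        · exact In.fmem IF.snd (IF.comp IF.snd IF.fst)
        · exact In.ltW (IF.comp IF.fst IF.snd) (IF.comp IF.fst IF.fst)
      obtain ⟨ζ', hζ'⟩ := Om1.bdd (M := M) (fun _ : ℕ => ζ) (IF.const _)
      have h1 : ζ < ζ' := hζ' 0
      obtain ⟨η, hη⟩ := ICt.bdd (M := M) (((ICt.below ζ').prod (ICt.stems ζ')).mono (by
        rintro ⟨a, s⟩ ⟨h2, h3⟩
        exact ⟨lt_of_le_of_lt h2 h1, fun x hx => ((h3 x hx).trans_le h2).trans h1⟩)) hS hB
      exact ⟨η, fun y h2 h3 => (hη y ⟨h2, h3⟩).le⟩)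
    (fun ζ η η' h h' y h1 h2 => (h y h1 h2).trans h')
    (fun ζ ζ' η h h' y h1 h2 => h y (h1.trans h') h2) ζ₀
  -- all nodes below `δ` of the condition with index `δ` are below some `ζ < δ`
  have hnode : ∀ s : Finset W, (∀ a ∈ s, a < δ) → ∃ ζ < δ, ∀ a ∈ s, a < ζ := by
    intro s
    classical
    induction s using Finset.induction_on with
    | empty =>
      intro _
      obtain ⟨η, hη, -⟩ := hδ ζ₀ hδ₀
      exact ⟨η, hη, fun a ha => absurd ha (Finset.notMem_empty a)⟩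
    | insert a s _ ih =>
      intro h
      obtain ⟨ζ, hζ, h1⟩ := ih fun b hb => h b (Finset.mem_insert_of_mem hb)
      have ha : max a ζ < δ := max_lt (h a (Finset.mem_insert_self a s)) hζ
      obtain ⟨η, hη, h2, -⟩ := hδ _ ha
      refine ⟨η, hη, fun b hb => ?_⟩
      rcases Finset.mem_insert.1 hb with rfl | hb
      · exact lt_of_le_of_lt (le_max_left _ _) h2
      · exact (h1 b hb).trans (lt_of_le_of_lt (le_max_right _ _) h2)
  obtain ⟨β, hδβ, hβ⟩ := hA' δ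
  classical
  obtain ⟨ζ, hζ, hN⟩ := hnode (((p β).1.image (fun x => x.1) ∪ (p β).2.image (fun x => x.1)).filter
    (fun a => a < δ)) fun a ha => (Finset.mem_filter.1 ha).2
  have hN1 : ∀ ν m, (ν, m) ∈ (p β).1 → ν < δ → ν < ζ := fun ν m h h' =>
    hN ν (Finset.mem_filter.2 ⟨Finset.mem_union_left _ (Finset.mem_image.2 ⟨_, h, rfl⟩), h'⟩)
  have hN2 : ∀ ν κ, (ν, κ) ∈ (p β).2 → ν < δ → ν < ζ := fun ν κ h h' =>
    hN ν (Finset.mem_filter.2 ⟨Finset.mem_union_right _ (Finset.mem_image.2 ⟨_, h, rfl⟩), h'⟩)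
  obtain ⟨η, hη, -, hBη⟩ := hδ ζ hζ
  obtain ⟨α, h0, h1, h2, h3, h4⟩ := hBR (ζ, sty ζ (p β)) ⟨β, hβ, hζ.trans hδβ, rfl⟩
  have h5 : B (ζ, sty ζ (p β)) < δ :=
    lt_of_le_of_lt (hBη (ζ, sty ζ (p β)) le_rfl fun x hx => (mem_sty.1 hx).2) hη
  simp only at h1 h3
  refine ⟨α, β, h0, hβ, (h2.trans h5).trans hδβ, ⟨?_, ?_, ?_⟩, ?_, ?_, ?_⟩
  · exact fun x hx => mem_cup1.2 (Or.inl hx)
  · exact fun x hx => mem_cup2.2 (Or.inl hx)
  · intro ν m hm hm' κ hκ
    exfalso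
    have h6 := (mem_cup1.1 hm).resolve_left hm'
    obtain ⟨ξ, h⟩ := κ
    have h7 : ν < δ := (h4.2 ν ξ h hκ).1.trans h5
    have h8 : (ν, m) ∈ sty ζ (p β) := mem_sty.2 ⟨h6, hN1 ν m h6 h7⟩
    rw [← h3] at h8
    exact hm' (mem_sty.1 h8).1
  · exact fun x hx => mem_cup1.2 (Or.inr hx)
  · exact fun x hx => mem_cup2.2 (Or.inr hx)
  · intro ν m hm hm' κ hκ
    exfalso
    have h6 := (mem_cup1.1 hm).resolve_right hm'
    have h7 : ν < δ := (h4.1 ν m h6).trans h5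
    have h8 : (ν, m) ∈ sty ζ (p α) := mem_sty.2 ⟨h6, hN2 ν κ hκ h7⟩
    rw [h3] at h8
    exact hm' (mem_sty.1 h8).1

/-- an internal family of countably many names does not exhaust the reals `c (ξ, h)` -/
theorem exists_other [Countable M] {f : Pl M W} (hf : Valid c f) (h : Hc)
    {X : ℕ → Set (Cond W) → ℕ → ℕ} (hX : GoodR c (fun _ : ℕ => f) X) :
    ∃ ξ : W, ∀ j, ∀ G, Gen c f G → X j G ≠ c (ξ, h) := by
  by_contra hcon
  push Not at hcon
  have hcI : IF M (fun y : (W × ℕ) × ℕ => c (y.1.1, h) y.2) :=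
    IF.comp (M := M) hL.out.int (f := fun y : (W × ℕ) × ℕ => ((y.1.1, h), y.2))
      (((IF.comp (M := M) IF.fst IF.fst).pair (IF.const h)).pair IF.snd)
  have hX' : GoodR c (fun _ : W × ℕ => f) (fun y G => X y.2 G) := GoodR.comp (M := M) (T := ℕ) (S := W × ℕ) (f := fun _ : ℕ => f) (X := X) hX (k := fun y : W × ℕ => y.2)
      IF.snd
  have hc' : GoodR c (fun _ : W × ℕ => f) (fun y _ => c (y.1, h)) := GoodF.of_if hcI
  have hQ : Good c (fun _ : W × ℕ => f) (fun y G => X y.2 G = c (y.1, h)) :=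
    Good.eqR (IF.const f) hX' hc'
  have hin : In M (fun y : W × (ℕ × Cond W) => y.2.2 ∈ PP c f ∧
      Fo c f y.2.2 (fun G => X y.2.1 G = c (y.1, h))) := by
    refine In.and (In.pp (IF.const f) (IF.comp IF.snd IF.snd)) ?_
    exact Good.fo (f := fun _ : W × (ℕ × Cond W) => f) (IF.const f)
      (Q := fun (y : W × (ℕ × Cond W)) G => X y.2.1 G = c (y.1, h))
      (Good.comp (k := fun y : W × (ℕ × Cond W) => (y.1, y.2.1)) hQ
        (IF.fst.pair (IF.comp IF.fst IF.snd))) (IF.comp IF.snd IF.snd)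
  obtain ⟨k, hk, hkR⟩ := In.choice (R := fun (ξ : W) (y : ℕ × Cond W) => y.2 ∈ PP c f ∧
      Fo c f y.2 (fun G => X y.1 G = c (ξ, h))) hin (by
    intro ξ
    obtain ⟨j, G, hG, e⟩ := hcon ξ
    obtain ⟨r, hr, h1⟩ := Good.truth (f := fun _ : W × ℕ => f) (IF.const f) hQ (t := (ξ, j)) hG e
    exact ⟨(j, r), hG.sub r hr, h1⟩)
  -- one number `j` occurs unboundedly often
  obtain ⟨j₀, hj₀⟩ : ∃ j₀ : ℕ, ∀ ζ : W, ∃ ξ, ζ < ξ ∧ (k ξ).1 = j₀ := by
    by_contra hno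
    push Not at hno
    obtain ⟨g, hg, hgR⟩ := In.choice (M := M) (R := fun (j : ℕ) (ζ : W) => ∀ ξ : W, ζ < ξ → ¬ (k ξ).1 = j)
      (by
        refine In.all (P := fun (y : ℕ × W) (ξ : W) => y.2 < ξ → ¬ (k ξ).1 = y.1)
          (In.imp ?_ (In.not (In.eq ?_ ?_)))
        · exact In.ltW (IF.comp IF.snd IF.fst) IF.snd
        · exact IF.comp IF.fst (IF.comp hk IF.snd)
        · exact IF.comp IF.fst IF.fst) (by
      intro j
      obtain ⟨ζ, hζ⟩ := hno j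
      exact ⟨ζ, hζ⟩)
    obtain ⟨α, hα⟩ := Om1.bdd (M := M) g hg
    exact hgR (k α).1 α (hα _) rfl
  obtain ⟨α, β, hα, hβ, hαβ, h1, h2⟩ := ccc_unb (c := c) (A := fun ξ => (k ξ).1 = j₀)
    (In.eq (IF.comp IF.fst hk) (IF.const j₀)) hj₀ (p := fun ξ => (k ξ).2) (IF.comp IF.snd hk)
  have h3 := PP_cup (hkR α).1 (hkR β).1 h1 h2
  obtain ⟨G, hG, hG'⟩ := exists_gen h3
  have h4 := (hkR α).2 G hG (hG.up _ hG' _ (hkR α).1 h1)
  have h5 := (hkR β).2 G hG (hG.up _ hG' _ (hkR β).1 h2)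
  rw [hα] at h4
  rw [hβ] at h5
  have h6 := hL.out.inj (h4.symm.trans h5)
  exact hαβ.ne (congrArg Prod.fst h6)

/-- the real for the diagonal item -/
theorem exists_diag_real [Countable M] {s : Hi M W} (hs : VHi hw c s) :
    ∃ b : ℕ → ℕ, IF M b ∧ (∀ ν ∈ s.2.2.dom, ∀ G, Gen c s.2.2 G →
        za (za (ev (s.2.2.nm ν) G)) ≠ b) ∧
      ∀ η < s.1, ∀ G, Gen c s.2.2 G → za (ev (s.2.1.1 η).2.1 G) ≠ b := by
  have hv := hs.valid
  obtain ⟨w₀⟩ := Om1.ne (M := M) (W := W)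
  have hdI : In M (fun ν : W => ν ∈ s.2.2.dom) := In.pdom IF.id (IF.const s.2.2)
  have hdC : ICt M (s.2.2.dom) := by
    obtain ⟨ζ, hζ⟩ := hv.bdd
    refine (ICt.below ζ).mono ?_
    rintro ν ⟨q, t, h1⟩
    exact (hζ ν q t h1).1
  obtain ⟨e1, he1, he1'⟩ : ∃ e : ℕ → W, IF M e ∧ ∀ ν ∈ s.2.2.dom, ∃ n, e n = ν := by
    by_cases hne : (s.2.2.dom).Nonempty
    · obtain ⟨e, h1, -, h2⟩ := ICt.enum hdC hdI hne
      exact ⟨e, h1, h2⟩
    · exact ⟨fun _ => w₀, IF.const _, fun ν hν => absurd ⟨ν, hν⟩ hne⟩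
  obtain ⟨e2, he2, he2'⟩ : ∃ e : ℕ → W, IF M e ∧ ∀ η : W, η < s.1 → ∃ n, e n = η := by
    by_cases hne : ({η : W | η < s.1} : Set W).Nonempty
    · obtain ⟨e, h1, -, h2⟩ := ICt.enum (ICt.below s.1)
        (show In M (fun η : W => η < s.1) from In.ltW IF.id (IF.const s.1)) hne
      exact ⟨e, h1, h2⟩
    · exact ⟨fun _ => w₀, IF.const _, fun η hη => absurd ⟨η, hη⟩ hne⟩
  have hd : IF M (fun n : ℕ => n / 2) :=
    IF.prim (Primrec.nat_div.comp Primrec.id (Primrec.const 2))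
  have hP : In M (fun n : ℕ => n % 2 = 0) :=
    In.eq (IF.prim (Primrec.nat_mod.comp Primrec.id (Primrec.const 2))) (IF.const 0)
  have hX1 : GoodR c (fun _ : ℕ => s.2.2)
      (fun j G => za (za (ev (s.2.2.nm (e1 (j / 2))) G))) :=
    GoodR.za (GoodR.za (GoodR.ev (f := fun _ : ℕ => s.2.2) (IF.const _)
      (IF.nmP (IF.const s.2.2) (IF.comp he1 hd))))
  have hX2 : GoodR c (fun _ : ℕ => s.2.2)
      (fun j G => za (ev (s.2.1.1 (e2 (j / 2))).2.1 G)) :=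
    GoodR.za (GoodR.ev (f := fun _ : ℕ => s.2.2) (IF.const _)
      (IF.comp IF.fst (IF.comp IF.snd (IF.comp s.2.1.2 (IF.comp he2 hd)))))
  have hX : GoodR c (fun _ : ℕ => s.2.2) (fun j G n => @ite ℕ (j % 2 = 0)
      (Classical.propDecidable _) (za (za (ev (s.2.2.nm (e1 (j / 2))) G)) n)
      (za (ev (s.2.1.1 (e2 (j / 2))).2.1 G) n)) :=
    GoodF_iteI (T := ℕ × ℕ) (P := fun y => y.1 % 2 = 0) (In.comp hP IF.fst) hX1 hX2
  obtain ⟨ξ, hξ⟩ := exists_other hv ([[]], []) hX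
  refine ⟨c (ξ, ([[]], [])), ?_, ?_, ?_⟩
  · exact IF.comp hL.out.int (f := fun n : ℕ => ((ξ, (([[]], []) : Hc)), n))
      ((IF.const _).pair IF.id)
  · intro ν hν G hG e
    obtain ⟨n, rfl⟩ := he1' ν hν
    refine hξ (2 * n) G hG ?_
    have h1 : (2 * n) % 2 = 0 := by omega
    have h2 : (2 * n) / 2 = n := by omega
    rw [← e, h2]
    simp only [h1, if_true]
  · intro η hη G hG e
    obtain ⟨n, rfl⟩ := he2' η hη
    refine hξ (2 * n + 1) G hG ?_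
    have h1 : ¬ (2 * n + 1) % 2 = 0 := by omega
    have h2 : (2 * n + 1) / 2 = n := by omega
    rw [← e, h2]
    simp only [h1, if_false]

end Pool.Agent.H.MP_a163f2_lc
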