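import Pool.Agent.H.MP_a163f2_lc.R.D7c

/-!
# Block R, part D7d: diagonal items (T5)
-/

set_option autoImplicit false
set_option linter.unusedSectionVars false

namespace Pool.Agent.H.MP_a163f2_lc

open Pool.Agent.H.MP_07d118_lc

universe u v w x

variable {M : Type u} [SetStr M] [ZFC M] [Std M] {W : Type v} [LinearOrder W] [Cd M W] [Om1 M W]
variable {c : W × Hc → ℕ → ℕ} [hL : Fact (Luz M W c)]
variable {hw : WellFounded ((· < ·) : W → W → Prop)}

/-- the key of the diagonal item has a name -/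
theorem D7d_good {f : Pl M W} (q : Nm M W) {b : ℕ → ℕ} (hb : IF M b) :
    GoodR c (fun _ : ℕ => f) (fun _ G => T3 (ev q G) b 2) := by
  have hd : IF M (fun n : ℕ => n / 2) :=
    IF.prim (Primrec.nat_div.comp Primrec.id (Primrec.const 2))
  have hd1 : IF M (fun n : ℕ => n / 2 - 1) :=
    IF.prim (Primrec.nat_sub.comp (Primrec.nat_div.comp Primrec.id (Primrec.const 2))
      (Primrec.const 1))
  have hP0 : In M (fun n : ℕ => n = 0) := In.eq IF.id (IF.const 0)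
  have hP1 : In M (fun n : ℕ => n % 2 = 1) :=
    In.eq (IF.prim (Primrec.nat_mod.comp Primrec.id (Primrec.const 2))) (IF.const 1)
  have hq : GoodR c (fun _ : ℕ => f) (fun _ G => ev q G) :=
    GoodR.ev (IF.const f) (IF.const q)
  have h1 : GoodF c (fun _ : ℕ × ℕ => f) (fun y G => ev q G (y.2 / 2)) := GoodF_appI hq hd
  have h2 : GoodF c (fun _ : ℕ × ℕ => f) (fun y _ => b (y.2 / 2 - 1)) :=
    GoodF.of_if (IF.comp hb (IF.comp hd1 IF.snd))
  have h3 : GoodF c (fun _ : ℕ × ℕ => f) (fun _ _ => (2 : ℕ)) := GoodF.of_if (IF.const 2)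
  refine (GoodF_iteI (P := fun y : ℕ × ℕ => y.2 = 0) (In.comp hP0 IF.snd) h3
    (GoodF_iteI (P := fun y : ℕ × ℕ => y.2 % 2 = 1) (In.comp hP1 IF.snd) h1 h2)).congr
    fun y G _ => ?_
  by_cases h : y.2 = 0
  · simp [T3, h]
  · by_cases h' : y.2 % 2 = 1 <;> simp [T3, h, h']

/-- T5. -/
theorem item_diag [Countable M] {s : Hi M W} (hs : VHi hw c s) {p : Cond W}
    (hp : p ∈ PP c s.2.2) {q : Nm M W} (hq : IsNm c s.2.2 q) :
    ∃ (s' : Hi M W) (p' : Cond W), VHi hw c s' ∧ HLe s' s ∧ p' ∈ PP c s'.2.2 ∧ CLe c p' p ∧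
      ∃ κ < s'.1, CLe c p' (s'.2.1.1 κ).2.2.1 ∧
        Fo c s'.2.2 p' (fun G => ev (s'.2.1.1 κ).2.1 G 0 = 2 ∧
          zx (ev (s'.2.1.1 κ).2.1 G) = ev q G) := by
  have hf : Valid c s.2.2 := hs.valid
  obtain ⟨b, hb, hb1, hb2⟩ := exists_diag_real hs
  obtain ⟨a, ha, hae⟩ := exists_name (M := M) (c := c) (f := fun _ : ℕ => s.2.2) (IF.const _)
    (D7d_good (c := c) (f := s.2.2) q hb) (t := 0) hf
  -- values of the key
  have hval : ∀ (g : Pl M W), Sb s.2.2 g → ∀ G, Gen c g G → ev a G = T3 (ev q G) b 2 := by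
    intro g hg G hG
    rw [← ev_restrict hf hg hG ha, ← ev_restrict hf hg hG hq]
    exact hae _ (hG.restrict hf hg)
  -- the main construction
  have main : ∀ (g : Pl M W) (p' : Cond W) (w : Nm M W), g ∈ Al hw c s.2.1.1 s.1 →
      Sb s.2.2 g → p' ∈ PP c g → CLe c p' p → IsNm c g w →
      (∀ ν ∈ g.dom, ν ∉ s.2.2.dom → ∀ i < 2, Fo c g p' (fun G =>
        ¬ (za (ev (g.nm ν) G) = ev a G ∧ ev (g.nm ν) G 0 = i))) →
      ((Fo c g p' (fun G => ev w G 0 = 1 ∧ ev w G 1 = 0 ∧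
        U3 (RR c g G) (ev a G) (za (zx (ev a G))))) ∨
      (Fo c g p' (fun G => ev w G 0 = 0 ∧ ev w G 1 = 1 ∧
        U3 (RR c g G) (ev a G) (zx (zx (ev a G))))) ∨
      (Fo c g p' (fun G => ∀ n, ev w G n = 0) ∧
        ¬ ∃ g' ∈ Al hw c s.2.1.1 s.1, Sb g g' ∧ Obey c (g, a, p', w) ∅ g' ∧ ∃ p'' ∈ PP c g',
          CLe c p'' p' ∧ Fo c g' p'' (fun G =>
            U3 (RR c g' G) (ev a G) (zx (zx (ev a G))) ∨
            U3 (RR c g' G) (ev a G) (za (zx (ev a G)))))) →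
      ∃ (s' : Hi M W) (p' : Cond W), VHi hw c s' ∧ HLe s' s ∧ p' ∈ PP c s'.2.2 ∧ CLe c p' p ∧
        ∃ κ < s'.1, CLe c p' (s'.2.1.1 κ).2.2.1 ∧
          Fo c s'.2.2 p' (fun G => ev (s'.2.1.1 κ).2.1 G 0 = 2 ∧
            zx (ev (s'.2.1.1 κ).2.1 G) = ev q G) := by
    intro g p' w hgal hg hp' hpp hw' hnew hC
    have hnode : ∀ ν ∈ g.dom, ∀ i < 2, Fo c g p' (fun G =>
        ¬ (za (ev (g.nm ν) G) = ev a G ∧ ev (g.nm ν) G 0 = i)) := by
      intro ν hν i hi
      by_cases hν' : ν ∈ s.2.2.dom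
      · intro G hG _ hcon
        have h6 : za (ev (g.nm ν) G) = ev a G := hcon.1
        rw [hg.nm_eq hν', hval g hg G hG] at h6
        have h7 := hb1 ν hν' _ (hG.restrict hf hg)
        rw [ev_restrict hf hg hG (hf.nm ν hν')] at h7
        apply h7
        rw [h6, za_T3]
      · exact hnew ν hν hν' i hi
    obtain ⟨s', h1, h2, h3, h4, h5⟩ := append_item hs (I := (g, a, p', w)) hg hgal
      (ha.mono hf hg) hp' hw' (by
        intro η hη r hr h6 h7 hFo
        obtain ⟨G, hG, hrG⟩ := exists_gen hr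
        have h8 := hFo G hG hrG
        have h9 := hb2 η hη _ (hG.restrict hf hg)
        have hη' : IsNm c s.2.2 (s.2.1.1 η).2.1 :=
          (hs.2 η hη).key.mono (hs.item_valid hη) (hs.sb hη)
        rw [ev_restrict hf hg hG hη'] at h9
        apply h9
        have h10 : ev a G = ev (s.2.1.1 η).2.1 G := h8
        rw [← h10, hval g hg G hG, za_T3])
      (Or.inr (Or.inr ⟨fun G hG _ => by
          show ev a G 0 = 2
          rw [hval g hg G hG, T3_zero], hnode, hC⟩))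
    refine ⟨s', p', h1, h2, ?_, hpp, s.1, h3, ?_, ?_⟩
    · rw [h5]
      exact hp'
    · rw [h4]
      exact CLe.refl _
    · rw [h5, h4]
      intro G hG _
      show ev a G 0 = 2 ∧ zx (ev a G) = ev q G
      rw [hval g hg G hG, T3_zero, zx_T3]
      exact ⟨rfl, rfl⟩
  -- the zero real
  obtain ⟨w0, hw0, hw0e⟩ := ground_name (M := M) (c := c) (f := s.2.2) (x := fun _ => 0)
    (IF.const 0)
  -- nodes of plans which obey the item with the zero permission real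
  have hobey : ∀ g, g ∈ Al hw c s.2.1.1 s.1 → Sb s.2.2 g → Obey c (s.2.2, a, p, w0) ∅ g →
      ∀ p' ∈ PP c g, CLe c p' p → ∀ ν ∈ g.dom, ν ∉ s.2.2.dom → ∀ i < 2, Fo c g p' (fun G =>
        ¬ (za (ev (g.nm ν) G) = ev a G ∧ ev (g.nm ν) G 0 = i)) := by
    intro g hgal hg hob p' hp' hpp ν hν hν' i hi
    by_contra hcon
    have hgood : Good c (fun _ : ℕ => g) (fun _ G =>
        ¬ (za (ev (g.nm ν) G) = ev a G ∧ ev (g.nm ν) G 0 = i)) := by
      have e1 : GoodR c (fun _ : ℕ => g) (fun _ G => ev (g.nm ν) G) :=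
        GoodR.ev (IF.const g) (IF.const _)
      have e2 : GoodR c (fun _ : ℕ => g) (fun _ G => ev a G) :=
        GoodR.ev (IF.const g) (IF.const _)
      exact ((Good.eqR (IF.const g) e1.za e2).and
        (Good.eq (e1.app (GoodF.of_if (IF.const 0))) (GoodF.of_if (IF.const i)))).not (IF.const g)
    obtain ⟨r, hr, h1, h2⟩ := hgood.exists_not (IF.const g) (t := 0) hp' hcon
    have h3 := (hob ν hν hν' i hi r hr (h1.trans hpp) (fun G hG hrG => by
      exact not_not.1 (h2 G hG hrG))).2 (fun G hG _ => by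
        show ev a G 0 ≠ 0
        rw [hval g hg G hG, T3_zero]
        norm_num)
    obtain ⟨G, hG, hrG⟩ := exists_gen hr
    have h4 : ev w0 G (2 * zx (ev (g.nm ν) G) 0 + i) = 1 := h3 G hG hrG
    rw [← ev_restrict hf hg hG hw0, hw0e _ (hG.restrict hf hg)] at h4
    exact absurd h4 (by norm_num)
  by_cases hC0 : ∃ g ∈ Al hw c s.2.1.1 s.1, Sb s.2.2 g ∧ Obey c (s.2.2, a, p, w0) ∅ g ∧
      ∃ p' ∈ PP c g, CLe c p' p ∧ Fo c g p' (fun G =>
        U3 (RR c g G) (ev a G) (za (zx (ev a G))))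
  · obtain ⟨g, hgal, hg, hob, p', hp', hpp, hU⟩ := hC0
    obtain ⟨w1, hw1, hw1e⟩ := ground_name (M := M) (c := c) (f := g) (x := fun n => 1 - n)
      (IF.prim (Primrec.nat_sub.comp (Primrec.const 1) Primrec.id))
    refine main g p' w1 hgal hg hp' hpp hw1 (hobey g hgal hg hob p' hp' hpp) (Or.inl ?_)
    intro G hG hp'G
    refine ⟨?_, ?_, hU G hG hp'G⟩
    · rw [hw1e G hG]
    · rw [hw1e G hG]
  by_cases hC1 : ∃ g ∈ Al hw c s.2.1.1 s.1, Sb s.2.2 g ∧ Obey c (s.2.2, a, p, w0) ∅ g ∧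
      ∃ p' ∈ PP c g, CLe c p' p ∧ Fo c g p' (fun G =>
        U3 (RR c g G) (ev a G) (zx (zx (ev a G))))
  · obtain ⟨g, hgal, hg, hob, p', hp', hpp, hU⟩ := hC1
    obtain ⟨w2, hw2, hw2e⟩ := ground_name (M := M) (c := c) (f := g)
      (x := fun n => 1 - (n - 1) - (1 - n))
      (IF.prim (Primrec.nat_sub.comp (Primrec.nat_sub.comp (Primrec.const 1)
        (Primrec.nat_sub.comp Primrec.id (Primrec.const 1)))
        (Primrec.nat_sub.comp (Primrec.const 1) Primrec.id)))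
    refine main g p' w2 hgal hg hp' hpp hw2 (hobey g hgal hg hob p' hp' hpp)
      (Or.inr (Or.inl ?_))
    intro G hG hp'G
    refine ⟨?_, ?_, hU G hG hp'G⟩
    · rw [hw2e G hG]
    · rw [hw2e G hG]
  · refine main s.2.2 p w0 hs.1 (Sb.refl _) hp (CLe.refl _) hw0
      (fun ν hν hν' => absurd hν hν') (Or.inr (Or.inr ⟨?_, ?_⟩))
    · intro G hG _ n
      rw [hw0e G hG]
    · rintro ⟨g, hgal, hg, hob, p', hp', hpp, hU⟩
      have hga : Valid c g := (mem_Al.1 hgal).1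
      have e2 : GoodR c (fun _ : ℕ => g) (fun _ G => ev a G) :=
        GoodR.ev (IF.const g) (IF.const _)
      have hgood : Good c (fun _ : ℕ => g) (fun _ G =>
          U3 (RR c g G) (ev a G) (zx (zx (ev a G)))) :=
        Good.U3 (f := fun _ : ℕ => g) (IF.const g) e2 e2.zx.zx
      obtain ⟨r, hr, h1, h2 | h2⟩ := hgood.decide (IF.const g) (t := 0) hp'
      · exact hC1 ⟨g, hgal, hg, hob, r, hr, h1.trans hpp, h2⟩
      · refine hC0 ⟨g, hgal, hg, hob, r, hr, h1.trans hpp, fun G hG hrG => ?_⟩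
        exact (hU G hG (hG.up r hrG p' hp' h1)).resolve_left (h2 G hG hrG)

end Pool.Agent.H.MP_a163f2_lc
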