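import Pool.Agent.H.MP_a163f2_lc.R.D6

/-!
# Block R, part D7e: items for order keys (T2)
-/

set_option autoImplicit false
set_option linter.unusedSectionVars false

namespace Pool.Agent.H.MP_a163f2_lc

open Pool.Agent.H.MP_07d118_lc

universe u v w x

variable {M : Type u} [SetStr M] [ZFC M] [Std M] {W : Type v} [LinearOrder W] [Cd M W] [Om1 M W]
variable {c : W × Hc → ℕ → ℕ} [hL : Fact (Luz M W c)]
variable {hw : WellFounded ((· < ·) : W → W → Prop)}

/-- the set of the codes of the list -/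
def D7e_P (it : W → Item M W) (e : ℕ → W) (G : Set (Cond W)) (m : ℕ) : Prop :=
  ∃ a : ℕ × ℕ × ℕ, m = Encodable.encode [a.1, a.2.1, a.2.2] ∧ (it (e a.1)).2.2.1 ∈ G ∧
    ev (it (e a.1)).2.1 G 0 = 1 ∧ ev (it (e a.1)).2.1 G (2 * a.2.1 + 1) = a.2.2

open Classical in
/-- the list -/
noncomputable def D7e_X (it : W → Item M W) (e : ℕ → W) (G : Set (Cond W)) (m : ℕ) : ℕ :=
  if D7e_P it e G (m / 2) then (if m % 2 = 1 then 1 else 0) else (if m % 2 = 1 then 0 else 1)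

theorem D7e_P_good {T : Type w} [Cd M T] {f : Pl M W} {it : W → Item M W} (hit : IF M it)
    {e : ℕ → W} (he : IF M e) {m : T → ℕ} (hm : IF M m) :
    Good c (fun _ : T => f) (fun t G => D7e_P it e G (m t)) := by
  unfold D7e_P
  refine Good.ex (Q := fun (t : T) (a : ℕ × ℕ × ℕ) G =>
    m t = Encodable.encode [a.1, a.2.1, a.2.2] ∧ (it (e a.1)).2.2.1 ∈ G ∧
    ev (it (e a.1)).2.1 G 0 = 1 ∧ ev (it (e a.1)).2.1 G (2 * a.2.1 + 1) = a.2.2) ?_
  have h1 : IF M (fun a : ℕ × ℕ × ℕ => Encodable.encode [a.1, a.2.1, a.2.2]) := by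
    refine IF.prim ?_
    exact Primrec.encode.comp (Primrec.list_cons.comp Primrec.fst (Primrec.list_cons.comp
      (Primrec.fst.comp Primrec.snd) (Primrec.list_cons.comp (Primrec.snd.comp Primrec.snd)
        (Primrec.const []))))
  have h2 : IF M (fun y : T × (ℕ × ℕ × ℕ) => it (e y.2.1)) :=
    IF.comp hit (IF.comp he (IF.comp IF.fst IF.snd))
  have h3 : IF M (fun y : T × (ℕ × ℕ × ℕ) => (it (e y.2.1)).2.2.1) :=
    IF.comp IF.fst (IF.comp IF.snd (IF.comp IF.snd h2))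
  have h4 : IF M (fun y : T × (ℕ × ℕ × ℕ) => (it (e y.2.1)).2.1) :=
    IF.comp IF.fst (IF.comp IF.snd h2)
  refine Good.and (Good.of_in (In.eq (IF.comp hm IF.fst) (IF.comp h1 IF.snd))) (Good.and
    (Good.mem (IF.const f) h3) (Good.and ?_ ?_))
  · exact GoodF_ev_good (IF.const f) h4 (IF.const 0) (IF.const 1)
  · exact GoodF_ev_good (IF.const f) h4
      (IF.succ' (IF.mul (IF.const 2) (IF.comp IF.fst (IF.comp IF.snd IF.snd))))
      (IF.comp IF.snd (IF.comp IF.snd IF.snd))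

theorem D7e_X_good {T : Type w} [Cd M T] {f : Pl M W} {it : W → Item M W} (hit : IF M it)
    {e : ℕ → W} (he : IF M e) :
    GoodR c (fun _ : T => f) (fun _ G => D7e_X it e G) := by
  have hd : IF M (fun y : T × ℕ => y.2 / 2) :=
    IF.comp (IF.prim (Primrec.nat_div.comp Primrec.id (Primrec.const 2))) IF.snd
  have hP : In M (fun y : T × ℕ => y.2 % 2 = 1) :=
    In.comp (P := fun n : ℕ => n % 2 = 1)
      (In.eq (IF.prim (Primrec.nat_mod.comp Primrec.id (Primrec.const 2))) (IF.const 1)) IF.snd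
  have h0 : GoodF c (fun _ : T × ℕ => f) (fun _ _ => 0) := GoodF.of_if (IF.const 0)
  have h1 : GoodF c (fun _ : T × ℕ => f) (fun _ _ => 1) := GoodF.of_if (IF.const 1)
  have hite := GoodF.ite (IF.const f) (D7e_P_good (c := c) (f := f) hit he hd)
    (GoodF_iteI hP h1 h0) (GoodF_iteI hP h0 h1)
  exact hite.congr fun y G _ => by
    unfold D7e_X
    by_cases h : D7e_P it e G (y.2 / 2) <;> by_cases h' : y.2 % 2 = 1 <;> simp [h, h']

theorem D7e_X_odd {it : W → Item M W} {e : ℕ → W} {G : Set (Cond W)} {m : ℕ} :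
    D7e_X it e G (2 * m + 1) = 1 ↔ D7e_P it e G m := by
  unfold D7e_X
  rw [show (2 * m + 1) / 2 = m by omega]
  have h : (2 * m + 1) % 2 = 1 := by omega
  by_cases hP : D7e_P it e G m <;> simp [hP, h]

theorem D7e_dig {it : W → Item M W} {e : ℕ → W} {G : Set (Cond W)} (n : ℕ) :
    (D7e_X it e G (2 * n) = 1 ∧ D7e_X it e G (2 * n + 1) = 0) ∨
      (D7e_X it e G (2 * n) = 0 ∧ D7e_X it e G (2 * n + 1) = 1) := by
  unfold D7e_X
  rw [show (2 * n + 1) / 2 = n by omega, show (2 * n) / 2 = n by omega]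
  have h : (2 * n + 1) % 2 = 1 := by omega
  have h' : ¬ (2 * n) % 2 = 1 := by omega
  by_cases hP : D7e_P it e G n
  · right
    simp [hP, h]
  · left
    simp [hP, h]

theorem D7e_enc {j n k j' n' k' : ℕ} (h : Encodable.encode [j, n, k] = Encodable.encode [j', n', k']) :
    j = j' ∧ n = n' ∧ k = k' := by
  have h1 := Encodable.encode_injective h
  simp only [List.cons.injEq, and_true] at h1
  exact h1

theorem D7e_listOK {it : W → Item M W} {κ : W} {e : ℕ → W} (he : ∀ n, e n < κ)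
    (hs : ∀ η < κ, ∃ n, e n = η) {G : Set (Cond W)} : ListOK it κ G (D7e_X it e G) := by
  refine ⟨D7e_dig, ?_, ?_⟩
  · intro η hη h1 h2
    obtain ⟨j, rfl⟩ := hs η hη
    refine ⟨j, fun n => D7e_X_odd.2 ⟨(j, n, zx (ev (it (e j)).2.1 G) n), rfl, h1, h2, rfl⟩⟩
  · rintro j ⟨k, hk⟩
    obtain ⟨⟨j', n', k'⟩, h1, h2, h3, h4⟩ := D7e_X_odd.1 hk
    obtain ⟨rfl, rfl, rfl⟩ := D7e_enc h1
    refine ⟨e j, he j, h2, h3, fun n k' => ?_⟩
    rw [D7e_X_odd]
    constructor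
    · rintro ⟨⟨j', n', k''⟩, h1, h5, h6, h7⟩
      obtain ⟨rfl, rfl, rfl⟩ := D7e_enc h1
      exact h7.symm
    · intro h
      exact ⟨(j, n, k'), rfl, h2, h3, h.symm⟩

/-- the name of the list (the ordinals below `s.1` are enumerated by an internal sequence) -/
theorem exists_list [Countable M] {s : Hi M W} (hs : VHi hw c s) :
    ∃ l : Nm M W, IsNm c s.2.2 l ∧
      ∀ G, Gen c s.2.2 G → ListOK s.2.1.1 s.1 G (ev l G) := by
  by_cases hne : ∃ η, η < s.1
  · obtain ⟨e, he, h1, h2⟩ := Ct_enum (ICt.below (M := M) s.1) (In.ltW IF.id (IF.const s.1)) hne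
    obtain ⟨l, hl, h3⟩ := exists_name (c := c) (T := ℕ) (f := fun _ => s.2.2) (IF.const s.2.2)
      (D7e_X_good (T := ℕ) s.2.1.2 he) (t := 0) hs.valid
    refine ⟨l, hl, fun G hG => ?_⟩
    rw [h3 G hG]
    exact D7e_listOK h1 h2
  · obtain ⟨l, hl, h3⟩ := ground_name (c := c) (f := s.2.2)
      (x := fun n => if n % 2 = 1 then 0 else 1) (by
        refine IF.ite ?_ (IF.const 0) (IF.const 1)
        exact In.eq (IF.prim (Primrec.nat_mod.comp Primrec.id (Primrec.const 2))) (IF.const 1))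
    refine ⟨l, hl, fun G hG => ?_⟩
    rw [h3 G hG]
    refine ⟨fun n => Or.inl ⟨?_, ?_⟩, fun η hη => absurd ⟨η, hη⟩ hne, ?_⟩
    · simp
    · simp
    · rintro j ⟨k, hk⟩
      exfalso
      simp at hk

/-- T2. -/
theorem item_ord [Countable M] {s : Hi M W} (hs : VHi hw c s) {p : Cond W}
    (hp : p ∈ PP c s.2.2) {q : Nm M W} (hq : IsNm c s.2.2 q) :
    ∃ (s' : Hi M W) (p' : Cond W), VHi hw c s' ∧ HLe s' s ∧ p' ∈ PP c s'.2.2 ∧ CLe c p' p ∧
      ∃ κ < s'.1, CLe c p' (s'.2.1.1 κ).2.2.1 ∧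
        Fo c s'.2.2 p' (fun G => ev (s'.2.1.1 κ).2.1 G = T3 (ev q G) 0 1) := by
  obtain ⟨a, ha, h1⟩ := exists_name (c := c) (T := ℕ) (f := fun _ => s.2.2) (IF.const s.2.2)
    (X := fun _ G => T3 (ev q G) 0 1) (t := 0) (by
      have hev : GoodR c (fun _ : ℕ => s.2.2) (fun _ G => ev q G) :=
        GoodR.ev (IF.const _) (IF.const q)
      have hd : IF M (fun n : ℕ => n / 2) :=
        IF.prim (Primrec.nat_div.comp Primrec.id (Primrec.const 2))
      have hP : In M (fun y : ℕ × ℕ => y.2 % 2 = 1) :=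
        In.comp (P := fun n : ℕ => n % 2 = 1)
          (In.eq (IF.prim (Primrec.nat_mod.comp Primrec.id (Primrec.const 2))) (IF.const 1)) IF.snd
      have hP0 : In M (fun y : ℕ × ℕ => y.2 = 0) := In.eq IF.snd (IF.const 0)
      have h0 : GoodF c (fun _ : ℕ × ℕ => s.2.2) (fun _ _ => 0) := GoodF.of_if (IF.const 0)
      have h1 : GoodF c (fun _ : ℕ × ℕ => s.2.2) (fun _ _ => 1) := GoodF.of_if (IF.const 1)
      refine (GoodF_iteI hP0 h1 (GoodF_iteI hP (GoodF_appI hev hd) h0)).congr fun y G _ => ?_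
      unfold T3
      by_cases h : y.2 = 0 <;> by_cases h' : y.2 % 2 = 1 <;> simp [h, h']) hs.valid
  by_cases hc : ∃ κ < s.1, ∃ p₁ ∈ PP c s.2.2, CLe c p₁ p ∧ CLe c p₁ (s.2.1.1 κ).2.2.1 ∧
      Fo c s.2.2 p₁ (fun G => ev a G = ev (s.2.1.1 κ).2.1 G)
  · obtain ⟨κ, hκ, p₁, hp₁, h2, h3, h4⟩ := hc
    refine ⟨s, p₁, hs, HLe.refl s, hp₁, h2, κ, hκ, h3, fun G hG hpG => ?_⟩
    exact (h4 G hG hpG).symm.trans (h1 G hG)
  · obtain ⟨l, hl, h2⟩ := exists_list hs
    have hflag : Flag hw c s.2.1.1 s.1 (s.2.2, a, p, l) := by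
      refine Or.inr (Or.inl fun G hG hpG => ⟨?_, ?_, h2 G hG⟩)
      · exact (congrFun (h1 G hG) 0).trans (if_pos rfl)
      · show za (ev a G) = 0
        rw [h1 G hG]
        funext n
        simp only [za, T3, Pi.zero_apply]
        rw [if_neg (by omega), if_neg (by omega)]
    obtain ⟨s', hs', h3, h4, h5, h6⟩ := append_item hs (I := (s.2.2, a, p, l)) (Sb.refl _) hs.1 ha
      hp hl (fun η hη r hr h3 h4 h5 => hc ⟨η, hη, r, hr, h3, h4, h5⟩) hflag
    refine ⟨s', p, hs', h3, ?_, CLe.refl _, s.1, h4, ?_, ?_⟩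
    · rw [h6]
      exact hp
    · rw [h5]
      exact CLe.refl _
    · rw [h5, h6]
      intro G hG _
      exact h1 G hG

end Pool.Agent.H.MP_a163f2_lc
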