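import Pool.Agent.H.MP_a163f2_lc.R.D5

/-!
# Block R, part D8a: effective items
-/

set_option autoImplicit false
set_option linter.unusedSectionVars false

namespace Pool.Agent.H.MP_a163f2_lc

open Pool.Agent.H.MP_07d118_lc

universe u v w x

variable {M : Type u} [SetStr M] [ZFC M] [Std M] {W : Type v} [LinearOrder W] [Cd M W] [Om1 M W]
variable {c : W × Hc → ℕ → ℕ} [hL : Fact (Luz M W c)]
variable {hw : WellFounded ((· < ·) : W → W → Prop)} {GG : Set (HC M W)}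

/-! ### Generalities -/

theorem truth1 [Countable M] {f : Pl M W} {G : Set (Cond W)} {Q : Set (Cond W) → Prop}
    (hQ : Good c (fun _ : ℕ => f) (fun _ G => Q G)) (hG : Gen c f G) (h : Q G) :
    ∃ p ∈ G, Fo c f p Q :=
  hQ.truth (IF.const f) (t := 0) hG h

/-- a density argument -/
theorem QGen.dense [Countable M] (hG : QGen hw c GG) {s : Hi M W} {p : Cond W}
    (h : p ∈ Gs GG s) {D : HC M W → Prop} (hD : In M D)
    (hd : ∀ s' p', VHi hw c s' → HLe s' s → p' ∈ PP c s'.2.2 → CLe c p' p →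
      ∃ (s'' : Hi M W) (p'' : Cond W), VHi hw c s'' ∧ HLe s'' s' ∧ p'' ∈ PP c s''.2.2 ∧
        CLe c p'' p' ∧ D (s'', p'')) :
    ∃ s' ∈ HS GG, HLe s' s ∧ ∃ p' ∈ Gs GG s', CLe c p' p ∧ D (s', p') := by
  obtain ⟨z, hz, hzp, hD⟩ := hG.meets_below (x := (s, p)) h hD (by
    rintro ⟨s', p'⟩ ⟨h1, h2⟩ ⟨h3, h4⟩
    obtain ⟨s'', p'', h5, h6, h7, h8, h9⟩ := hd s' p' h1 h3 h2 h4
    exact ⟨(s'', p''), ⟨h5, h7⟩, ⟨h6, h8⟩, h9⟩)
  exact ⟨z.1, ⟨z.2, hz⟩, hzp.1, z.2, hz, hzp.2, hD⟩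

/-- forcing statements about names go up -/
theorem Fo.lift {f g : Pl M W} (hf : Valid c f) (h : Sb f g) {p p' : Cond W}
    {Q Q' : Set (Cond W) → Prop} (hp : p ∈ PP c f) (hQ : Fo c f p Q) (hle : CLe c p' p)
    (hQQ : ∀ G, Gen c g G → Q (G ∩ PP c f) → Q' G) : Fo c g p' Q' :=
  fun G hG hp' => hQQ G hG (hQ _ (hG.restrict hf h)
    ⟨hG.up p' hp' p (PP_mono h hp) hle, hp⟩)

/-! ### Items -/

open Classical in
/-- the item with the index `κ` -/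
noncomputable def IT (GG : Set (HC M W)) (κ : W) : Item M W :=
  if h : ∃ s ∈ HS GG, κ < s.1 then h.choose.2.1.1 κ
  else (ISet.mk (In.const False), ISet.mk (In.const False), (∅, ∅), ISet.mk (In.const False))

theorem QGen.items_eq (hG : QGen hw c GG) {s s' : Hi M W} (hs : s ∈ HS GG) (hs' : s' ∈ HS GG)
    {κ : W} (h : κ < s.1) (h' : κ < s'.1) : s.2.1.1 κ = s'.2.1.1 κ := by
  obtain ⟨t, -, h1, h2⟩ := hG.dirH hs hs'
  rw [← h1.item h, ← h2.item h']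

theorem QGen.IT_eq (hG : QGen hw c GG) {s : Hi M W} (hs : s ∈ HS GG) {κ : W} (h : κ < s.1) :
    IT GG κ = s.2.1.1 κ := by
  have h1 : ∃ s ∈ HS GG, κ < s.1 := ⟨s, hs, h⟩
  unfold IT
  rw [dif_pos h1]
  exact hG.items_eq h1.choose_spec.1 hs h1.choose_spec.2 h

/-- the set of the indices of the effective items -/
def Ef (GG : Set (HC M W)) : Set W :=
  {κ | ∃ s ∈ HS GG, κ < s.1 ∧ (s.2.1.1 κ).2.2.1 ∈ Gs GG s}

/-- the key of an effective item -/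
noncomputable def keyE (GG : Set (HC M W)) (κ : W) : ℕ → ℕ := ev (IT GG κ).2.1 (Gi GG)

/-- the permission real of an effective item -/
noncomputable def wE (GG : Set (HC M W)) (κ : W) : ℕ → ℕ := ev (IT GG κ).2.2.2 (Gi GG)

/-- the default coded real -/
def zdf : ℕ → ℕ := T3 0 (T3 0 0 3) 0

/-- `e` enumerates the reals coded at the nodes of the plan of the item -/
def IsE (GG : Set (HC M W)) (κ : W) (e : ℕ → ℕ) : Prop :=
  e ∈ RN GG ∧ (∀ ν ∈ (IT GG κ).1.dom, ev ((IT GG κ).1.nm ν) (Gi GG) ∈ EE e) ∧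
    ∀ z ∈ EE e, z = zdf ∨ ∃ ν ∈ (IT GG κ).1.dom, z = ev ((IT GG κ).1.nm ν) (Gi GG)

open Classical in
/-- an enumeration of the reals coded at the nodes of the plan of the item -/
noncomputable def eE (GG : Set (HC M W)) (κ : W) : ℕ → ℕ :=
  if h : ∃ e, IsE GG κ e then h.choose else 0

/-- `s` is an occurring history in which the item `κ` is effective -/
structure Ctx (GG : Set (HC M W)) (s : Hi M W) (κ : W) : Prop where
  hs : s ∈ HS GG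
  lt : κ < s.1
  cond : (s.2.1.1 κ).2.2.1 ∈ Gs GG s

theorem Ctx.up (hG : QGen hw c GG) {s t : Hi M W} {κ : W} (h : Ctx GG s κ) (ht : t ∈ HS GG)
    (hle : HLe t s) : Ctx GG t κ where
  hs := ht
  lt := lt_of_lt_of_le h.lt hle.1
  cond := by
    rw [hle.item h.lt]
    have h1 := h.cond
    rw [hG.coh h.hs ht hle] at h1
    exact h1.1

theorem Ef_ctx (hG : QGen hw c GG) {κ : W} (hκ : κ ∈ Ef GG) {s₀ : Hi M W} (hs₀ : s₀ ∈ HS GG) :
    ∃ s, Ctx GG s κ ∧ HLe s s₀ := by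
  obtain ⟨s₁, hs₁, h1, h2⟩ := hκ
  obtain ⟨t, ht, h3, h4⟩ := hG.dirH hs₀ hs₁
  exact ⟨t, Ctx.up hG ⟨hs₁, h1, h2⟩ ht h4, h3⟩

theorem Ctx.ef {s : Hi M W} {κ : W} (h : Ctx GG s κ) : κ ∈ Ef GG := ⟨s, h.hs, h.lt, h.cond⟩

theorem Ctx.it_eq (hG : QGen hw c GG) {s : Hi M W} {κ : W} (h : Ctx GG s κ) :
    IT GG κ = s.2.1.1 κ := hG.IT_eq h.hs h.lt

theorem Ctx.vi (hG : QGen hw c GG) {s : Hi M W} {κ : W} (h : Ctx GG s κ) :
    VItem hw c s.2.1.1 κ := (hG.hist h.hs).2 κ h.lt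

theorem Ctx.sb (hG : QGen hw c GG) {s : Hi M W} {κ : W} (h : Ctx GG s κ) :
    Sb (s.2.1.1 κ).1 s.2.2 := (hG.hist h.hs).sb h.lt

theorem Ctx.val (hG : QGen hw c GG) {s : Hi M W} {κ : W} (h : Ctx GG s κ) :
    Valid c (s.2.1.1 κ).1 := (hG.hist h.hs).item_valid h.lt

theorem Ctx.keyN (hG : QGen hw c GG) {s : Hi M W} {κ : W} (h : Ctx GG s κ) :
    IsNm c s.2.2 (s.2.1.1 κ).2.1 := (h.vi hG).key.mono (h.val hG) (h.sb hG)

theorem Ctx.permN (hG : QGen hw c GG) {s : Hi M W} {κ : W} (h : Ctx GG s κ) :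
    IsNm c s.2.2 (s.2.1.1 κ).2.2.2 := (h.vi hG).perm.mono (h.val hG) (h.sb hG)

theorem Ctx.gen [Countable M] (hG : QGen hw c GG) {s : Hi M W} {κ : W} (h : Ctx GG s κ) :
    Gen c (s.2.1.1 κ).1 (Gs GG s ∩ PP c (s.2.1.1 κ).1) :=
  (hG.gen h.hs).restrict (h.val hG) (h.sb hG)

theorem Ctx.cond' [Countable M] (hG : QGen hw c GG) {s : Hi M W} {κ : W} (h : Ctx GG s κ) :
    (s.2.1.1 κ).2.2.1 ∈ Gs GG s ∩ PP c (s.2.1.1 κ).1 := ⟨h.cond, (h.vi hG).cond⟩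

theorem Ctx.key_eq [Countable M] (hG : QGen hw c GG) {s : Hi M W} {κ : W} (h : Ctx GG s κ) :
    keyE GG κ = ev (s.2.1.1 κ).2.1 (Gs GG s) := by
  unfold keyE
  rw [h.it_eq hG, hG.ev_eq h.hs (h.keyN hG)]

theorem Ctx.perm_eq [Countable M] (hG : QGen hw c GG) {s : Hi M W} {κ : W} (h : Ctx GG s κ) :
    wE GG κ = ev (s.2.1.1 κ).2.2.2 (Gs GG s) := by
  unfold wE
  rw [h.it_eq hG, hG.ev_eq h.hs (h.permN hG)]

theorem Ctx.key_eq' [Countable M] (hG : QGen hw c GG) {s : Hi M W} {κ : W} (h : Ctx GG s κ) :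
    ev (s.2.1.1 κ).2.1 (Gs GG s ∩ PP c (s.2.1.1 κ).1) = keyE GG κ := by
  rw [h.key_eq hG]
  exact ev_restrict (h.val hG) (h.sb hG) (hG.gen h.hs) (h.vi hG).key

theorem Ctx.perm_eq' [Countable M] (hG : QGen hw c GG) {s : Hi M W} {κ : W} (h : Ctx GG s κ) :
    ev (s.2.1.1 κ).2.2.2 (Gs GG s ∩ PP c (s.2.1.1 κ).1) = wE GG κ := by
  rw [h.perm_eq hG]
  exact ev_restrict (h.val hG) (h.sb hG) (hG.gen h.hs) (h.vi hG).perm

theorem Ctx.key_RR [Countable M] (hG : QGen hw c GG) {s : Hi M W} {κ : W} (h : Ctx GG s κ) :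
    keyE GG κ ∈ RR c s.2.2 (Gs GG s) := by
  rw [h.key_eq hG]
  exact ev_mem_RR (h.keyN hG)

theorem Ctx.perm_RR [Countable M] (hG : QGen hw c GG) {s : Hi M W} {κ : W} (h : Ctx GG s κ) :
    wE GG κ ∈ RR c s.2.2 (Gs GG s) := by
  rw [h.perm_eq hG]
  exact ev_mem_RR (h.permN hG)

/-- a true good statement is forced by a condition below the condition of the item -/
theorem Ctx.force [Countable M] (hG : QGen hw c GG) {s : Hi M W} {κ : W} (h : Ctx GG s κ)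
    {Q : Set (Cond W) → Prop} (hQ : Good c (fun _ : ℕ => s.2.2) (fun _ G => Q G))
    (hq : Q (Gs GG s)) :
    ∃ p ∈ Gs GG s, p ∈ PP c s.2.2 ∧ CLe c p (s.2.1.1 κ).2.2.1 ∧ Fo c s.2.2 p Q := by
  have hgen := hG.gen h.hs
  obtain ⟨p, hp, hfo⟩ := truth1 hQ hgen hq
  obtain ⟨h1, h2, h3⟩ := hgen.cup_mem hp h.cond
  exact ⟨_, h1, hgen.sub _ h1, h3, hfo.mono (hgen.sub _ hp) h2⟩

/-! ### The enumeration of the node values -/

theorem zdf_eq (n : ℕ) : zdf n = if n = 2 then 3 else 0 := by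
  unfold zdf T3
  by_cases h0 : n = 0
  · subst h0
    simp
  · by_cases h1 : n % 2 = 1
    · rw [if_neg h0, if_pos h1, if_neg (by omega)]
      rfl
    · rw [if_neg h0, if_neg h1]
      by_cases h2 : n = 2
      · subst h2
        simp
      · rw [if_neg h2, if_neg (by omega)]
        simp

theorem IF.zdf : IF M MP_a163f2_lc.zdf :=
  (IF.ite (P := fun n : ℕ => n = 2) (In.nat_eq IF.id 2) (IF.const 3) (IF.const 0)).congr zdf_eq

theorem exists_e [Countable M] (hG : QGen hw c GG) {κ : W} (hκ : κ ∈ Ef GG) :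
    ∃ e, IsE GG κ e := by
  obtain ⟨s₀, hs₀⟩ := HS_ne hG
  obtain ⟨s, h, -⟩ := Ef_ctx hG hκ hs₀
  have hit := h.it_eq hG
  set f := (s.2.1.1 κ).1 with hf
  have hv : Valid c f := h.val hG
  have hsb : Sb f s.2.2 := h.sb hG
  have hgen := hG.gen h.hs
  have hev : ∀ ν ∈ f.dom, ev (f.nm ν) (Gi GG) = ev (f.nm ν) (Gs GG s) := fun ν hν =>
    hG.ev_eq h.hs ((hv.nm ν hν).mono hv hsb)
  by_cases hne : f.dom.Nonempty
  · have hct : ICt M f.dom := by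
      obtain ⟨ζ, hζ⟩ := hv.bdd
      refine (ICt.below ζ).mono ?_
      rintro ν ⟨q, t, hν⟩
      exact (hζ ν q t hν).1
    obtain ⟨en, hen, h1, h2⟩ := hct.enum (In.pdom IF.id (IF.const f)) hne
    let e : ℕ → ℕ := fun k => ev (f.nm (en k.unpair.1)) (Gs GG s) k.unpair.2
    have he : e ∈ RR c s.2.2 (Gs GG s) := by
      refine mem_RR_of_good (hG.hist h.hs).valid hgen
        (Q := fun k l G => ev (f.nm (en k.unpair.1)) G k.unpair.2 = l) ?_ (fun n k => Iff.rfl)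
      exact GoodF_ev_good (IF.const s.2.2)
        (x := fun y : ℕ × ℕ => f.nm (en y.1.unpair.1))
        (IF.nmP (IF.const f) (IF.comp hen (IF.comp IF.fst (IF.comp IF.unpair IF.fst))))
        (i := fun y : ℕ × ℕ => y.1.unpair.2) (l := fun y : ℕ × ℕ => y.2)
        (IF.comp IF.snd (IF.comp IF.unpair IF.fst)) IF.snd
    have hsec : ∀ n, sec e n = ev (f.nm (en n)) (Gs GG s) := by
      intro n
      funext m
      show ev (f.nm (en (Nat.pair n m).unpair.1)) (Gs GG s) (Nat.pair n m).unpair.2 = _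
      rw [Nat.unpair_pair]
    refine ⟨e, RN_of_RR hG h.hs he, ?_, ?_⟩
    · rw [hit]
      intro ν hν
      obtain ⟨n, rfl⟩ := h2 ν hν
      exact ⟨n, by rw [hev _ hν, hsec]⟩
    · rw [hit]
      rintro z ⟨n, rfl⟩
      exact Or.inr ⟨en n, h1 n, by rw [hev _ (h1 n), hsec]⟩
  · refine ⟨fun k => zdf k.unpair.2, RN_of_RR hG h.hs ((hG.RUs h.hs).ground _
      (IF.comp IF.zdf (IF.comp IF.snd IF.unpair))), ?_, ?_⟩
    · rw [hit]
      intro ν hν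
      exact absurd ⟨ν, hν⟩ hne
    · rintro z ⟨n, rfl⟩
      left
      funext m
      show zdf (Nat.pair n m).unpair.2 = _
      rw [Nat.unpair_pair]

theorem eE_spec [Countable M] (hG : QGen hw c GG) {κ : W} (hκ : κ ∈ Ef GG) :
    IsE GG κ (eE GG κ) := by
  have h := exists_e hG hκ
  unfold eE
  rw [dif_pos h]
  exact h.choose_spec

/-- values of the nodes of the plan of the item -/
theorem Ctx.mem_EE [Countable M] (hG : QGen hw c GG) {s : Hi M W} {κ : W} (h : Ctx GG s κ) {ν : W}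
    (hν : ν ∈ (s.2.1.1 κ).1.dom) : ev (s.2.2.nm ν) (Gs GG s) ∈ EE (eE GG κ) := by
  have h1 := (eE_spec hG h.ef).2.1 ν (by rw [h.it_eq hG]; exact hν)
  rw [h.it_eq hG, hG.ev_eq h.hs (((h.val hG).nm ν hν).mono (h.val hG) (h.sb hG))] at h1
  rw [(h.sb hG).nm_eq hν]
  exact h1

theorem KN_node [Countable M] (hG : QGen hw c GG) {z : ℕ → ℕ} (hz : z ∈ KN c GG) {s₀ : Hi M W}
    (hs₀ : s₀ ∈ HS GG) :
    ∃ s ∈ HS GG, HLe s s₀ ∧ ∃ ν ∈ s.2.2.dom, z = ev (s.2.2.nm ν) (Gs GG s) := by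
  obtain ⟨s₁, hs₁, ν, hν, rfl⟩ := (KN_iff hG).1 hz
  obtain ⟨t, ht, h1, h2⟩ := hG.dirH hs₀ hs₁
  have h3 := hG.node_up hs₁ ht h2 hν
  exact ⟨t, ht, h1, ν, h3.1, h3.2.symm⟩

/-- A coded real is in the enumeration of `κ`, or it is the value of a later node. -/
theorem Ctx.node [Countable M] (hG : QGen hw c GG) {s₀ : Hi M W} {κ : W} (h : Ctx GG s₀ κ)
    {z : ℕ → ℕ} (hz : z ∈ KN c GG) (hn : z ∉ EE (eE GG κ)) :
    ∃ s, Ctx GG s κ ∧ HLe s s₀ ∧ ∃ ν ∈ s.2.2.dom, ν ∉ (s.2.1.1 κ).1.dom ∧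
      ev (s.2.2.nm ν) (Gs GG s) = z := by
  obtain ⟨s, hs, hle, ν, hν, rfl⟩ := KN_node hG hz h.hs
  have h1 := h.up hG hs hle
  exact ⟨s, h1, hle, ν, hν, fun h2 => hn (h1.mem_EE hG h2), rfl⟩

/-- the same along an extension -/
theorem Ctx.node_up [Countable M] (hG : QGen hw c GG) {s t : Hi M W} {κ : W} (h : Ctx GG s κ)
    (ht : t ∈ HS GG) (hle : HLe t s) {ν : W} (hν : ν ∈ s.2.2.dom)
    (hν' : ν ∉ (s.2.1.1 κ).1.dom) :
    ν ∈ t.2.2.dom ∧ ν ∉ (t.2.1.1 κ).1.dom ∧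
      ev (t.2.2.nm ν) (Gs GG t) = ev (s.2.2.nm ν) (Gs GG s) := by
  have h1 := hG.node_up h.hs ht hle hν
  refine ⟨h1.1, ?_, h1.2⟩
  rw [hle.item h.lt]
  exact hν'

/-- the current plan obeys the item -/
theorem Ctx.obey (hG : QGen hw c GG) {s : Hi M W} {κ : W} (h : Ctx GG s κ) :
    Obey c (s.2.1.1 κ) (Al hw c s.2.1.1 κ) s.2.2 :=
  ((mem_Al.1 (hG.hist h.hs).1).2 κ h.lt).2

theorem Ctx.alm (hG : QGen hw c GG) {s : Hi M W} {κ : W} (h : Ctx GG s κ) :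
    s.2.2 ∈ Al hw c s.2.1.1 κ := Al_mono h.lt.le (hG.hist h.hs).1

end Pool.Agent.H.MP_a163f2_lc
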