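import Pool.Agent.H.MP_a163f2_lc.R.D8a
import Pool.Agent.H.MP_a163f2_lc.R.D7a
import Pool.Agent.H.MP_a163f2_lc.R.D7b
import Pool.Agent.H.MP_a163f2_lc.R.D7d
import Pool.Agent.H.MP_a163f2_lc.R.D7e

/-!
# Block R, part D8b: the density facts in the final model
-/

set_option autoImplicit false
set_option linter.unusedSectionVars false
set_option synthInstance.maxSize 1000

namespace Pool.Agent.H.MP_a163f2_lc

open Pool.Agent.H.MP_07d118_lc

universe u v w x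

variable {M : Type u} [SetStr M] [ZFC M] [Std M] {W : Type v} [LinearOrder W] [Cd M W] [Om1 M W]
variable {c : W × Hc → ℕ → ℕ} [hL : Fact (Luz M W c)]
variable {hw : WellFounded ((· < ·) : W → W → Prop)} {GG : Set (HC M W)}
variable {T : Type w} [Cd M T]

theorem GoodR.t3 {f : T → Pl M W} {X Y : T → Set (Cond W) → ℕ → ℕ} (hX : GoodR c f X)
    (hY : GoodR c f Y) {i : T → ℕ} (hi : IF M i) :
    GoodR c f (fun t G => T3 (X t G) (Y t G) (i t)) := by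
  have hd : IF M (fun n : ℕ => n / 2) :=
    IF.prim (Primrec.nat_div.comp Primrec.id (Primrec.const 2))
  have hd' : IF M (fun n : ℕ => n / 2 - 1) :=
    IF.prim (Primrec.nat_sub.comp (Primrec.nat_div.comp Primrec.id (Primrec.const 2))
      (Primrec.const 1))
  have hP : In M (fun n : ℕ => n % 2 = 1) :=
    In.eq (IF.prim (Primrec.nat_mod.comp Primrec.id (Primrec.const 2))) (IF.const 1)
  have h1 : GoodF c (fun y : T × ℕ => f y.1) (fun y G => X y.1 G (y.2 / 2)) := GoodF_appI hX hd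
  have h2 : GoodF c (fun y : T × ℕ => f y.1) (fun y G => Y y.1 G (y.2 / 2 - 1)) :=
    GoodF_appI hY hd'
  have h3 : GoodF c (fun y : T × ℕ => f y.1) (fun y _ => i y.1) :=
    GoodF.of_if (IF.comp hi IF.fst)
  refine (GoodF_iteI (P := fun y : T × ℕ => y.2 = 0) (In.nat_eq IF.snd 0) h3
    (GoodF_iteI (P := fun y : T × ℕ => y.2 % 2 = 1) (In.comp hP IF.snd) h1 h2)).congr
    fun y G _ => ?_
  by_cases h0 : y.2 = 0
  · simp [T3, h0]
  · by_cases h : y.2 % 2 = 1 <;> simp [T3, h0, h]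

theorem GoodR.cst {f : T → Pl M W} {x : ℕ → ℕ} (hx : IF M x) : GoodR c f (fun _ _ => x) :=
  GoodF.of_if (k := fun y : T × ℕ => x y.2) (IF.comp hx IF.snd)

theorem QGen.ev_up [Countable M] (hG : QGen hw c GG) {s s' : Hi M W} (hs : s ∈ HS GG)
    (hs' : s' ∈ HS GG) (h : HLe s' s) {n : Nm M W} (hn : IsNm c s.2.2 n) :
    ev n (Gs GG s') = ev n (Gs GG s) := by
  rw [← hG.ev_eq hs hn, ← hG.ev_eq hs' (hn.mono (hG.hist hs).valid h.2.2)]

/-- from a condition below the condition of an item to a context -/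
theorem QGen.ctx [Countable M] (hG : QGen hw c GG) {s : Hi M W} {p : Cond W} (hp : p ∈ Gs GG s)
    {κ : W} (hκ : κ < s.1) (hle : CLe c p (s.2.1.1 κ).2.2.1) : Ctx GG s κ :=
  ⟨⟨p, hp⟩, hκ, (hG.gen ⟨p, hp⟩).up p hp _
    (PP_mono ((hG.hist ⟨p, hp⟩).sb hκ) ((hG.hist ⟨p, hp⟩).2 κ hκ).cond) hle⟩

theorem F_pl : IF M (fun z : HC M W => z.1.2.2) := IF.comp IF.snd (IF.comp IF.snd IF.fst)

theorem F_it : IF M (fun t : HC M W × W => t.1.1.2.1.1 t.2) :=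
  IF.app (IF.comp IF.fst (IF.comp IF.snd (IF.comp IF.fst IF.fst))) IF.snd

theorem F_key : IF M (fun t : HC M W × W => (t.1.1.2.1.1 t.2).2.1) :=
  IF.comp IF.fst (IF.comp IF.snd F_it)

theorem F_cond : IF M (fun t : HC M W × W => (t.1.1.2.1.1 t.2).2.2.1) :=
  IF.comp IF.fst (IF.comp IF.snd (IF.comp IF.snd F_it))

/-- internality of: some item before the end of the history satisfies a forced statement -/
theorem In.exItem [Countable M] {Q : HC M W × W → Set (Cond W) → Prop}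
    (hQ : Good c (fun t : HC M W × W => t.1.1.2.2) Q) :
    In M (fun z : HC M W => ∃ κ < z.1.1, CLe c z.2 (z.1.2.1.1 κ).2.2.1 ∧
      Fo c z.1.2.2 z.2 (Q (z, κ))) := by
  refine In.ex (P := fun (z : HC M W) (κ : W) => κ < z.1.1 ∧ CLe c z.2 (z.1.2.1.1 κ).2.2.1 ∧
      Fo c z.1.2.2 z.2 (Q (z, κ))) (In.and ?_ (In.and ?_ ?_))
  · exact In.ltW IF.snd (IF.comp IF.fst (IF.comp IF.fst IF.fst))
  · exact In.cle (IF.comp IF.snd IF.fst) F_cond
  · exact Good.fo (IF.comp F_pl IF.fst) hQ (IF.comp IF.snd IF.fst)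

theorem F_side_ex [Countable M] (hG : QGen hw c GG) {a : ℕ → ℕ} (ha : a ∈ RN GG)
    (h0 : a 0 = 0) :
    (∃ x ∈ RN GG, U3 (RN GG) x (zx a) ∧ U3 (RN GG) x (za a)) ∨ ∃ κ ∈ Ef GG, keyE GG κ = a := by
  obtain ⟨s, hs, n, hn, rfl⟩ := RN_exists hG ha
  have hv := (hG.hist hs).valid
  obtain ⟨p, hp, hfo⟩ := truth1 (Q := fun G => ev n G 0 = 0)
    (GoodF_ev_good (IF.const s.2.2) (IF.const n) (IF.const 0) (IF.const 0)) (hG.gen hs) h0
  have hpl : IF M (fun y : HC M W × Nm M W => y.1.1.2.2) := IF.comp F_pl IF.fst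
  obtain ⟨s', hs', hle, p', hp', hpp, hD⟩ := hG.dense hp (D := fun z =>
      Fo c z.1.2.2 z.2 (fun G => ∃ x ∈ RR c z.1.2.2 G, U3 (RR c z.1.2.2 G) x (zx (ev n G)) ∧
          U3 (RR c z.1.2.2 G) x (za (ev n G))) ∨
        ∃ κ < z.1.1, CLe c z.2 (z.1.2.1.1 κ).2.2.1 ∧
          Fo c z.1.2.2 z.2 (fun G => ev n G = ev (z.1.2.1.1 κ).2.1 G)) (by
    refine In.or ?_ ?_
    · exact Good.fo F_pl (Q := fun (z : HC M W) G => ∃ x ∈ RR c z.1.2.2 G,
        U3 (RR c z.1.2.2 G) x (zx (ev n G)) ∧ U3 (RR c z.1.2.2 G) x (za (ev n G)))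
        (Good.exRR F_pl (Q := fun (z : HC M W) x G =>
          U3 (RR c z.1.2.2 G) x (zx (ev n G)) ∧ U3 (RR c z.1.2.2 G) x (za (ev n G)))
          (Good.and (Good.U3 hpl (GoodR.ev hpl IF.snd) (GoodR.zx (GoodR.ev hpl (IF.const n))))
            (Good.U3 hpl (GoodR.ev hpl IF.snd) (GoodR.za (GoodR.ev hpl (IF.const n)))))) IF.snd
    · exact In.exItem (Q := fun t G => ev n G = ev (t.1.1.2.1.1 t.2).2.1 G)
        (Good.eqR (IF.comp F_pl IF.fst) (GoodR.ev (IF.comp F_pl IF.fst) (IF.const n))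
          (GoodR.ev (IF.comp F_pl IF.fst) F_key))) (by
    intro s' p' hs' hle hp' hpp
    have h1 : Fo c s'.2.2 p' (fun G => ev n G 0 = 0) :=
      Fo.lift hv hle.2.2 (hG.sub _ hp).2 hfo hpp (fun G hg h => by
        rw [ev_restrict hv hle.2.2 hg hn] at h
        exact h)
    obtain ⟨s'', p'', h2, h3, h4, h5, h6⟩ :=
      item_side hs' hp' (hn.mono hv hle.2.2) h1
    exact ⟨s'', p'', h2, h3, h4, h5, h6⟩)
  have hev := hG.ev_up hs hs' hle hn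
  rcases hD with hD | ⟨κ, hκ, h1, h2⟩
  · left
    obtain ⟨x, hx, h1, h2⟩ := hD _ (hG.gen hs') hp'
    have hR := ev_mem_RR (c := c) (f := s'.2.2) (G := Gs GG s') (hn.mono hv hle.2.2)
    rw [hev] at h1 h2 hR
    exact ⟨x, RN_of_RR hG hs' hx,
      hG.U3_up hs' hx (RR_zx (hG.hist hs').valid (hG.gen hs') hR) h1,
      hG.U3_up hs' hx (RR_za (hG.hist hs').valid (hG.gen hs') hR) h2⟩
  · right
    have hc := hG.ctx hp' hκ h1
    refine ⟨κ, hc.ef, ?_⟩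
    rw [hc.key_eq hG, ← h2 _ (hG.gen hs') hp', hev]

/-- a context for an effective item and a real -/
theorem Ef_real [Countable M] (hG : QGen hw c GG) {κ : W} (hκ : κ ∈ Ef GG) {x : ℕ → ℕ}
    (hx : x ∈ RN GG) : ∃ s, Ctx GG s κ ∧ ∃ n, IsNm c s.2.2 n ∧ ev n (Gs GG s) = x := by
  obtain ⟨s₀, hs₀, h1⟩ := RN_exists hG hx
  obtain ⟨s, h2, h3⟩ := Ef_ctx hG hκ hs₀
  obtain ⟨n, hn, h4⟩ := hG.RRs_mono hs₀ h2.hs h3 h1
  exact ⟨s, h2, n, hn, h4⟩

theorem F_side_some [Countable M] (hG : QGen hw c GG) {κ : W} (hκ : κ ∈ Ef GG)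
    (h0 : keyE GG κ 0 = 0) {x : ℕ → ℕ} (hx : x ∈ RN GG) :
    T3 x (keyE GG κ) 0 ∈ KN c GG ∨ T3 x (keyE GG κ) 1 ∈ KN c GG := by
  obtain ⟨s, h, n, hn, rfl⟩ := Ef_real hG hκ hx
  have hv := (hG.hist h.hs).valid
  have ha := h.keyN hG
  have hitκ := fun (s' : Hi M W) (hle : HLe s' s) => hle.item h.lt
  obtain ⟨a, hadef⟩ : ∃ a, a = (s.2.1.1 κ).2.1 := ⟨_, rfl⟩
  rw [← hadef] at ha
  rw [h.key_eq hG, ← hadef] at h0 ⊢
  obtain ⟨p, hp, hpP, hpc, hfo⟩ := h.force hG (Q := fun G => ev a G 0 = 0)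
    (GoodF_ev_good (IF.const s.2.2) (IF.const a) (IF.const 0) (IF.const 0)) h0
  obtain ⟨s', hs', hle, p', hp', hpp, ν, hν, i, hi, hD⟩ := hG.dense hp (D := fun z =>
      ∃ ν, ν ∈ z.1.2.2.dom ∧ ∃ i, i < 2 ∧ Fo c z.1.2.2 z.2 (fun G =>
        ev (z.1.2.2.nm ν) G = T3 (ev n G) (ev a G) i)) (by
    refine In.ex (P := fun (z : HC M W) (ν : W) => ν ∈ z.1.2.2.dom ∧ ∃ i, i < 2 ∧
      Fo c z.1.2.2 z.2 (fun G => ev (z.1.2.2.nm ν) G = T3 (ev n G) (ev a G) i)) (In.and ?_ ?_)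
    · exact In.pdom IF.snd (IF.comp F_pl IF.fst)
    · refine In.ex (P := fun (y : HC M W × W) (i : ℕ) => i < 2 ∧ Fo c y.1.1.2.2 y.1.2 (fun G =>
        ev (y.1.1.2.2.nm y.2) G = T3 (ev n G) (ev a G) i)) (In.and ?_ ?_)
      · exact In.lt IF.snd (IF.const 2)
      · have hpl : IF M (fun y : (HC M W × W) × ℕ => y.1.1.1.2.2) :=
          IF.comp F_pl (IF.comp IF.fst IF.fst)
        exact Good.fo hpl (Q := fun (y : (HC M W × W) × ℕ) G =>
          ev (y.1.1.1.2.2.nm y.1.2) G = T3 (ev n G) (ev a G) y.2)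
          (Good.eqR hpl (GoodR.ev hpl (IF.nmP hpl (IF.comp IF.snd IF.fst)))
            (GoodR.t3 (GoodR.ev hpl (IF.const n)) (GoodR.ev hpl (IF.const a)) IF.snd))
          (IF.comp IF.snd (IF.comp IF.fst IF.fst))) (by
    intro s' p' hs' hle hp' hpp
    have h1 : Fo c s'.2.2 p' (fun G => ev a G 0 = 0) :=
      Fo.lift hv hle.2.2 hpP hfo hpp (fun G hg h => by
        rw [ev_restrict hv hle.2.2 hg ha] at h
        exact h)
    have e := hitκ s' hle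
    obtain ⟨s'', p'', ν, i, h2, h3, h4, h5, h6, h7, h8⟩ :=
      node_side hs' (κ := κ) (lt_of_lt_of_le h.lt hle.1) hp' (by
        rw [e]
        exact hpp.trans hpc) (by
        rw [e, ← hadef]
        exact h1) (hn.mono hv hle.2.2)
    rw [e, ← hadef] at h8
    exact ⟨s'', p'', h2, h3, h4, h5, ν, h6, i, h7, h8⟩)
  have h1 : ev (s'.2.2.nm ν) (Gs GG s') = T3 (ev n (Gs GG s')) (ev a (Gs GG s')) i :=
    hD _ (hG.gen hs') hp'
  rw [hG.ev_up h.hs hs' hle hn, hG.ev_up h.hs hs' hle ha] at h1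
  have h2 : T3 (ev n (Gs GG s)) (ev a (Gs GG s)) i ∈ KN c GG := by
    rw [← h1]
    exact (KN_iff hG).2 ⟨s', hs', ν, hν, rfl⟩
  interval_cases i
  · exact Or.inl h2
  · exact Or.inr h2

theorem F_w_yes [Countable M] (hG : QGen hw c GG) {κ : W} (hκ : κ ∈ Ef GG)
    (h0 : keyE GG κ 0 ≠ 0) {x : ℕ → ℕ} (hx : x ∈ RN GG) {i : ℕ} (hi : i < 2)
    (hw1 : wE GG κ (2 * x 0 + i) = 1) : T3 x (keyE GG κ) i ∈ KN c GG := by
  obtain ⟨s, h, n, hn, rfl⟩ := Ef_real hG hκ hx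
  have hv := (hG.hist h.hs).valid
  have ha := h.keyN hG
  have hb := h.permN hG
  have hitκ := fun (s' : Hi M W) (hle : HLe s' s) => hle.item h.lt
  obtain ⟨a, hadef⟩ : ∃ a, a = (s.2.1.1 κ).2.1 := ⟨_, rfl⟩
  obtain ⟨b, hbdef⟩ : ∃ b, b = (s.2.1.1 κ).2.2.2 := ⟨_, rfl⟩
  rw [← hadef] at ha
  rw [← hbdef] at hb
  rw [h.key_eq hG, ← hadef] at h0 ⊢
  rw [h.perm_eq hG, ← hbdef] at hw1
  obtain ⟨p, hp, hpP, hpc, hfo⟩ := h.force hG
    (Q := fun G => ev a G 0 ≠ 0 ∧ ev b G (2 * ev n G 0 + i) = 1) (by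
      refine Good.and (Good.not (IF.const s.2.2) (GoodF_ev_good (IF.const s.2.2) (IF.const a)
        (IF.const 0) (IF.const 0))) ?_
      have h1 : GoodF c (fun _ : ℕ => s.2.2) (fun _ G => ev n G 0) :=
        GoodR.app (GoodR.ev (IF.const s.2.2) (IF.const n)) (GoodF.of_if (IF.const 0))
      have h2 : GoodF c (fun _ : ℕ => s.2.2) (fun _ G => 2 * ev n G 0 + i) :=
        h1.map (F := fun k => 2 * k + i) (IF.add (IF.mul (IF.const 2) IF.id) (IF.const i))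
      exact Good.eq (GoodR.app (GoodR.ev (IF.const s.2.2) (IF.const b)) h2)
        (GoodF.of_if (IF.const 1))) ⟨h0, hw1⟩
  obtain ⟨s', hs', hle, p', hp', hpp, ν, hν, hD⟩ := hG.dense hp (D := fun z =>
      ∃ ν, ν ∈ z.1.2.2.dom ∧ Fo c z.1.2.2 z.2 (fun G =>
        ev (z.1.2.2.nm ν) G = T3 (ev n G) (ev a G) i)) (by
    refine In.ex (P := fun (z : HC M W) (ν : W) => ν ∈ z.1.2.2.dom ∧
      Fo c z.1.2.2 z.2 (fun G => ev (z.1.2.2.nm ν) G = T3 (ev n G) (ev a G) i)) (In.and ?_ ?_)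
    · exact In.pdom IF.snd (IF.comp F_pl IF.fst)
    · have hpl : IF M (fun y : HC M W × W => y.1.1.2.2) := IF.comp F_pl IF.fst
      exact Good.fo hpl (Q := fun (y : HC M W × W) G =>
        ev (y.1.1.2.2.nm y.2) G = T3 (ev n G) (ev a G) i)
        (Good.eqR hpl (GoodR.ev hpl (IF.nmP hpl IF.snd))
          (GoodR.t3 (GoodR.ev hpl (IF.const n)) (GoodR.ev hpl (IF.const a)) (IF.const i)))
        (IF.comp IF.snd IF.fst)) (by
    intro s' p' hs' hle hp' hpp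
    have h1 : Fo c s'.2.2 p' (fun G => ev a G 0 ≠ 0 ∧ ev b G (2 * ev n G 0 + i) = 1) :=
      Fo.lift hv hle.2.2 hpP hfo hpp (fun G hg h => by
        rw [ev_restrict hv hle.2.2 hg ha, ev_restrict hv hle.2.2 hg hb,
          ev_restrict hv hle.2.2 hg hn] at h
        exact h)
    have e := hitκ s' hle
    obtain ⟨s'', ν, h2, h3, h6, h8⟩ :=
      node_w hs' (κ := κ) (lt_of_lt_of_le h.lt hle.1) hp' (by
        rw [e]
        exact hpp.trans hpc) (by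
        rw [e, ← hadef]
        exact h1.imp fun G _ _ h => h.1) (hn.mono hv hle.2.2) hi (by
        rw [e, ← hbdef]
        exact h1.imp fun G _ _ h => h.2)
    rw [e, ← hadef] at h8
    exact ⟨s'', p', h2, h3, PP_mono h3.2.2 hp', CLe.refl _, ν, h6, h8⟩)
  have h1 : ev (s'.2.2.nm ν) (Gs GG s') = T3 (ev n (Gs GG s')) (ev a (Gs GG s')) i :=
    hD _ (hG.gen hs') hp'
  rw [hG.ev_up h.hs hs' hle hn, hG.ev_up h.hs hs' hle ha] at h1
  rw [← h1]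
  exact (KN_iff hG).2 ⟨s', hs', ν, hν, rfl⟩

theorem F_ord_ex [Countable M] (hG : QGen hw c GG) {q : ℕ → ℕ} (hq : q ∈ RN GG) :
    ∃ κ ∈ Ef GG, keyE GG κ = T3 q 0 1 := by
  obtain ⟨s, hs, n, hn, rfl⟩ := RN_exists hG hq
  have hv := (hG.hist hs).valid
  obtain ⟨p, hp⟩ := hs
  have hs : s ∈ HS GG := ⟨p, hp⟩
  have hz : IF M (0 : ℕ → ℕ) := IF.const 0
  obtain ⟨s', hs', hle, p', hp', hpp, κ, hκ, h1, h2⟩ := hG.dense (p := p) hp (D := fun z =>
        ∃ κ < z.1.1, CLe c z.2 (z.1.2.1.1 κ).2.2.1 ∧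
          Fo c z.1.2.2 z.2 (fun G => ev (z.1.2.1.1 κ).2.1 G = T3 (ev n G) 0 1)) (by
    have hpl : IF M (fun y : HC M W × W => y.1.1.2.2) := IF.comp F_pl IF.fst
    exact In.exItem (Q := fun t G => ev (t.1.1.2.1.1 t.2).2.1 G = T3 (ev n G) 0 1)
        (Good.eqR hpl (GoodR.ev hpl F_key) (GoodR.t3 (GoodR.ev hpl (IF.const n))
          (GoodR.cst hz) (IF.const 1)))) (by
    intro s' p' hs' hle hp' hpp
    obtain ⟨s'', p'', h2, h3, h4, h5, h6⟩ := item_ord hs' hp' (hn.mono hv hle.2.2)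
    exact ⟨s'', p'', h2, h3, h4, h5, h6⟩)
  have hc := hG.ctx hp' hκ h1
  refine ⟨κ, hc.ef, ?_⟩
  rw [hc.key_eq hG, h2 _ (hG.gen hs') hp', hG.ev_up hs hs' hle hn]

theorem F_diag_ex [Countable M] (hG : QGen hw c GG) {q : ℕ → ℕ} (hq : q ∈ RN GG) :
    ∃ κ ∈ Ef GG, keyE GG κ 0 = 2 ∧ zx (keyE GG κ) = q := by
  obtain ⟨s, hs, n, hn, rfl⟩ := RN_exists hG hq
  have hv := (hG.hist hs).valid
  obtain ⟨p, hp⟩ := hs
  have hs : s ∈ HS GG := ⟨p, hp⟩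
  obtain ⟨s', hs', hle, p', hp', hpp, κ, hκ, h1, h2⟩ := hG.dense (p := p) hp (D := fun z =>
        ∃ κ < z.1.1, CLe c z.2 (z.1.2.1.1 κ).2.2.1 ∧
          Fo c z.1.2.2 z.2 (fun G => ev (z.1.2.1.1 κ).2.1 G 0 = 2 ∧
            zx (ev (z.1.2.1.1 κ).2.1 G) = ev n G)) (by
    have hpl : IF M (fun y : HC M W × W => y.1.1.2.2) := IF.comp F_pl IF.fst
    exact In.exItem (Q := fun t G => ev (t.1.1.2.1.1 t.2).2.1 G 0 = 2 ∧
        zx (ev (t.1.1.2.1.1 t.2).2.1 G) = ev n G)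
        (Good.and (GoodF_ev_good hpl F_key (IF.const 0) (IF.const 2))
          (Good.eqR hpl (GoodR.zx (GoodR.ev hpl F_key)) (GoodR.ev hpl (IF.const n))))) (by
    intro s' p' hs' hle hp' hpp
    obtain ⟨s'', p'', h2, h3, h4, h5, h6⟩ := item_diag hs' hp' (hn.mono hv hle.2.2)
    exact ⟨s'', p'', h2, h3, h4, h5, h6⟩)
  have hc := hG.ctx hp' hκ h1
  have h3 := h2 _ (hG.gen hs') hp'
  refine ⟨κ, hc.ef, ?_, ?_⟩
  · rw [hc.key_eq hG]
    exact h3.1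
  · rw [hc.key_eq hG, h3.2, hG.ev_up hs hs' hle hn]

end Pool.Agent.H.MP_a163f2_lc
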