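import Pool.Agent.H.MP_a163f2_lc.R.D8b

/-!
# Block R, part D8c: the package
-/

set_option autoImplicit false
set_option linter.unusedSectionVars false
set_option synthInstance.maxSize 1000

namespace Pool.Agent.H.MP_a163f2_lc

open Pool.Agent.H.MP_07d118_lc

universe u v w x

variable {M : Type u} [SetStr M] [ZFC M] [Std M] {W : Type v} [LinearOrder W] [Cd M W] [Om1 M W]
variable {c : W × Hc → ℕ → ℕ} [hL : Fact (Luz M W c)]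
variable {hw : WellFounded ((· < ·) : W → W → Prop)} {GG : Set (HC M W)}

/-! ### Effective items -/

theorem Ef_down [Countable M] (hG : QGen hw c GG) {η : W} (hη : η ∈ Ef GG) {s : Hi M W}
    (hs : s ∈ HS GG) (h : η < s.1) : Ctx GG s η := by
  obtain ⟨t, h1, h2⟩ := Ef_ctx hG hη hs
  refine ⟨hs, h, ?_⟩
  have h3 := h1.cond
  rw [h2.item h] at h3
  rw [hG.coh hs h1.hs h2]
  exact ⟨h3, PP_mono ((hG.hist hs).sb h) ((hG.hist hs).2 η h).cond⟩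

theorem Ctx.sb2 (hG : QGen hw c GG) {s : Hi M W} {κ η : W} (h : Ctx GG s κ) (hη : η < κ) :
    Sb (s.2.1.1 η).1 (s.2.1.1 κ).1 := ((mem_Al.1 (h.vi hG).al).2 η hη).1

/-- the earlier items, seen from the plan of an item -/
theorem Ctx.lower [Countable M] (hG : QGen hw c GG) {s : Hi M W} {κ η : W} (h : Ctx GG s κ)
    (hη : η < κ) (hc : (s.2.1.1 η).2.2.1 ∈ Gs GG s ∩ PP c (s.2.1.1 κ).1) :
    η ∈ Ef GG ∧ ev (s.2.1.1 η).2.1 (Gs GG s ∩ PP c (s.2.1.1 κ).1) = keyE GG η := by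
  have h1 : Ctx GG s η := ⟨h.hs, hη.trans h.lt, hc.1⟩
  refine ⟨h1.ef, ?_⟩
  rw [h1.key_eq hG]
  exact ev_restrict (h.val hG) (h.sb hG) (hG.gen h.hs)
    ((h1.vi hG).key.mono (h1.val hG) (h.sb2 hG hη))

theorem Ctx.lower' [Countable M] (hG : QGen hw c GG) {s : Hi M W} {κ η : W} (h : Ctx GG s κ)
    (hη : η < κ) (he : η ∈ Ef GG) :
    (s.2.1.1 η).2.2.1 ∈ Gs GG s ∩ PP c (s.2.1.1 κ).1 := by
  have h1 := Ef_down hG he h.hs (hη.trans h.lt)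
  exact ⟨h1.cond, PP_mono (h.sb2 hG hη) (h1.vi hG).cond⟩

theorem F_inj0 [Countable M] (hG : QGen hw c GG) {κ η : W} (hκ : κ ∈ Ef GG) (hη : η ∈ Ef GG)
    (hlt : η < κ) (he : keyE GG κ = keyE GG η) : False := by
  obtain ⟨s₀, hs₀⟩ := HS_ne hG
  obtain ⟨s, h, -⟩ := Ef_ctx hG hκ hs₀
  have h1 := h.lower' hG hlt hη
  have h2 := h.lower hG hlt h1
  have hgen := h.gen hG
  obtain ⟨r, hr, hfo⟩ := truth1
    (Q := fun G => ev (s.2.1.1 κ).2.1 G = ev (s.2.1.1 η).2.1 G)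
    (Good.eqR (IF.const _) (GoodR.ev (IF.const _) (IF.const _))
      (GoodR.ev (IF.const _) (IF.const _))) hgen (by rw [h.key_eq' hG, h2.2, he])
  obtain ⟨h3, h4, h5⟩ := hgen.cup_mem hr (h.cond' hG)
  obtain ⟨h6, h7, h8⟩ := hgen.cup_mem h3 h1
  exact (h.vi hG).fresh η hlt _ (hgen.sub _ h6) (h7.trans h5) h8
    (hfo.mono (hgen.sub _ hr) (h7.trans h4))

theorem F_inj [Countable M] (hG : QGen hw c GG) {κ η : W} (hκ : κ ∈ Ef GG) (hη : η ∈ Ef GG)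
    (he : keyE GG κ = keyE GG η) : κ = η := by
  rcases lt_trichotomy κ η with h | h | h
  · exact (F_inj0 hG hη hκ h he.symm).elim
  · exact h
  · exact (F_inj0 hG hκ hη h he).elim

/-! ### The flags -/

theorem Ctx.flag0 [Countable M] (hG : QGen hw c GG) {s : Hi M W} {κ : W} (h : Ctx GG s κ)
    (h0 : keyE GG κ 0 = 0) :
    ¬ ∃ g ∈ Al hw c s.2.1.1 κ, Sb (s.2.1.1 κ).1 g ∧ ∃ p' ∈ PP c g,
      CLe c p' (s.2.1.1 κ).2.2.1 ∧ Fo c g p' (fun G => ∃ x ∈ RR c g G,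
        U3 (RR c g G) x (zx (ev (s.2.1.1 κ).2.1 G)) ∧
          U3 (RR c g G) x (za (ev (s.2.1.1 κ).2.1 G))) := by
  have hk := h.key_eq' hG
  rcases (h.vi hG).flag with h1 | h1 | h1
  · exact h1.2
  · have h2 := (h1 _ (h.gen hG) (h.cond' hG)).1
    rw [hk, h0] at h2
    exact absurd h2 (by norm_num)
  · have h2 := h1.1 _ (h.gen hG) (h.cond' hG)
    beta_reduce at h2
    rw [hk, h0] at h2
    exact absurd h2 (by norm_num)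

theorem Ctx.flag1 [Countable M] (hG : QGen hw c GG) {s : Hi M W} {κ : W} (h : Ctx GG s κ)
    (h0 : keyE GG κ 0 = 1) :
    za (keyE GG κ) = 0 ∧ ListOK s.2.1.1 κ (Gs GG s ∩ PP c (s.2.1.1 κ).1) (wE GG κ) := by
  have hk := h.key_eq' hG
  have hp := h.perm_eq' hG
  rcases (h.vi hG).flag with h1 | h1 | h1
  · have h2 := h1.1 _ (h.gen hG) (h.cond' hG)
    beta_reduce at h2
    rw [hk, h0] at h2
    exact absurd h2 (by norm_num)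
  · have h2 := h1 _ (h.gen hG) (h.cond' hG)
    beta_reduce at h2
    rw [hk, hp] at h2
    exact ⟨h2.2.1, h2.2.2⟩
  · have h2 := h1.1 _ (h.gen hG) (h.cond' hG)
    beta_reduce at h2
    rw [hk, h0] at h2
    exact absurd h2 (by norm_num)

theorem Ctx.flag2 [Countable M] (hG : QGen hw c GG) {s : Hi M W} {κ : W} (h : Ctx GG s κ)
    (h0 : keyE GG κ 0 = 2) :
    (Fo c (s.2.1.1 κ).1 (s.2.1.1 κ).2.2.1 (fun G => ev (s.2.1.1 κ).2.1 G 0 = 2) ∧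
      (∀ ν ∈ (s.2.1.1 κ).1.dom, ∀ i < 2, Fo c (s.2.1.1 κ).1 (s.2.1.1 κ).2.2.1 (fun G =>
        ¬ (za (ev ((s.2.1.1 κ).1.nm ν) G) = ev (s.2.1.1 κ).2.1 G ∧
          ev ((s.2.1.1 κ).1.nm ν) G 0 = i))) ∧
      ((Fo c (s.2.1.1 κ).1 (s.2.1.1 κ).2.2.1 (fun G => ev (s.2.1.1 κ).2.2.2 G 0 = 1 ∧
          ev (s.2.1.1 κ).2.2.2 G 1 = 0 ∧
          U3 (RR c (s.2.1.1 κ).1 G) (ev (s.2.1.1 κ).2.1 G) (za (zx (ev (s.2.1.1 κ).2.1 G))))) ∨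
        (Fo c (s.2.1.1 κ).1 (s.2.1.1 κ).2.2.1 (fun G => ev (s.2.1.1 κ).2.2.2 G 0 = 0 ∧
          ev (s.2.1.1 κ).2.2.2 G 1 = 1 ∧
          U3 (RR c (s.2.1.1 κ).1 G) (ev (s.2.1.1 κ).2.1 G) (zx (zx (ev (s.2.1.1 κ).2.1 G))))) ∨
        (Fo c (s.2.1.1 κ).1 (s.2.1.1 κ).2.2.1 (fun G => ∀ n, ev (s.2.1.1 κ).2.2.2 G n = 0) ∧
          ¬ ∃ g ∈ Al hw c s.2.1.1 κ, Sb (s.2.1.1 κ).1 g ∧ Obey c (s.2.1.1 κ) ∅ g ∧
            ∃ p' ∈ PP c g, CLe c p' (s.2.1.1 κ).2.2.1 ∧ Fo c g p' (fun G =>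
              U3 (RR c g G) (ev (s.2.1.1 κ).2.1 G) (zx (zx (ev (s.2.1.1 κ).2.1 G))) ∨
              U3 (RR c g G) (ev (s.2.1.1 κ).2.1 G) (za (zx (ev (s.2.1.1 κ).2.1 G))))))) := by
  have hk := h.key_eq' hG
  rcases (h.vi hG).flag with h1 | h1 | h1
  · have h2 := h1.1 _ (h.gen hG) (h.cond' hG)
    beta_reduce at h2
    rw [hk, h0] at h2
    exact absurd h2 (by norm_num)
  · have h2 := (h1 _ (h.gen hG) (h.cond' hG)).1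
    rw [hk, h0] at h2
    exact absurd h2 (by norm_num)
  · exact h1

/-! ### Side items -/

theorem F_side_one [Countable M] (hG : QGen hw c GG) {κ : W} (hκ : κ ∈ Ef GG)
    (h0 : keyE GG κ 0 = 0) {x : ℕ → ℕ}
    (hk0 : T3 x (keyE GG κ) 0 ∈ KN c GG) (hk1 : T3 x (keyE GG κ) 1 ∈ KN c GG) :
    T3 x (keyE GG κ) 0 ∈ EE (eE GG κ) ∨ T3 x (keyE GG κ) 1 ∈ EE (eE GG κ) := by
  by_contra hcon
  push Not at hcon
  obtain ⟨s₀, hs₀⟩ := HS_ne hG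
  obtain ⟨s₁, h₁, -⟩ := Ef_ctx hG hκ hs₀
  obtain ⟨s₂, h₂, -, ν₀, hν₀, hν₀', hz₀⟩ := h₁.node hG hk0 hcon.1
  obtain ⟨s, h, hle, ν₁, hν₁, hν₁', hz₁⟩ := h₂.node hG hk1 hcon.2
  obtain ⟨h1, h2, h3⟩ := h₂.node_up hG h.hs hle hν₀ hν₀'
  rw [← h3] at hz₀
  have hf : IF M (fun _ : ℕ => s.2.2) := IF.const s.2.2
  have hN : ∀ n : Nm M W, GoodR c (fun _ : ℕ => s.2.2) (fun _ G => ev n G) := fun n =>
    GoodR.ev hf (IF.const n)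
  have hv := (hG.hist h.hs).valid
  obtain ⟨p, hp, hpP, hpc, hfo⟩ := h.force hG (Q := fun G =>
    (za (ev (s.2.2.nm ν₀) G) = ev (s.2.1.1 κ).2.1 G ∧ ev (s.2.2.nm ν₀) G 0 = 0) ∧
    (za (ev (s.2.2.nm ν₁) G) = ev (s.2.1.1 κ).2.1 G ∧ ev (s.2.2.nm ν₁) G 0 = 1) ∧
    zx (ev (s.2.2.nm ν₀) G) = zx (ev (s.2.2.nm ν₁) G) ∧ ev (s.2.1.1 κ).2.1 G 0 = 0)
    (Good.and (Good.and (Good.eqR hf (GoodR.za (hN _)) (hN _))
        (GoodF_ev_good hf (IF.const _) (IF.const 0) (IF.const 0)))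
      (Good.and (Good.and (Good.eqR hf (GoodR.za (hN _)) (hN _))
          (GoodF_ev_good hf (IF.const _) (IF.const 0) (IF.const 1)))
        (Good.and (Good.eqR hf (GoodR.zx (hN _)) (GoodR.zx (hN _)))
          (GoodF_ev_good hf (IF.const _) (IF.const 0) (IF.const 0))))) (by
      rw [hz₀, hz₁, ← h.key_eq hG]
      simp only [za_T3, zx_T3, T3_zero]
      exact ⟨⟨trivial, trivial⟩, ⟨trivial, trivial⟩, trivial, h0⟩)
  have hO := h.obey hG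
  have hA := (hO ν₀ h1 h2 0 (by norm_num) p hpP hpc (hfo.imp fun G _ _ h => h.1)).1
    (hfo.imp fun G _ _ h => h.2.2.2)
  have hB := (hO ν₁ hν₁ hν₁' 1 (by norm_num) p hpP hpc (hfo.imp fun G _ _ h => h.2.1)).1
    (hfo.imp fun G _ _ h => h.2.2.2)
  refine hB.2 rfl ?_
  obtain ⟨g', hg', hsb, p', hp', hle', hfo'⟩ := hA.1 rfl p hpP (CLe.refl p)
  refine ⟨g', hg', hsb, p', hp', hle', fun G hGg hp'G => ?_⟩
  have h4 := hfo' G hGg hp'G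
  have h5 := (hfo _ (hGg.restrict hv hsb)
    ⟨hGg.up p' hp'G p (PP_mono hsb hpP) hle', hpP⟩).2.2.1
  rw [ev_restrict hv hsb hGg (hv.nm _ h1), ev_restrict hv hsb hGg (hv.nm _ hν₁)] at h5
  show U3 (RR c g' G) (zx (ev (s.2.2.nm ν₁) G)) (zx (ev (s.2.1.1 κ).2.1 G))
  rw [← h5]
  exact h4

theorem F_side_left [Countable M] (hG : QGen hw c GG) {κ : W} (hκ : κ ∈ Ef GG)
    (h0 : keyE GG κ 0 = 0) {x : ℕ → ℕ} (hx : x ∈ RN GG) (hU : U3 (RN GG) x (zx (keyE GG κ)))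
    (hk1 : T3 x (keyE GG κ) 1 ∈ KN c GG) : T3 x (keyE GG κ) 1 ∈ EE (eE GG κ) := by
  by_contra hcon
  obtain ⟨s₀, hs₀⟩ := HS_ne hG
  obtain ⟨s₁, h₁, -⟩ := Ef_ctx hG hκ hs₀
  obtain ⟨s₂, h₂, -, ν₀, hν₀, hν₀', hz₀⟩ := h₁.node hG hk1 hcon
  obtain ⟨s₃, hs₃, hle₃, hx₃⟩ := RN_ext hG h₂.hs hx
  have h₃ := h₂.up hG hs₃ hle₃
  obtain ⟨s, hs, hle, hUs⟩ := hG.U3_down hs₃ hx₃
    (RR_zx (hG.hist hs₃).valid (hG.gen hs₃) (h₃.key_RR hG)) hU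
  have h := h₃.up hG hs hle
  obtain ⟨h1, h2, h3⟩ := h₂.node_up hG hs (hle.trans hle₃) hν₀ hν₀'
  rw [← h3] at hz₀
  have hf : IF M (fun _ : ℕ => s.2.2) := IF.const s.2.2
  have hN : ∀ n : Nm M W, GoodR c (fun _ : ℕ => s.2.2) (fun _ G => ev n G) := fun n =>
    GoodR.ev hf (IF.const n)
  obtain ⟨p, hp, hpP, hpc, hfo⟩ := h.force hG (Q := fun G =>
    (za (ev (s.2.2.nm ν₀) G) = ev (s.2.1.1 κ).2.1 G ∧ ev (s.2.2.nm ν₀) G 0 = 1) ∧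
    ev (s.2.1.1 κ).2.1 G 0 = 0 ∧
    U3 (RR c s.2.2 G) (zx (ev (s.2.2.nm ν₀) G)) (zx (ev (s.2.1.1 κ).2.1 G)))
    (Good.and (Good.and (Good.eqR hf (GoodR.za (hN _)) (hN _))
        (GoodF_ev_good hf (IF.const _) (IF.const 0) (IF.const 1)))
      (Good.and (GoodF_ev_good hf (IF.const _) (IF.const 0) (IF.const 0))
        (Good.U3 hf (GoodR.zx (hN _)) (GoodR.zx (hN _))))) (by
      rw [hz₀, ← h.key_eq hG]
      simp only [za_T3, zx_T3, T3_zero]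
      exact ⟨⟨trivial, trivial⟩, h0, hUs⟩)
  have hB := (h.obey hG ν₀ h1 h2 1 (by norm_num) p hpP hpc (hfo.imp fun G _ _ h => h.1)).1
    (hfo.imp fun G _ _ h => h.2.1)
  exact hB.2 rfl ⟨s.2.2, h.alm hG, Sb.refl _, p, hpP, CLe.refl p, hfo.imp fun G _ _ h => h.2.2⟩

theorem F_side_right [Countable M] (hG : QGen hw c GG) {κ : W} (hκ : κ ∈ Ef GG)
    (h0 : keyE GG κ 0 = 0) {x : ℕ → ℕ} (hx : x ∈ RN GG) (hU : U3 (RN GG) x (za (keyE GG κ)))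
    (hk1 : T3 x (keyE GG κ) 0 ∈ KN c GG) : T3 x (keyE GG κ) 0 ∈ EE (eE GG κ) := by
  by_contra hcon
  obtain ⟨s₀, hs₀⟩ := HS_ne hG
  obtain ⟨s₁, h₁, -⟩ := Ef_ctx hG hκ hs₀
  obtain ⟨s₂, h₂, -, ν₀, hν₀, hν₀', hz₀⟩ := h₁.node hG hk1 hcon
  obtain ⟨s₃, hs₃, hle₃, hx₃⟩ := RN_ext hG h₂.hs hx
  have h₃ := h₂.up hG hs₃ hle₃
  obtain ⟨s, hs, hle, hUs⟩ := hG.U3_down hs₃ hx₃
    (RR_za (hG.hist hs₃).valid (hG.gen hs₃) (h₃.key_RR hG)) hU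
  have h := h₃.up hG hs hle
  obtain ⟨h1, h2, h3⟩ := h₂.node_up hG hs (hle.trans hle₃) hν₀ hν₀'
  rw [← h3] at hz₀
  have hv := (hG.hist hs).valid
  have hf : IF M (fun _ : ℕ => s.2.2) := IF.const s.2.2
  have hN : ∀ n : Nm M W, GoodR c (fun _ : ℕ => s.2.2) (fun _ G => ev n G) := fun n =>
    GoodR.ev hf (IF.const n)
  obtain ⟨p, hp, hpP, hpc, hfo⟩ := h.force hG (Q := fun G =>
    (za (ev (s.2.2.nm ν₀) G) = ev (s.2.1.1 κ).2.1 G ∧ ev (s.2.2.nm ν₀) G 0 = 0) ∧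
    ev (s.2.1.1 κ).2.1 G 0 = 0 ∧
    U3 (RR c s.2.2 G) (zx (ev (s.2.2.nm ν₀) G)) (za (ev (s.2.1.1 κ).2.1 G)))
    (Good.and (Good.and (Good.eqR hf (GoodR.za (hN _)) (hN _))
        (GoodF_ev_good hf (IF.const _) (IF.const 0) (IF.const 0)))
      (Good.and (GoodF_ev_good hf (IF.const _) (IF.const 0) (IF.const 0))
        (Good.U3 hf (GoodR.zx (hN _)) (GoodR.za (hN _))))) (by
      rw [hz₀, ← h.key_eq hG]
      simp only [za_T3, zx_T3, T3_zero]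
      exact ⟨⟨trivial, trivial⟩, h0, hUs⟩)
  have hB := (h.obey hG ν₀ h1 h2 0 (by norm_num) p hpP hpc (hfo.imp fun G _ _ h => h.1)).1
    (hfo.imp fun G _ _ h => h.2.1)
  obtain ⟨g', hg', hsb, p', hp', hle', hfo'⟩ := hB.1 rfl p hpP (CLe.refl p)
  have hvg : Valid c g' := (mem_Al.1 hg').1
  have hup : Fo c g' p' (fun G => U3 (RR c g' G) (zx (ev (s.2.2.nm ν₀) G))
      (za (ev (s.2.1.1 κ).2.1 G))) :=
    Fo_U3_up hv hvg hsb (hv.nm _ h1) (h.keyN hG)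
      (fun G hGg => RR_zx hv hGg (ev_mem_RR (hv.nm _ h1)))
      (fun G hGg => RR_za hv hGg (ev_mem_RR (h.keyN hG))) hpP hle'
      (hfo.imp fun G _ _ h => h.2.2)
  refine h.flag0 hG h0 ⟨g', hg', (h.sb hG).trans hsb, p', hp', hle'.trans hpc,
    fun G hGg hp'G => ⟨zx (ev (s.2.2.nm ν₀) G), RR_zx hvg hGg
      (ev_mem_RR ((hv.nm _ h1).mono hv hsb)), hfo' G hGg hp'G, hup G hGg hp'G⟩⟩

theorem F_w_no [Countable M] (hG : QGen hw c GG) {κ : W} (hκ : κ ∈ Ef GG)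
    (h0 : keyE GG κ 0 ≠ 0) {x : ℕ → ℕ} {i : ℕ} (hi : i < 2)
    (hk : T3 x (keyE GG κ) i ∈ KN c GG) :
    T3 x (keyE GG κ) i ∈ EE (eE GG κ) ∨ wE GG κ (2 * x 0 + i) = 1 := by
  by_contra hcon
  push Not at hcon
  obtain ⟨s₀, hs₀⟩ := HS_ne hG
  obtain ⟨s₁, h₁, -⟩ := Ef_ctx hG hκ hs₀
  obtain ⟨s, h, -, ν₀, h1, h2, hz₀⟩ := h₁.node hG hk hcon.1
  have hf : IF M (fun _ : ℕ => s.2.2) := IF.const s.2.2
  have hN : ∀ n : Nm M W, GoodR c (fun _ : ℕ => s.2.2) (fun _ G => ev n G) := fun n =>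
    GoodR.ev hf (IF.const n)
  obtain ⟨p, hp, hpP, hpc, hfo⟩ := h.force hG (Q := fun G =>
    (za (ev (s.2.2.nm ν₀) G) = ev (s.2.1.1 κ).2.1 G ∧ ev (s.2.2.nm ν₀) G 0 = i) ∧
    ev (s.2.1.1 κ).2.1 G 0 ≠ 0)
    (Good.and (Good.and (Good.eqR hf (GoodR.za (hN _)) (hN _))
        (GoodF_ev_good hf (IF.const _) (IF.const 0) (IF.const i)))
      (Good.not hf (GoodF_ev_good hf (IF.const _) (IF.const 0) (IF.const 0)))) (by
      rw [hz₀, ← h.key_eq hG]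
      simp only [za_T3, T3_zero]
      exact ⟨⟨trivial, trivial⟩, h0⟩)
  have hB := (h.obey hG ν₀ h1 h2 i hi p hpP hpc (hfo.imp fun G _ _ h => h.1)).2
    (hfo.imp fun G _ _ h => h.2) _ (hG.gen h.hs) hp
  beta_reduce at hB
  rw [hz₀, zx_T3, ← h.perm_eq hG] at hB
  exact hcon.2 hB

end Pool.Agent.H.MP_a163f2_lc
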