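import Pool.Agent.H.MP_a163f2_lc.R.D8c

/-!
# Block R, part D8d: order items, diagonal items, the package
-/

set_option autoImplicit false
set_option linter.unusedSectionVars false
set_option synthInstance.maxSize 1000

namespace Pool.Agent.H.MP_a163f2_lc

open Pool.Agent.H.MP_07d118_lc

universe u v w x

variable {M : Type u} [SetStr M] [ZFC M] [Std M] {W : Type v} [LinearOrder W] [Cd M W] [Om1 M W]
variable {c : W × Hc → ℕ → ℕ} [hL : Fact (Luz M W c)]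
variable {hw : WellFounded ((· < ·) : W → W → Prop)} {GG : Set (HC M W)}

theorem Ef_ctx0 (hG : QGen hw c GG) {κ : W} (hκ : κ ∈ Ef GG) : ∃ s, Ctx GG s κ := by
  obtain ⟨s₀, hs₀⟩ := HS_ne hG
  obtain ⟨s, h, -⟩ := Ef_ctx hG hκ hs₀
  exact ⟨s, h⟩

/-! ### Order items -/

theorem F_ord_lst [Countable M] (hG : QGen hw c GG) {κ : W} (hκ : κ ∈ Ef GG)
    (h0 : keyE GG κ 0 = 1) {η : W} (hη : η ∈ Ef GG) (hlt : η < κ) (h1 : keyE GG η 0 = 1) :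
    ∃ j, Lst (wE GG κ) j (zx (keyE GG η)) := by
  obtain ⟨s, h⟩ := Ef_ctx0 hG hκ
  have h2 := h.lower' hG hlt hη
  have h3 := (h.lower hG hlt h2).2
  obtain ⟨j, hj⟩ := (h.flag1 hG h0).2.2.1 η hlt h2 (by rw [h3, h1])
  rw [h3] at hj
  exact ⟨j, hj⟩

theorem F_ord_def [Countable M] (hG : QGen hw c GG) {κ : W} (hκ : κ ∈ Ef GG)
    (h0 : keyE GG κ 0 = 1) {j : ℕ} (hj : LstDef (wE GG κ) j) :
    ∃ η ∈ Ef GG, η < κ ∧ keyE GG η 0 = 1 ∧ ∀ n k,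
      wE GG κ (2 * Encodable.encode [j, n, k] + 1) = 1 ↔ k = zx (keyE GG η) n := by
  obtain ⟨s, h⟩ := Ef_ctx0 hG hκ
  obtain ⟨η, hlt, h1, h2, h3⟩ := (h.flag1 hG h0).2.2.2 j hj
  have h4 := h.lower hG hlt h1
  rw [h4.2] at h2 h3
  exact ⟨η, h4.1, hlt, h2, h3⟩

/-! ### Diagonal items -/

theorem F_diag_new [Countable M] (hG : QGen hw c GG) {κ : W} (hκ : κ ∈ Ef GG)
    (h0 : keyE GG κ 0 = 2) (x : ℕ → ℕ) {i : ℕ} (hi : i < 2) :
    T3 x (keyE GG κ) i ∉ EE (eE GG κ) := by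
  intro hz
  rcases (eE_spec hG hκ).2.2 _ hz with h1 | ⟨ν, hν, h1⟩
  · have h2 := congrArg (fun z => za z 0) h1
    simp only [zdf, za_T3, T3_zero] at h2
    rw [h0] at h2
    exact absurd h2 (by norm_num)
  · obtain ⟨s, h⟩ := Ef_ctx0 hG hκ
    rw [h.it_eq hG] at hν h1
    have h3 := (h.flag2 hG h0).2.1 ν hν i hi _ (h.gen hG) (h.cond' hG)
    have hnm := (h.val hG).nm ν hν
    have h4 : ev ((s.2.1.1 κ).1.nm ν) (Gs GG s ∩ PP c (s.2.1.1 κ).1) = T3 x (keyE GG κ) i := by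
      rw [h1, ev_restrict (h.val hG) (h.sb hG) (hG.gen h.hs) hnm,
        hG.ev_eq h.hs (hnm.mono (h.val hG) (h.sb hG))]
    apply h3
    rw [h4, h.key_eq' hG, za_T3, T3_zero]
    exact ⟨rfl, rfl⟩

/-- absoluteness from the plan of an item to the final model -/
theorem Ctx.U3_item [Countable M] (hG : QGen hw c GG) {s : Hi M W} {κ : W} (h : Ctx GG s κ)
    {x a : ℕ → ℕ} (hx : x ∈ RR c (s.2.1.1 κ).1 (Gs GG s ∩ PP c (s.2.1.1 κ).1))
    (ha : a ∈ RR c (s.2.1.1 κ).1 (Gs GG s ∩ PP c (s.2.1.1 κ).1))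
    (hU : U3 (RR c (s.2.1.1 κ).1 (Gs GG s ∩ PP c (s.2.1.1 κ).1)) x a) : U3 (RN GG) x a :=
  U3.up (RR_RU (h.val hG) (h.gen hG)) (RN_RU0 hG)
    ((RR_restrict (h.val hG) (h.sb hG) (hG.gen h.hs)).trans (RN_of_RR hG h.hs)) hx ha hU

theorem Obey.empty [Countable M] {I : Item M W} {A : Set (Pl M W)} {g : Pl M W}
    (h : Obey c I A g) (hv : Valid c I.1) (hsb : Sb I.1 g) (hc : I.2.2.1 ∈ PP c I.1)
    (hk : IsNm c I.1 I.2.1) (h2 : Fo c I.1 I.2.2.1 (fun G => ev I.2.1 G 0 = 2)) :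
    Obey c I ∅ g := by
  intro ν hν hν' i hi p hp hpc hfo
  refine ⟨fun h3 => ?_, (h ν hν hν' i hi p hp hpc hfo).2⟩
  exfalso
  obtain ⟨G, hG, hpG⟩ := exists_gen hp
  have h4 := h3 G hG hpG
  have h5 := h2 _ (hG.restrict hv hsb) ⟨hG.up p hpG _ (PP_mono hsb hc) hpc, hc⟩
  beta_reduce at h4 h5
  rw [ev_restrict hv hsb hG hk, h4] at h5
  exact absurd h5 (by norm_num)

theorem F_diag [Countable M] (hG : QGen hw c GG) {κ : W} (hκ : κ ∈ Ef GG)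
    (h0 : keyE GG κ 0 = 2) :
    (wE GG κ 0 = 1 ∧ wE GG κ 1 = 0 ∧ U3 (RN GG) (keyE GG κ) (za (zx (keyE GG κ)))) ∨
    (wE GG κ 0 = 0 ∧ wE GG κ 1 = 1 ∧ U3 (RN GG) (keyE GG κ) (zx (zx (keyE GG κ)))) ∨
    (wE GG κ 0 = 0 ∧ wE GG κ 1 = 0 ∧ ¬ U3 (RN GG) (keyE GG κ) (zx (zx (keyE GG κ))) ∧
      ¬ U3 (RN GG) (keyE GG κ) (za (zx (keyE GG κ)))) := by
  obtain ⟨s, h⟩ := Ef_ctx0 hG hκ
  have hk := h.key_eq' hG
  have hp := h.perm_eq' hG
  have hRk : keyE GG κ ∈ RR c (s.2.1.1 κ).1 (Gs GG s ∩ PP c (s.2.1.1 κ).1) := by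
    rw [← hk]
    exact ev_mem_RR (h.vi hG).key
  have hRz := RR_zx (h.val hG) (h.gen hG) hRk
  rcases (h.flag2 hG h0).2.2 with h1 | h1 | h1
  · have h2 := h1 _ (h.gen hG) (h.cond' hG)
    beta_reduce at h2
    rw [hk, hp] at h2
    exact Or.inl ⟨h2.1, h2.2.1, h.U3_item hG hRk (RR_za (h.val hG) (h.gen hG) hRz) h2.2.2⟩
  · have h2 := h1 _ (h.gen hG) (h.cond' hG)
    beta_reduce at h2
    rw [hk, hp] at h2
    exact Or.inr (Or.inl ⟨h2.1, h2.2.1,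
      h.U3_item hG hRk (RR_zx (h.val hG) (h.gen hG) hRz) h2.2.2⟩)
  · have h2 := h1.1 _ (h.gen hG) (h.cond' hG)
    beta_reduce at h2
    rw [hp] at h2
    have hcon : ¬ (U3 (RN GG) (keyE GG κ) (zx (zx (keyE GG κ))) ∨
        U3 (RN GG) (keyE GG κ) (za (zx (keyE GG κ)))) := by
      intro hU
      have hks := h.key_RR hG
      have hzs := RR_zx (hG.hist h.hs).valid (hG.gen h.hs) hks
      obtain ⟨t, ht, hle, hUt⟩ : ∃ t ∈ HS GG, HLe t s ∧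
          (U3 (RR c t.2.2 (Gs GG t)) (keyE GG κ) (zx (zx (keyE GG κ))) ∨
            U3 (RR c t.2.2 (Gs GG t)) (keyE GG κ) (za (zx (keyE GG κ)))) := by
        rcases hU with hU | hU
        · obtain ⟨t, ht, hle, hUt⟩ := hG.U3_down h.hs hks
            (RR_zx (hG.hist h.hs).valid (hG.gen h.hs) hzs) hU
          exact ⟨t, ht, hle, Or.inl hUt⟩
        · obtain ⟨t, ht, hle, hUt⟩ := hG.U3_down h.hs hks
            (RR_za (hG.hist h.hs).valid (hG.gen h.hs) hzs) hU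
          exact ⟨t, ht, hle, Or.inr hUt⟩
      have h' := h.up hG ht hle
      have hf : IF M (fun _ : ℕ => t.2.2) := IF.const t.2.2
      have hN : ∀ n : Nm M W, GoodR c (fun _ : ℕ => t.2.2) (fun _ G => ev n G) := fun n =>
        GoodR.ev hf (IF.const n)
      obtain ⟨p, hp, hpP, hpc, hfo⟩ := h'.force hG (Q := fun G =>
        U3 (RR c t.2.2 G) (ev (t.2.1.1 κ).2.1 G) (zx (zx (ev (t.2.1.1 κ).2.1 G))) ∨
        U3 (RR c t.2.2 G) (ev (t.2.1.1 κ).2.1 G) (za (zx (ev (t.2.1.1 κ).2.1 G))))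
        (Good.or (Good.U3 hf (hN _) (GoodR.zx (GoodR.zx (hN _))))
          (Good.U3 hf (hN _) (GoodR.za (GoodR.zx (hN _))))) (by
          rw [← h'.key_eq hG]
          exact hUt)
      have h3 := h'.flag2 hG h0
      rcases h3.2.2 with h4 | h4 | h4
      · have h5 := (h4 _ (h'.gen hG) (h'.cond' hG)).1
        rw [h'.perm_eq' hG, h2 0] at h5
        exact absurd h5 (by norm_num)
      · have h5 := (h4 _ (h'.gen hG) (h'.cond' hG)).2.1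
        rw [h'.perm_eq' hG, h2 1] at h5
        exact absurd h5 (by norm_num)
      · exact h4.2 ⟨t.2.2, h'.alm hG, h'.sb hG, (h'.obey hG).empty (h'.val hG) (h'.sb hG)
          (h'.vi hG).cond (h'.vi hG).key h3.1, p, hpP, hpc, hfo⟩
    exact Or.inr (Or.inr ⟨h2 0, h2 1, fun hU => hcon (Or.inl hU), fun hU => hcon (Or.inr hU)⟩)

/-! ### The package -/

theorem exists_pkg0 [Countable M] (hG : QGen hw c GG) :
    Pkg (RN GG) (KN c GG) (Ef GG) (keyE GG) (wE GG) (eE GG) where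
  ksub z hz := hz.1
  key_mem κ hκ := by
    obtain ⟨s, h⟩ := Ef_ctx0 hG hκ
    exact RN_of_RR hG h.hs (h.key_RR hG)
  w_mem κ hκ := by
    obtain ⟨s, h⟩ := Ef_ctx0 hG hκ
    exact RN_of_RR hG h.hs (h.perm_RR hG)
  e_mem κ hκ := (eE_spec hG hκ).1
  inj κ hκ η hη he := F_inj hG hκ hη he
  side_ex a ha h0 := F_side_ex hG ha h0
  side_some κ hκ h0 x hx := F_side_some hG hκ h0 hx
  side_one κ hκ h0 x _ h1 h2 := F_side_one hG hκ h0 h1 h2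
  side_left κ hκ h0 x hx hU hk := F_side_left hG hκ h0 hx hU hk
  side_right κ hκ h0 x hx hU hk := F_side_right hG hκ h0 hx hU hk
  w_yes κ hκ h0 x hx i hi hw1 := F_w_yes hG hκ h0 hx hi hw1
  w_no κ hκ h0 x _ i hi hk := F_w_no hG hκ h0 hi hk
  ord_ex q hq := F_ord_ex hG hq
  ord_za κ hκ h0 := by
    obtain ⟨s, h⟩ := Ef_ctx0 hG hκ
    exact (h.flag1 hG h0).1
  ord_dig κ hκ h0 := by
    obtain ⟨s, h⟩ := Ef_ctx0 hG hκ
    exact (h.flag1 hG h0).2.1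
  ord_lst κ hκ h0 η hη hlt h1 := F_ord_lst hG hκ h0 hη hlt h1
  ord_def κ hκ h0 j hj := F_ord_def hG hκ h0 hj
  diag_ex b hb := F_diag_ex hG hb
  diag_new κ hκ h0 x _ i hi := F_diag_new hG hκ h0 x hi
  diag κ hκ h0 := F_diag hG hκ h0

end Pool.Agent.H.MP_a163f2_lc
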