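import Pool.Agent.H.MP_a163f2_lc.R.Int

/-!
# Block R1: generic filters and evaluation of names
-/

set_option autoImplicit false
set_option linter.unusedSectionVars false

namespace Pool.Agent.H.MP_a163f2_lc

open Pool.Agent.H.MP_07d118_lc

universe u v w

variable {M : Type u} [SetStr M] [ZF M] [Std M] {W : Type v} [LinearOrder W] [Cd M W] [Om1 M W]
variable {c : W × Hc → ℕ → ℕ} [hL : Fact (Luz M W c)]
variable {T : Type w} [Cd M T]

theorem iset_countable [Countable M] {T : Type w} [Cd M T] : Countable (ISet M T) := by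
  have h : Function.Injective (Cd.code : ISet M T → M) := Cd.inj
  exact h.countable

/-- A countable model has generic filters (Rasiowa-Sikorski). -/
theorem exists_gen [Countable M] {f : Pl M W} {p : Cond W} (hp : p ∈ PP c f) :
    ∃ G, Gen c f G ∧ p ∈ G := by
  classical
  haveI : Countable (ISet M (Cond W)) := iset_countable
  haveI : Nonempty (ISet M (Cond W)) := ⟨ISet.mk (In.const True)⟩
  obtain ⟨e, he⟩ := exists_surjective_nat (ISet M (Cond W))
  have step : ∀ (D : ISet M (Cond W)) (q : {q // q ∈ PP c f}), ∃ r : {r // r ∈ PP c f},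
      CLe c r.1 q.1 ∧ ((∀ p ∈ PP c f, ∃ q ∈ PP c f, CLe c q p ∧ q ∈ D) → r.1 ∈ D) := by
    intro D q
    by_cases hD : ∀ p ∈ PP c f, ∃ q ∈ PP c f, CLe c q p ∧ q ∈ D
    · obtain ⟨r, hr, h1, h2⟩ := hD q.1 q.2
      exact ⟨⟨r, hr⟩, h1, fun _ => h2⟩
    · exact ⟨q, CLe.refl _, fun h => absurd h hD⟩
  choose s hs1 hs2 using step
  let a : ℕ → {q // q ∈ PP c f} := fun n => Nat.rec ⟨p, hp⟩ (fun n q => s (e n) q) n
  have ha0 : a 0 = ⟨p, hp⟩ := rfl
  have haS : ∀ n, a (n + 1) = s (e n) (a n) := fun n => rfl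
  have hmono : ∀ m n, m ≤ n → CLe c (a n).1 (a m).1 := by
    intro m n h
    induction n, h using Nat.le_induction with
    | base => exact CLe.refl _
    | succ n _ ih =>
      rw [haS]
      exact (hs1 _ _).trans ih
  refine ⟨{q | q ∈ PP c f ∧ ∃ n, CLe c (a n).1 q}, ⟨?_, ?_, ?_, ?_, ?_⟩, hp, 0, CLe.refl _⟩
  · rintro q ⟨h1, -⟩
    exact h1
  · exact ⟨p, hp, 0, CLe.refl _⟩
  · rintro q ⟨-, n, h2⟩ r hr h3
    exact ⟨hr, n, h2.trans h3⟩
  · rintro q ⟨-, n, h2⟩ r ⟨-, m, h4⟩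
    refine ⟨(a (max n m)).1, ⟨(a (max n m)).2, max n m, CLe.refl _⟩, ?_, ?_⟩
    · exact (hmono _ _ (le_max_left _ _)).trans h2
    · exact (hmono _ _ (le_max_right _ _)).trans h4
  · intro D hD
    obtain ⟨n, rfl⟩ := he D
    refine ⟨(a (n + 1)).1, ⟨(a (n + 1)).2, n + 1, CLe.refl _⟩, ?_⟩
    rw [haS]
    exact hs2 _ _ hD

/-- genericity, local form: a set which is dense below a member of the filter -/
theorem Gen.meets_below {f : Pl M W} {G : Set (Cond W)} (hG : Gen c f G) {p : Cond W} (hp : p ∈ G)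
    (D : ISet M (Cond W)) (hD : ∀ q ∈ PP c f, CLe c q p → ∃ r ∈ PP c f, CLe c r q ∧ r ∈ D) :
    ∃ q ∈ G, CLe c q p ∧ q ∈ D := by
  have hin : In M (fun r : Cond W => (CLe c r p ∧ r ∈ D) ∨
      ¬ ∃ r' : Cond W, r' ∈ PP c f ∧ CLe c r' r ∧ CLe c r' p) := by
    refine In.or (In.and (In.cle IF.id (IF.const p)) (In.mem IF.id (IF.const D))) (In.not ?_)
    refine In.ex (P := fun (r r' : Cond W) => r' ∈ PP c f ∧ CLe c r' r ∧ CLe c r' p) ?_
    exact In.and (In.pp (IF.const f) IF.snd) (In.and (In.cle IF.snd IF.fst)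
      (In.cle IF.snd (IF.const p)))
  obtain ⟨r, hr, h1⟩ := hG.meets (ISet.mk hin) (by
    intro q hq
    by_cases h : ∃ r' : Cond W, r' ∈ PP c f ∧ CLe c r' q ∧ CLe c r' p
    · obtain ⟨r', hr', h2, h3⟩ := h
      obtain ⟨r, hr, h4, h5⟩ := hD r' hr' h3
      exact ⟨r, hr, h4.trans h2, Or.inl ⟨h4.trans h3, h5⟩⟩
    · exact ⟨q, hq, CLe.refl _, Or.inr h⟩)
  rcases h1 with ⟨h2, h3⟩ | h2
  · exact ⟨r, hr, h2, h3⟩
  · obtain ⟨r', hr', h3, h4⟩ := hG.dir r hr p hp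
    exact absurd ⟨r', hG.sub _ hr', h3, h4⟩ h2

theorem Gen.crs_mem {f g : Pl M W} (hf : Valid c f) (h : Sb f g) {G : Set (Cond W)}
    (hG : Gen c g G) {p : Cond W} (hp : p ∈ G) : crs f.dom p ∈ G ∩ PP c f := by
  have h1 := crs_PP hf h (hG.sub p hp)
  exact ⟨hG.up p hp _ (PP_mono h h1) (le_crs _ _), h1⟩

/-- Lemma 1.6: the restriction of a generic filter to a subplan is generic. -/
theorem Gen.restrict {f g : Pl M W} (hf : Valid c f) (h : Sb f g) {G : Set (Cond W)}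
    (hG : Gen c g G) : Gen c f (G ∩ PP c f) where
  sub p hp := hp.2
  ne := ⟨(∅, ∅), hG.empty_mem, empty_PP f⟩
  up p hp q hq hle := ⟨hG.up p hp.1 q (PP_mono h hq) hle, hq⟩
  dir p hp q hq := by
    obtain ⟨r, hr, h1, h2⟩ := hG.dir p hp.1 q hq.1
    exact ⟨crs f.dom r, Gen.crs_mem hf h hG hr, crs_le_of_le hp.2 h1, crs_le_of_le hq.2 h2⟩
  meets D hD := by
    have hin : In M (fun p : Cond W => ∃ r : Cond W, r ∈ PP c f ∧ r ∈ D ∧ CLe c p r) := by
      refine In.ex (P := fun (p r : Cond W) => r ∈ PP c f ∧ r ∈ D ∧ CLe c p r) ?_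
      exact In.and (In.pp (IF.const f) IF.snd) (In.and (In.mem IF.snd (IF.const D))
        (In.cle IF.fst IF.snd))
    obtain ⟨p, hp, r, hr, h1, h2⟩ := hG.meets (ISet.mk hin) (by
      intro p hp
      obtain ⟨r, hr, h1, h2⟩ := hD _ (crs_PP hf h hp)
      obtain ⟨h3, h4, h5⟩ := amal h hp hr h1
      exact ⟨_, h3, h4, r, hr, h2, h5⟩)
    exact ⟨r, ⟨hG.up p hp r (PP_mono h hr) h2, hr⟩, h1⟩

theorem ini_length (x : ℕ → ℕ) (k : ℕ) : (ini x k).length = k := by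
  simp [ini]

theorem pre_getD {x : ℕ → ℕ} {m : Fs} : Pre x m ↔ ∀ i < m.length, m.getD i 0 = x i := by
  unfold Pre ini
  constructor
  · intro h i hi
    rw [← h]
    simp [List.getD_eq_getElem?_getD, hi]
  · intro h
    refine List.ext_getElem (by simp) fun i h1 h2 => ?_
    have h3 := h i h2
    rw [List.getD_eq_getElem _ _ h2] at h3
    simp [h3]

theorem pre_ini (x : ℕ → ℕ) (k : ℕ) : Pre x (ini x k) := by
  unfold Pre
  rw [ini_length]

theorem Pre.of_prefix {x : ℕ → ℕ} {m m' : Fs} (h : Pre x m') (hm : m <+: m') : Pre x m := by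
  rw [pre_getD] at h ⊢
  intro i hi
  obtain ⟨s, rfl⟩ := hm
  have h1 := h i (by rw [List.length_append]; omega)
  rw [← h1, List.getD_append _ _ _ _ hi]

theorem Pre.prefix_of_le {x : ℕ → ℕ} {m m' : Fs} (h : Pre x m) (h' : Pre x m')
    (hl : m.length ≤ m'.length) : m <+: m' := by
  rw [List.prefix_iff_eq_take]
  unfold Pre ini at h h'
  rw [← h, ← h']
  refine List.ext_getElem (by simp [hl]) fun i h1 h2 => by simp

theorem Pre.comparable {x : ℕ → ℕ} {m m' : Fs} (h : Pre x m) (h' : Pre x m') :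
    m <+: m' ∨ m' <+: m := by
  rcases le_total m.length m'.length with hl | hl
  · exact Or.inl (h.prefix_of_le h' hl)
  · exact Or.inr (h'.prefix_of_le h hl)

theorem Ev.unique {n : Nm M W} {G : Set (Cond W)} {x y : ℕ → ℕ} (hx : Ev n G x) (hy : Ev n G y) :
    x = y := by
  funext k
  obtain ⟨q, t, h1, h2, h3⟩ := hx.2 (k + 1)
  have h4 := pre_getD.1 (hx.1 q t h1 h2) k (by omega)
  have h5 := pre_getD.1 (hy.1 q t h1 h2) k (by omega)
  rw [← h4, ← h5]

/-- the value of a name -/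
theorem Ev_ev {f : Pl M W} {G : Set (Cond W)} (hG : Gen c f G) {n : Nm M W} (hn : IsNm c f n) :
    Ev n G (ev n G) := by
  have hex : ∀ k : ℕ, ∃ t, ∃ q, (q, t) ∈ n ∧ q ∈ G ∧ k ≤ t.length := by
    intro k
    have hin : In M (fun r : Cond W => ∃ q : Cond W, ∃ t : Fs, (q, t) ∈ n ∧ CLe c r q ∧
        k ≤ t.length) := by
      refine In.ex (P := fun (r q : Cond W) => ∃ t : Fs, (q, t) ∈ n ∧ CLe c r q ∧
        k ≤ t.length) ?_
      refine In.ex (P := fun (y : Cond W × Cond W) (t : Fs) => (y.2, t) ∈ n ∧ CLe c y.1 y.2 ∧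
        k ≤ t.length) ?_
      refine In.and (In.mem ((IF.comp IF.snd IF.fst).pair IF.snd) (IF.const n)) (In.and ?_ ?_)
      · exact In.cle (IF.comp IF.fst IF.fst) (IF.comp IF.snd IF.fst)
      · exact In.le (IF.const k) (IF.length IF.snd)
    obtain ⟨r, hr, q, t, h1, h2, h3⟩ := hG.meets (ISet.mk hin) (by
      intro p hp
      obtain ⟨r, hr, h1, q, t, h2, h3, h4⟩ := hn.tot k p hp
      exact ⟨r, hr, h1, q, t, h2, h3, h4⟩)
    exact ⟨t, q, h1, hG.up r hr q (hn.sub q t h1) h2, h3⟩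
  have hcomp : ∀ q t q' t', (q, t) ∈ n → (q', t') ∈ n → q ∈ G → q' ∈ G → t <+: t' ∨ t' <+: t := by
    intro q t q' t' h1 h2 h3 h4
    obtain ⟨r, hr, h5, h6⟩ := hG.dir q h3 q' h4
    exact hn.cons q t q' t' h1 h2 r (hG.sub r hr) h5 h6
  choose t q h1 h2 h3 using hex
  have hE : Ev n G (fun k => (t (k + 1)).getD k 0) := by
    refine ⟨fun q' t' h4 h5 => ?_, fun k => ⟨q k, t k, h1 k, h2 k, h3 k⟩⟩
    rw [pre_getD]
    intro i hi
    have h6 := h3 (i + 1)
    rcases hcomp _ _ _ _ h4 (h1 (i + 1)) h5 (h2 (i + 1)) with ⟨s, hs⟩ | ⟨s, hs⟩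
    · show t'.getD i 0 = (t (i + 1)).getD i 0
      rw [← hs, List.getD_append _ _ _ _ hi]
    · show t'.getD i 0 = (t (i + 1)).getD i 0
      rw [← hs, List.getD_append _ _ _ _ (by omega)]
  have hex : ∃ x, Ev n G x := ⟨_, hE⟩
  unfold ev
  rw [dif_pos hex]
  exact hex.choose_spec

theorem ev_pre {f : Pl M W} {G : Set (Cond W)} (hG : Gen c f G) {n : Nm M W} (hn : IsNm c f n)
    {q : Cond W} {t : Fs} (h : (q, t) ∈ n) (hq : q ∈ G) : Pre (ev n G) t :=
  (Ev_ev hG hn).1 q t h hq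

/-- Every initial segment of the value is decided by a member of the filter. -/
theorem ev_witness {f : Pl M W} {G : Set (Cond W)} (hG : Gen c f G) {n : Nm M W}
    (hn : IsNm c f n) (k : ℕ) :
    ∃ q t, (q, t) ∈ n ∧ q ∈ G ∧ k ≤ t.length ∧ Pre (ev n G) t := by
  obtain ⟨q, t, h1, h2, h3⟩ := (Ev_ev hG hn).2 k
  exact ⟨q, t, h1, h2, h3, ev_pre hG hn h1 h2⟩

theorem Ev.ev_eq {n : Nm M W} {G : Set (Cond W)} {x : ℕ → ℕ} (h : Ev n G x) : ev n G = x := by
  have hex : ∃ x, Ev n G x := ⟨x, h⟩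
  unfold ev
  rw [dif_pos hex]
  exact hex.choose_spec.unique h

/-- names over a subplan have the same value -/
theorem ev_restrict {f g : Pl M W} (hf : Valid c f) (h : Sb f g) {G : Set (Cond W)}
    (hG : Gen c g G) {n : Nm M W} (hn : IsNm c f n) : ev n (G ∩ PP c f) = ev n G := by
  have h1 := Ev_ev hG (hn.mono hf h)
  refine Ev.ev_eq ⟨fun q t h2 h3 => h1.1 q t h2 h3.1, fun k => ?_⟩
  obtain ⟨q, t, h2, h3, h4⟩ := h1.2 k
  exact ⟨q, t, h2, ⟨h3, hn.sub q t h2⟩, h4⟩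

theorem RR_restrict {f g : Pl M W} (hf : Valid c f) (h : Sb f g) {G : Set (Cond W)}
    (hG : Gen c g G) : RR c f (G ∩ PP c f) ⊆ RR c g G := by
  rintro x ⟨n, hn, rfl⟩
  exact ⟨n, hn.mono hf h, (ev_restrict hf h hG hn).symm⟩

theorem ev_mem_RR {f : Pl M W} {G : Set (Cond W)} {n : Nm M W} (hn : IsNm c f n) :
    ev n G ∈ RR c f G := ⟨n, hn, rfl⟩

/-! ### The forcing relation -/

theorem Fo.mono {f : Pl M W} {p q : Cond W} {Q : Set (Cond W) → Prop} (hp : p ∈ PP c f)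
    (h : Fo c f p Q) (hq : CLe c q p) : Fo c f q Q :=
  fun G hG hqG => h G hG (hG.up q hqG p hp hq)

theorem Fo.imp {f : Pl M W} {p : Cond W} {Q Q' : Set (Cond W) → Prop}
    (h : Fo c f p Q) (h' : ∀ G, Gen c f G → p ∈ G → Q G → Q' G) : Fo c f p Q' :=
  fun G hG hp => h' G hG hp (h G hG hp)

theorem Fo.and {f : Pl M W} {p : Cond W} {Q Q' : Set (Cond W) → Prop}
    (h : Fo c f p Q) (h' : Fo c f p Q') : Fo c f p (fun G => Q G ∧ Q' G) :=
  fun G hG hp => ⟨h G hG hp, h' G hG hp⟩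

/-- forcing over a subplan gives forcing over the plan -/
theorem Fo.up {f g : Pl M W} (hf : Valid c f) (h : Sb f g) {p p' : Cond W}
    {Q : Set (Cond W) → Prop} (hp : p ∈ PP c f) (hQ : Fo c f p Q) (hle : CLe c p' p) :
    Fo c g p' (fun G => Q (G ∩ PP c f)) :=
  fun _ hG hp' => hQ _ (hG.restrict hf h) ⟨hG.up _ hp' _ (PP_mono h hp) hle, hp⟩

end Pool.Agent.H.MP_a163f2_lc
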