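import Pool.Agent.H.MP_a163f2_lc.R.Gen

/-!
# Block R1: statements with an internal forcing relation

`Good c f Q`: for `t` in the coded type `T`, `f t` is a plan, `Q t G` a property of the generic
filters `G` of `f t`; it is good if there is an internal `F` such that `Q t G` holds iff `F t p`
holds for some `p` in `G`.
-/

set_option autoImplicit false
set_option linter.unusedSectionVars false

namespace Pool.Agent.H.MP_a163f2_lc

open Pool.Agent.H.MP_07d118_lc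

universe u v w x

variable {M : Type u} [SetStr M] [ZF M] [Std M] {W : Type v} [LinearOrder W] [Cd M W] [Om1 M W]
variable {c : W × Hc → ℕ → ℕ} [hL : Fact (Luz M W c)]
variable {T : Type w} [Cd M T] {S : Type x} [Cd M S]

/-- `Q` has an internal truth definition. -/
def Good (c : W × Hc → ℕ → ℕ) {T : Type w} [Cd M T] (f : T → Pl M W)
    (Q : T → Set (Cond W) → Prop) : Prop :=
  ∃ F : T → Cond W → Prop, In M (fun y : T × Cond W => F y.1 y.2) ∧
    (∀ t p, F t p → p ∈ PP c (f t)) ∧ ∀ t G, Gen c (f t) G → (Q t G ↔ ∃ p ∈ G, F t p)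

theorem Good.congr {f : T → Pl M W} {Q Q' : T → Set (Cond W) → Prop} (h : Good c f Q)
    (e : ∀ t G, Gen c (f t) G → (Q' t G ↔ Q t G)) : Good c f Q' := by
  obtain ⟨F, h1, h2, h3⟩ := h
  exact ⟨F, h1, h2, fun t G hG => (e t G hG).trans (h3 t G hG)⟩

theorem Good.of_in {f : T → Pl M W} {P : T → Prop} (h : In M P) : Good c f (fun t _ => P t) := by
  refine ⟨fun t p => P t ∧ p = (∅, ∅), In.and (h.comp IF.fst) (In.eq IF.snd (IF.const _)), ?_, ?_⟩
  · rintro t p ⟨-, rfl⟩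
    exact empty_PP _
  · intro t G hG
    constructor
    · intro h
      exact ⟨_, hG.empty_mem, h, rfl⟩
    · rintro ⟨p, -, h, -⟩
      exact h

theorem Good.mem {f : T → Pl M W} (hf : IF M f) {p : T → Cond W} (hp : IF M p) :
    Good c f (fun t G => p t ∈ G) := by
  refine ⟨fun t q => q = p t ∧ q ∈ PP c (f t), In.and (In.eq IF.snd (IF.comp hp IF.fst))
    (In.pp (IF.comp hf IF.fst) IF.snd), fun t q h => h.2, fun t G hG => ⟨fun h => ?_, ?_⟩⟩
  · exact ⟨_, h, rfl, hG.sub _ h⟩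
  · rintro ⟨q, h1, rfl, -⟩
    exact h1

theorem Good.ex {f : T → Pl M W} {Q : T → S → Set (Cond W) → Prop}
    (h : Good c (fun y : T × S => f y.1) (fun y G => Q y.1 y.2 G)) :
    Good c f (fun t G => ∃ s, Q t s G) := by
  obtain ⟨F, h1, h2, h3⟩ := h
  refine ⟨fun t p => ∃ s, F (t, s) p, ?_, ?_, fun t G hG => ?_⟩
  · refine In.ex (P := fun (y : T × Cond W) (s : S) => F (y.1, s) y.2) ?_
    exact In.comp2 (P := F) h1 ((IF.comp IF.fst IF.fst).pair IF.snd) (IF.comp IF.snd IF.fst)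
  · rintro t p ⟨s, hs⟩
    exact h2 (t, s) p hs
  · constructor
    · rintro ⟨s, hs⟩
      obtain ⟨p, hp, h⟩ := (h3 (t, s) G hG).1 hs
      exact ⟨p, hp, s, h⟩
    · rintro ⟨p, hp, s, h⟩
      exact ⟨s, (h3 (t, s) G hG).2 ⟨p, hp, h⟩⟩

theorem Good.not {f : T → Pl M W} (hf : IF M f) {Q : T → Set (Cond W) → Prop} (h : Good c f Q) :
    Good c f (fun t G => ¬ Q t G) := by
  obtain ⟨F, h1, h2, h3⟩ := h
  have hE : In M (fun y : T × Cond W => ∃ p : Cond W, F y.1 p ∧ CLe c y.2 p) := by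
    refine In.ex (P := fun (y : T × Cond W) (p : Cond W) => F y.1 p ∧ CLe c y.2 p) ?_
    exact In.and (In.comp2 (P := F) h1 (IF.comp IF.fst IF.fst) IF.snd)
      (In.cle (IF.comp IF.snd IF.fst) IF.snd)
  have hN : In M (fun y : T × Cond W => y.2 ∈ PP c (f y.1) ∧ ∀ r : Cond W, r ∈ PP c (f y.1) →
      CLe c r y.2 → ¬ ∃ p : Cond W, F y.1 p ∧ CLe c r p) := by
    refine In.and (In.pp (IF.comp hf IF.fst) IF.snd) ?_
    refine In.all (P := fun (y : T × Cond W) (r : Cond W) => r ∈ PP c (f y.1) →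
      CLe c r y.2 → ¬ ∃ p : Cond W, F y.1 p ∧ CLe c r p) ?_
    refine In.imp (In.pp (IF.comp hf (IF.comp IF.fst IF.fst)) IF.snd) (In.imp
      (In.cle IF.snd (IF.comp IF.snd IF.fst)) (In.not ?_))
    exact In.comp2 (P := fun t r => ∃ p : Cond W, F t p ∧ CLe c r p) hE
      (IF.comp IF.fst IF.fst) IF.snd
  refine ⟨fun t p => p ∈ PP c (f t) ∧ ∀ r : Cond W, r ∈ PP c (f t) →
      CLe c r p → ¬ ∃ p : Cond W, F t p ∧ CLe c r p, hN, fun t p h => h.1, fun t G hG => ?_⟩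
  constructor
  · intro hQ
    have hin : In M (fun p : Cond W => (p ∈ PP c (f t) ∧ ∀ r : Cond W, r ∈ PP c (f t) →
      CLe c r p → ¬ ∃ p : Cond W, F t p ∧ CLe c r p) ∨ ∃ p' : Cond W, F t p' ∧ CLe c p p') :=
      In.or (In.fix (P := fun t p => p ∈ PP c (f t) ∧ ∀ r : Cond W, r ∈ PP c (f t) →
        CLe c r p → ¬ ∃ p : Cond W, F t p ∧ CLe c r p) hN t)
        (In.fix (P := fun t r => ∃ p : Cond W, F t p ∧ CLe c r p) hE t)
    obtain ⟨p, hp, h4⟩ := hG.meets (ISet.mk hin) (by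
      intro q hq
      by_cases h : ∃ r : Cond W, r ∈ PP c (f t) ∧ CLe c r q ∧ ∃ p : Cond W, F t p ∧ CLe c r p
      · obtain ⟨r, hr, h5, h6⟩ := h
        exact ⟨r, hr, h5, Or.inr h6⟩
      · exact ⟨q, hq, CLe.refl _, Or.inl ⟨hq, fun r hr h5 h6 => h ⟨r, hr, h5, h6⟩⟩⟩)
    rcases h4 with h4 | ⟨p', h5, h6⟩
    · exact ⟨p, hp, h4⟩
    · exact absurd ((h3 t G hG).2 ⟨p', hG.up p hp p' (h2 t p' h5) h6, h5⟩) hQ
  · rintro ⟨p, hp, -, h4⟩ hQ
    obtain ⟨p', hp', h5⟩ := (h3 t G hG).1 hQ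
    obtain ⟨r, hr, h6, h7⟩ := hG.dir p hp p' hp'
    exact h4 r (hG.sub r hr) h6 ⟨p', h5, h7⟩

theorem Good.and {f : T → Pl M W} {Q Q' : T → Set (Cond W) → Prop} (h : Good c f Q)
    (h' : Good c f Q') : Good c f (fun t G => Q t G ∧ Q' t G) := by
  obtain ⟨F, h1, h2, h3⟩ := h
  obtain ⟨F', h1', h2', h3'⟩ := h'
  refine ⟨fun t p => ∃ p1 : Cond W, ∃ p2 : Cond W, F t p1 ∧ F' t p2 ∧ p = cup p1 p2 ∧
    CLe c p p1 ∧ CLe c p p2, ?_, ?_, fun t G hG => ?_⟩
  · refine In.ex (P := fun (y : T × Cond W) (p1 : Cond W) => ∃ p2 : Cond W, F y.1 p1 ∧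
      F' y.1 p2 ∧ y.2 = cup p1 p2 ∧ CLe c y.2 p1 ∧ CLe c y.2 p2) ?_
    refine In.ex (P := fun (y : (T × Cond W) × Cond W) (p2 : Cond W) => F y.1.1 y.2 ∧
      F' y.1.1 p2 ∧ y.1.2 = cup y.2 p2 ∧ CLe c y.1.2 y.2 ∧ CLe c y.1.2 p2) ?_
    refine In.and (In.comp2 (P := F) h1 (IF.comp IF.fst (IF.comp IF.fst IF.fst))
      (IF.comp IF.snd IF.fst)) (In.and (In.comp2 (P := F') h1'
      (IF.comp IF.fst (IF.comp IF.fst IF.fst)) IF.snd) (In.and ?_ (In.and ?_ ?_)))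
    · exact In.eq (IF.comp IF.snd (IF.comp IF.fst IF.fst)) (IF.cup (IF.comp IF.snd IF.fst) IF.snd)
    · exact In.cle (IF.comp IF.snd (IF.comp IF.fst IF.fst)) (IF.comp IF.snd IF.fst)
    · exact In.cle (IF.comp IF.snd (IF.comp IF.fst IF.fst)) IF.snd
  · rintro t p ⟨p1, p2, h4, h5, rfl, h6, h7⟩
    exact PP_cup (h2 t p1 h4) (h2' t p2 h5) h6 h7
  · constructor
    · rintro ⟨hQ, hQ'⟩
      obtain ⟨p1, hp1, h4⟩ := (h3 t G hG).1 hQ
      obtain ⟨p2, hp2, h5⟩ := (h3' t G hG).1 hQ'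
      obtain ⟨h6, h7, h8⟩ := hG.cup_mem hp1 hp2
      exact ⟨_, h6, p1, p2, h4, h5, rfl, h7, h8⟩
    · rintro ⟨p, hp, p1, p2, h4, h5, -, h6, h7⟩
      exact ⟨(h3 t G hG).2 ⟨p1, hG.up p hp p1 (h2 t p1 h4) h6, h4⟩,
        (h3' t G hG).2 ⟨p2, hG.up p hp p2 (h2' t p2 h5) h7, h5⟩⟩

theorem Good.or {f : T → Pl M W} {Q Q' : T → Set (Cond W) → Prop} (h : Good c f Q)
    (h' : Good c f Q') : Good c f (fun t G => Q t G ∨ Q' t G) := by
  obtain ⟨F, h1, h2, h3⟩ := h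
  obtain ⟨F', h1', h2', h3'⟩ := h'
  refine ⟨fun t p => F t p ∨ F' t p, In.or h1 h1', ?_, fun t G hG => ?_⟩
  · rintro t p (h | h)
    · exact h2 t p h
    · exact h2' t p h
  · constructor
    · rintro (h | h)
      · obtain ⟨p, hp, h4⟩ := (h3 t G hG).1 h
        exact ⟨p, hp, Or.inl h4⟩
      · obtain ⟨p, hp, h4⟩ := (h3' t G hG).1 h
        exact ⟨p, hp, Or.inr h4⟩
    · rintro ⟨p, hp, h | h⟩
      · exact Or.inl ((h3 t G hG).2 ⟨p, hp, h⟩)
      · exact Or.inr ((h3' t G hG).2 ⟨p, hp, h⟩)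

theorem Good.imp {f : T → Pl M W} (hf : IF M f) {Q Q' : T → Set (Cond W) → Prop}
    (h : Good c f Q) (h' : Good c f Q') : Good c f (fun t G => Q t G → Q' t G) :=
  ((h.not hf).or h').congr fun _ _ _ => by tauto

theorem Good.iff {f : T → Pl M W} (hf : IF M f) {Q Q' : T → Set (Cond W) → Prop}
    (h : Good c f Q) (h' : Good c f Q') : Good c f (fun t G => Q t G ↔ Q' t G) :=
  ((h.imp hf h').and (h'.imp hf h)).congr fun _ _ _ => by tauto

theorem Good.all {f : T → Pl M W} (hf : IF M f) {Q : T → S → Set (Cond W) → Prop}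
    (h : Good c (fun y : T × S => f y.1) (fun y G => Q y.1 y.2 G)) :
    Good c f (fun t G => ∀ s, Q t s G) :=
  ((Good.ex (Q := fun t s G => ¬ Q t s G) (h.not (IF.comp hf IF.fst))).not hf).congr
    fun _ _ _ => by simp

/-- substitution of an internal function for the context -/
theorem Good.comp {f : T → Pl M W} {Q : T → Set (Cond W) → Prop} (h : Good c f Q) {k : S → T}
    (hk : IF M k) : Good c (fun s => f (k s)) (fun s G => Q (k s) G) := by
  obtain ⟨F, h1, h2, h3⟩ := h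
  exact ⟨fun s p => F (k s) p, In.comp2 (P := F) h1 (IF.comp hk IF.fst) IF.snd,
    fun s p h => h2 (k s) p h, fun s G hG => h3 (k s) G hG⟩

/-! ### Forcing and truth -/

/-- The truth lemma. -/
theorem Good.truth {f : T → Pl M W} (hf : IF M f) {Q : T → Set (Cond W) → Prop} (h : Good c f Q)
    {t : T} {G : Set (Cond W)} (hG : Gen c (f t) G) (hQ : Q t G) :
    ∃ p ∈ G, Fo c (f t) p (Q t) := by
  obtain ⟨F, h1, h2, h3⟩ := h
  obtain ⟨p, hp, h4⟩ := (h3 t G hG).1 hQ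
  exact ⟨p, hp, fun G' hG' hp' => (h3 t G' hG').2 ⟨p, hp', h4⟩⟩

/-- The forcing relation is internal. -/
theorem Good.fo [Countable M] {f : T → Pl M W} (hf : IF M f) {Q : T → Set (Cond W) → Prop}
    (h : Good c f Q) {p : T → Cond W} (hp : IF M p) :
    In M (fun t => Fo c (f t) (p t) (Q t)) := by
  obtain ⟨F, h1, h2, h3⟩ := h
  have hE : In M (fun y : T × Cond W => ∃ p : Cond W, F y.1 p ∧ CLe c y.2 p) := by
    refine In.ex (P := fun (y : T × Cond W) (p : Cond W) => F y.1 p ∧ CLe c y.2 p) ?_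
    exact In.and (In.comp2 (P := F) h1 (IF.comp IF.fst IF.fst) IF.snd)
      (In.cle (IF.comp IF.snd IF.fst) IF.snd)
  have hin : In M (fun t => p t ∉ PP c (f t) ∨ ∀ r : Cond W, r ∈ PP c (f t) → CLe c r (p t) →
      ∃ r' : Cond W, r' ∈ PP c (f t) ∧ CLe c r' r ∧ ∃ p0 : Cond W, F t p0 ∧ CLe c r' p0) := by
    refine In.or (In.not (In.pp hf hp)) ?_
    refine In.all (P := fun (t : T) (r : Cond W) => r ∈ PP c (f t) → CLe c r (p t) →
      ∃ r' : Cond W, r' ∈ PP c (f t) ∧ CLe c r' r ∧ ∃ p0 : Cond W, F t p0 ∧ CLe c r' p0) ?_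
    refine In.imp (In.pp (IF.comp hf IF.fst) IF.snd) (In.imp (In.cle IF.snd (IF.comp hp IF.fst)) ?_)
    refine In.ex (P := fun (y : T × Cond W) (r' : Cond W) => r' ∈ PP c (f y.1) ∧ CLe c r' y.2 ∧
      ∃ p0 : Cond W, F y.1 p0 ∧ CLe c r' p0) ?_
    refine In.and (In.pp (IF.comp hf (IF.comp IF.fst IF.fst)) IF.snd) (In.and
      (In.cle IF.snd (IF.comp IF.snd IF.fst)) ?_)
    exact In.comp2 (P := fun t r => ∃ p : Cond W, F t p ∧ CLe c r p) hE
      (IF.comp IF.fst IF.fst) IF.snd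
  refine hin.congr fun t => ?_
  constructor
  · intro hFo
    by_cases hpt : p t ∈ PP c (f t)
    · refine Or.inr fun r hr hle => ?_
      obtain ⟨G, hG, hrG⟩ := exists_gen hr
      obtain ⟨p0, hp0, h4⟩ := (h3 t G hG).1 (hFo G hG (hG.up r hrG _ hpt hle))
      obtain ⟨r', hr', h5, h6⟩ := hG.dir r hrG p0 hp0
      exact ⟨r', hG.sub r' hr', h5, p0, h4, h6⟩
    · exact Or.inl hpt
  · rintro (hpt | hd) G hG hpG
    · exact absurd (hG.sub _ hpG) hpt
    · obtain ⟨r', hr', h4, p0, h5, h6⟩ := hG.meets_below hpG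
        (ISet.mk (In.fix (P := fun t r => ∃ p : Cond W, F t p ∧ CLe c r p) hE t))
        (fun q hq hle => by
          obtain ⟨r', hr', h4, h5⟩ := hd q hq hle
          exact ⟨r', hr', h4, h5⟩)
      exact (h3 t G hG).2 ⟨p0, hG.up r' hr' p0 (h2 t p0 h5) h6, h5⟩

/-- If `p` does not force `Q`, some extension forces the negation. -/
theorem Good.exists_not [Countable M] {f : T → Pl M W} (hf : IF M f)
    {Q : T → Set (Cond W) → Prop} (h : Good c f Q) {t : T} {p : Cond W} (hp : p ∈ PP c (f t))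
    (hn : ¬ Fo c (f t) p (Q t)) :
    ∃ r ∈ PP c (f t), CLe c r p ∧ Fo c (f t) r (fun G => ¬ Q t G) := by
  unfold Fo at hn
  push Not at hn
  obtain ⟨G, hG, hpG, hQ⟩ := hn
  obtain ⟨p', hp', h1⟩ := (h.not hf).truth hf hG hQ
  obtain ⟨h2, h3, h4⟩ := hG.cup_mem hpG hp'
  exact ⟨_, hG.sub _ h2, h3, h1.mono (hG.sub _ hp') h4⟩

/-- decision -/
theorem Good.decide [Countable M] {f : T → Pl M W} (hf : IF M f)
    {Q : T → Set (Cond W) → Prop} (h : Good c f Q) {t : T} {p : Cond W} (hp : p ∈ PP c (f t)) :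
    ∃ r ∈ PP c (f t), CLe c r p ∧ (Fo c (f t) r (Q t) ∨ Fo c (f t) r (fun G => ¬ Q t G)) := by
  by_cases h1 : Fo c (f t) p (Q t)
  · exact ⟨p, hp, CLe.refl _, Or.inl h1⟩
  · obtain ⟨r, hr, h2, h3⟩ := h.exists_not hf hp h1
    exact ⟨r, hr, h2, Or.inr h3⟩

/-- If every extension of `p` has an extension forcing `Q`, then `p` forces `Q`. -/
theorem Good.of_dense [Countable M] {f : T → Pl M W} (hf : IF M f)
    {Q : T → Set (Cond W) → Prop} (h : Good c f Q) {t : T} {p : Cond W} (hp : p ∈ PP c (f t))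
    (hd : ∀ q ∈ PP c (f t), CLe c q p → ∃ r ∈ PP c (f t), CLe c r q ∧ Fo c (f t) r (Q t)) :
    Fo c (f t) p (Q t) := by
  by_contra hn
  obtain ⟨r, hr, h1, h2⟩ := h.exists_not hf hp hn
  obtain ⟨r', hr', h3, h4⟩ := hd r hr h1
  obtain ⟨G, hG, hG'⟩ := exists_gen hr'
  exact h2 G hG (hG.up r' hG' r hr h3) (h4 G hG hG')

/-- A statement about the generic filter of a subplan `f t` is forced by `p` over the plan `g` iff
it is forced by the restriction of `p` over `f t`. -/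
theorem Good.restrict [Countable M] {f : T → Pl M W} (hf : IF M f)
    {Q : T → Set (Cond W) → Prop} (h : Good c f Q) {t : T} (hv : Valid c (f t)) {g : Pl M W}
    (hs : Sb (f t) g) {p : Cond W} (hp : p ∈ PP c g) :
    Fo c g p (fun G => Q t (G ∩ PP c (f t))) ↔ Fo c (f t) (crs (f t).dom p) (Q t) := by
  constructor
  · intro hFo
    by_contra hn
    obtain ⟨r, hr, h1, h2⟩ := h.exists_not hf (crs_PP hv hs hp) hn
    obtain ⟨h3, h4, h5⟩ := amal hs hp hr h1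
    obtain ⟨G, hG, hG'⟩ := exists_gen h3
    exact h2 _ (hG.restrict hv hs) ⟨hG.up _ hG' r (PP_mono hs hr) h5, hr⟩
      (hFo G hG (hG.up _ hG' p hp h4))
  · intro hFo
    exact Fo.up hv hs (crs_PP hv hs hp) hFo (le_crs _ _)

/-- statements about a subplan are good over the plan -/
theorem Good.lift {f g : T → Pl M W} (hf : IF M f) {Q : T → Set (Cond W) → Prop}
    (h : Good c f Q) (hv : ∀ t, Valid c (f t)) (hs : ∀ t, Sb (f t) (g t)) :
    Good c g (fun t G => Q t (G ∩ PP c (f t))) := by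
  obtain ⟨F, h1, h2, h3⟩ := h
  refine ⟨F, h1, fun t p h => PP_mono (hs t) (h2 t p h), fun t G hG => ?_⟩
  refine (h3 t _ (hG.restrict (hv t) (hs t))).trans ?_
  constructor
  · rintro ⟨p, hp, h4⟩
    exact ⟨p, hp.1, h4⟩
  · rintro ⟨p, hp, h4⟩
    exact ⟨p, ⟨hp, h2 t p h4⟩, h4⟩

end Pool.Agent.H.MP_a163f2_lc
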