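import Pool.Agent.H.MP_a163f2_lc.R.GoodF

/-!
# Block R1: quantifiers over the reals of the extension
-/

set_option autoImplicit false
set_option linter.unusedSectionVars false

namespace Pool.Agent.H.MP_a163f2_lc

open Pool.Agent.H.MP_07d118_lc

universe u v w x

variable {M : Type u} [SetStr M] [ZF M] [Std M] {W : Type v} [LinearOrder W] [Cd M W] [Om1 M W]
variable {c : W × Hc → ℕ → ℕ} [hL : Fact (Luz M W c)]
variable {T : Type w} [Cd M T] {S : Type x} [Cd M S]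

/-! ### Quantifiers over the reals of the extension -/

/-- `∃ x ∈ RR`: the statement `Q t x G` has to be good for the values of names. -/
theorem Good.exRR {f : T → Pl M W} (hf : IF M f) {Q : T → (ℕ → ℕ) → Set (Cond W) → Prop}
    (h : Good c (fun y : T × Nm M W => f y.1) (fun y G => Q y.1 (MP_a163f2_lc.ev y.2 G) G)) :
    Good c f (fun t G => ∃ x ∈ RR c (f t) G, Q t x G) := by
  refine (Good.ex (Q := fun (t : T) (n : Nm M W) G => IsNm c (f t) n ∧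
    Q t (MP_a163f2_lc.ev n G) G) (Good.and
      (Good.of_in (In.isNm (IF.comp hf IF.fst) IF.snd)) h)).congr fun t G _ => ?_
  constructor
  · rintro ⟨x, ⟨n, hn, rfl⟩, hx⟩
    exact ⟨n, hn, hx⟩
  · rintro ⟨n, hn, hx⟩
    exact ⟨_, ⟨n, hn, rfl⟩, hx⟩

theorem Good.allRR {f : T → Pl M W} (hf : IF M f) {Q : T → (ℕ → ℕ) → Set (Cond W) → Prop}
    (h : Good c (fun y : T × Nm M W => f y.1) (fun y G => Q y.1 (MP_a163f2_lc.ev y.2 G) G)) :
    Good c f (fun t G => ∀ x ∈ RR c (f t) G, Q t x G) := by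
  refine ((Good.exRR (Q := fun t x G => ¬ Q t x G) hf (h.not (IF.comp hf IF.fst))).not hf).congr
    fun t G _ => ?_
  push Not
  exact Iff.rfl

theorem Good.U3 {f : T → Pl M W} (hf : IF M f) {X A : T → Set (Cond W) → ℕ → ℕ}
    (hX : GoodR c f X) (hA : GoodR c f A) :
    Good c f (fun t G => MP_a163f2_lc.U3 (RR c (f t) G) (X t G) (A t G)) := by
  unfold MP_a163f2_lc.U3
  have hf1 : IF M (fun y : T × Nm M W => f y.1) := IF.comp hf IF.fst
  have hf2 : IF M (fun y : (T × Nm M W) × Nm M W => f y.1.1) := IF.comp hf1 IF.fst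
  have hf3 : IF M (fun y : ((T × Nm M W) × Nm M W) × Nm M W => f y.1.1.1) := IF.comp hf2 IF.fst
  have hf4 : IF M (fun y : (((T × Nm M W) × Nm M W) × Nm M W) × ℕ => f y.1.1.1.1) :=
    IF.comp hf3 IF.fst
  refine Good.exRR hf (Q := fun t y1 G => ∀ y2 ∈ RR c (f t) G, ∃ y3 ∈ RR c (f t) G, ∀ k : ℕ,
    A t G (cd (jn (jn (jn (X t G) y1) y2) y3) k) = 0) ?_
  refine Good.allRR hf1 (Q := fun (y : T × Nm M W) y2 G => ∃ y3 ∈ RR c (f y.1) G, ∀ k : ℕ,
    A y.1 G (cd (jn (jn (jn (X y.1 G) (ev y.2 G)) y2) y3) k) = 0) ?_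
  refine Good.exRR hf2 (Q := fun (y : (T × Nm M W) × Nm M W) y3 G => ∀ k : ℕ,
    A y.1.1 G (cd (jn (jn (jn (X y.1.1 G) (ev y.1.2 G)) (ev y.2 G)) y3) k) = 0) ?_
  refine Good.all hf3 (Q := fun (y : ((T × Nm M W) × Nm M W) × Nm M W) (k : ℕ) G =>
    A y.1.1.1 G (cd (jn (jn (jn (X y.1.1.1 G) (ev y.1.1.2 G)) (ev y.1.2 G)) (ev y.2 G)) k) = 0) ?_
  have h1 : IF M (fun y : (((T × Nm M W) × Nm M W) × Nm M W) × ℕ => y.1.1.1.1) :=
    IF.comp IF.fst (IF.comp IF.fst (IF.comp IF.fst IF.fst))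
  have hX' : GoodR c (fun y : (((T × Nm M W) × Nm M W) × Nm M W) × ℕ => f y.1.1.1.1)
      (fun y G => X y.1.1.1.1 G) := GoodR.comp hX h1
  have hA' : GoodR c (fun y : (((T × Nm M W) × Nm M W) × Nm M W) × ℕ => f y.1.1.1.1)
      (fun y G => A y.1.1.1.1 G) := GoodR.comp hA h1
  have e1 : GoodR c (fun y : (((T × Nm M W) × Nm M W) × Nm M W) × ℕ => f y.1.1.1.1)
      (fun y G => ev y.1.1.1.2 G) :=
    GoodR.ev hf4 (IF.comp IF.snd (IF.comp IF.fst (IF.comp IF.fst IF.fst)))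
  have e2 : GoodR c (fun y : (((T × Nm M W) × Nm M W) × Nm M W) × ℕ => f y.1.1.1.1)
      (fun y G => ev y.1.1.2 G) := GoodR.ev hf4 (IF.comp IF.snd (IF.comp IF.fst IF.fst))
  have e3 : GoodR c (fun y : (((T × Nm M W) × Nm M W) × Nm M W) × ℕ => f y.1.1.1.1)
      (fun y G => ev y.1.2 G) := GoodR.ev hf4 (IF.comp IF.snd IF.fst)
  refine Good.eq (GoodR.app hA' (GoodF.cd hf4 (((hX'.jn e1).jn e2).jn e3)
    (GoodF.of_if IF.snd))) (GoodF.of_if (IF.const 0))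

end Pool.Agent.H.MP_a163f2_lc
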