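import Pool.Agent.H.MP_a163f2_lc.R.GoodRR

/-!
# Block R, part C6: the futures and the rules are internal
-/

set_option autoImplicit false
set_option linter.unusedSectionVars false
set_option synthInstance.maxSize 1000

namespace Pool.Agent.H.MP_a163f2_lc

open Pool.Agent.H.MP_07d118_lc

universe u v w x

variable {M : Type u} [SetStr M] [ZF M] [Std M] {W : Type v} [LinearOrder W] [Cd M W] [Om1 M W]
variable {c : W × Hc → ℕ → ℕ} [hL : Fact (Luz M W c)]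
variable {hw : WellFounded ((· < ·) : W → W → Prop)}
variable {T : Type w} [Cd M T] {S : Type x} [Cd M S]

/-- the first, second and fourth component of an item -/
theorem IF.it1 {I : T → Item M W} (hI : IF M I) : IF M (fun t => (I t).1) := IF.comp IF.fst hI

theorem IF.it2 {I : T → Item M W} (hI : IF M I) : IF M (fun t => (I t).2.1) :=
  IF.comp IF.fst (IF.comp IF.snd hI)

theorem IF.it3 {I : T → Item M W} (hI : IF M I) : IF M (fun t => (I t).2.2.1) :=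
  IF.comp IF.fst (IF.comp IF.snd (IF.comp IF.snd hI))

theorem IF.it4 {I : T → Item M W} (hI : IF M I) : IF M (fun t => (I t).2.2.2) :=
  IF.comp IF.snd (IF.comp IF.snd (IF.comp IF.snd hI))

theorem In.futFo [Countable M] {f : T → Pl M W} (hf : IF M f) {p : T → Cond W} (hp : IF M p)
    {z a : T → Nm M W} (hz : IF M z) (ha : IF M a) :
    In M (fun t => Fo c (f t) (p t) (fun G => MP_a163f2_lc.U3 (RR c (f t) G)
      (zx (ev (z t) G)) (zx (ev (a t) G)))) :=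
  Good.fo hf (Q := fun t G => MP_a163f2_lc.U3 (RR c (f t) G)
      (zx (ev (z t) G)) (zx (ev (a t) G)))
    (Good.U3 hf (GoodR.ev hf hz).zx (GoodR.ev hf ha).zx) hp

theorem In.fut [Countable M] {I : T → Item M W} (hI : IF M I) {A : T → Set (Pl M W)}
    (hA : In M (fun y : T × Pl M W => y.2 ∈ A y.1)) {g : T → Pl M W} (hg : IF M g)
    {p : T → Cond W} (hp : IF M p) {z : T → Nm M W} (hz : IF M z) :
    In M (fun t => Fut c (I t) (A t) (g t) (p t) (z t)) := by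
  unfold Fut
  refine In.ex (P := fun (t : T) (g' : Pl M W) => g' ∈ A t ∧ Sb (g t) g' ∧ ∃ p' ∈ PP c g',
    CLe c p' (p t) ∧ Fo c g' p' (fun G => MP_a163f2_lc.U3 (RR c g' G) (zx (ev (z t) G))
      (zx (ev (I t).2.1 G)))) ?_
  refine In.and hA (In.and (In.sb (IF.comp hg IF.fst) IF.snd) ?_)
  refine In.ex (P := fun (y : T × Pl M W) (p' : Cond W) => p' ∈ PP c y.2 ∧
    CLe c p' (p y.1) ∧ Fo c y.2 p' (fun G => MP_a163f2_lc.U3 (RR c y.2 G) (zx (ev (z y.1) G))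
      (zx (ev (I y.1).2.1 G)))) ?_
  have e1 : IF M (fun y : (T × Pl M W) × Cond W => y.1.1) := IF.comp IF.fst IF.fst
  have e2 : IF M (fun y : (T × Pl M W) × Cond W => y.1.2) := IF.comp IF.snd IF.fst
  have e3 : IF M (fun y : (T × Pl M W) × Cond W => y.2) := IF.snd
  refine In.and (In.pp e2 e3) (In.and (In.cle e3 (IF.comp hp e1)) ?_)
  exact In.futFo e2 e3 (IF.comp hz e1) (IF.it2 (IF.comp hI e1))

theorem In.obey [Countable M] {I : T → Item M W} (hI : IF M I) {A : T → Set (Pl M W)}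
    (hA : In M (fun y : T × Pl M W => y.2 ∈ A y.1)) {g : T → Pl M W} (hg : IF M g) :
    In M (fun t => Obey c (I t) (A t) (g t)) := by
  unfold Obey
  refine In.all (P := fun (t : T) (ν : W) => ν ∈ (g t).dom → ν ∉ (I t).1.dom → ∀ i < 2,
    ∀ p ∈ PP c (g t), CLe c p (I t).2.2.1 →
    Fo c (g t) p (fun G => za (ev ((g t).nm ν) G) = ev (I t).2.1 G ∧ ev ((g t).nm ν) G 0 = i) →
    (Fo c (g t) p (fun G => ev (I t).2.1 G 0 = 0) →
      (i = 0 → ∀ p₁ ∈ PP c (g t), CLe c p₁ p → Fut c (I t) (A t) (g t) p₁ ((g t).nm ν)) ∧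
      (i = 1 → ¬ Fut c (I t) (A t) (g t) p ((g t).nm ν))) ∧
    (Fo c (g t) p (fun G => ev (I t).2.1 G 0 ≠ 0) →
      Fo c (g t) p (fun G => ev (I t).2.2.2 G (2 * zx (ev ((g t).nm ν) G) 0 + i) = 1))) ?_
  refine In.imp (In.pdom IF.snd (IF.comp hg IF.fst)) (In.imp (In.not (In.pdom IF.snd
    (IF.it1 (IF.comp hI IF.fst)))) ?_)
  refine In.all (P := fun (y : T × W) (i : ℕ) => i < 2 →
    ∀ p ∈ PP c (g y.1), CLe c p (I y.1).2.2.1 →
    Fo c (g y.1) p (fun G => za (ev ((g y.1).nm y.2) G) = ev (I y.1).2.1 G ∧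
      ev ((g y.1).nm y.2) G 0 = i) →
    (Fo c (g y.1) p (fun G => ev (I y.1).2.1 G 0 = 0) →
      (i = 0 → ∀ p₁ ∈ PP c (g y.1), CLe c p₁ p →
        Fut c (I y.1) (A y.1) (g y.1) p₁ ((g y.1).nm y.2)) ∧
      (i = 1 → ¬ Fut c (I y.1) (A y.1) (g y.1) p ((g y.1).nm y.2))) ∧
    (Fo c (g y.1) p (fun G => ev (I y.1).2.1 G 0 ≠ 0) →
      Fo c (g y.1) p (fun G => ev (I y.1).2.2.2 G (2 * zx (ev ((g y.1).nm y.2) G) 0 + i) = 1))) ?_
  refine In.imp (In.lt IF.snd (IF.const 2)) ?_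
  refine In.all (P := fun (y : (T × W) × ℕ) (p : Cond W) =>
    p ∈ PP c (g y.1.1) → CLe c p (I y.1.1).2.2.1 →
    Fo c (g y.1.1) p (fun G => za (ev ((g y.1.1).nm y.1.2) G) = ev (I y.1.1).2.1 G ∧
      ev ((g y.1.1).nm y.1.2) G 0 = y.2) →
    (Fo c (g y.1.1) p (fun G => ev (I y.1.1).2.1 G 0 = 0) →
      (y.2 = 0 → ∀ p₁ ∈ PP c (g y.1.1), CLe c p₁ p →
        Fut c (I y.1.1) (A y.1.1) (g y.1.1) p₁ ((g y.1.1).nm y.1.2)) ∧
      (y.2 = 1 → ¬ Fut c (I y.1.1) (A y.1.1) (g y.1.1) p ((g y.1.1).nm y.1.2))) ∧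
    (Fo c (g y.1.1) p (fun G => ev (I y.1.1).2.1 G 0 ≠ 0) →
      Fo c (g y.1.1) p (fun G => ev (I y.1.1).2.2.2 G
        (2 * zx (ev ((g y.1.1).nm y.1.2) G) 0 + y.2) = 1))) ?_
  have e1 : IF M (fun y : ((T × W) × ℕ) × Cond W => y.1.1.1) :=
    IF.comp IF.fst (IF.comp IF.fst IF.fst)
  have e2 : IF M (fun y : ((T × W) × ℕ) × Cond W => y.1.1.2) :=
    IF.comp IF.snd (IF.comp IF.fst IF.fst)
  have e3 : IF M (fun y : ((T × W) × ℕ) × Cond W => y.1.2) := IF.comp IF.snd IF.fst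
  have e4 : IF M (fun y : ((T × W) × ℕ) × Cond W => y.2) := IF.snd
  have hg' : IF M (fun y : ((T × W) × ℕ) × Cond W => g y.1.1.1) := IF.comp hg e1
  have hI' : IF M (fun y : ((T × W) × ℕ) × Cond W => I y.1.1.1) := IF.comp hI e1
  have hn : IF M (fun y : ((T × W) × ℕ) × Cond W => (g y.1.1.1).nm y.1.1.2) := IF.nmP hg' e2
  have gn : GoodR c (fun y : ((T × W) × ℕ) × Cond W => g y.1.1.1)
      (fun y G => ev ((g y.1.1.1).nm y.1.1.2) G) := GoodR.ev hg' hn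
  have ga : GoodR c (fun y : ((T × W) × ℕ) × Cond W => g y.1.1.1)
      (fun y G => ev (I y.1.1.1).2.1 G) := GoodR.ev hg' (IF.it2 hI')
  have gw : GoodR c (fun y : ((T × W) × ℕ) × Cond W => g y.1.1.1)
      (fun y G => ev (I y.1.1.1).2.2.2 G) := GoodR.ev hg' (IF.it4 hI')
  have g0 : Good c (fun y : ((T × W) × ℕ) × Cond W => g y.1.1.1)
      (fun y G => ev (I y.1.1.1).2.1 G 0 = 0) :=
    Good.eq (GoodR.app ga (GoodF.of_if (IF.const 0))) (GoodF.of_if (IF.const 0))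
  refine In.imp (In.pp hg' e4) (In.imp (In.cle e4 (IF.it3 hI')) (In.imp ?_ (In.and
    (In.imp ?_ (In.and (In.imp (In.eq e3 (IF.const 0)) ?_)
      (In.imp (In.eq e3 (IF.const 1)) (In.not ?_)))) (In.imp ?_ ?_))))
  · refine Good.fo hg' (Q := fun (y : ((T × W) × ℕ) × Cond W) G =>
      za (ev ((g y.1.1.1).nm y.1.1.2) G) = ev (I y.1.1.1).2.1 G ∧
        ev ((g y.1.1.1).nm y.1.1.2) G 0 = y.1.2) ?_ e4
    exact Good.and (Good.eqR hg' gn.za ga) (Good.eq (GoodR.app gn (GoodF.of_if (IF.const 0)))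
      (GoodF.of_if e3))
  · exact Good.fo hg' (Q := fun (y : ((T × W) × ℕ) × Cond W) G =>
      ev (I y.1.1.1).2.1 G 0 = 0) g0 e4
  · refine In.all (P := fun (y : ((T × W) × ℕ) × Cond W) (p₁ : Cond W) =>
      p₁ ∈ PP c (g y.1.1.1) → CLe c p₁ y.2 →
        Fut c (I y.1.1.1) (A y.1.1.1) (g y.1.1.1) p₁ ((g y.1.1.1).nm y.1.1.2)) ?_
    refine In.imp (In.pp (IF.comp hg' IF.fst) IF.snd) (In.imp (In.cle IF.snd
      (IF.comp IF.snd IF.fst)) ?_)
    exact In.fut (A := fun y : (((T × W) × ℕ) × Cond W) × Cond W => A y.1.1.1.1)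
      (IF.comp hI' IF.fst) (In.comp hA (IF.pair (IF.comp IF.fst (IF.comp IF.fst
        (IF.comp IF.fst (IF.comp IF.fst IF.fst)))) IF.snd)) (IF.comp hg' IF.fst) IF.snd
      (IF.comp hn IF.fst)
  · exact In.fut (A := fun y : ((T × W) × ℕ) × Cond W => A y.1.1.1)
      hI' (In.comp hA (IF.pair (IF.comp IF.fst (IF.comp IF.fst
        (IF.comp IF.fst IF.fst))) IF.snd)) hg' e4 hn
  · exact Good.fo hg' (Q := fun (y : ((T × W) × ℕ) × Cond W) G =>
      ¬ ev (I y.1.1.1).2.1 G 0 = 0) (g0.not hg') e4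
  · refine Good.fo hg' (Q := fun (y : ((T × W) × ℕ) × Cond W) G =>
      ev (I y.1.1.1).2.2.2 G (2 * zx (ev ((g y.1.1.1).nm y.1.1.2) G) 0 + y.1.2) = 1) ?_ e4
    refine Good.eq (GoodR.app gw ?_) (GoodF.of_if (IF.const 1))
    exact GoodF.map2 (F := fun a b : ℕ => 2 * a + b) (GoodR.app gn.zx (GoodF.of_if (IF.const 0)))
      (GoodF.of_if e3) (IF.add (IF.mul (IF.const 2) IF.fst) IF.snd)

end Pool.Agent.H.MP_a163f2_lc
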