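import Pool.Agent.H.MP_a163f2_lc.R.I1

/-!
# Block R, part C6: the class of the legal plans is internal
-/

set_option autoImplicit false
set_option linter.unusedSectionVars false
set_option synthInstance.maxSize 1000

namespace Pool.Agent.H.MP_a163f2_lc

open Pool.Agent.H.MP_07d118_lc

universe u v w x

variable {M : Type u} [SetStr M] [ZF M] [Std M] {W : Type v} [LinearOrder W] [Cd M W] [Om1 M W]
variable {c : W × Hc → ℕ → ℕ} [hL : Fact (Luz M W c)]
variable {hw : WellFounded ((· < ·) : W → W → Prop)}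
variable {T : Type w} [Cd M T] {S : Type x} [Cd M S]

section

variable (M W)

/-- families of items -/
abbrev Its : Type v := IFn M W (Item M W)

/-- pairs of a family of items and a plan -/
abbrev ISIp : Type v := ISet M (Its M W × Pl M W)

variable {M W}

/-- the class of plans coded by an approximation to the recursion -/
def Icl (h : ISet M (W × ISIp M W)) (i : Its M W) (η : W) : Set (Pl M W) :=
  {g | ∃ B : ISIp M W, (η, B) ∈ h ∧ (i, g) ∈ B}

/-- one step of the recursion -/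
def IAl (c : W × Hc → ℕ → ℕ) (κ : W) (h : ISet M (W × ISIp M W)) (i : Its M W)
    (g : Pl M W) : Prop :=
  Valid c g ∧ ∀ η, η < κ → Sb (i.1 η).1 g ∧ Obey c (i.1 η) (Icl h i η) g

theorem IAl_in [Countable M] :
    In M (fun z : (W × ISet M (W × ISIp M W)) × (Its M W × Pl M W) =>
      IAl c z.1.1 z.1.2 z.2.1 z.2.2) := by
  unfold IAl
  refine In.and (In.valid (IF.comp IF.snd IF.snd)) ?_
  refine In.all (P := fun (z : (W × ISet M (W × ISIp M W)) × (Its M W × Pl M W)) (η : W) =>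
    η < z.1.1 → Sb (z.2.1.1 η).1 z.2.2 ∧ Obey c (z.2.1.1 η) (Icl z.1.2 z.2.1 η) z.2.2) ?_
  have e1 : IF M (fun z : ((W × ISet M (W × ISIp M W)) × (Its M W × Pl M W)) × W =>
      z.1.1.1) := IF.comp IF.fst (IF.comp IF.fst IF.fst)
  have e2 : IF M (fun z : ((W × ISet M (W × ISIp M W)) × (Its M W × Pl M W)) × W =>
      z.1.1.2) := IF.comp IF.snd (IF.comp IF.fst IF.fst)
  have e3 : IF M (fun z : ((W × ISet M (W × ISIp M W)) × (Its M W × Pl M W)) × W =>
      z.1.2.1) := IF.comp IF.fst (IF.comp IF.snd IF.fst)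
  have e4 : IF M (fun z : ((W × ISet M (W × ISIp M W)) × (Its M W × Pl M W)) × W =>
      z.1.2.2) := IF.comp IF.snd (IF.comp IF.snd IF.fst)
  have e5 : IF M (fun z : ((W × ISet M (W × ISIp M W)) × (Its M W × Pl M W)) × W =>
      z.2) := IF.snd
  have e6 : IF M (fun z : ((W × ISet M (W × ISIp M W)) × (Its M W × Pl M W)) × W =>
      z.1.2.1.1 z.2) := IF.app e3 e5
  refine In.imp (In.ltW e5 e1) (In.and (In.sb (IF.it1 e6) e4) ?_)
  refine In.obey (A := fun z : ((W × ISet M (W × ISIp M W)) × (Its M W × Pl M W)) × W =>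
    Icl z.1.1.2 z.1.2.1 z.2) e6 ?_ e4
  refine In.ex (P := fun (y : (((W × ISet M (W × ISIp M W)) × (Its M W × Pl M W)) × W) × Pl M W)
    (B : ISIp M W) => (y.1.2, B) ∈ y.1.1.1.2 ∧ (y.1.1.2.1, y.2) ∈ B) ?_
  refine In.and (In.mem (IF.pair (IF.comp e5 (IF.comp IF.fst IF.fst)) IF.snd)
    (IF.comp e2 (IF.comp IF.fst IF.fst))) (In.mem (IF.pair (IF.comp e3 (IF.comp IF.fst IF.fst))
    (IF.comp IF.snd IF.fst)) IF.snd)

theorem exists_al [Countable M] : ∃ H : W → ISIp M W, IF M H ∧
    ∀ κ i g, (i, g) ∈ H κ ↔ g ∈ Al hw c i.1 κ := by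
  obtain ⟨H, hH, hrec⟩ := exists_rec (M := M) (W := W) (T := ISIp M W)
    (lt := fun a b : W => a < b) (Om1.lt_in (M := M)) (Om1.wf (M := M))
    (fun a b c => lt_trans)
    (Φ := ISet.sec (P := fun (y : W × ISet M (W × ISIp M W)) (z : Its M W × Pl M W) =>
      IAl c y.1 y.2 z.1 z.2) IAl_in) (IF.sec _)
  refine ⟨H, hH, fun κ => ?_⟩
  induction κ using hw.induction with
  | _ κ ih =>
    intro i g
    obtain ⟨h, h1⟩ := hrec κ
    rw [h1, mem_Al]
    show IAl c κ (ISet.mk h) i g ↔ _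
    unfold IAl
    refine and_congr_right fun _ => forall_congr' fun η => ?_
    refine imp_congr_right fun hη => and_congr_right fun _ => ?_
    have : Icl (ISet.mk h) i η = Al hw c i.1 η := by
      ext g'
      rw [← ih η hη i g']
      constructor
      · rintro ⟨B, h2, h3⟩
        have h4 : H η = B := ((ISet.mem_mk h).1 h2).2
        rw [h4]
        exact h3
      · intro h2
        exact ⟨H η, (ISet.mem_mk h).2 ⟨hη, rfl⟩, h2⟩
    rw [this]

end

theorem In.al0 [Countable M] : In M (fun y : (Its M W × W) × Pl M W => y.2 ∈ Al hw c y.1.1.1 y.1.2) := by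
  obtain ⟨H, hH, h⟩ := exists_al (M := M) (W := W) (c := c) (hw := hw)
  exact (In.mem (IF.pair (IF.comp IF.fst IF.fst) IF.snd) (IF.comp hH (IF.comp IF.snd IF.fst))).congr
    fun y => (h _ _ _).symm

theorem In.al [Countable M] {it : T → IFn M W (Item M W)} (hit : IF M it) {κ : T → W}
    (hκ : IF M κ) {g : T → Pl M W} (hg : IF M g) :
    In M (fun t => g t ∈ Al hw c (it t).1 (κ t)) :=
  In.comp (P := fun y : (Its M W × W) × Pl M W => y.2 ∈ Al hw c y.1.1.1 y.1.2)
    In.al0 ((hit.pair hκ).pair hg)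

end Pool.Agent.H.MP_a163f2_lc
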