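import Pool.Agent.H.MP_a163f2_lc.R.I2

/-!
# Block R, part C6: the validity of items and histories is internal
-/

set_option autoImplicit false
set_option linter.unusedSectionVars false
set_option synthInstance.maxSize 1000

namespace Pool.Agent.H.MP_a163f2_lc

open Pool.Agent.H.MP_07d118_lc

universe u v w x

variable {M : Type u} [SetStr M] [ZF M] [Std M] {W : Type v} [LinearOrder W] [Cd M W] [Om1 M W]
variable {c : W × Hc → ℕ → ℕ} [hL : Fact (Luz M W c)]
variable {hw : WellFounded ((· < ·) : W → W → Prop)}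
variable {T : Type w} [Cd M T] {S : Type x} [Cd M S]

/-- the position of a triple in a list of reals -/
theorem IF.enc3 : IF M (fun y : ℕ × ℕ × ℕ => 2 * Encodable.encode [y.1, y.2.1, y.2.2] + 1) := by
  have h1 : IF M (fun y : ℕ × ℕ × ℕ => ([y.1, y.2.1, y.2.2] : List ℕ)) :=
    IF.prim (f := fun y : ℕ × ℕ × ℕ => ([y.1, y.2.1, y.2.2] : List ℕ))
      (Primrec.list_cons.comp Primrec.fst (Primrec.list_cons.comp
        (Primrec.fst.comp Primrec.snd) (Primrec.list_cons.comp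
          (Primrec.snd.comp Primrec.snd) (Primrec.const []))))
  have h2 : IF M (fun u : List ℕ => Encodable.encode u) := CdP.enc
  exact IF.succ' (IF.mul (IF.const 2) (IF.comp h2 h1))

theorem Good.listOK {f : T → Pl M W} (hf : IF M f) {it : T → Its M W} (hit : IF M it)
    {κ : T → W} (hκ : IF M κ) {X : T → Set (Cond W) → ℕ → ℕ} (hX : GoodR c f X) :
    Good c f (fun t G => ListOK (it t).1 (κ t) G (X t G)) := by
  unfold ListOK
  refine Good.and ?_ (Good.and ?_ ?_)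
  · refine Good.all hf (Q := fun t (n : ℕ) G => (X t G (2 * n) = 1 ∧ X t G (2 * n + 1) = 0) ∨
      (X t G (2 * n) = 0 ∧ X t G (2 * n + 1) = 1)) ?_
    have hX1 : GoodR c (fun y : T × ℕ => f y.1) (fun y G => X y.1 G) := GoodR.comp hX IF.fst
    have a : GoodF c (fun y : T × ℕ => f y.1) (fun y G => X y.1 G (2 * y.2)) :=
      GoodR.app hX1 (GoodF.of_if (IF.mul (IF.const 2) IF.snd))
    have b : GoodF c (fun y : T × ℕ => f y.1) (fun y G => X y.1 G (2 * y.2 + 1)) :=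
      GoodR.app hX1 (GoodF.of_if (IF.succ' (IF.mul (IF.const 2) IF.snd)))
    exact Good.or (Good.and (Good.eq a (GoodF.of_if (IF.const 1)))
      (Good.eq b (GoodF.of_if (IF.const 0)))) (Good.and (Good.eq a (GoodF.of_if (IF.const 0)))
      (Good.eq b (GoodF.of_if (IF.const 1))))
  · refine Good.all hf (Q := fun t (η : W) G => η < κ t → ((it t).1 η).2.2.1 ∈ G →
      ev ((it t).1 η).2.1 G 0 = 1 → ∃ j, ∀ n,
        X t G (2 * Encodable.encode [j, n, zx (ev ((it t).1 η).2.1 G) n] + 1) = 1) ?_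
    have hf1 : IF M (fun y : T × W => f y.1) := IF.comp hf IF.fst
    have hI : IF M (fun y : T × W => (it y.1).1 y.2) := IF.app (IF.comp hit IF.fst) IF.snd
    have ha : GoodR c (fun y : T × W => f y.1) (fun y G => ev ((it y.1).1 y.2).2.1 G) :=
      GoodR.ev hf1 (IF.it2 hI)
    refine Good.imp hf1 (Good.of_in (In.ltW IF.snd (IF.comp hκ IF.fst))) (Good.imp hf1
      (Good.mem hf1 (IF.it3 hI)) (Good.imp hf1 (Good.eq (GoodR.app ha (GoodF.of_if (IF.const 0)))
        (GoodF.of_if (IF.const 1))) ?_))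
    refine Good.ex (Q := fun (y : T × W) (j : ℕ) G => ∀ n,
        X y.1 G (2 * Encodable.encode [j, n, zx (ev ((it y.1).1 y.2).2.1 G) n] + 1) = 1) ?_
    have hf2 : IF M (fun y : (T × W) × ℕ => f y.1.1) := IF.comp hf1 IF.fst
    refine Good.all hf2 (Q := fun (y : (T × W) × ℕ) (n : ℕ) G =>
        X y.1.1 G (2 * Encodable.encode [y.2, n, zx (ev ((it y.1.1).1 y.1.2).2.1 G) n] + 1) = 1) ?_
    have hX3 : GoodR c (fun y : ((T × W) × ℕ) × ℕ => f y.1.1.1) (fun y G => X y.1.1.1 G) :=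
      GoodR.comp hX (IF.comp IF.fst (IF.comp IF.fst IF.fst))
    have ha3 : GoodR c (fun y : ((T × W) × ℕ) × ℕ => f y.1.1.1)
        (fun y G => ev ((it y.1.1.1).1 y.1.1.2).2.1 G) :=
      GoodR.comp (k := fun y : ((T × W) × ℕ) × ℕ => y.1.1) ha (IF.comp IF.fst IF.fst)
    refine Good.eq (GoodR.app hX3 ?_) (GoodF.of_if (IF.const 1))
    exact GoodF.map (F := fun y : ℕ × ℕ × ℕ => 2 * Encodable.encode [y.1, y.2.1, y.2.2] + 1)
      (GoodF.pair (GoodF.of_if (IF.comp IF.snd IF.fst)) (GoodF.pair (GoodF.of_if IF.snd)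
        (GoodR.app ha3.zx (GoodF.of_if IF.snd)))) IF.enc3
  · refine Good.all hf (Q := fun t (j : ℕ) G =>
      (∃ k, X t G (2 * Encodable.encode [j, 0, k] + 1) = 1) → ∃ η < κ t,
        ((it t).1 η).2.2.1 ∈ G ∧ ev ((it t).1 η).2.1 G 0 = 1 ∧ ∀ n k,
          X t G (2 * Encodable.encode [j, n, k] + 1) = 1 ↔
          k = zx (ev ((it t).1 η).2.1 G) n) ?_
    have hf1 : IF M (fun y : T × ℕ => f y.1) := IF.comp hf IF.fst
    refine Good.imp hf1 ?_ ?_
    · refine Good.ex (Q := fun (y : T × ℕ) (k : ℕ) G =>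
        X y.1 G (2 * Encodable.encode [y.2, 0, k] + 1) = 1) ?_
      have hX2 : GoodR c (fun y : (T × ℕ) × ℕ => f y.1.1) (fun y G => X y.1.1 G) :=
        GoodR.comp hX (IF.comp IF.fst IF.fst)
      refine Good.eq (GoodR.app hX2 (GoodF.of_if ?_)) (GoodF.of_if (IF.const 1))
      exact IF.comp (g := fun y : ℕ × ℕ × ℕ => 2 * Encodable.encode [y.1, y.2.1, y.2.2] + 1)
        IF.enc3 ((IF.comp IF.snd IF.fst).pair ((IF.const 0).pair IF.snd))
    · refine Good.ex (Q := fun (y : T × ℕ) (η : W) G => η < κ y.1 ∧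
        ((it y.1).1 η).2.2.1 ∈ G ∧ ev ((it y.1).1 η).2.1 G 0 = 1 ∧ ∀ n k,
          X y.1 G (2 * Encodable.encode [y.2, n, k] + 1) = 1 ↔
          k = zx (ev ((it y.1).1 η).2.1 G) n) ?_
      have hf2 : IF M (fun y : (T × ℕ) × W => f y.1.1) := IF.comp hf1 IF.fst
      have hI : IF M (fun y : (T × ℕ) × W => (it y.1.1).1 y.2) :=
        IF.app (IF.comp hit (IF.comp IF.fst IF.fst)) IF.snd
      have ha : GoodR c (fun y : (T × ℕ) × W => f y.1.1)
          (fun y G => ev ((it y.1.1).1 y.2).2.1 G) := GoodR.ev hf2 (IF.it2 hI)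
      refine Good.and (Good.of_in (In.ltW IF.snd (IF.comp hκ (IF.comp IF.fst IF.fst))))
        (Good.and (Good.mem hf2 (IF.it3 hI)) (Good.and
          (Good.eq (GoodR.app ha (GoodF.of_if (IF.const 0))) (GoodF.of_if (IF.const 1))) ?_))
      refine Good.all hf2 (Q := fun (y : (T × ℕ) × W) (n : ℕ) G => ∀ k,
          X y.1.1 G (2 * Encodable.encode [y.1.2, n, k] + 1) = 1 ↔
          k = zx (ev ((it y.1.1).1 y.2).2.1 G) n) ?_
      have hf3 : IF M (fun y : ((T × ℕ) × W) × ℕ => f y.1.1.1) := IF.comp hf2 IF.fst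
      refine Good.all hf3 (Q := fun (y : ((T × ℕ) × W) × ℕ) (k : ℕ) G =>
          X y.1.1.1 G (2 * Encodable.encode [y.1.1.2, y.2, k] + 1) = 1 ↔
          k = zx (ev ((it y.1.1.1).1 y.1.2).2.1 G) y.2) ?_
      have hf4 : IF M (fun y : (((T × ℕ) × W) × ℕ) × ℕ => f y.1.1.1.1) := IF.comp hf3 IF.fst
      have hX4 : GoodR c (fun y : (((T × ℕ) × W) × ℕ) × ℕ => f y.1.1.1.1)
          (fun y G => X y.1.1.1.1 G) :=
        GoodR.comp hX (IF.comp IF.fst (IF.comp IF.fst (IF.comp IF.fst IF.fst)))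
      have ha4 : GoodR c (fun y : (((T × ℕ) × W) × ℕ) × ℕ => f y.1.1.1.1)
          (fun y G => ev ((it y.1.1.1.1).1 y.1.1.2).2.1 G) :=
        GoodR.comp (k := fun y : (((T × ℕ) × W) × ℕ) × ℕ => y.1.1) ha (IF.comp IF.fst IF.fst)
      refine Good.iff hf4 (Good.eq (GoodR.app hX4 (GoodF.of_if ?_)) (GoodF.of_if (IF.const 1)))
        (Good.eq (GoodF.of_if IF.snd) (GoodR.app ha4.zx (GoodF.of_if (IF.comp IF.snd IF.fst))))
      exact IF.comp (g := fun y : ℕ × ℕ × ℕ => 2 * Encodable.encode [y.1, y.2.1, y.2.2] + 1)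
        IF.enc3 ((IF.comp IF.snd (IF.comp IF.fst (IF.comp IF.fst IF.fst))).pair
          ((IF.comp IF.snd IF.fst).pair IF.snd))

end Pool.Agent.H.MP_a163f2_lc
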