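import Pool.Agent.H.MP_a163f2_lc.R.Int2

/-!
# Block R1: names and plans: the basic relations are internal
-/

set_option autoImplicit false
set_option linter.unusedSectionVars false

namespace Pool.Agent.H.MP_a163f2_lc

open Pool.Agent.H.MP_07d118_lc

universe u v w x

variable {M : Type u} [SetStr M] [ZF M] [Std M] {W : Type v} [LinearOrder W] [Cd M W] [Om1 M W]
variable {c : W × Hc → ℕ → ℕ} [hL : Fact (Luz M W c)]
variable {T : Type w} [Cd M T] {S : Type x} [Cd M S]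

theorem Int_isNm_iff {f : Pl M W} {x : Nm M W} : IsNm c f x ↔
    ((∀ q, ∀ t, (q, t) ∈ x → q ∈ PP c f) ∧
    (∀ q, ∀ t, ∀ q', ∀ t', (q, t) ∈ x → (q', t') ∈ x → ∀ r, r ∈ PP c f → CLe c r q →
      CLe c r q' → t <+: t' ∨ t' <+: t)) ∧
    ((∀ n : ℕ, ∀ p, p ∈ PP c f → ∃ r, r ∈ PP c f ∧ CLe c r p ∧ ∃ q, ∃ t, (q, t) ∈ x ∧ CLe c r q ∧
      n ≤ t.length) ∧
    (∃ ζ : W, ∀ q, ∀ t, (q, t) ∈ x → Bd ζ q)) := by
  constructor
  · intro h
    exact ⟨⟨h.sub, h.cons⟩, h.tot, h.bdd⟩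
  · rintro ⟨⟨h1, h2⟩, h3, h4⟩
    exact ⟨h1, h2, h3, h4⟩

theorem In.isNm {f : T → Pl M W} (hf : IF M f) {x : T → Nm M W} (hx : IF M x) :
    In M (fun t => IsNm c (f t) (x t)) := by
  refine In.congr ?_ fun t => Int_isNm_iff
  refine (In.and ?_ ?_).and (In.and ?_ ?_)
  · refine In.all (S := Cond W) (P := fun t q => ∀ s, (q, s) ∈ x t → q ∈ PP c (f t)) ?_
    refine In.all (S := Fs) (P := fun (y : T × Cond W) s => (y.2, s) ∈ x y.1 →
      y.2 ∈ PP c (f y.1)) ?_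
    refine In.imp ?_ ?_
    · exact In.mem ((IF.snd.comp IF.fst).pair IF.snd) (hx.comp (IF.fst.comp IF.fst))
    · exact In.pp (hf.comp (IF.fst.comp IF.fst)) (IF.snd.comp IF.fst)
  · refine In.all (S := Cond W) (P := fun t q => ∀ s, ∀ q', ∀ s', (q, s) ∈ x t → (q', s') ∈ x t →
      ∀ r, r ∈ PP c (f t) → CLe c r q → CLe c r q' → s <+: s' ∨ s' <+: s) ?_
    refine In.all (S := Fs) (P := fun (y : T × Cond W) s => ∀ q', ∀ s', (y.2, s) ∈ x y.1 →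
      (q', s') ∈ x y.1 → ∀ r, r ∈ PP c (f y.1) → CLe c r y.2 → CLe c r q' →
      s <+: s' ∨ s' <+: s) ?_
    refine In.all (S := Cond W) (P := fun (y : (T × Cond W) × Fs) q' => ∀ s',
      (y.1.2, y.2) ∈ x y.1.1 →
      (q', s') ∈ x y.1.1 → ∀ r, r ∈ PP c (f y.1.1) → CLe c r y.1.2 → CLe c r q' →
      y.2 <+: s' ∨ s' <+: y.2) ?_
    refine In.all (S := Fs) (P := fun (y : ((T × Cond W) × Fs) × Cond W) s' =>
      (y.1.1.2, y.1.2) ∈ x y.1.1.1 →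
      (y.2, s') ∈ x y.1.1.1 → ∀ r, r ∈ PP c (f y.1.1.1) → CLe c r y.1.1.2 → CLe c r y.2 →
      y.1.2 <+: s' ∨ s' <+: y.1.2) ?_
    have e1 : IF M (fun y : (((T × Cond W) × Fs) × Cond W) × Fs => y.1.1.1.1) :=
      IF.fst.comp (IF.fst.comp (IF.fst.comp IF.fst))
    have e2 : IF M (fun y : (((T × Cond W) × Fs) × Cond W) × Fs => y.1.1.1.2) :=
      IF.snd.comp (IF.fst.comp (IF.fst.comp IF.fst))
    have e3 : IF M (fun y : (((T × Cond W) × Fs) × Cond W) × Fs => y.1.1.2) :=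
      IF.snd.comp (IF.fst.comp IF.fst)
    have e4 : IF M (fun y : (((T × Cond W) × Fs) × Cond W) × Fs => y.1.2) :=
      IF.snd.comp IF.fst
    have e5 : IF M (fun y : (((T × Cond W) × Fs) × Cond W) × Fs => y.2) := IF.snd
    refine In.imp (In.mem (e2.pair e3) (hx.comp e1)) (In.imp (In.mem (e4.pair e5) (hx.comp e1)) ?_)
    refine In.all (S := Cond W) (P := fun (y : (((T × Cond W) × Fs) × Cond W) × Fs) r =>
      r ∈ PP c (f y.1.1.1.1) → CLe c r y.1.1.1.2 → CLe c r y.1.2 →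
      y.1.1.2 <+: y.2 ∨ y.2 <+: y.1.1.2) ?_
    exact In.imp (In.pp (hf.comp (e1.comp IF.fst)) IF.snd)
      (In.imp (In.cle IF.snd (e2.comp IF.fst)) (In.imp (In.cle IF.snd (e4.comp IF.fst))
        (In.or (In.ipre (e3.comp IF.fst) (e5.comp IF.fst))
          (In.ipre (e5.comp IF.fst) (e3.comp IF.fst)))))
  · refine In.all (S := ℕ) (P := fun t n => ∀ p, p ∈ PP c (f t) → ∃ r, r ∈ PP c (f t) ∧
      CLe c r p ∧ ∃ q, ∃ s, (q, s) ∈ x t ∧ CLe c r q ∧ n ≤ s.length) ?_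
    refine In.all (S := Cond W) (P := fun (y : T × ℕ) p => p ∈ PP c (f y.1) →
      ∃ r, r ∈ PP c (f y.1) ∧
      CLe c r p ∧ ∃ q, ∃ s, (q, s) ∈ x y.1 ∧ CLe c r q ∧ y.2 ≤ s.length) ?_
    refine In.imp (In.pp (hf.comp (IF.fst.comp IF.fst)) IF.snd) ?_
    refine In.ex (S := Cond W) (P := fun (y : (T × ℕ) × Cond W) r => r ∈ PP c (f y.1.1) ∧
      CLe c r y.2 ∧ ∃ q, ∃ s, (q, s) ∈ x y.1.1 ∧ CLe c r q ∧ y.1.2 ≤ s.length) ?_
    refine In.and (In.pp (hf.comp (IF.fst.comp (IF.fst.comp IF.fst))) IF.snd)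
      (In.and (In.cle IF.snd (IF.snd.comp IF.fst)) ?_)
    refine In.ex (S := Cond W) (P := fun (y : ((T × ℕ) × Cond W) × Cond W) q =>
      ∃ s, (q, s) ∈ x y.1.1.1 ∧ CLe c y.2 q ∧ y.1.1.2 ≤ s.length) ?_
    refine In.ex (S := Fs) (P := fun (y : (((T × ℕ) × Cond W) × Cond W) × Cond W) s =>
      (y.2, s) ∈ x y.1.1.1.1 ∧ CLe c y.1.2 y.2 ∧ y.1.1.1.2 ≤ s.length) ?_
    have e1 : IF M (fun y : ((((T × ℕ) × Cond W) × Cond W) × Cond W) × Fs => y.1.1.1.1.1) :=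
      IF.fst.comp (IF.fst.comp (IF.fst.comp (IF.fst.comp IF.fst)))
    have e2 : IF M (fun y : ((((T × ℕ) × Cond W) × Cond W) × Cond W) × Fs => y.1.1.1.1.2) :=
      IF.snd.comp (IF.fst.comp (IF.fst.comp (IF.fst.comp IF.fst)))
    exact In.and (In.mem ((IF.snd.comp IF.fst).pair IF.snd) (hx.comp e1))
      (In.and (In.cle (IF.snd.comp (IF.fst.comp IF.fst)) (IF.snd.comp IF.fst))
        (In.le e2 (IF.length IF.snd)))
  · refine In.ex (S := W) (P := fun t ζ => ∀ q, ∀ s, (q, s) ∈ x t → Bd ζ q) ?_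
    refine In.all (S := Cond W) (P := fun (y : T × W) q => ∀ s, (q, s) ∈ x y.1 → Bd y.2 q) ?_
    refine In.all (S := Fs) (P := fun (y : (T × W) × Cond W) s => (y.2, s) ∈ x y.1.1 →
      Bd y.1.2 y.2) ?_
    exact In.imp (In.mem ((IF.snd.comp IF.fst).pair IF.snd)
      (hx.comp (IF.fst.comp (IF.fst.comp IF.fst))))
      (In.bd (IF.snd.comp (IF.fst.comp IF.fst)) (IF.snd.comp IF.fst))

theorem Int_valid_iff {f : Pl M W} : Valid c f ↔
    (∃ ζ : W, ∀ ν, ∀ q, ∀ t, (ν, q, t) ∈ f → ν < ζ ∧ Bd ζ q) ∧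
      ∀ ν, ν ∈ f.dom → IsNm c f (f.nm ν) :=
  ⟨fun h => ⟨h.bdd, h.nm⟩, fun h => ⟨h.1, h.2⟩⟩

theorem In.valid {f : T → Pl M W} (hf : IF M f) : In M (fun t => Valid c (f t)) := by
  refine In.congr ?_ fun t => Int_valid_iff
  refine In.and ?_ ?_
  · refine In.ex (S := W) (P := fun t ζ => ∀ ν, ∀ q, ∀ s, (ν, q, s) ∈ f t → ν < ζ ∧ Bd ζ q) ?_
    refine In.all (S := W) (P := fun (y : T × W) ν => ∀ q, ∀ s, (ν, q, s) ∈ f y.1 →
      ν < y.2 ∧ Bd y.2 q) ?_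
    refine In.all (S := Cond W) (P := fun (y : (T × W) × W) q => ∀ s, (y.2, q, s) ∈ f y.1.1 →
      y.2 < y.1.2 ∧ Bd y.1.2 q) ?_
    refine In.all (S := Fs) (P := fun (y : ((T × W) × W) × Cond W) s =>
      (y.1.2, y.2, s) ∈ f y.1.1.1 → y.1.2 < y.1.1.2 ∧ Bd y.1.1.2 y.2) ?_
    have e1 : IF M (fun y : (((T × W) × W) × Cond W) × Fs => y.1.1.1.1) :=
      IF.fst.comp (IF.fst.comp (IF.fst.comp IF.fst))
    have e2 : IF M (fun y : (((T × W) × W) × Cond W) × Fs => y.1.1.1.2) :=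
      IF.snd.comp (IF.fst.comp (IF.fst.comp IF.fst))
    have e3 : IF M (fun y : (((T × W) × W) × Cond W) × Fs => y.1.1.2) :=
      IF.snd.comp (IF.fst.comp IF.fst)
    have e4 : IF M (fun y : (((T × W) × W) × Cond W) × Fs => y.1.2) :=
      IF.snd.comp IF.fst
    exact In.imp (In.mem (e3.pair (e4.pair IF.snd)) (hf.comp e1))
      (In.and (In.ltW e3 e2) (In.bd e2 e4))
  · refine In.all (S := W) (P := fun t ν => ν ∈ (f t).dom → IsNm c (f t) ((f t).nm ν)) ?_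
    exact In.imp (In.pdom IF.snd (hf.comp IF.fst))
      (In.isNm (hf.comp IF.fst) (IF.nmP (hf.comp IF.fst) IF.snd))

theorem In.sb {f g : T → Pl M W} (hf : IF M f) (hg : IF M g) :
    In M (fun t => Sb (f t) (g t)) := by
  unfold Sb
  refine In.and ?_ ?_
  · refine In.all (S := W × Cond W × Fs) (P := fun t y => y ∈ f t → y ∈ g t) ?_
    exact In.imp (In.mem IF.snd (hf.comp IF.fst)) (In.mem IF.snd (hg.comp IF.fst))
  · refine In.all (S := W) (P := fun t ν => ∀ q, ∀ s, ν ∈ (f t).dom → (ν, q, s) ∈ g t →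
      (ν, q, s) ∈ f t) ?_
    refine In.all (S := Cond W) (P := fun (y : T × W) q => ∀ s, y.2 ∈ (f y.1).dom →
      (y.2, q, s) ∈ g y.1 → (y.2, q, s) ∈ f y.1) ?_
    refine In.all (S := Fs) (P := fun (y : (T × W) × Cond W) s => y.1.2 ∈ (f y.1.1).dom →
      (y.1.2, y.2, s) ∈ g y.1.1 → (y.1.2, y.2, s) ∈ f y.1.1) ?_
    have e1 : IF M (fun y : ((T × W) × Cond W) × Fs => y.1.1.1) :=
      IF.fst.comp (IF.fst.comp IF.fst)
    have e2 : IF M (fun y : ((T × W) × Cond W) × Fs => y.1.1.2) :=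
      IF.snd.comp (IF.fst.comp IF.fst)
    have e3 : IF M (fun y : ((T × W) × Cond W) × Fs => y.1.2) := IF.snd.comp IF.fst
    have e4 : IF M (fun y : ((T × W) × Cond W) × Fs => (y.1.1.2, y.1.2, y.2)) :=
      e2.pair (e3.pair IF.snd)
    exact In.imp (In.pdom e2 (hf.comp e1)) (In.imp (In.mem e4 (hg.comp e1))
      (In.mem e4 (hf.comp e1)))

theorem IF.plU {f g : T → Pl M W} (hf : IF M f) (hg : IF M g) :
    IF M (fun t => MP_a163f2_lc.plU (f t) (g t)) := by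
  refine IF.of_mem ?_
  refine ((In.mem IF.snd (hf.comp IF.fst)).or (In.mem IF.snd (hg.comp IF.fst))).congr fun y => ?_
  exact mem_plU

theorem IF.addN {f : T → Pl M W} (hf : IF M f) {ν : T → W} (hν : IF M ν) {x : T → Nm M W}
    (hx : IF M x) : IF M (fun t => MP_a163f2_lc.addN (f t) (ν t) (x t)) := by
  refine IF.of_mem ?_
  refine ((In.mem IF.snd (hf.comp IF.fst)).or ((In.eq (IF.fst.comp IF.snd)
    (hν.comp IF.fst)).and (In.mem (IF.snd.comp IF.snd) (hx.comp IF.fst)))).congr fun y => ?_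
  exact mem_addN

end Pool.Agent.H.MP_a163f2_lc
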