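import Pool.Agent.H.MP_a163f2_lc.R.Basic

/-!
# Block R1: finite sequences: the basic relations are internal
-/

set_option autoImplicit false
set_option linter.unusedSectionVars false

namespace Pool.Agent.H.MP_a163f2_lc

open Pool.Agent.H.MP_07d118_lc

universe u v w x

variable {M : Type u} [SetStr M] [ZF M] [Std M] {W : Type v} [LinearOrder W] [Cd M W] [Om1 M W]
variable {c : W × Hc → ℕ → ℕ} [hL : Fact (Luz M W c)]
variable {T : Type w} [Cd M T] {S : Type x} [Cd M S]

/-- lists of natural numbers: length, entries, append -/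
theorem IF.length {m : T → Fs} (hm : IF M m) : IF M (fun t => (m t).length) := by
  exact IF.comp (g := fun l : List ℕ => l.length) (IF.prim Primrec.list_length) hm

theorem IF.getD {m : T → Fs} (hm : IF M m) {i : T → ℕ} (hi : IF M i) :
    IF M (fun t => (m t).getD (i t) 0) := by
  exact IF.prim2 (F := fun (l : List ℕ) (j : ℕ) => l.getD j 0) (Primrec.list_getD 0) hm hi

theorem IF.append {m m' : T → Fs} (hm : IF M m) (hm' : IF M m') : IF M (fun t => m t ++ m' t) := by
  exact IF.prim2 (F := fun a b : List ℕ => a ++ b) Primrec.list_append hm hm'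

theorem In.ipre {m m' : T → Fs} (hm : IF M m) (hm' : IF M m') :
    In M (fun t => m t <+: m' t) := by
  exact In.ex (P := fun (t : T) (s : Fs) => m t ++ s = m' t)
    (In.eq (IF.append (IF.comp hm IF.fst) IF.snd) (IF.comp hm' IF.fst))

theorem In.memL {m : T → Fs} (hm : IF M m) {L : T → List (List ℕ)} (hL : IF M L) :
    In M (fun t => m t ∈ L t) := by
  have h1 : IF M (fun y : T × ℕ => (L y.1).length) :=
    IF.comp (g := fun l : List (List ℕ) => l.length) (IF.prim Primrec.list_length)
      (IF.comp hL IF.fst)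
  have h2 : IF M (fun y : T × ℕ => (L y.1).getD y.2 []) :=
    IF.prim2 (F := fun (l : List (List ℕ)) (j : ℕ) => l.getD j []) (Primrec.list_getD [])
      (IF.comp hL IF.fst) IF.snd
  refine (In.ex (P := fun (t : T) (i : ℕ) => i < (L t).length ∧ (L t).getD i [] = m t)
    (In.and (In.lt IF.snd h1) (In.eq h2 (IF.comp hm IF.fst)))).congr fun t => ?_
  rw [List.mem_iff_getElem]
  constructor
  · rintro ⟨i, hi, e⟩
    exact ⟨i, hi, by rw [List.getD_eq_getElem _ _ hi, e]⟩
  · rintro ⟨i, hi, e⟩
    exact ⟨i, hi, by rw [← e, List.getD_eq_getElem _ _ hi]⟩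

/-- `Pre x m` for an internal family of reals -/
theorem In.pre {x : T → ℕ → ℕ} (hx : IF M (fun y : T × ℕ => x y.1 y.2)) {m : T → Fs}
    (hm : IF M m) : In M (fun t => Pre (x t) (m t)) := by
  refine (In.all (P := fun (t : T) (i : ℕ) => i < (m t).length → (m t).getD i 0 = x t i)
    (In.imp (In.lt IF.snd (IF.length (IF.comp hm IF.fst)))
      (In.eq (IF.getD (IF.comp hm IF.fst) IF.snd) hx))).congr fun t => ?_
  unfold Pre ini
  constructor
  · intro h i hi
    rw [List.getD_eq_getElem _ _ hi]
    have h1 : ((List.range (m t).length).map (x t))[i]'(by simpa using hi) = x t i := by simp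
    rw [← h1]
    congr 1
    exact h.symm
  · intro h
    apply List.ext_getElem
    · simp
    · intro i h1 h2
      have h3 := h i h2
      rw [List.getD_eq_getElem _ _ h2] at h3
      simp [h3]

theorem In.prec {κ : T → W × Hc} (hκ : IF M κ) {m : T → Fs} (hm : IF M m) :
    In M (fun t => Pre (c (κ t)) (m t)) := by
  exact In.pre (x := fun t => c (κ t))
    (IF.comp (g := fun y : (W × Hc) × ℕ => c y.1 y.2) hL.out.int ((IF.comp hκ IF.fst).pair IF.snd))
    hm

end Pool.Agent.H.MP_a163f2_lc
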