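import Pool.Agent.H.MP_a163f2_lc.R.Int1

/-!
# Block R1: conditions: the basic relations are internal
-/

set_option autoImplicit false
set_option linter.unusedSectionVars false

namespace Pool.Agent.H.MP_a163f2_lc

open Pool.Agent.H.MP_07d118_lc

universe u v w x

variable {M : Type u} [SetStr M] [ZF M] [Std M] {W : Type v} [LinearOrder W] [Cd M W] [Om1 M W]
variable {c : W × Hc → ℕ → ℕ} [hL : Fact (Luz M W c)]
variable {T : Type w} [Cd M T] {S : Type x} [Cd M S]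

theorem In.ltW {α β : T → W} (hα : IF M α) (hβ : IF M β) : In M (fun t => α t < β t) :=
  In.comp2 (P := fun a b : W => a < b) (Om1.lt_in (M := M)) hα hβ

theorem In.leW {α β : T → W} (hα : IF M α) (hβ : IF M β) : In M (fun t => α t ≤ β t) :=
  (In.ltW hβ hα).not.congr fun t => by simp

theorem In.cle {p q : T → Cond W} (hp : IF M p) (hq : IF M q) :
    In M (fun t => CLe c (p t) (q t)) := by
  have h3 : In M (fun t => ∀ x : W × Fs, x ∈ (p t).1 → ¬ x ∈ (q t).1 → ∀ κ : W × Hc,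
      (x.1, κ) ∈ (q t).2 → ¬ Pre (c κ) x.2) := by
    refine In.all (P := fun (t : T) (x : W × Fs) => x ∈ (p t).1 → ¬ x ∈ (q t).1 → ∀ κ : W × Hc,
      (x.1, κ) ∈ (q t).2 → ¬ Pre (c κ) x.2) ?_
    refine In.imp (In.fmem IF.snd (IF.comp IF.fst (IF.comp hp IF.fst)))
      (In.imp (In.fmem IF.snd (IF.comp IF.fst (IF.comp hq IF.fst))).not ?_)
    refine In.all (P := fun (y : T × (W × Fs)) (κ : W × Hc) =>
      (y.2.1, κ) ∈ (q y.1).2 → ¬ Pre (c κ) y.2.2) ?_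
    refine In.imp (In.fmem (IF.pair (IF.comp IF.fst (IF.comp IF.snd IF.fst)) IF.snd)
      (IF.comp IF.snd (IF.comp hq (IF.comp IF.fst IF.fst)))) (In.not ?_)
    exact In.prec (c := c) IF.snd (IF.comp IF.snd (IF.comp IF.snd IF.fst))
  refine ((In.fsubset (IF.comp IF.fst hq) (IF.comp IF.fst hp)).and
    ((In.fsubset (IF.comp IF.snd hq) (IF.comp IF.snd hp)).and h3)).congr fun t => ?_
  unfold CLe
  refine and_congr_right fun _ => and_congr_right fun _ => ?_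
  exact ⟨fun h x h1 h2 κ h4 => h x.1 x.2 h1 h2 κ h4,
    fun h ν m h1 h2 κ h4 => h (ν, m) h1 h2 κ h4⟩

theorem In.bd {ζ : T → W} (hζ : IF M ζ) {p : T → Cond W} (hp : IF M p) :
    In M (fun t => Bd (ζ t) (p t)) := by
  have h1 : In M (fun t => ∀ x : W × Fs, x ∈ (p t).1 → x.1 < ζ t) := by
    refine In.all (P := fun (t : T) (x : W × Fs) => x ∈ (p t).1 → x.1 < ζ t) ?_
    exact In.imp (In.fmem IF.snd (IF.comp IF.fst (IF.comp hp IF.fst)))
      (In.ltW (IF.comp IF.fst IF.snd) (IF.comp hζ IF.fst))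
  have h2 : In M (fun t => ∀ x : W × W × Hc, x ∈ (p t).2 → x.1 < ζ t ∧ x.2.1 < ζ t) := by
    refine In.all (P := fun (t : T) (x : W × W × Hc) => x ∈ (p t).2 →
      x.1 < ζ t ∧ x.2.1 < ζ t) ?_
    exact In.imp (In.fmem IF.snd (IF.comp IF.snd (IF.comp hp IF.fst)))
      ((In.ltW (IF.comp IF.fst IF.snd) (IF.comp hζ IF.fst)).and
        (In.ltW (IF.comp IF.fst (IF.comp IF.snd IF.snd)) (IF.comp hζ IF.fst)))
  refine (h1.and h2).congr fun t => ?_
  unfold Bd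
  exact ⟨fun h => ⟨fun x hx => h.1 x.1 x.2 hx, fun x hx => h.2 x.1 x.2.1 x.2.2 hx⟩,
    fun h => ⟨fun ν m hx => h.1 (ν, m) hx, fun ν ξ k hx => h.2 (ν, ξ, k) hx⟩⟩

theorem IF.cup {p q : T → Cond W} (hp : IF M p) (hq : IF M q) :
    IF M (fun t => MP_a163f2_lc.cup (p t) (q t)) := by
  refine IF.pair (f := fun t => (MP_a163f2_lc.cup (p t) (q t)).1)
    (g := fun t => (MP_a163f2_lc.cup (p t) (q t)).2) ?_ ?_
  · refine IF.of_fmem ((In.or (In.fmem IF.snd (IF.comp IF.fst (IF.comp hp IF.fst)))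
      (In.fmem IF.snd (IF.comp IF.fst (IF.comp hq IF.fst)))).congr fun _ => ?_)
    exact mem_cup1
  · refine IF.of_fmem ((In.or (In.fmem IF.snd (IF.comp IF.snd (IF.comp hp IF.fst)))
      (In.fmem IF.snd (IF.comp IF.snd (IF.comp hq IF.fst)))).congr fun _ => ?_)
    exact mem_cup2

theorem In.pdom {ν : T → W} (hν : IF M ν) {f : T → Pl M W} (hf : IF M f) :
    In M (fun t => ν t ∈ (f t).dom) := by
  refine (In.ex (P := fun (t : T) (x : Cond W × Fs) => (ν t, x) ∈ f t)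
    (In.mem (IF.pair (IF.comp hν IF.fst) IF.snd) (IF.comp hf IF.fst))).congr fun t => ?_
  exact ⟨fun ⟨q, m, h⟩ => ⟨(q, m), h⟩, fun ⟨x, h⟩ => ⟨x.1, x.2, h⟩⟩

theorem IF.nmP {f : T → Pl M W} (hf : IF M f) {ν : T → W} (hν : IF M ν) :
    IF M (fun t => (f t).nm (ν t)) := by
  refine IF.of_mem (A := fun t => (f t).nm (ν t)) ?_
  exact (In.mem (IF.pair (IF.comp hν IF.fst) IF.snd) (IF.comp hf IF.fst)).congr fun y => Iff.rfl

theorem IF.crs {f : T → Pl M W} (hf : IF M f) {p : T → Cond W} (hp : IF M p) :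
    IF M (fun t => MP_a163f2_lc.crs (f t).dom (p t)) := by
  refine IF.pair (f := fun t => (MP_a163f2_lc.crs (f t).dom (p t)).1)
    (g := fun t => (MP_a163f2_lc.crs (f t).dom (p t)).2) ?_ ?_
  · refine IF.of_fmem ((In.and (In.fmem IF.snd (IF.comp IF.fst (IF.comp hp IF.fst)))
      (In.pdom (IF.comp IF.fst IF.snd) (IF.comp hf IF.fst))).congr fun _ => ?_)
    exact mem_crs1
  · refine IF.of_fmem ((In.and (In.fmem IF.snd (IF.comp IF.snd (IF.comp hp IF.fst)))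
      (In.pdom (IF.comp IF.fst IF.snd) (IF.comp hf IF.fst))).congr fun _ => ?_)
    exact mem_crs2

theorem In.pp {f : T → Pl M W} (hf : IF M f) {p : T → Cond W} (hp : IF M p) :
    In M (fun t => p t ∈ PP c (f t)) := by
  have h1 : In M (fun t => ∀ x : W × Fs, x ∈ (p t).1 → x.1 ∈ (f t).dom) := by
    refine In.all (P := fun (t : T) (x : W × Fs) => x ∈ (p t).1 → x.1 ∈ (f t).dom) ?_
    exact In.imp (In.fmem IF.snd (IF.comp IF.fst (IF.comp hp IF.fst)))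
      (In.pdom (IF.comp IF.fst IF.snd) (IF.comp hf IF.fst))
  have h2 : In M (fun t => ∀ x : W × (W × Hc), x ∈ (p t).2 → ∃ z : Cond W × Fs,
      (x.1, z) ∈ f t ∧ CLe c (p t) z.1 ∧ ∃ u : Fs, u ∈ x.2.2.1 ∧ u <+: z.2) := by
    refine In.all (P := fun (t : T) (x : W × (W × Hc)) => x ∈ (p t).2 → ∃ z : Cond W × Fs,
      (x.1, z) ∈ f t ∧ CLe c (p t) z.1 ∧ ∃ u : Fs, u ∈ x.2.2.1 ∧ u <+: z.2) ?_
    refine In.imp (In.fmem IF.snd (IF.comp IF.snd (IF.comp hp IF.fst))) ?_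
    refine In.ex (P := fun (y : T × (W × (W × Hc))) (z : Cond W × Fs) =>
      (y.2.1, z) ∈ f y.1 ∧ CLe c (p y.1) z.1 ∧ ∃ u : Fs, u ∈ y.2.2.2.1 ∧ u <+: z.2) ?_
    refine In.and (In.mem (IF.pair (IF.comp IF.fst (IF.comp IF.snd IF.fst)) IF.snd)
      (IF.comp hf (IF.comp IF.fst IF.fst))) (In.and (In.cle (IF.comp hp (IF.comp IF.fst IF.fst))
        (IF.comp IF.fst IF.snd)) ?_)
    refine In.ex (P := fun (y : (T × (W × (W × Hc))) × (Cond W × Fs)) (u : Fs) =>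
      u ∈ y.1.2.2.2.1 ∧ u <+: y.2.2) ?_
    refine In.and (In.memL IF.snd ?_) (In.ipre IF.snd (IF.comp IF.snd (IF.comp IF.snd IF.fst)))
    exact IF.comp IF.fst (IF.comp IF.snd (IF.comp IF.snd (IF.comp IF.snd (IF.comp IF.fst IF.fst))))
  refine (h1.and h2).congr fun t => ?_
  constructor
  · intro h
    refine ⟨fun x hx => h.1 x.1 x.2 hx, fun x hx => ?_⟩
    obtain ⟨q, m, h3, h4, u, h5, h6⟩ := h.2 x.1 x.2 hx
    exact ⟨(q, m), h3, h4, u, h5, h6⟩
  · intro h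
    refine ⟨fun ν m hx => h.1 (ν, m) hx, fun ν κ hx => ?_⟩
    obtain ⟨z, h3, h4, u, h5, h6⟩ := h.2 (ν, κ) hx
    exact ⟨z.1, z.2, h3, h4, u, h5, h6⟩

end Pool.Agent.H.MP_a163f2_lc
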