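import Pool.Agent.H.MP_a163f2_lc.R.GoodRR
import Pool.Agent.H.MP_a163f2_lc.R.Ct

/-!
# Block R1: bounded predense sets, names of good reals
-/

set_option autoImplicit false
set_option linter.unusedSectionVars false

namespace Pool.Agent.H.MP_a163f2_lc

open Pool.Agent.H.MP_07d118_lc

universe u v w x

variable {M : Type u} [SetStr M] [ZFC M] [Std M] {W : Type v} [LinearOrder W] [Cd M W] [Om1 M W]
variable {c : W × Hc → ℕ → ℕ} [hL : Fact (Luz M W c)]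
variable {T : Type w} [Cd M T] {S : Type x} [Cd M S]

/-- A family of dense sets has bounded predense parts. -/
theorem bdd_predense {f : Pl M W} (hf : Valid c f) {D : ℕ → Cond W → Prop}
    (hD : In M (fun y : ℕ × Cond W => D y.1 y.2))
    (hd : ∀ n, ∀ p ∈ PP c f, ∃ q ∈ PP c f, CLe c q p ∧ D n q) :
    ∃ ζ, ∀ n, ∀ p ∈ PP c f, ∃ q ∈ PP c f, D n q ∧ Bd ζ q ∧
      ∃ r ∈ PP c f, CLe c r p ∧ CLe c r q := by
  obtain ⟨ζ₀, hζ₀⟩ := hf.bdd
  have hR0 : In M (fun y : (ℕ × Finset (W × Fs)) × Cond W => y.2 ∈ PP c f ∧ D y.1.1 y.2 ∧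
      y.2.1 = y.1.2) := by
    refine In.and (In.pp (IF.const f) IF.snd) (In.and ?_ ?_)
    · exact In.comp2 (P := D) hD (IF.comp IF.fst IF.fst) IF.snd
    · exact In.eq (IF.comp IF.fst IF.snd) (IF.comp IF.snd IF.fst)
  have hR1 : In M (fun y : ℕ × Finset (W × Fs) => ∃ q : Cond W, q ∈ PP c f ∧ D y.1 q ∧
      q.1 = y.2) :=
    In.ex (P := fun (y : ℕ × Finset (W × Fs)) (q : Cond W) => q ∈ PP c f ∧ D y.1 q ∧
      q.1 = y.2) hR0
  obtain ⟨P, hP, hP2⟩ := In.choice (M := M)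
    (R := fun (y : ℕ × Finset (W × Fs)) (q : Cond W) =>
      (∃ q : Cond W, q ∈ PP c f ∧ D y.1 q ∧ q.1 = y.2) → (q ∈ PP c f ∧ D y.1 q ∧ q.1 = y.2))
    (In.imp (hR1.comp IF.fst) hR0) (fun y => by
      by_cases h : ∃ q : Cond W, q ∈ PP c f ∧ D y.1 q ∧ q.1 = y.2
      · obtain ⟨q, hq⟩ := h
        exact ⟨q, fun _ => hq⟩
      · exact ⟨(∅, ∅), fun h' => absurd h' h⟩)
  obtain ⟨B, hB, hB2⟩ := In.choice (M := M) (R := fun (p : Cond W) (ζ : W) => Bd ζ p)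
    (In.bd IF.snd IF.fst) (fun p => exists_Bd M p)
  have hA : In M (fun t : ℕ × Finset (W × Fs) =>
      t ∈ (Set.univ : Set ℕ) ×ˢ {s : Finset (W × Fs) | ∀ x ∈ s, x.1 < ζ₀}) := by
    refine In.congr (P := fun t : ℕ × Finset (W × Fs) => ∀ x : W × Fs, x ∈ t.2 → x.1 < ζ₀) ?_
      fun t => by simp
    refine In.all (P := fun (t : ℕ × Finset (W × Fs)) (x : W × Fs) => x ∈ t.2 → x.1 < ζ₀) ?_
    exact In.imp (In.fmem IF.snd (IF.comp IF.snd IF.fst))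
      (In.ltW (IF.comp IF.fst IF.snd) (IF.const ζ₀))
  obtain ⟨ζ, hζ⟩ := ICt.bdd (M := M) (ICt.prod ICt.nat (ICt.stems ζ₀)) hA (IF.comp hB hP)
  refine ⟨ζ, fun n p hp => ?_⟩
  obtain ⟨q', hq', h1, h2⟩ := hd n p hp
  have hmem : (n, q'.1) ∈ (Set.univ : Set ℕ) ×ˢ {s : Finset (W × Fs) | ∀ x ∈ s, x.1 < ζ₀} := by
    refine ⟨Set.mem_univ _, fun x hx => ?_⟩
    obtain ⟨q, t, h3⟩ := PP.dom1 hq' hx
    exact (hζ₀ _ _ _ h3).1
  obtain ⟨h3, h4, h5⟩ := hP2 (n, q'.1) ⟨q', hq', h2, rfl⟩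
  obtain ⟨h6, h7⟩ := cup_le_of_stem (c := c) (p := q') (q := P (n, q'.1)) h5.symm
  refine ⟨P (n, q'.1), h3, h4, (hB2 _).mono (hζ _ hmem).le, cup q' (P (n, q'.1)),
    PP_cup hq' h3 h6 h7, h6.trans h1, h7⟩

/-- Comprehension: a good real has a name. -/
theorem exists_name [Countable M] {f : T → Pl M W} (hf : IF M f)
    {X : T → Set (Cond W) → ℕ → ℕ} (hX : GoodR c f X) {t : T} (hv : Valid c (f t)) :
    ∃ n : Nm M W, IsNm c (f t) n ∧ ∀ G, Gen c (f t) G → ev n G = X t G := by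
  have hQ : Good c (fun _ : Fs => f t) (fun u G => Pre (X t G) u) := by
    have h1 : GoodR c (fun _ : Fs => f t) (fun _ G => X t G) := GoodR.comp hX (IF.const t)
    exact Good.eq (GoodF.ini (IF.const _) h1 (GoodF.of_if (IF.length IF.id)))
      (GoodF.of_if IF.id)
  have hfo : In M (fun y : Cond W × Fs => Fo c (f t) y.1 (fun G => Pre (X t G) y.2)) :=
    Good.fo (T := Cond W × Fs) (IF.const (f t)) (Good.comp hQ IF.snd) IF.fst
  have hD : In M (fun y : ℕ × Cond W => ∃ u : Fs, u.length = y.1 ∧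
      Fo c (f t) y.2 (fun G => Pre (X t G) u)) := by
    refine In.ex (P := fun (y : ℕ × Cond W) (u : Fs) => u.length = y.1 ∧
      Fo c (f t) y.2 (fun G => Pre (X t G) u)) ?_
    refine In.and (In.eq (IF.length IF.snd) (IF.comp IF.fst IF.fst)) ?_
    exact In.comp2 (P := fun (q : Cond W) (u : Fs) => Fo c (f t) q (fun G => Pre (X t G) u)) hfo
      (IF.comp IF.snd IF.fst) IF.snd
  obtain ⟨ζ, hζ⟩ := bdd_predense (D := fun (k : ℕ) (q : Cond W) => ∃ u : Fs, u.length = k ∧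
      Fo c (f t) q (fun G => Pre (X t G) u)) hv hD (by
    intro k p hp
    obtain ⟨G, hG, hpG⟩ := exists_gen hp
    obtain ⟨p', hp', h1⟩ := hQ.truth (IF.const _) (t := ini (X t G) k) hG (pre_ini _ _)
    obtain ⟨h2, h3, h4⟩ := hG.cup_mem hpG hp'
    exact ⟨_, hG.sub _ h2, h3, ini (X t G) k, ini_length _ _, h1.mono (hG.sub _ hp') h4⟩)
  have hin : In M (fun y : Cond W × Fs => y.1 ∈ PP c (f t) ∧ Bd ζ y.1 ∧
      Fo c (f t) y.1 (fun G => Pre (X t G) y.2)) :=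
    In.and (In.pp (IF.const _) IF.fst) (In.and (In.bd (IF.const ζ) IF.fst) hfo)
  have hn : IsNm c (f t) (ISet.mk hin) := by
    refine ⟨fun q u h => h.1, ?_, ?_, ⟨ζ, fun q u h => h.2.1⟩⟩
    · intro q u q' u' h1 h2 r hr h3 h4
      obtain ⟨G, hG, hrG⟩ := exists_gen hr
      exact (h1.2.2 G hG (hG.up r hrG q h1.1 h3)).comparable
        (h2.2.2 G hG (hG.up r hrG q' h2.1 h4))
    · intro k p hp
      obtain ⟨q, hq, ⟨u, hu, h1⟩, h2, r, hr, h3, h4⟩ := hζ k p hp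
      exact ⟨r, hr, h3, q, u, ⟨hq, h2, h1⟩, h4, hu.ge⟩
  refine ⟨_, hn, fun G hG => Ev.ev_eq ⟨fun q u h hq => h.2.2 G hG hq, (Ev_ev hG hn).2⟩⟩

/-- reals of the model have names -/
theorem ground_name {f : Pl M W} {x : ℕ → ℕ} (hx : IF M x) :
    ∃ n : Nm M W, IsNm c f n ∧ ∀ G, Gen c f G → ev n G = x := by
  have hin : In M (fun y : Cond W × Fs => y.1 = (∅, ∅) ∧ Pre x y.2) :=
    In.and (In.eq IF.fst (IF.const _)) (In.pre (x := fun _ => x) (IF.comp hx IF.snd) IF.snd)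
  have hn : IsNm c f (ISet.mk hin) := by
    refine ⟨?_, ?_, ?_, ?_⟩
    · rintro q u ⟨h, -⟩
      have h' : q = (∅, ∅) := h
      rw [h']
      exact empty_PP f
    · intro q u q' u' h1 h2 r hr h3 h4
      exact Pre.comparable h1.2 h2.2
    · intro k p hp
      exact ⟨p, hp, CLe.refl _, (∅, ∅), ini x k, ⟨rfl, pre_ini _ _⟩, le_empty _,
        (ini_length _ _).ge⟩
    · obtain ⟨ζ, hζ⟩ := exists_Bd M ((∅, ∅) : Cond W)
      refine ⟨ζ, ?_⟩
      rintro q u ⟨h, -⟩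
      have h' : q = (∅, ∅) := h
      rw [h']
      exact hζ
  exact ⟨_, hn, fun G hG => Ev.ev_eq ⟨fun q u h _ => h.2, (Ev_ev hG hn).2⟩⟩

end Pool.Agent.H.MP_a163f2_lc
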