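import Pool.Agent.H.MP_a163f2_lc.R.CodN

/-!
# Block R1: no unintended codings, part A: the dense sets
-/

set_option autoImplicit false
set_option linter.unusedSectionVars false
set_option synthInstance.maxSize 1000

namespace Pool.Agent.H.MP_a163f2_lc

open Pool.Agent.H.MP_07d118_lc

universe u v w x

variable {M : Type u} [SetStr M] [ZFC M] [Std M] {W : Type v} [LinearOrder W] [Cd M W] [Om1 M W]
variable {c : W × Hc → ℕ → ℕ} [hL : Fact (Luz M W c)]

/-- Data: a condition, a bound for lengths, and a finite set of pairs (node, coordinate). -/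
abbrev NData (W : Type v) : Type v := Cond W × ℕ × Finset (W × ℕ)

/-- The tuple `s` belongs to the dense set of the data `d`. -/
def Dp (c : W × Hc → ℕ → ℕ) (f : Pl M W) (y : Nm M W) (d : NData W) (s : List Fs) : Prop :=
  ∃ r' : Cond W, ∃ m : Fs, ∃ q' : Cond W, ∃ u : Fs,
    (r' ∈ PP c f ∧ CLe c r' d.1 ∧ m <+: s.getD 0 [] ∧ d.2.1 ≤ m.length ∧ (q', u) ∈ y ∧
      CLe c r' q' ∧ Encodable.encode m < u.length ∧ u.getD (Encodable.encode m) 0 = 1) ∧
    ∀ (x : W × ℕ) (m' : Fs), x ∈ d.2.2 → (x.1, m') ∈ r'.1 → (x.1, m') ∉ d.1.1 →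
      ¬ m' <+: s.getD x.2 [] ∧ ¬ s.getD x.2 [] <+: m'

theorem IF.getDL {T : Type w} [Cd M T] {s : T → List Fs} (hs : IF M s) {i : T → ℕ}
    (hi : IF M i) : IF M (fun t => (s t).getD (i t) []) :=
  IF.prim2 (F := fun (l : List Fs) (j : ℕ) => l.getD j []) (Primrec.list_getD []) hs hi

/-- the matrix of `Dp` -/
def DpM (c : W × Hc → ℕ → ℕ) (f : Pl M W) (y : Nm M W) (d : NData W) (s : List Fs)
    (w : (Cond W × Fs) × (Cond W × Fs)) : Prop :=
  w.1.1 ∈ PP c f ∧ CLe c w.1.1 d.1 ∧ w.1.2 <+: s.getD 0 [] ∧ d.2.1 ≤ w.1.2.length ∧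
    w.2 ∈ y ∧ CLe c w.1.1 w.2.1 ∧ Encodable.encode w.1.2 < w.2.2.length ∧
    w.2.2.getD (Encodable.encode w.1.2) 0 = 1

theorem In.dpM {f : Pl M W} {y : Nm M W} :
    In M (fun z : (NData W × List Fs) × ((Cond W × Fs) × (Cond W × Fs)) =>
      DpM c f y z.1.1 z.1.2 z.2) := by
  unfold DpM
  have hd : IF M (fun z : (NData W × List Fs) × ((Cond W × Fs) × (Cond W × Fs)) => z.1.1) :=
    IF.comp IF.fst IF.fst
  have hs : IF M (fun z : (NData W × List Fs) × ((Cond W × Fs) × (Cond W × Fs)) => z.1.2) :=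
    IF.comp IF.snd IF.fst
  have hr : IF M (fun z : (NData W × List Fs) × ((Cond W × Fs) × (Cond W × Fs)) => z.2.1.1) :=
    IF.comp IF.fst (IF.comp IF.fst IF.snd)
  have hm : IF M (fun z : (NData W × List Fs) × ((Cond W × Fs) × (Cond W × Fs)) => z.2.1.2) :=
    IF.comp IF.snd (IF.comp IF.fst IF.snd)
  have hqu : IF M (fun z : (NData W × List Fs) × ((Cond W × Fs) × (Cond W × Fs)) => z.2.2) :=
    IF.comp IF.snd IF.snd
  have hem : IF M (fun z : (NData W × List Fs) × ((Cond W × Fs) × (Cond W × Fs)) =>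
      (Encodable.encode z.2.1.2 : ℕ)) :=
    IF.comp (g := fun m : Fs => (Encodable.encode m : ℕ)) CdP.enc hm
  exact In.and (In.pp (IF.const f) hr) (In.and (In.cle hr (IF.comp IF.fst hd))
    (In.and (In.ipre hm (IF.getDL hs (IF.const 0))) (In.and
      (In.le (IF.comp IF.fst (IF.comp IF.snd hd)) (IF.length hm)) (In.and
      (In.mem hqu (IF.const y)) (In.and (In.cle hr (IF.comp IF.fst hqu)) (In.and
      (In.lt hem (IF.length (IF.comp IF.snd hqu)))
      (In.eq (IF.getD (IF.comp IF.snd hqu) hem) (IF.const 1))))))))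

/-- the second part of `Dp` -/
def DpN (d : NData W) (s : List Fs) (r' : Cond W) (v : (W × ℕ) × Fs) : Prop :=
  v.1 ∈ d.2.2 → (v.1.1, v.2) ∈ r'.1 → (v.1.1, v.2) ∉ d.1.1 →
    ¬ v.2 <+: s.getD v.1.2 [] ∧ ¬ s.getD v.1.2 [] <+: v.2

theorem In.dpN : In M (fun z : ((NData W × List Fs) × Cond W) × ((W × ℕ) × Fs) =>
    DpN z.1.1.1 z.1.1.2 z.1.2 z.2) := by
  unfold DpN
  have hd : IF M (fun z : ((NData W × List Fs) × Cond W) × ((W × ℕ) × Fs) => z.1.1.1) :=
    IF.comp IF.fst (IF.comp IF.fst IF.fst)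
  have hs : IF M (fun z : ((NData W × List Fs) × Cond W) × ((W × ℕ) × Fs) => z.1.1.2) :=
    IF.comp IF.snd (IF.comp IF.fst IF.fst)
  have hr : IF M (fun z : ((NData W × List Fs) × Cond W) × ((W × ℕ) × Fs) => z.1.2) :=
    IF.comp IF.snd IF.fst
  have hx : IF M (fun z : ((NData W × List Fs) × Cond W) × ((W × ℕ) × Fs) => z.2.1) :=
    IF.comp IF.fst IF.snd
  have hv : IF M (fun z : ((NData W × List Fs) × Cond W) × ((W × ℕ) × Fs) => z.2.2) :=
    IF.comp IF.snd IF.snd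
  have hxm : IF M (fun z : ((NData W × List Fs) × Cond W) × ((W × ℕ) × Fs) =>
      (z.2.1.1, z.2.2)) := (IF.comp IF.fst hx).pair hv
  have hg : IF M (fun z : ((NData W × List Fs) × Cond W) × ((W × ℕ) × Fs) =>
      z.1.1.2.getD z.2.1.2 []) := IF.getDL hs (IF.comp IF.snd hx)
  exact In.imp (In.fmem hx (IF.comp IF.snd (IF.comp IF.snd hd))) (In.imp
    (In.fmem hxm (IF.comp IF.fst hr)) (In.imp (In.not (In.fmem hxm (IF.comp IF.fst
      (IF.comp IF.fst hd)))) (In.and (In.not (In.ipre hv hg))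
      (In.not (In.ipre hg hv)))))

theorem In.dp {f : Pl M W} {y : Nm M W} :
    In M (fun z : NData W × List Fs => Dp c f y z.1 z.2) := by
  have h1 : In M (fun z : (NData W × List Fs) × Cond W => ∀ v : (W × ℕ) × Fs,
      DpN z.1.1 z.1.2 z.2 v) :=
    In.all (P := fun (z : (NData W × List Fs) × Cond W) (v : (W × ℕ) × Fs) =>
      DpN z.1.1 z.1.2 z.2 v) In.dpN
  have h2 : In M (fun z : NData W × List Fs => ∃ w : (Cond W × Fs) × (Cond W × Fs),
      DpM c f y z.1 z.2 w ∧ ∀ v : (W × ℕ) × Fs, DpN z.1 z.2 w.1.1 v) := by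
    refine In.ex (P := fun (z : NData W × List Fs) (w : (Cond W × Fs) × (Cond W × Fs)) =>
      DpM c f y z.1 z.2 w ∧ ∀ v : (W × ℕ) × Fs, DpN z.1 z.2 w.1.1 v) (In.and In.dpM ?_)
    exact In.comp2 (P := fun (z : NData W × List Fs) (r : Cond W) => ∀ v : (W × ℕ) × Fs,
      DpN z.1 z.2 r v) h1 IF.fst (IF.comp IF.fst (IF.comp IF.fst IF.snd))
  refine h2.congr fun z => ?_
  constructor
  · rintro ⟨r', m, q', u, h3, h4⟩
    exact ⟨((r', m), (q', u)), h3, fun v => h4 v.1 v.2⟩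
  · rintro ⟨⟨⟨r', m⟩, ⟨q', u⟩⟩, h3, h4⟩
    exact ⟨r', m, q', u, h3, fun x m' => h4 (x, m')⟩

/-- A finite number of members of a generic filter have a common extension in the filter. -/
theorem Gen.finite_lower {f : Pl M W} {G : Set (Cond W)} (hG : Gen c f G) {I : Type*}
    (s : Finset I) (q : I → Cond W) (hq : ∀ i ∈ s, q i ∈ G) {p : Cond W} (hp : p ∈ G) :
    ∃ r ∈ G, CLe c r p ∧ ∀ i ∈ s, CLe c r (q i) := by
  classical
  induction s using Finset.induction_on with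
  | empty => exact ⟨p, hp, CLe.refl _, fun i hi => by simp at hi⟩
  | insert a s _ ih =>
    obtain ⟨r, hr, h1, h2⟩ := ih fun i hi => hq i (Finset.mem_insert_of_mem hi)
    obtain ⟨r', hr', h3, h4⟩ := hG.dir r hr (q a) (hq a (Finset.mem_insert_self _ _))
    refine ⟨r', hr', h3.trans h1, fun i hi => ?_⟩
    rcases Finset.mem_insert.1 hi with rfl | hi
    · exact h4
    · exact h3.trans (h2 i hi)

/-- adding finitely many promises -/
theorem addPromises {f : Pl M W} {p : Cond W} (hp : p ∈ PP c f) (F : Finset (W × W × Hc))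
    (hF : ∀ ν κ, (ν, κ) ∈ F → ∃ q t, (ν, q, t) ∈ f ∧ CLe c p q ∧ ∃ u ∈ κ.2.1, u <+: t) :
    (p.1, p.2 ∪ F) ∈ PP c f ∧ CLe c (p.1, p.2 ∪ F) p := by
  have hle : CLe c (p.1, p.2 ∪ F) p :=
    ⟨fun x hx => hx, fun x hx => Finset.mem_union_left _ hx, fun ν m hm hm' => absurd hm hm'⟩
  refine ⟨⟨hp.1, fun ν' κ' h => ?_⟩, hle⟩
  rcases Finset.mem_union.1 h with h3 | h3
  · obtain ⟨q', t', h4, h5, h6⟩ := hp.2 ν' κ' h3
    exact ⟨q', t', h4, hle.trans h5, h6⟩
  · obtain ⟨q', t', h4, h5, h6⟩ := hF ν' κ' h3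
    exact ⟨q', t', h4, hle.trans h5, h6⟩

theorem exists_len_bound (F : Finset (W × Fs)) : ∃ n, ∀ x ∈ F, x.2.length < n := by
  induction F using Finset.induction_on with
  | empty => exact ⟨0, fun x hx => by simp at hx⟩
  | insert a s _ ih =>
    obtain ⟨n, hn⟩ := ih
    refine ⟨max n (a.2.length + 1), fun x hx => ?_⟩
    rcases Finset.mem_insert.1 hx with rfl | hx
    · exact lt_of_lt_of_le (Nat.lt_succ_self _) (le_max_right _ _)
    · exact lt_of_lt_of_le (hn x hx) (le_max_left _ _)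

theorem ini_take {x : ℕ → ℕ} {t : Fs} (h : Pre x t) {k : ℕ} (hk : k ≤ t.length) :
    ini x k = t.take k := by
  have h1 : ini x k <+: t := (pre_ini x k).prefix_of_le h (by rw [ini_length]; exact hk)
  rw [List.prefix_iff_eq_take, ini_length] at h1
  exact h1

/-- An infinite set of initial segments of a real has long members. -/
theorem exists_long {A : Set Fs} {x : ℕ → ℕ} (h : ¬ (A ∩ {m | Pre x m}).Finite) (n : ℕ) :
    ∃ m ∈ A, Pre x m ∧ n ≤ m.length := by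
  by_contra hc
  push Not at hc
  refine h (Set.Finite.subset ((Finset.range n).finite_toSet.image (fun k => ini x k)) ?_)
  rintro m ⟨h1, h2⟩
  have h3 := hc m h1 h2
  exact ⟨m.length, by simpa using h3, h2⟩

/-- The density claim. -/
theorem dp_dense [Countable M] {f : Pl M W} (hf : Valid c f) {y z : Nm M W} (hy : IsNm c f y)
    (hz : IsNm c f z) {q : Cond W} (hq : q ∈ PP c f)
    (h : Fo c f q (fun G => Cod c (ev y G) (ev z G) ∧ ∀ ν ∈ f.dom, ev z G ≠ ev (f.nm ν) G))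
    {d : NData W} (hd1 : d.1 ∈ PP c f) (hd2 : CLe c d.1 q) {b : ℕ}
    (hd3 : ∀ x ∈ d.2.2, x.2 < b + 1 ∧ ∃ q' t', (x.1, q', t') ∈ f ∧ CLe c d.1 q') :
    DenseT (b + 1) {s | Dp c f y d s} := by
  classical
  intro s hs
  have hpre := (hL.out : Luz M W c).pre
  obtain ⟨ω₀⟩ : Nonempty W := Om1.ne M
  obtain ⟨r₀, N, E⟩ := d
  -- the coordinates
  set σ : ℕ → Fs := fun i => if i = 0 then s.getD 0 [] ++ List.replicate N 0 else s.getD i []
    with hσ
  have hσ0 : σ 0 = s.getD 0 [] ++ List.replicate N 0 := by simp [hσ]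
  have hσN : N ≤ (σ 0).length := by rw [hσ0]; simp
  have hσs : ∀ i, s.getD i [] <+: σ i := by
    intro i
    by_cases hi : i = 0
    · subst hi
      rw [hσ0]
      exact List.prefix_append _ _
    · have : σ i = s.getD i [] := by simp [hσ, hi]
      rw [this]
  let κ' : ℕ → W × Hc := fun i => (ω₀, ([[]], σ i))
  have hκ' : ∀ i, Pre (c (κ' i)) (σ i) := fun i => hpre _ _ _
  -- the condition r+
  obtain ⟨hp1, hp2⟩ := addPromises (c := c) hd1 (E.image fun x => (x.1, κ' x.2)) (by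
    intro ν κ hν
    obtain ⟨x, hx, h1⟩ := Finset.mem_image.1 hν
    simp only [Prod.mk.injEq] at h1
    obtain ⟨rfl, rfl⟩ := h1
    obtain ⟨q', t', h2, h3⟩ := (hd3 x hx).2
    exact ⟨q', t', h2, h3, [], by simp [κ'], List.nil_prefix⟩)
  set rp : Cond W := (r₀.1, r₀.2 ∪ E.image fun x => (x.1, κ' x.2)) with hrp
  have hrpE : ∀ x ∈ E, (x.1, κ' x.2) ∈ rp.2 := fun x hx =>
    Finset.mem_union_right _ (Finset.mem_image.2 ⟨x, hx, rfl⟩)
  obtain ⟨G₁, hG₁, hrpG⟩ := exists_gen hp1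
  have hqG₁ : q ∈ G₁ := hG₁.up rp hrpG q hq (hp2.trans hd2)
  obtain ⟨-, hne⟩ := h G₁ hG₁ hqG₁
  -- the nodes with the coordinate 0
  set e : Finset W := (E.filter (fun x => x.2 = 0)).image Prod.fst with he
  have he1 : ∀ η ∈ e, (η, 0) ∈ E := by
    intro η hη
    obtain ⟨x, hx, rfl⟩ := Finset.mem_image.1 hη
    obtain ⟨h1, h2⟩ := Finset.mem_filter.1 hx
    rw [← h2]
    exact h1
  have he2 : ∀ η, (η, 0) ∈ E → η ∈ e := fun η hη =>
    Finset.mem_image.2 ⟨(η, 0), Finset.mem_filter.2 ⟨hη, rfl⟩, rfl⟩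
  have hedom : ∀ η ∈ e, η ∈ f.dom := by
    intro η hη
    obtain ⟨q', t', h2, -⟩ := (hd3 _ (he1 η hη)).2
    exact ⟨q', t', h2⟩
  have hK : ∃ K, ∀ η ∈ e, ini (ev z G₁) K ≠ ini (ev (f.nm η) G₁) K := by
    have key : ∀ η ∈ e, ∃ K, ∀ K' ≥ K, ini (ev z G₁) K' ≠ ini (ev (f.nm η) G₁) K' := by
      intro η hη
      have h1 := hne η (hedom η hη)
      have h2 : ∃ i, ev z G₁ i ≠ ev (f.nm η) G₁ i := by
        by_contra h3
        push Not at h3
        exact h1 (funext h3)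
      obtain ⟨i, hi⟩ := h2
      refine ⟨i + 1, fun K' hK' h3 => hi ?_⟩
      have h4 := pre_getD.1 (pre_ini (ev z G₁) K') i (by rw [ini_length]; omega)
      have h5 := pre_getD.1 (pre_ini (ev (f.nm η) G₁) K') i (by rw [ini_length]; omega)
      rw [← h4, ← h5, h3]
    choose! K hK using key
    refine ⟨e.sup K, fun η hη => hK η hη _ (Finset.le_sup hη)⟩
  obtain ⟨K, hK⟩ := hK
  obtain ⟨qz, tz, hz1, hz2, hz3, hz4⟩ := ev_witness hG₁ hz K
  have hwit : ∀ η ∈ e, ∃ q' t', (η, q', t') ∈ f ∧ q' ∈ G₁ ∧ K ≤ t'.length ∧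
      Pre (ev (f.nm η) G₁) t' := by
    intro η hη
    obtain ⟨q', t', h1, h2, h3, h4⟩ := ev_witness hG₁ (hf.nm η (hedom η hη)) K
    exact ⟨q', t', Pl.mem_nm.1 h1, h2, h3, h4⟩
  choose! qe te hqe1 hqe2 hqe3 hqe4 using hwit
  obtain ⟨r₁', hr₁', hr₁p, hr₁e⟩ := hG₁.finite_lower e qe hqe2 hrpG
  obtain ⟨r₁, hr₁, hr₁a, hr₁z⟩ := hG₁.dir r₁' hr₁' qz hz2
  have hr₁P := hG₁.sub r₁ hr₁
  obtain ⟨n₁, hn₁⟩ := exists_len_bound r₁.1
  set l : ℕ := n₁ + (σ 0).length with hl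
  let L : List Fs := e.toList.map (fun η => ini (ev (f.nm η) G₁) K)
  let κ'' : W × Hc := (ω₀, (L, ini (c (κ' 0)) l))
  have hκ'' : Pre (c κ'') (ini (c (κ' 0)) l) := hpre _ _ _
  obtain ⟨hp3, hp4⟩ := addPromises (c := c) hr₁P (e.image fun η => (η, κ'')) (by
    intro ν κ hν
    obtain ⟨η, hη, h1⟩ := Finset.mem_image.1 hν
    simp only [Prod.mk.injEq] at h1
    obtain ⟨rfl, rfl⟩ := h1
    refine ⟨qe η, te η, hqe1 η hη, hr₁a.trans (hr₁e η hη), ini (ev (f.nm η) G₁) K, ?_, ?_⟩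
    · exact List.mem_map.2 ⟨η, Finset.mem_toList.2 hη, rfl⟩
    · refine (pre_ini _ _).prefix_of_le (hqe4 η hη) ?_
      rw [ini_length]
      exact hqe3 η hη)
  set r₂ : Cond W := (r₁.1, r₁.2 ∪ e.image fun η => (η, κ'')) with hr₂
  have hr₂e : ∀ η ∈ e, (η, κ'') ∈ r₂.2 := fun η hη =>
    Finset.mem_union_right _ (Finset.mem_image.2 ⟨η, hη, rfl⟩)
  obtain ⟨G₂, hG₂, hr₂G⟩ := exists_gen hp3
  have hr₂rp : CLe c r₂ rp := hp4.trans (hr₁a.trans hr₁p)
  have hqG₂ : q ∈ G₂ := hG₂.up r₂ hr₂G q hq (hr₂rp.trans (hp2.trans hd2))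
  obtain ⟨hcod, -⟩ := h G₂ hG₂ hqG₂
  have hqzG₂ : qz ∈ G₂ := hG₂.up r₂ hr₂G qz (hz.sub _ _ hz1) (hp4.trans hr₁z)
  have hclo : ¬ Clo κ''.2 (ev z G₂) := by
    rintro ⟨u, hu, hu2⟩
    obtain ⟨η, hη, rfl⟩ := List.mem_map.1 hu
    have hη' := Finset.mem_toList.1 hη
    have h1 : Pre (ev z G₂) tz := ev_pre hG₂ hz hz1 hqzG₂
    have h2 : ini (ev z G₂) K = ini (ev z G₁) K := by
      rw [ini_take h1 hz3, ini_take hz4 hz3]
    have h3 : ini (ev z G₂) K = ini (ev (f.nm η) G₁) K := by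
      have h4 : ini (ev z G₂) (ini (ev (f.nm η) G₁) K).length = ini (ev (f.nm η) G₁) K := hu2
      rwa [ini_length] at h4
    exact hK η hη' (h2.symm.trans h3)
  obtain ⟨m, hm1, hm2, hm3⟩ := exists_long (fun h' => hclo ((hcod κ'').1 h')) l
  obtain ⟨q₃, u₃, hu1, hu2, hu3, hu4⟩ := ev_witness hG₂ hy (Encodable.encode m + 1)
  obtain ⟨r₃, hr₃, hr₃a, hr₃q⟩ := hG₂.dir r₂ hr₂G q₃ hu2
  obtain ⟨n₃, hn₃⟩ := exists_len_bound r₃.1
  obtain ⟨n₄, hn₄⟩ : ∃ n₄, ∀ i < b + 1, (σ i).length ≤ n₄ :=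
    ⟨(Finset.range (b + 1)).sup (fun i => (σ i).length), fun i hi =>
      Finset.le_sup (f := fun i => (σ i).length) (Finset.mem_range.2 hi)⟩
  set l' : ℕ := n₃ + n₄ + m.length + l + 1 with hl'
  let τ : ℕ → Fs := fun i => if i = 0 then ini (c κ'') l' else ini (c (κ' i)) l'
  have hτlen : ∀ i, (τ i).length = l' := by
    intro i
    by_cases hi : i = 0
    · simp only [τ, hi, if_true, ini_length]
    · simp only [τ, hi, if_false, ini_length]
  let ts : List Fs := (List.range (b + 1)).map τ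
  have hts : ∀ i < b + 1, ts.getD i [] = τ i := by
    intro i hi
    have : i < ts.length := by simp [ts, hi]
    rw [List.getD_eq_getElem _ _ this]
    simp [ts]
  refine ⟨ts, ⟨r₃, m, q₃, u₃, ⟨hG₂.sub r₃ hr₃, ?_, ?_, ?_, hu1, hr₃q, ?_, ?_⟩, ?_⟩, ?_⟩
  · exact hr₃a.trans (hr₂rp.trans hp2)
  · rw [hts 0 (by omega)]
    show m <+: τ 0
    have : τ 0 = ini (c κ'') l' := by simp [τ]
    rw [this]
    refine hm2.prefix_of_le (pre_ini _ _) ?_
    rw [ini_length]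
    omega
  · show N ≤ m.length
    omega
  · omega
  · have h1 := pre_getD.1 hu4 (Encodable.encode m) (by omega)
    rw [h1]
    exact hm1
  · intro x m' hx h1 h2
    have hxb := (hd3 x hx).1
    rw [hts x.2 hxb]
    have hlen : m'.length < n₃ := hn₃ _ h1
    refine ⟨fun h3 => ?_, fun h3 => ?_⟩
    · by_cases hx0 : x.2 = 0
      · have hx' : (x.1, 0) ∈ E := by rw [← hx0]; exact hx
        have h4 : τ x.2 = ini (c κ'') l' := by simp [τ, hx0]
        rw [h4] at h3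
        have h5 : Pre (c κ'') m' := (pre_ini _ _).of_prefix h3
        by_cases h6 : (x.1, m') ∈ r₂.1
        · have h7 : m'.length < n₁ := hn₁ _ h6
          have h8 : m' <+: ini (c (κ' 0)) l := h5.prefix_of_le hκ'' (by rw [ini_length]; omega)
          have h9 : Pre (c (κ' 0)) m' := (pre_ini _ _).of_prefix h8
          have h10 := hrpE _ hx'
          exact hr₂rp.2.2 x.1 m' h6 h2 _ h10 h9
        · exact hr₃a.2.2 x.1 m' h1 h6 _ (hr₂e _ (he2 _ hx')) h5
      · have h4 : τ x.2 = ini (c (κ' x.2)) l' := by simp [τ, hx0]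
        rw [h4] at h3
        have h5 : Pre (c (κ' x.2)) m' := (pre_ini _ _).of_prefix h3
        exact (hr₃a.trans hr₂rp).2.2 x.1 m' h1 h2 _ (hrpE x hx) h5
    · have h4 := h3.length_le
      rw [hτlen] at h4
      omega
  · rw [List.forall₂_iff_get]
    refine ⟨by simp [ts, hs], fun i h1 h2 => ?_⟩
    have hib : i < b + 1 := by rw [← hs]; exact h1
    have e1 : s.get ⟨i, h1⟩ = s.getD i [] := by
      rw [List.getD_eq_getElem _ _ h1]; rfl
    have e2 : ts.get ⟨i, h2⟩ = τ i := by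
      rw [← hts i hib, List.getD_eq_getElem _ _ h2]; rfl
    rw [e1, e2]
    refine (hσs i).trans ?_
    have h3 := hn₄ i hib
    by_cases hi : i = 0
    · subst hi
      have h4 : τ 0 = ini (c κ'') l' := by simp [τ]
      rw [h4]
      have h5 : σ 0 <+: ini (c (κ' 0)) l := (hκ' 0).prefix_of_le (pre_ini _ _) (by
        rw [ini_length]; omega)
      refine h5.trans (hκ''.prefix_of_le (pre_ini _ _) ?_)
      rw [ini_length, ini_length]
      omega
    · have h4 : τ i = ini (c (κ' i)) l' := by simp [τ, hi]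
      rw [h4]
      refine (hκ' i).prefix_of_le (pre_ini _ _) ?_
      rw [ini_length]
      omega

end Pool.Agent.H.MP_a163f2_lc
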