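import Pool.Agent.H.MP_a163f2_lc.R.Gen
import Pool.Agent.H.MP_a163f2_lc.R.Ct

/-!
# Block R1: internal permutations of the tags (1.5)
-/

set_option autoImplicit false
set_option linter.unusedSectionVars false

namespace Pool.Agent.H.MP_a163f2_lc

open Pool.Agent.H.MP_07d118_lc

universe u v w x

variable {M : Type u} [SetStr M] [ZFC M] [Std M] {W : Type v} [LinearOrder W] [Cd M W] [Om1 M W]
variable {c : W × Hc → ℕ → ℕ} [hL : Fact (Luz M W c)]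

/-- the action of a permutation of the tags on conditions -/
def pmC (π : Equiv.Perm W) (p : Cond W) : Cond W :=
  (p.1.image (fun x => (π x.1, x.2)), p.2.image (fun x => (π x.1, x.2)))

theorem mem_pmC1 {π : Equiv.Perm W} {p : Cond W} {x : W × Fs} :
    x ∈ (pmC π p).1 ↔ (π.symm x.1, x.2) ∈ p.1 := by
  unfold pmC
  rw [Finset.mem_image]
  constructor
  · rintro ⟨y, hy, rfl⟩
    simpa using hy
  · intro h
    exact ⟨_, h, by simp⟩

theorem mem_pmC2 {π : Equiv.Perm W} {p : Cond W} {x : W × W × Hc} :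
    x ∈ (pmC π p).2 ↔ (π.symm x.1, x.2) ∈ p.2 := by
  unfold pmC
  rw [Finset.mem_image]
  constructor
  · rintro ⟨y, hy, rfl⟩
    simpa using hy
  · intro h
    exact ⟨_, h, by simp⟩

theorem pmC_symm (π : Equiv.Perm W) (p : Cond W) : pmC π.symm (pmC π p) = p := by
  refine Prod.ext (Finset.ext fun x => ?_) (Finset.ext fun x => ?_)
  · rw [mem_pmC1, mem_pmC1, Equiv.symm_symm, Equiv.symm_apply_apply]
  · rw [mem_pmC2, mem_pmC2, Equiv.symm_symm, Equiv.symm_apply_apply]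

theorem pmC_symm' (π : Equiv.Perm W) (p : Cond W) : pmC π (pmC π.symm p) = p := by
  have h := pmC_symm π.symm p
  rwa [Equiv.symm_symm] at h

theorem IF.pmC {T : Type w} [Cd M T] {π : Equiv.Perm W} (hπ : IF M π) {p : T → Cond W}
    (hp : IF M p) : IF M (fun t => MP_a163f2_lc.pmC π (p t)) := by
  unfold MP_a163f2_lc.pmC
  exact IF.pair
    (IF.fimage (F := fun _ x => (π x.1, x.2)) (IF.comp IF.fst hp)
      ((IF.comp hπ (IF.comp IF.fst IF.snd)).pair (IF.comp IF.snd IF.snd)))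
    (IF.fimage (F := fun _ x => (π x.1, x.2)) (IF.comp IF.snd hp)
      ((IF.comp hπ (IF.comp IF.fst IF.snd)).pair (IF.comp IF.snd IF.snd)))

theorem IF.symm {π : Equiv.Perm W} (hπ : IF M π) : IF M π.symm := by
  refine IF.of_in ((In.eq (IF.comp hπ IF.snd) IF.fst).congr fun y => ?_)
  rw [Equiv.symm_apply_eq, eq_comm]

/-- the action on names -/
noncomputable def pmN (π : Equiv.Perm W) (hπ : IF M π) (x : Nm M W) : Nm M W :=
  ISet.mk (P := fun y : Cond W × Fs => (MP_a163f2_lc.pmC π.symm y.1, y.2) ∈ x)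
    (In.mem ((IF.pmC (IF.symm hπ) IF.fst).pair IF.snd) (IF.const x))

/-- the action on plans -/
noncomputable def pmP (π : Equiv.Perm W) (hπ : IF M π) (f : Pl M W) : Pl M W :=
  ISet.mk (P := fun y : W × Cond W × Fs => (π.symm y.1, MP_a163f2_lc.pmC π.symm y.2.1, y.2.2) ∈ f)
    (In.mem ((IF.comp (IF.symm hπ) IF.fst).pair ((IF.pmC (IF.symm hπ)
      (IF.comp IF.fst IF.snd)).pair (IF.comp IF.snd IF.snd))) (IF.const f))

theorem perm_le_aux (π : Equiv.Perm W) {p q : Cond W} (h : CLe c p q) :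
    CLe c (pmC π p) (pmC π q) := by
  refine ⟨fun x hx => mem_pmC1.2 (h.1 (mem_pmC1.1 hx)),
    fun x hx => mem_pmC2.2 (h.2.1 (mem_pmC2.1 hx)), fun ν m h1 h2 κ h3 => ?_⟩
  exact h.2.2 _ _ (mem_pmC1.1 h1) (fun h4 => h2 (mem_pmC1.2 h4)) κ (mem_pmC2.1 h3)

theorem perm_mem_pmP {π : Equiv.Perm W} {hπ : IF M π} {f : Pl M W} {ν : W} {q : Cond W}
    {t : Fs} : (ν, q, t) ∈ pmP π hπ f ↔ (π.symm ν, MP_a163f2_lc.pmC π.symm q, t) ∈ f := Iff.rfl

theorem perm_mem_pmN {π : Equiv.Perm W} {hπ : IF M π} {x : Nm M W} {q : Cond W}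
    {t : Fs} : (q, t) ∈ pmN π hπ x ↔ (MP_a163f2_lc.pmC π.symm q, t) ∈ x := Iff.rfl

theorem perm_bdd {π : Equiv.Perm W} (hπ : IF M π) (ζ : W) : ∃ ζ' : W,
    (∀ ν, π.symm ν < ζ → ν < ζ') ∧ ∀ q : Cond W, Bd ζ (MP_a163f2_lc.pmC π.symm q) → Bd ζ' q := by
  obtain ⟨ζ₁, h1⟩ := ICt.bdd (ICt.below (M := M) ζ) (In.ltW IF.id (IF.const ζ)) hπ
  have h2 : ∀ ν, π.symm ν < ζ → ν < max ζ ζ₁ := by
    intro ν hν
    have h3 := h1 _ hν
    rw [Equiv.apply_symm_apply] at h3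
    exact h3.trans_le (le_max_right _ _)
  refine ⟨max ζ ζ₁, h2, fun q hq => ⟨fun ν m hm => h2 ν ?_, fun ν ξ h hm => ?_⟩⟩
  · refine hq.1 (π.symm ν) m (mem_pmC1.2 ?_)
    rwa [Equiv.symm_symm, Equiv.apply_symm_apply]
  · have h3 := hq.2 (π.symm ν) ξ h (mem_pmC2.2 (by
      rwa [Equiv.symm_symm, Equiv.apply_symm_apply]))
    exact ⟨h2 ν h3.1, h3.2.trans_le (le_max_left _ _)⟩

theorem pmC_le {π : Equiv.Perm W} {p q : Cond W} : CLe c (pmC π p) (pmC π q) ↔ CLe c p q := by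
  refine ⟨fun h => ?_, perm_le_aux π⟩
  have h1 := perm_le_aux π.symm h
  rwa [pmC_symm, pmC_symm] at h1

theorem pmP_dom {π : Equiv.Perm W} {hπ : IF M π} {f : Pl M W} :
    (pmP π hπ f).dom = π '' f.dom := by
  ext ν
  constructor
  · rintro ⟨q, t, h⟩
    exact ⟨π.symm ν, ⟨_, t, perm_mem_pmP.1 h⟩, π.apply_symm_apply ν⟩
  · rintro ⟨μ, ⟨q, t, h⟩, rfl⟩
    exact ⟨pmC π q, t, perm_mem_pmP.2 (by rwa [Equiv.symm_apply_apply, pmC_symm])⟩

theorem pmP_nm {π : Equiv.Perm W} {hπ : IF M π} {f : Pl M W} (ν : W) :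
    (pmP π hπ f).nm (π ν) = pmN π hπ (f.nm ν) := by
  refine ISet.ext fun y => ?_
  show (π.symm (π ν), MP_a163f2_lc.pmC π.symm y.1, y.2) ∈ f ↔
    (ν, MP_a163f2_lc.pmC π.symm y.1, y.2) ∈ f
  rw [Equiv.symm_apply_apply]

theorem pmC_PP {π : Equiv.Perm W} {hπ : IF M π} {f : Pl M W} {p : Cond W} :
    pmC π p ∈ PP c (pmP π hπ f) ↔ p ∈ PP c f := by
  constructor
  · rintro ⟨h1, h2⟩
    refine ⟨fun ν m hm => ?_, fun ν κ hκ => ?_⟩
    · have h3 : (π ν, m) ∈ (pmC π p).1 := mem_pmC1.2 (by rwa [Equiv.symm_apply_apply])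
      have h4 := h1 _ _ h3
      rw [pmP_dom] at h4
      obtain ⟨μ, hμ, e⟩ := h4
      rwa [← π.injective e]
    · have h3 : (π ν, κ) ∈ (pmC π p).2 := mem_pmC2.2 (by rwa [Equiv.symm_apply_apply])
      obtain ⟨q, t, h4, h5, h6⟩ := h2 _ _ h3
      refine ⟨pmC π.symm q, t, ?_, ?_, h6⟩
      · have h7 := perm_mem_pmP.1 h4
        rwa [Equiv.symm_apply_apply] at h7
      · rw [← pmC_le (π := π), pmC_symm']
        exact h5
  · rintro ⟨h1, h2⟩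
    refine ⟨fun ν m hm => ?_, fun ν κ hκ => ?_⟩
    · rw [pmP_dom]
      exact ⟨_, h1 _ _ (mem_pmC1.1 hm), π.apply_symm_apply ν⟩
    · obtain ⟨q, t, h4, h5, h6⟩ := h2 _ _ (mem_pmC2.1 hκ)
      refine ⟨pmC π q, t, perm_mem_pmP.2 ?_, pmC_le.2 h5, h6⟩
      rwa [pmC_symm]

theorem pmN_IsNm {π : Equiv.Perm W} {hπ : IF M π} {f : Pl M W} {x : Nm M W} (hx : IsNm c f x) :
    IsNm c (pmP π hπ f) (pmN π hπ x) := by
  refine ⟨fun q t h => ?_, fun q t q' t' h h' r hr h1 h2 => ?_, fun n p hp => ?_, ?_⟩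
  · have h1 := hx.sub _ _ (perm_mem_pmN.1 h)
    rw [← pmC_PP (hπ := hπ), pmC_symm'] at h1
    exact h1
  · refine hx.cons _ _ _ _ (perm_mem_pmN.1 h) (perm_mem_pmN.1 h') (pmC π.symm r) ?_ ?_ ?_
    · rw [← pmC_PP (hπ := hπ), pmC_symm']
      exact hr
    · exact pmC_le.2 h1
    · exact pmC_le.2 h2
  · have h1 : pmC π.symm p ∈ PP c f := by
      rw [← pmC_PP (hπ := hπ), pmC_symm']
      exact hp
    obtain ⟨r, hr, h2, q, t, h3, h4, h5⟩ := hx.tot n _ h1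
    refine ⟨pmC π r, pmC_PP.2 hr, ?_, pmC π q, t, perm_mem_pmN.2 ?_, pmC_le.2 h4, h5⟩
    · rw [← pmC_le (π := π), pmC_symm'] at h2
      exact h2
    · rwa [pmC_symm]
  · obtain ⟨ζ, hζ⟩ := hx.bdd
    obtain ⟨ζ', h1, h2⟩ := perm_bdd hπ ζ
    exact ⟨ζ', fun q t h => h2 q (hζ _ _ (perm_mem_pmN.1 h))⟩

theorem pmP_Valid {π : Equiv.Perm W} {hπ : IF M π} {f : Pl M W} (hf : Valid c f) :
    Valid c (pmP π hπ f) := by
  constructor
  · obtain ⟨ζ, hζ⟩ := hf.bdd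
    obtain ⟨ζ', h1, h2⟩ := perm_bdd hπ ζ
    refine ⟨ζ', fun ν q t h => ?_⟩
    have h3 := hζ _ _ _ (perm_mem_pmP.1 h)
    exact ⟨h1 ν h3.1, h2 q h3.2⟩
  · intro ν hν
    rw [pmP_dom] at hν
    obtain ⟨μ, hμ, rfl⟩ := hν
    rw [pmP_nm]
    exact pmN_IsNm (hf.nm μ hμ)

theorem pmP_Sb {π : Equiv.Perm W} {hπ : IF M π} {f g : Pl M W} (h : Sb f g) :
    Sb (pmP π hπ f) (pmP π hπ g) := by
  refine ⟨fun x hx => h.1 _ hx, fun ν q t hν hm => ?_⟩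
  rw [pmP_dom] at hν
  obtain ⟨μ, hμ, rfl⟩ := hν
  refine perm_mem_pmP.2 (h.2 _ _ _ ?_ (perm_mem_pmP.1 hm))
  rwa [Equiv.symm_apply_apply]

end Pool.Agent.H.MP_a163f2_lc
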